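import Mathlib
import Pool.Agent.H410R2.MSieve3

/-! Coloured Maynard-Tao: replacing the weights in one coordinate when the corresponding form has
no prime factor among the sieving primes. -/

namespace Pool.Agent.H362R2.CM

open Finset
open Pool.Agent.H410R2

section pa
variable {ι J : Type} [Fintype ι] [DecidableEq ι] [Fintype J] [DecidableEq J]

/-- sum over the colour `j` -/
noncomputable def YY (j : J) (pr : ι → ℕ) (y : (ι → Option J) → ℝ) (ρ : ι → Option J) : ℝ :=
  ∑ τ : ι → Option J, y τ * ∏ t, psiL j (pr t) (τ t) (ρ t)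

/-- erase the colour `j` -/
def era (j : J) (σ : ι → Option J) (t : ι) : Option J := if σ t = some j then none else σ t

/-- the modified weights -/
noncomputable def ymod (j : J) (pr : ι → ℕ) (u y : (ι → Option J) → ℝ) (σ : ι → Option J) : ℝ :=
  YY j pr y (era j σ) / YY j pr u (era j σ) * u σ

theorem era_ne (j : J) (σ : ι → Option J) (t : ι) : era j σ t ≠ some j := by
  unfold era
  split_ifs with h
  · simp
  · exact h

theorem local_sum (i j : J) (hij : j ≠ i) (L : J → ℕ → ℕ) (p n : ℕ) (hp : 2 ≤ p)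
    (hn : ¬ p ∣ L j n) (u : Option J) :
    ∑ v ∈ univ.filter (fun v : Option J => v ≠ some j), cf p v * hlI i L p n v * psiL j p u v =
      cf p u * hlI i L p n u := by
  have hp1 : (p : ℝ) - 1 ≠ 0 := by
    have : (2 : ℝ) ≤ p := by exact_mod_cast hp
    linarith
  rw [Finset.sum_filter, Fintype.sum_option]
  rcases u with _ | l
  · simp [psiL, cf, hlI]
  · by_cases hl : l = j
    · subst hl
      have h1 : ∑ x : J, (if some x ≠ some l then cf p (some x) * hlI i L p n (some x) *
          psiL l p (some l) (some x) else 0) = 0 := by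
        apply Finset.sum_eq_zero
        intro x _
        by_cases hx : x = l
        · simp [hx]
        · have : ¬ l = x := fun h => hx h.symm
          simp [psiL, this]
      rw [h1]
      simp [cf, hlI, psiL, hij, hn]
    · have h1 : ∑ x : J, (if some x ≠ some j then cf p (some x) * hlI i L p n (some x) *
          psiL j p (some l) (some x) else 0) = cf p (some l) * hlI i L p n (some l) := by
        rw [Finset.sum_eq_single l]
        · simp [psiL, hl]
        · intro x _ hx
          have : ¬ l = x := fun h => hx h.symm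
          simp [psiL, this]
        · intro h; exact absurd (Finset.mem_univ l) h
      rw [h1]
      simp [psiL, hl]

theorem sum_avoid (j : J) (f : ι → Option J → ℝ) :
    ∑ ρ ∈ univ.filter (fun ρ : ι → Option J => ∀ t, ρ t ≠ some j), ∏ t, f t (ρ t) =
      ∏ t, ∑ v ∈ univ.filter (fun v : Option J => v ≠ some j), f t v := by
  rw [Finset.prod_univ_sum]
  apply Finset.sum_congr _ (fun _ _ => rfl)
  ext ρ
  simp [Fintype.mem_piFinset]

/-- the weight only depends on the sums over the colour `j` -/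
theorem sum_eq_YY (i j : J) (hij : j ≠ i) (pr : ι → ℕ) (hp : ∀ t, 2 ≤ pr t) (L : J → ℕ → ℕ)
    (n : ℕ) (hn : ∀ t, ¬ pr t ∣ L j n) (y : (ι → Option J) → ℝ) :
    ∑ σ, cw pr y σ * hNI i L pr σ n =
      ∑ ρ ∈ univ.filter (fun ρ : ι → Option J => ∀ t, ρ t ≠ some j),
        (∏ t, cf (pr t) (ρ t) * hlI i L (pr t) n (ρ t)) * YY j pr y ρ := by
  have h1 : ∑ ρ ∈ univ.filter (fun ρ : ι → Option J => ∀ t, ρ t ≠ some j),
        (∏ t, cf (pr t) (ρ t) * hlI i L (pr t) n (ρ t)) * YY j pr y ρ =
      ∑ τ : ι → Option J, y τ * ∑ ρ ∈ univ.filter (fun ρ : ι → Option J => ∀ t, ρ t ≠ some j),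
        ∏ t, (cf (pr t) (ρ t) * hlI i L (pr t) n (ρ t) * psiL j (pr t) (τ t) (ρ t)) := by
    unfold YY
    simp_rw [Finset.mul_sum]
    rw [Finset.sum_comm]
    refine Finset.sum_congr rfl fun τ _ => Finset.sum_congr rfl fun ρ _ => ?_
    rw [Finset.prod_mul_distrib (f := fun t => cf (pr t) (ρ t) * hlI i L (pr t) n (ρ t))]
    ring
  rw [h1]
  refine Finset.sum_congr rfl fun τ _ => ?_
  rw [sum_avoid j (fun t v => cf (pr t) v * hlI i L (pr t) n v * psiL j (pr t) (τ t) v)]
  rw [Finset.prod_congr rfl fun t _ => local_sum i j hij L (pr t) n (hp t) (hn t) (τ t)]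
  unfold cw hNI
  rw [Finset.prod_mul_distrib]
  ring

theorem psi_supp (j : J) (pr : ι → ℕ) (τ ρ : ι → Option J) (hρ : ∀ t, ρ t ≠ some j)
    (h : ∏ t, psiL j (pr t) (τ t) (ρ t) ≠ 0) : era j τ = ρ := by
  funext t
  have ht : psiL j (pr t) (τ t) (ρ t) ≠ 0 := fun h0 => h (Finset.prod_eq_zero (Finset.mem_univ t) h0)
  unfold era
  rcases hs : ρ t with _ | l
  · rw [hs] at ht
    rcases hv : τ t with _ | m
    · simp
    · rw [hv] at ht
      have : m = j := by
        by_contra hm
        apply ht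
        simp [psiL, hm]
      simp [this]
  · rw [hs] at ht
    have hv : τ t = some l := by
      by_contra hm
      apply ht
      simp [psiL, hm]
    rw [hv, if_neg]
    rw [← hs]
    exact hρ t

theorem YY_ymod (j : J) (pr : ι → ℕ) (u y : (ι → Option J) → ℝ) (ρ : ι → Option J)
    (hρ : ∀ t, ρ t ≠ some j) (hu : YY j pr u ρ ≠ 0) : YY j pr (ymod j pr u y) ρ = YY j pr y ρ := by
  have h1 : ∀ τ : ι → Option J, ymod j pr u y τ * ∏ t, psiL j (pr t) (τ t) (ρ t) =
      (YY j pr y ρ / YY j pr u ρ) * (u τ * ∏ t, psiL j (pr t) (τ t) (ρ t)) := by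
    intro τ
    by_cases h : ∏ t, psiL j (pr t) (τ t) (ρ t) = 0
    · rw [h]; ring
    · unfold ymod
      rw [psi_supp j pr τ ρ hρ h]
      ring
  have h2 : YY j pr (ymod j pr u y) ρ = (YY j pr y ρ / YY j pr u ρ) * YY j pr u ρ := by
    conv_lhs => unfold YY
    rw [Finset.sum_congr rfl fun τ _ => h1 τ, ← Finset.mul_sum]
    rfl
  rw [h2]
  field_simp

theorem YY_nonneg (j : J) (pr : ι → ℕ) (hp : ∀ t, 2 ≤ pr t) (u : (ι → Option J) → ℝ)
    (hu : ∀ σ, 0 ≤ u σ) (ρ : ι → Option J) : 0 ≤ YY j pr u ρ :=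
  Finset.sum_nonneg fun τ _ => mul_nonneg (hu τ)
    (Finset.prod_nonneg fun t _ => psiL_nonneg j (pr t) (hp t) _ _)

theorem le_YY (j : J) (pr : ι → ℕ) (hp : ∀ t, 2 ≤ pr t) (u : (ι → Option J) → ℝ)
    (hu : ∀ σ, 0 ≤ u σ) (ρ : ι → Option J) : u ρ ≤ YY j pr u ρ := by
  have h1 : ∏ t, psiL j (pr t) (ρ t) (ρ t) = 1 := by
    apply Finset.prod_eq_one
    intro t _
    rcases ρ t with _ | l
    · rfl
    · simp [psiL]
  calc u ρ = u ρ * ∏ t, psiL j (pr t) (ρ t) (ρ t) := by rw [h1, mul_one]
    _ ≤ YY j pr u ρ := Finset.single_le_sum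
        (f := fun τ : ι → Option J => u τ * ∏ t, psiL j (pr t) (τ t) (ρ t))
        (fun τ _ => mul_nonneg (hu τ)
          (Finset.prod_nonneg fun t _ => psiL_nonneg j (pr t) (hp t) _ _)) (Finset.mem_univ ρ)

/-- the two weights agree when `L j n` is free of sieving primes -/
theorem sum_ymod (i j : J) (hij : j ≠ i) (pr : ι → ℕ) (hp : ∀ t, 2 ≤ pr t) (L : J → ℕ → ℕ)
    (n : ℕ) (hn : ∀ t, ¬ pr t ∣ L j n) (u y : (ι → Option J) → ℝ)
    (hu : ∀ ρ : ι → Option J, (∀ t, ρ t ≠ some j) → YY j pr u ρ ≠ 0) :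
    ∑ σ, cw pr (ymod j pr u y) σ * hNI i L pr σ n = ∑ σ, cw pr y σ * hNI i L pr σ n := by
  rw [sum_eq_YY i j hij pr hp L n hn, sum_eq_YY i j hij pr hp L n hn]
  refine Finset.sum_congr rfl fun ρ hρ => ?_
  have h := (Finset.mem_filter.1 hρ).2
  rw [YY_ymod j pr u y ρ h (hu ρ h)]

/-- sums of products of local factors times a function of one fibre -/
theorem fib_le (w : ι → Option J → ℝ) (hw : ∀ t v, 0 ≤ w t v) (i : J) (G : Finset ι → ℝ)
    (hG : ∀ a, 0 ≤ G a) (A B : ι → ℝ) (hA : ∀ t, w t (some i) ≤ A t)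
    (hB : ∀ t, ∑ v ∈ univ.filter (fun v : Option J => v ≠ some i), w t v ≤ B t)
    (hB1 : ∀ t, 1 ≤ B t) :
    ∑ τ : ι → Option J, (∏ t, w t (τ t)) * G (fib τ i) ≤
      (∏ t, B t) * ∑ a : Finset ι, G a * ∏ t ∈ a, A t := by
  have hA0 : ∀ t, 0 ≤ A t := fun t => (hw t _).trans (hA t)
  have hB0 : ∀ t, 0 ≤ B t := fun t => zero_le_one.trans (hB1 t)
  calc ∑ τ : ι → Option J, (∏ t, w t (τ t)) * G (fib τ i)
      = ∑ a : Finset ι, ∑ τ ∈ univ.filter (fun τ : ι → Option J => fib τ i = a),
          (∏ t, w t (τ t)) * G (fib τ i) := by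
        rw [Finset.sum_fiberwise]
    _ = ∑ a : Finset ι, G a * ∏ t, ∑ v ∈ univ.filter (fun v : Option J => v = some i ↔ t ∈ a),
          w t v := by
        refine Finset.sum_congr rfl fun a _ => ?_
        rw [Finset.prod_univ_sum, Finset.mul_sum]
        have hset : univ.filter (fun τ : ι → Option J => fib τ i = a) =
            Fintype.piFinset fun t => univ.filter (fun v : Option J => v = some i ↔ t ∈ a) := by
          ext τ
          simp only [Finset.mem_filter, Finset.mem_univ, true_and, Fintype.mem_piFinset]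
          constructor
          · intro h t
            rw [← h, mem_fib]
          · intro h
            ext t
            rw [mem_fib]
            exact h t
        rw [hset]
        refine Finset.sum_congr rfl fun τ hτ => ?_
        have : fib τ i = a := by
          rw [← hset] at hτ
          exact (Finset.mem_filter.1 hτ).2
        rw [this]
        ring
    _ ≤ ∑ a : Finset ι, G a * ((∏ t, B t) * ∏ t ∈ a, A t) := by
        apply Finset.sum_le_sum
        intro a _
        apply mul_le_mul_of_nonneg_left _ (hG a)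
        have e1 : (∏ t ∈ a, A t) = ∏ t, if t ∈ a then A t else 1 := by
          rw [Finset.prod_ite_mem, Finset.univ_inter]
        rw [e1, ← Finset.prod_mul_distrib]
        apply Finset.prod_le_prod
        · intro t _
          exact Finset.sum_nonneg fun v _ => hw t v
        · intro t _
          by_cases ht : t ∈ a
          · rw [if_pos ht]
            have : univ.filter (fun v : Option J => v = some i ↔ t ∈ a) = {some i} := by
              ext v; simp [ht]
            rw [this, Finset.sum_singleton]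
            have h1 := hA t
            have h2 := hB1 t
            have h3 := hA0 t
            nlinarith
          · rw [if_neg ht, mul_one]
            have : univ.filter (fun v : Option J => v = some i ↔ t ∈ a) =
                univ.filter (fun v : Option J => v ≠ some i) := by
              ext v; simp [ht]
            rw [this]
            exact hB t
    _ = _ := by
        rw [Finset.mul_sum]
        exact Finset.sum_congr rfl fun a _ => by ring

theorem YY_le (j : J) (pr : ι → ℕ) (hp : ∀ t, 2 ≤ pr t) (y : (ι → Option J) → ℝ)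
    (GG : J → Finset ι → ℝ) (hGG : ∀ l a, 0 ≤ GG l a)
    (hy : ∀ τ, y τ ≤ ∏ l, GG l (fib τ l)) (ρ : ι → Option J) (hρ : ∀ t, ρ t ≠ some j) :
    YY j pr y ρ ≤ (∏ l ∈ univ.erase j, GG l (fib ρ l)) *
      ∑ a : Finset ι, GG j a * ∏ t ∈ a, (1 / ((pr t : ℝ) - 1)) := by
  have hp1 : ∀ t, (0 : ℝ) < (pr t : ℝ) - 1 := by
    intro t
    have : (2 : ℝ) ≤ pr t := by exact_mod_cast hp t
    linarith
  have hE : 0 ≤ ∏ l ∈ univ.erase j, GG l (fib ρ l) := Finset.prod_nonneg fun l _ => hGG l _
  calc YY j pr y ρ ≤ ∑ τ : ι → Option J, (∏ l ∈ univ.erase j, GG l (fib ρ l)) *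
        ((∏ t, psiL j (pr t) (τ t) (ρ t)) * GG j (fib τ j)) := by
        unfold YY
        apply Finset.sum_le_sum
        intro τ _
        have h0 : 0 ≤ ∏ t, psiL j (pr t) (τ t) (ρ t) :=
          Finset.prod_nonneg fun t _ => psiL_nonneg j (pr t) (hp t) _ _
        by_cases h : ∏ t, psiL j (pr t) (τ t) (ρ t) = 0
        · rw [h]; simp
        · have he := psi_supp j pr τ ρ hρ h
          have hf : ∀ l, l ≠ j → fib τ l = fib ρ l := by
            intro l hl
            ext t
            rw [mem_fib, mem_fib, ← he]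
            unfold era
            by_cases ht : τ t = some j
            · rw [if_pos ht, ht]
              simp [Ne.symm hl]
            · rw [if_neg ht]
          calc y τ * ∏ t, psiL j (pr t) (τ t) (ρ t)
              ≤ (∏ l, GG l (fib τ l)) * ∏ t, psiL j (pr t) (τ t) (ρ t) :=
                mul_le_mul_of_nonneg_right (hy τ) h0
            _ = _ := by
                rw [← Finset.mul_prod_erase univ (fun l => GG l (fib τ l)) (Finset.mem_univ j)]
                have : ∏ l ∈ univ.erase j, GG l (fib τ l) = ∏ l ∈ univ.erase j, GG l (fib ρ l) :=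
                  Finset.prod_congr rfl fun l hl => by rw [hf l (Finset.ne_of_mem_erase hl)]
                rw [this]
                ring
    _ = (∏ l ∈ univ.erase j, GG l (fib ρ l)) *
        ∑ τ : ι → Option J, (∏ t, psiL j (pr t) (τ t) (ρ t)) * GG j (fib τ j) := by
        rw [Finset.mul_sum]
    _ ≤ (∏ l ∈ univ.erase j, GG l (fib ρ l)) * ((∏ _t : ι, (1 : ℝ)) *
        ∑ a : Finset ι, GG j a * ∏ t ∈ a, (1 / ((pr t : ℝ) - 1))) := by
        apply mul_le_mul_of_nonneg_left _ hE
        apply fib_le (fun t v => psiL j (pr t) v (ρ t)) (fun t v => psiL_nonneg j (pr t) (hp t) _ _)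
          j (GG j) (hGG j) (fun t => 1 / ((pr t : ℝ) - 1)) (fun _ => 1)
        · intro t
          have h1 := hp1 t
          rcases hs : ρ t with _ | l
          · simp [psiL]
          · have hl : ¬ j = l := by
              intro h
              apply hρ t
              rw [hs, h]
            simp only [psiL, Option.some.injEq, hl, if_false]
            positivity
        · intro t
          rw [Finset.sum_filter, Fintype.sum_option]
          rcases hs : ρ t with _ | l
          · have : ∑ x : J, (if some x ≠ some j then psiL j (pr t) (some x) none else 0) = 0 := by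
              apply Finset.sum_eq_zero
              intro x _
              by_cases hx : x = j
              · simp [hx]
              · simp [psiL, hx]
            rw [this]
            simp [psiL]
          · have hl : ¬ l = j := by
              intro h
              apply hρ t
              rw [hs, h]
            have : ∑ x : J, (if some x ≠ some j then psiL j (pr t) (some x) (some l) else 0) = 1 := by
              rw [Finset.sum_eq_single l]
              · simp [psiL, hl]
              · intro x _ hx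
                simp [psiL, hx]
              · intro h; exact absurd (Finset.mem_univ l) h
            rw [this]
            simp [psiL]
        · intro t; exact le_rfl
    _ = _ := by simp

/-- the indicator of a small special coordinate -/
noncomputable def uj (j : J) (pr : ι → ℕ) (Λ : ℝ) (σ : ι → Option J) : ℝ :=
  if lg pr (fib σ j) ≤ Λ then 1 else 0

theorem uj_nonneg (j : J) (pr : ι → ℕ) (Λ : ℝ) (σ : ι → Option J) : 0 ≤ uj j pr Λ σ := by
  unfold uj; split_ifs <;> norm_num

theorem uj_le_one (j : J) (pr : ι → ℕ) (Λ : ℝ) (σ : ι → Option J) : uj j pr Λ σ ≤ 1 := by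
  unfold uj; split_ifs <;> norm_num

theorem uj_eq_one (j : J) (pr : ι → ℕ) (Λ : ℝ) (hΛ : 0 ≤ Λ) (σ : ι → Option J)
    (hσ : ∀ t, σ t ≠ some j) : uj j pr Λ σ = 1 := by
  unfold uj
  rw [if_pos]
  rw [(fib_eq_empty σ j).2 hσ]
  simpa [lg] using hΛ

theorem YY_uj_pos (j : J) (pr : ι → ℕ) (hp : ∀ t, 2 ≤ pr t) (Λ : ℝ) (hΛ : 0 ≤ Λ)
    (ρ : ι → Option J) (hρ : ∀ t, ρ t ≠ some j) : 0 < YY j pr (uj j pr Λ) ρ := by
  have h1 := le_YY j pr hp (uj j pr Λ) (uj_nonneg j pr Λ) ρ
  rw [uj_eq_one j pr Λ hΛ ρ hρ] at h1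
  linarith

theorem Z_le (j : J) (pr : ι → ℕ) (hp : ∀ t, 2 ≤ pr t) (Λ : ℝ) (ρ : ι → Option J)
    (hρ : ∀ t, ρ t ≠ some j) :
    ∑ a : Finset ι, (if lg pr a ≤ Λ then (1 : ℝ) else 0) * ∏ t ∈ a, (1 / ((pr t : ℝ) - 1)) ≤
      (∏ t, if ρ t = none then 1 else ((pr t : ℝ) / ((pr t : ℝ) - 1))) *
        YY j pr (uj j pr Λ) ρ := by
  have h := Y_ge j pr hp (uj j pr Λ) (uj_nonneg j pr Λ) ρ
    (fun a => if lg pr a ≤ Λ then (1 : ℝ) else 0) (fun a => by split_ifs <;> norm_num)
    (fun a b hab => by
      have := lg_mono pr hab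
      by_cases hb : lg pr b ≤ Λ
      · rw [if_pos hb, if_pos (this.trans hb)]
      · rw [if_neg hb]
        split_ifs <;> norm_num) 1 zero_le_one (fun a ha => by
      have hfi : fib (extC ρ j a) j = a := by
        ext t
        rw [mem_fib]
        unfold extC
        constructor
        · intro h
          split_ifs at h with h1 h2
          · exact absurd h (hρ t)
          · exact h2
        · intro h
          have h0 : ρ t = none := (Finset.mem_filter.1 (ha h)).2
          simp [h0, h]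
      rw [one_mul]
      unfold uj
      rw [hfi])
  rw [one_mul] at h
  exact h

theorem era_fib (j : J) (σ : ι → Option J) (l : J) (hl : l ≠ j) : fib (era j σ) l = fib σ l := by
  ext t
  rw [mem_fib, mem_fib]
  unfold era
  by_cases ht : σ t = some j
  · rw [if_pos ht, ht]
    simp [Ne.symm hl]
  · rw [if_neg ht]

theorem ymod_nonneg (j : J) (pr : ι → ℕ) (hp : ∀ t, 2 ≤ pr t) (u y : (ι → Option J) → ℝ)
    (hu : ∀ σ, 0 ≤ u σ) (hy : ∀ σ, 0 ≤ y σ) (σ : ι → Option J) : 0 ≤ ymod j pr u y σ :=
  mul_nonneg (div_nonneg (YY_nonneg j pr hp y hy _) (YY_nonneg j pr hp u hu _)) (hu σ)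

/-- upper bound of the modified weights -/
theorem ymod_le (j : J) (pr : ι → ℕ) (hp : ∀ t, 2 ≤ pr t) (Λ : ℝ) (hΛ : 0 ≤ Λ)
    (y : (ι → Option J) → ℝ) (GG : J → Finset ι → ℝ) (hGG : ∀ l a, 0 ≤ GG l a)
    (hy : ∀ τ, y τ ≤ ∏ l, GG l (fib τ l)) (σ : ι → Option J) :
    ymod j pr (uj j pr Λ) y σ ≤
      ((∑ a : Finset ι, GG j a * ∏ t ∈ a, (1 / ((pr t : ℝ) - 1))) /
        (∑ a : Finset ι, (if lg pr a ≤ Λ then (1 : ℝ) else 0) * ∏ t ∈ a, (1 / ((pr t : ℝ) - 1)))) *
      (mulc pr (fun p => (p : ℝ) / ((p : ℝ) - 1)) σ *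
        ((∏ l ∈ univ.erase j, GG l (fib σ l)) * uj j pr Λ σ)) := by
  have hp1 : ∀ t, (0 : ℝ) < (pr t : ℝ) - 1 := by
    intro t
    have : (2 : ℝ) ≤ pr t := by exact_mod_cast hp t
    linarith
  have hp0 : ∀ t, (0 : ℝ) < (pr t : ℝ) := fun t => by have := hp1 t; linarith
  set S := ∑ a : Finset ι, GG j a * ∏ t ∈ a, (1 / ((pr t : ℝ) - 1)) with hS
  set Z := ∑ a : Finset ι, (if lg pr a ≤ Λ then (1 : ℝ) else 0) *
    ∏ t ∈ a, (1 / ((pr t : ℝ) - 1)) with hZ
  have hw : ∀ a : Finset ι, 0 ≤ ∏ t ∈ a, (1 / ((pr t : ℝ) - 1)) := fun a =>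
    Finset.prod_nonneg fun t _ => by have := hp1 t; positivity
  have hS0 : 0 ≤ S := Finset.sum_nonneg fun a _ => mul_nonneg (hGG j a) (hw a)
  have hZ0 : 0 < Z := by
    have h1 : (if lg pr (∅ : Finset ι) ≤ Λ then (1 : ℝ) else 0) *
        ∏ t ∈ (∅ : Finset ι), (1 / ((pr t : ℝ) - 1)) ≤ Z :=
      Finset.single_le_sum (f := fun a : Finset ι => (if lg pr a ≤ Λ then (1 : ℝ) else 0) *
        ∏ t ∈ a, (1 / ((pr t : ℝ) - 1))) (fun a _ => mul_nonneg (by split_ifs <;> norm_num) (hw a))
        (Finset.mem_univ ∅)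
    have h2 : lg pr (∅ : Finset ι) ≤ Λ := by simpa [lg] using hΛ
    rw [if_pos h2, Finset.prod_empty] at h1
    linarith
  set ρ := era j σ with hρd
  have hρ : ∀ t, ρ t ≠ some j := era_ne j σ
  have hU := YY_uj_pos j pr hp Λ hΛ ρ hρ
  have h1 := YY_le j pr hp y GG hGG hy ρ hρ
  have h2 := Z_le j pr hp Λ ρ hρ
  rw [← hZ] at h2
  rw [← hS] at h1
  set U := YY j pr (uj j pr Λ) ρ with hUd
  set m' : ℝ := (∏ t, if ρ t = none then 1 else ((pr t : ℝ) / ((pr t : ℝ) - 1))) with hm'
  have hm1 : m' ≤ mulc pr (fun p => (p : ℝ) / ((p : ℝ) - 1)) σ := by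
    rw [hm']
    unfold mulc
    apply Finset.prod_le_prod
    · intro t _
      have := hp1 t
      have := hp0 t
      split_ifs
      · norm_num
      · positivity
    · intro t _
      have h3 := hp1 t
      have h4 : 1 ≤ (pr t : ℝ) / ((pr t : ℝ) - 1) := by
        rw [one_le_div h3]; linarith
      by_cases ht : σ t = none
      · have : ρ t = none := by
          rw [hρd]; unfold era; simp [ht]
        rw [if_pos this, if_pos ht]
      · rw [if_neg ht]
        split_ifs
        · exact h4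
        · exact le_rfl
  have hm0 : 0 ≤ m' := by
    rw [hm']
    apply Finset.prod_nonneg
    intro t _
    have := hp1 t
    have := hp0 t
    split_ifs
    · norm_num
    · positivity
  have hE : ∏ l ∈ univ.erase j, GG l (fib ρ l) = ∏ l ∈ univ.erase j, GG l (fib σ l) :=
    Finset.prod_congr rfl fun l hl => by
      rw [hρd, era_fib j σ l (Finset.ne_of_mem_erase hl)]
  rw [hE] at h1
  set E := ∏ l ∈ univ.erase j, GG l (fib σ l) with hEd
  have hE0 : 0 ≤ E := Finset.prod_nonneg fun l _ => hGG l _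
  have hu0 := uj_nonneg j pr Λ σ
  unfold ymod
  rw [← hρd, ← hUd]
  have h5 : YY j pr y ρ / U ≤ S / Z * (mulc pr (fun p => (p : ℝ) / ((p : ℝ) - 1)) σ * E) := by
    rw [div_le_iff₀ hU]
    have h6 : 1 ≤ m' * U / Z := by rw [one_le_div hZ0]; exact h2
    calc YY j pr y ρ ≤ E * S := h1
      _ ≤ (E * S) * (m' * U / Z) := le_mul_of_one_le_right (mul_nonneg hE0 hS0) h6
      _ = S / Z * (m' * E) * U := by ring
      _ ≤ S / Z * (mulc pr (fun p => (p : ℝ) / ((p : ℝ) - 1)) σ * E) * U := by
          gcongr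
  calc YY j pr y ρ / U * uj j pr Λ σ
      ≤ (S / Z * (mulc pr (fun p => (p : ℝ) / ((p : ℝ) - 1)) σ * E)) * uj j pr Λ σ :=
        mul_le_mul_of_nonneg_right h5 hu0
    _ = _ := by ring

end pa

end Pool.Agent.H362R2.CM
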