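import Mathlib

/-! Erdos's box lemma: a dense subset of a product of `T` large finite sets contains a product of
`T` sets of size `K`. -/

namespace Pool.Agent.H362R2.CM

open Finset

open Classical in
/-- number of non injective functions from `Fin K` to a finite set -/
theorem card_not_injective_le {α : Type} (K : ℕ) (V : Finset α) :
    (((Fintype.piFinset (fun _ : Fin K => V)).filter
      (fun φ => ¬ Function.Injective φ)).card : ℝ) * V.card ≤ (K : ℝ) ^ 2 * (V.card : ℝ) ^ K := by
  set v := V.card with hv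
  have hsub : (Fintype.piFinset (fun _ : Fin K => V)).filter (fun φ => ¬ Function.Injective φ) ⊆
      (univ : Finset (Fin K × Fin K)).biUnion (fun x =>
        if x.1 ≠ x.2 then (Fintype.piFinset (fun _ : Fin K => V)).filter (fun φ => φ x.1 = φ x.2)
        else ∅) := by
    intro φ hφ
    rw [mem_filter] at hφ
    obtain ⟨h1, h2⟩ := hφ
    rw [Function.Injective] at h2
    push Not at h2
    obtain ⟨i, j, hij, hne⟩ := h2
    rw [mem_biUnion]
    refine ⟨(i, j), mem_univ _, ?_⟩
    simp only [ne_eq, hne, not_false_eq_true, if_true, mem_filter]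
    exact ⟨h1, hij⟩
  have hone : ∀ x : Fin K × Fin K, x.1 ≠ x.2 →
      ((Fintype.piFinset (fun _ : Fin K => V)).filter (fun φ => φ x.1 = φ x.2)).card * v ≤
        v ^ K := by
    intro x hx
    -- inject (φ, w) ↦ update φ x.1 w
    have h1 : (((Fintype.piFinset (fun _ : Fin K => V)).filter (fun φ => φ x.1 = φ x.2)) ×ˢ V).card ≤
        (Fintype.piFinset (fun _ : Fin K => V)).card := by
      apply Finset.card_le_card_of_injOn (fun y => Function.update y.1 x.1 y.2)
      · intro y hy
        simp only [coe_product, Set.mem_prod, mem_coe, mem_filter, Fintype.mem_piFinset] at hy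
        simp only [mem_coe, Fintype.mem_piFinset]
        intro i
        by_cases hi : i = x.1
        · subst hi; simp only [Function.update_self]; exact hy.2
        · rw [Function.update_of_ne hi]; exact hy.1.1 i
      · intro y hy z hz hyz
        simp only [coe_product, Set.mem_prod, mem_coe, mem_filter] at hy hz
        have e1 : y.2 = z.2 := by
          have := congrFun hyz x.1
          simpa using this
        have e2 : y.1 = z.1 := by
          funext i
          by_cases hi : i = x.1
          · subst hi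
            rw [hy.1.2, hz.1.2]
            have := congrFun hyz x.2
            simp only [Function.update_of_ne hx.symm] at this
            exact this
          · have := congrFun hyz i
            simpa only [Function.update_of_ne hi] using this
        exact Prod.ext e2 e1
    rw [card_product, Fintype.card_piFinset_const] at h1
    exact h1
  have h2 : ((Fintype.piFinset (fun _ : Fin K => V)).filter
      (fun φ => ¬ Function.Injective φ)).card * v ≤ K ^ 2 * v ^ K := by
    calc ((Fintype.piFinset (fun _ : Fin K => V)).filter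
        (fun φ => ¬ Function.Injective φ)).card * v
        ≤ (∑ x : Fin K × Fin K, (if x.1 ≠ x.2 then
            (Fintype.piFinset (fun _ : Fin K => V)).filter (fun φ => φ x.1 = φ x.2)
            else ∅).card) * v := by
          apply Nat.mul_le_mul_right
          exact (card_le_card hsub).trans card_biUnion_le
      _ = ∑ x : Fin K × Fin K, (if x.1 ≠ x.2 then
            (Fintype.piFinset (fun _ : Fin K => V)).filter (fun φ => φ x.1 = φ x.2)
            else ∅).card * v := by rw [Finset.sum_mul]
      _ ≤ ∑ x : Fin K × Fin K, v ^ K := by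
          apply Finset.sum_le_sum
          intro x _
          split_ifs with h
          · exact hone x h
          · simp
      _ = K ^ 2 * v ^ K := by
          rw [Finset.sum_const, card_univ, Fintype.card_prod, Fintype.card_fin, smul_eq_mul]
          ring
  have h3 : ((((Fintype.piFinset (fun _ : Fin K => V)).filter
      (fun φ => ¬ Function.Injective φ)).card * v : ℕ) : ℝ) ≤ ((K ^ 2 * v ^ K : ℕ) : ℝ) := by
    exact_mod_cast h2
  push_cast at h3
  exact h3

theorem double_count {β γ : Type} (G : Finset β) (Φ : Finset γ) (r : β → γ → Prop)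
    [∀ g φ, Decidable (r g φ)] :
    ∑ g ∈ G, (Φ.filter (fun φ => r g φ)).card = ∑ φ ∈ Φ, (G.filter (fun g => r g φ)).card := by
  simp_rw [Finset.card_filter]
  exact Finset.sum_comm

/-- `(x, g)` glued together lies in `B` -/
def glue {α : Type} {T : ℕ} (B : Finset (Fin (T + 1) → α)) (x : α) (g : Fin T → α) : Prop :=
  (Fin.cons x g : Fin (T + 1) → α) ∈ B

open Classical in
theorem card_eq_sum_glue {α : Type} {T : ℕ} (B : Finset (Fin (T + 1) → α))
    (V : Fin (T + 1) → Finset α) (hB : B ⊆ Fintype.piFinset V) :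
    B.card = ∑ g ∈ Fintype.piFinset (fun i : Fin T => V i.succ),
      ((V 0).filter (fun x => glue B x g)).card := by
  have h1 : B.card = ∑ g ∈ Fintype.piFinset (fun i : Fin T => V i.succ),
      (B.filter (fun f => Fin.tail f = g)).card := by
    apply Finset.card_eq_sum_card_fiberwise
    intro f hf
    have h2 := Fintype.mem_piFinset.1 (hB hf)
    rw [mem_coe, Fintype.mem_piFinset]
    intro i
    exact h2 i.succ
  rw [h1]
  apply Finset.sum_congr rfl
  intro g _
  apply Finset.card_bij (fun f _ => f 0)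
  · intro f hf
    rw [mem_filter] at hf
    rw [mem_filter]
    refine ⟨Fintype.mem_piFinset.1 (hB hf.1) 0, ?_⟩
    rw [glue, ← hf.2, Fin.cons_self_tail]; exact hf.1
  · intro f hf f' hf' h
    rw [mem_filter] at hf hf'
    rw [← Fin.cons_self_tail f, ← Fin.cons_self_tail f', hf.2, hf'.2, h]
  · intro x hx
    rw [mem_filter] at hx
    refine ⟨Fin.cons x g, ?_, by simp⟩
    rw [mem_filter]
    exact ⟨hx.2, by simp [Fin.tail_cons]⟩

theorem aux_div_pow (M S : ℝ) (hM : M ≠ 0) (k : ℕ) :
    M * (S / M) ^ (k + 1) = S ^ (k + 1) / M ^ k := by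
  rw [div_pow, pow_succ M]
  field_simp

open Classical in
/-- one step of the box lemma: a dense bipartite relation contains `K` vertices with many common
neighbours -/
theorem box_step {α β : Type} (K : ℕ) (ε : ℝ) (hε : 0 < ε) (V0 : Finset α) (G : Finset β)
    (R : α → β → Prop) (hV : 2 * (K : ℝ) ^ 2 / ε ^ K < V0.card) (hG : 0 < G.card)
    (h : ε * V0.card * G.card ≤ ∑ g ∈ G, ((V0.filter (fun x => R x g)).card : ℝ)) :
    ∃ φ : Fin K → α, Function.Injective φ ∧ (∀ j, φ j ∈ V0) ∧
      ε ^ K / 2 * G.card ≤ ((G.filter (fun g => ∀ j, R (φ j) g)).card : ℝ) := by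
  set v : ℝ := (V0.card : ℝ) with hv
  have hvpos : 0 < v := lt_of_le_of_lt (by positivity) hV
  set M : ℝ := (G.card : ℝ) with hM
  have hMpos : 0 < M := by rw [hM]; exact_mod_cast hG
  set nb : β → Finset α := fun g => V0.filter (fun x => R x g) with hnb
  -- power mean
  have hpm : M * (ε * v) ^ K ≤ ∑ g ∈ G, ((nb g).card : ℝ) ^ K := by
    rcases Nat.eq_zero_or_pos K with hK | hK
    · subst hK
      simp [hM]
    · obtain ⟨k, rfl⟩ : ∃ k, K = k + 1 := ⟨K - 1, by omega⟩
      have h1 := pow_sum_div_card_le_sum_pow (s := G) (f := fun g => ((nb g).card : ℝ))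
        (fun _ _ => Nat.cast_nonneg _) k
      rw [← hM] at h1
      have h2 : ε * v ≤ (∑ g ∈ G, ((nb g).card : ℝ)) / M := by
        rw [le_div_iff₀ hMpos]; exact h
      calc M * (ε * v) ^ (k + 1)
          ≤ M * ((∑ g ∈ G, ((nb g).card : ℝ)) / M) ^ (k + 1) := by
            gcongr
        _ = (∑ g ∈ G, ((nb g).card : ℝ)) ^ (k + 1) / M ^ k := by
            exact aux_div_pow _ _ hMpos.ne' k
        _ ≤ _ := h1
  -- double counting
  set Φ := Fintype.piFinset (fun _ : Fin K => V0) with hΦ
  set F : (Fin K → α) → Finset β := fun φ => G.filter (fun g => ∀ j, R (φ j) g) with hF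
  have hdc : ∑ g ∈ G, ((nb g).card : ℝ) ^ K = ∑ φ ∈ Φ, ((F φ).card : ℝ) := by
    have h1 : ∀ g ∈ G, (nb g).card ^ K = (Φ.filter (fun φ => ∀ j, R (φ j) g)).card := by
      intro g _
      rw [← Fintype.card_piFinset_const]
      congr 1
      ext φ
      simp only [Fintype.mem_piFinset, hnb, mem_filter, hΦ]
      constructor
      · intro h; exact ⟨fun j => (h j).1, fun j => (h j).2⟩
      · intro h j; exact ⟨h.1 j, h.2 j⟩
    have h2 := double_count G Φ (fun g φ => ∀ j : Fin K, R (φ j) g)
    have h3 : ∑ g ∈ G, (nb g).card ^ K = ∑ φ ∈ Φ, (F φ).card := by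
      rw [Finset.sum_congr rfl h1]
      exact h2
    exact_mod_cast h3
  have hsplit : ∑ φ ∈ Φ, ((F φ).card : ℝ) = ∑ φ ∈ Φ.filter Function.Injective, ((F φ).card : ℝ) +
      ∑ φ ∈ Φ.filter (fun φ => ¬ Function.Injective φ), ((F φ).card : ℝ) :=
    (Finset.sum_filter_add_sum_filter_not _ _ _).symm
  have hFle : ∀ φ, ((F φ).card : ℝ) ≤ M := by
    intro φ
    rw [hM]
    exact_mod_cast Finset.card_filter_le _ _
  have hni := card_not_injective_le K V0
  rw [← hv, ← hΦ] at hni
  have hbadsum : ∑ φ ∈ Φ.filter (fun φ => ¬ Function.Injective φ), ((F φ).card : ℝ) ≤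
      (ε ^ K / 2) * (M * v ^ K) := by
    have h1 : ∑ φ ∈ Φ.filter (fun φ => ¬ Function.Injective φ), ((F φ).card : ℝ) ≤
        ((Φ.filter (fun φ => ¬ Function.Injective φ)).card : ℝ) * M := by
      rw [← nsmul_eq_mul]
      exact Finset.sum_le_card_nsmul _ _ _ (fun φ _ => hFle φ)
    have h2 : ((Φ.filter (fun φ => ¬ Function.Injective φ)).card : ℝ) ≤ K ^ 2 * v ^ K / v := by
      rw [le_div_iff₀ hvpos]; exact hni
    have h3 : (K : ℝ) ^ 2 / v ≤ ε ^ K / 2 := by
      rw [div_le_iff₀ hvpos]
      have h4 := hV.le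
      rw [div_le_iff₀ (by positivity)] at h4
      linarith
    calc _ ≤ ((Φ.filter (fun φ => ¬ Function.Injective φ)).card : ℝ) * M := h1
      _ ≤ (K ^ 2 * v ^ K / v) * M := by gcongr
      _ = ((K : ℝ) ^ 2 / v) * (M * v ^ K) := by ring
      _ ≤ (ε ^ K / 2) * (M * v ^ K) := by gcongr
  have hinj : (ε ^ K / 2) * (M * v ^ K) ≤
      ∑ φ ∈ Φ.filter Function.Injective, ((F φ).card : ℝ) := by
    have h1 : M * (ε * v) ^ K = ε ^ K * (M * v ^ K) := by rw [mul_pow]; ring
    have h2 : ε ^ K * (M * v ^ K) ≤ ∑ φ ∈ Φ.filter Function.Injective, ((F φ).card : ℝ) +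
      (ε ^ K / 2) * (M * v ^ K) := by
      calc ε ^ K * (M * v ^ K) = M * (ε * v) ^ K := h1.symm
        _ ≤ ∑ φ ∈ Φ, ((F φ).card : ℝ) := by rw [← hdc]; exact hpm
        _ ≤ _ := by rw [hsplit]; gcongr
    linarith
  have hpos : 0 < (ε ^ K / 2) * (M * v ^ K) := by positivity
  have hne : (Φ.filter Function.Injective).Nonempty := by
    by_contra hcon
    rw [Finset.not_nonempty_iff_eq_empty] at hcon
    rw [hcon, Finset.sum_empty] at hinj
    linarith
  have hcardinj : ((Φ.filter Function.Injective).card : ℝ) ≤ v ^ K := by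
    have h1 : (Φ.filter Function.Injective).card ≤ Φ.card := Finset.card_filter_le _ _
    have h2 : Φ.card = V0.card ^ K := by rw [hΦ, Fintype.card_piFinset_const]
    rw [h2] at h1
    rw [hv]
    exact_mod_cast h1
  obtain ⟨φ, hφ, hφF⟩ : ∃ φ ∈ Φ.filter Function.Injective, (ε ^ K / 2) * M ≤ ((F φ).card : ℝ) := by
    apply Finset.exists_le_of_sum_le hne
    rw [Finset.sum_const, nsmul_eq_mul]
    calc ((Φ.filter Function.Injective).card : ℝ) * ((ε ^ K / 2) * M)
        ≤ v ^ K * ((ε ^ K / 2) * M) := by gcongr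
      _ = (ε ^ K / 2) * (M * v ^ K) := by ring
      _ ≤ _ := hinj
  rw [mem_filter] at hφ
  exact ⟨φ, hφ.2, Fintype.mem_piFinset.1 hφ.1, hφF⟩

/-- **Erdos's box lemma** -/
theorem box_lemma : ∀ (T K : ℕ) (ε : ℝ), 0 < ε → ∃ N : ℕ, ∀ (α : Type)
    (V : Fin T → Finset α), (∀ i, N ≤ (V i).card) → ∀ B : Finset (Fin T → α),
    B ⊆ Fintype.piFinset V → ε * ∏ i, ((V i).card : ℝ) ≤ B.card →
    ∃ A : Fin T → Fin K → α, (∀ i, Function.Injective (A i)) ∧
      ∀ c : Fin T → Fin K, (fun i => A i (c i)) ∈ B := by
  classical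
  intro T
  induction T with
  | zero =>
    intro K ε hε
    refine ⟨0, ?_⟩
    intro α V _ B hB hcard
    have h1 : (0 : ℝ) < B.card := by
      refine lt_of_lt_of_le ?_ hcard
      simp [hε]
    have h2 : B.Nonempty := by
      rw [← Finset.card_pos]; exact_mod_cast h1
    obtain ⟨f, hf⟩ := h2
    refine ⟨fun i => i.elim0, fun i => i.elim0, fun c => ?_⟩
    have : (fun i : Fin 0 => (fun i : Fin 0 => i.elim0 : Fin 0 → Fin K → α) i (c i)) = f := by
      funext i; exact i.elim0
    rw [this]; exact hf
  | succ T ih =>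
    intro K ε hε
    obtain ⟨N', hN'⟩ := ih K (ε ^ K / 2) (by positivity)
    obtain ⟨N'', hN''⟩ := exists_nat_ge (2 * (K : ℝ) ^ 2 / ε ^ K)
    refine ⟨max N' (N'' + 1), ?_⟩
    intro α V hV B hB hcard
    have hv0 : (N'' : ℝ) + 1 ≤ (V 0).card := by
      have := (le_max_right N' (N'' + 1)).trans (hV 0)
      exact_mod_cast this
    set V' : Fin T → Finset α := fun i => V i.succ with hV'
    have hMcard : ((Fintype.piFinset V').card : ℝ) = ∏ i, ((V' i).card : ℝ) := by
      rw [Fintype.card_piFinset]; push_cast; rfl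
    have hprod : ∏ i, ((V i).card : ℝ) = (V 0).card * (Fintype.piFinset V').card := by
      rw [Fin.prod_univ_succ, hMcard]
    have hBcard : (B.card : ℝ) =
        ∑ g ∈ Fintype.piFinset V', (((V 0).filter (fun x => glue B x g)).card : ℝ) := by
      have h1 := card_eq_sum_glue B V hB
      rw [h1]
      push_cast
      rfl
    obtain ⟨φ, hφ1, hφ2, hφ3⟩ := box_step K ε hε (V 0) (Fintype.piFinset V') (glue B)
      (by linarith) (by
        rw [Fintype.card_piFinset]
        apply Finset.prod_pos
        intro i _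
        have := (le_max_right N' (N'' + 1)).trans (hV i.succ)
        change 0 < (V i.succ).card
        omega) (by
        rw [← hBcard, mul_assoc, ← hprod]; exact hcard)
    rw [hMcard] at hφ3
    obtain ⟨A', hA'1, hA'2⟩ := hN' α V' (fun i => (le_max_left N' (N'' + 1)).trans (hV i.succ))
      ((Fintype.piFinset V').filter (fun g => ∀ j, glue B (φ j) g)) (Finset.filter_subset _ _) hφ3
    refine ⟨Fin.cons φ A', ?_, ?_⟩
    · intro i
      refine Fin.cases ?_ (fun i => ?_) i
      · simp only [Fin.cons_zero]; exact hφ1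
      · simp only [Fin.cons_succ]; exact hA'1 i
    · intro c
      have h1 : glue B (φ (c 0)) (fun i => A' i (c i.succ)) :=
        (mem_filter.1 (hA'2 (fun i => c i.succ))).2 (c 0)
      have h2 : (fun i => (Fin.cons φ A' : Fin (T + 1) → Fin K → α) i (c i)) =
          Fin.cons (φ (c 0)) (fun i => A' i (c i.succ)) := by
        funext i
        refine Fin.cases ?_ (fun i => ?_) i
        · simp
        · simp
      rw [h2]; exact h1

end Pool.Agent.H362R2.CM
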