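import Mathlib
import Pool.Agent.H361R2.GNum
import Pool.Agent.H361R2.GS2
import Pool.Agent.H410R2.MFin4

/-! Coloured Maynard-Tao theorem (a quarter of the classes contain a prime): definitions.
`P` is a finite set of primes `> D` (the sieving primes), `L = Lr ρ x = ρ log x` the (small) sieve
level, `Lj ρ x = (1/4 - 2 ρ) log x` the level of the special coordinate in the pair bound. -/

namespace Pool.Agent.H362R2.CM

open Finset Filter Topology
open Pool.Agent.H410R2 hiding GP GP_prof GP_cut_some GP_cut_none GP_lip gg_pos gg_le_one gg_anti ee_bound ee_nonneg gg_lip LB_gg LB_ee Sums exists_sums yx wx wxi Br sum_GP_none sum_GP_some sum_GP_some_ee sum_GP_some_one sum_GPr_none sum_GPr_some S1_final QI_final S2_final w_abs_le wmax gg ee I1 I2 IE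
open Pool.Agent.H361R2.GM

variable {k : ℕ}

/-- index type -/
abbrev IP (P : Finset ℕ) : Type := {p // p ∈ P}

/-- primes -/
abbrev prP (P : Finset ℕ) : IP P → ℕ := fun t => t.1

/-- the smooth weights -/
noncomputable def yP (Q : SPar) (k : ℕ) (P : Finset ℕ) (L : ℝ) :
    (IP P → Option (Option (Fin k))) → ℝ :=
  yw (prP P) none (GP Q k L (L / 48)) L

/-- the sieve weight (its square is the density) -/
noncomputable def wP (Q : SPar) (a b : Fin k → ℕ) (P : Finset ℕ) (L : ℝ) (n : ℕ) : ℝ :=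
  ∑ σ, cw (prP P) (yP Q k P L) σ * hN (LF a b) (prP P) σ n

/-- the sieve weight when the `i`-th form has no prime factor in `P`, arbitrary `y` -/
noncomputable def wI (a b : Fin k → ℕ) (P : Finset ℕ) (i : Fin k)
    (y : (IP P → Option (Option (Fin k))) → ℝ) (n : ℕ) : ℝ :=
  ∑ σ, cw (prP P) y σ * hNI (some i) (LF a b) (prP P) σ n

/-- sieve level -/
noncomputable def Lr (ρ x : ℝ) : ℝ := ρ * Real.log x

/-- level of the special coordinate -/
noncomputable def Lj (ρ x : ℝ) : ℝ := (1 / 4 - 2 * ρ) * Real.log x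

/-- the sieving primes `D < p ≤ x ^ (1 / 4)` -/
noncomputable def Pr (D : ℕ) (x : ℝ) : Finset ℕ := PW D (Real.exp (Real.log x / 4))

/-- the main size -/
noncomputable def Q1 (k : ℕ) (D : ℕ) (x L : ℝ) : ℝ :=
  x / WW D * (BD D * (L / 48) * (BD D * L) ^ k)

/-- local density -/
noncomputable def h5 (p : ℕ) : ℝ := (p : ℝ) ^ 4 / ((p : ℝ) - 1) ^ 5

/-- additional one-dimensional asymptotics -/
structure Sums2 (Q : SPar) (D : ℕ) (ε : ℝ) (L Lc : ℝ) (P : Finset ℕ) : Prop where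
  a : SS P h1 Q.c L Q.gg ≤ BD D * L * (Q.I1 + ε)
  b : SS P h0 Q.c L Q.gg ≤ BD D * L * (Q.I1 + ε)
  c : SS P h5 1 (L / 48) (fun t => (1 - t) ^ 2) ≤ BD D * (L / 48) * (1 / 3 + ε)
  d : SS P h5 Q.c L (fun t => Q.gg t ^ 2) ≤ BD D * L * (Q.I2 + ε)
  e : SS P h5 1 Lc (fun _ => 1) ≤ BD D * Lc * (1 + ε)
  f : BD D * Lc * (1 - ε) ≤ SS P h0 1 Lc (fun _ => 1)

/-- the three numerical constants: total mass, single prime, pair of primes -/
noncomputable def Ac (Q : SPar) (k : ℕ) (ε : ℝ) : ℝ :=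
  (1 + ε) * ((1 / 3 + ε) * (Q.I2 + ε) ^ k)
noncomputable def βc (Q : SPar) (k : ℕ) (ε : ℝ) : ℝ :=
  (1 - ε) ^ 4 * (Q.I1 - ε) ^ 2 * Br Q k ε
noncomputable def γc (Q : SPar) (k : ℕ) (ρ ε : ℝ) : ℝ :=
  ρ ^ 2 / (1 / 4 - 2 * ρ) * ((1 + ε) ^ 8 / (1 - ε) ^ 4) *
    ((Q.I1 + ε) ^ 4 * ((1 / 3 + ε) * (Q.I2 + ε) ^ (k - 2)))

end Pool.Agent.H362R2.CM
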