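import Mathlib
import Pool.Agent.H362R2.CM.Defs

/-! Coloured Maynard-Tao: numerics (task NUM, helper943). -/

namespace Pool.Agent.H362R2.CM

open Finset Filter Topology
open Pool.Agent.H410R2 hiding GP GP_prof GP_cut_some GP_cut_none GP_lip gg_pos gg_le_one gg_anti ee_bound ee_nonneg gg_lip LB_gg LB_ee Sums exists_sums yx wx wxi Br sum_GP_none sum_GP_some sum_GP_some_ee sum_GP_some_one sum_GPr_none sum_GPr_some S1_final QI_final S2_final w_abs_le wmax gg ee I1 I2 IE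
open Pool.Agent.H361R2.GM

/-- the concrete parameters: `1 + G c = e^A`, `G = A k`, `lam = s A`. -/
theorem exists_parS (A s : ℝ) (hA : 4 ≤ A) (hs : 1 ≤ s) (k : ℕ)
    (hk : 100 * s ^ 2 * Real.exp A ≤ k) :
    ∃ Q : SPar, Q.G = A * k ∧ Q.c = (Real.exp A - 1) / (A * k) ∧ Q.lam = s * A := by
  have he : 1 + A ≤ Real.exp A := by have := Real.add_one_le_exp A; linarith
  have he0 : 0 < Real.exp A := Real.exp_pos A
  have hs2 : s ≤ s ^ 2 := by nlinarith
  have hsk : 100 * s * Real.exp A ≤ k := by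
    refine le_trans ?_ hk
    gcongr
  have hek : 100 * Real.exp A ≤ k := by
    refine le_trans ?_ hsk
    nlinarith
  have hk0 : (0 : ℝ) < k := by linarith
  have hk1 : (500 : ℝ) ≤ k := by linarith
  refine ⟨⟨A * k, (Real.exp A - 1) / (A * k), s * A, ?_, ?_, ?_, ?_, ?_⟩, rfl, rfl, rfl⟩
  · nlinarith
  · apply div_pos
    · linarith
    · positivity
  · rw [div_lt_one (by positivity)]
    nlinarith
  · positivity
  · have e : s * A * ((Real.exp A - 1) / (A * k)) = s * (Real.exp A - 1) / k := by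
      field_simp
    rw [e, div_le_one hk0]
    have : 0 < s * Real.exp A := by positivity
    nlinarith

theorem Br_zero_bounds (A s : ℝ) (hs : 1 ≤ s) (hA : 2 * s + 4 ≤ A) (k : ℕ)
    (hk : 100 * s ^ 2 * Real.exp A ≤ k) (Q : SPar) (hQG : Q.G = A * k)
    (hQc : Q.c = (Real.exp A - 1) / (A * k)) (hQl : Q.lam = s * A) :
    Q.I1 = 1 / k ∧ 0 < Q.I2 ∧ Q.I2 ≤ 1 / (A * k) ∧
      (1 - Real.exp (-s + 2)) * ((1 / 3) * Q.I2 ^ (k - 1)) ≤ Br Q k 0 ∧
      Br Q k 0 ≤ (1 / 3) * Q.I2 ^ (k - 1) := by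
  have he : 1 + A ≤ Real.exp A := by have := Real.add_one_le_exp A; linarith
  have he0 : 0 < Real.exp A := Real.exp_pos A
  have hs2 : s ≤ s ^ 2 := by nlinarith
  have hsk : 100 * s * Real.exp A ≤ k := by
    refine le_trans ?_ hk
    gcongr
  have hek' : 100 * Real.exp A ≤ k := by
    refine le_trans ?_ hsk
    nlinarith
  have hk0 : (0 : ℝ) < k := by linarith
  have hA0 : 0 < A := by linarith
  have hGc : 1 + Q.G * Q.c = Real.exp A := by
    rw [hQG, hQc]
    field_simp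
    ring
  have hI1 : Q.I1 = 1 / k := by
    rw [int_gg, hGc, Real.log_exp, hQG]
    field_simp
  set e := Real.exp A with hee
  have hI2 : Q.I2 = (1 - 1 / e) / (A * k) := by rw [int_gg2, hGc, hQG]
  have h1e : 1 / e ≤ 1 / 7 := by
    apply one_div_le_one_div_of_le (by norm_num)
    linarith
  have h1e0 : 0 < 1 / e := by positivity
  have hI2pos : 0 < Q.I2 := by
    rw [hI2]
    apply div_pos (by linarith) (by positivity)
  have hI2le : Q.I2 ≤ 1 / (A * k) := by
    rw [hI2]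
    apply div_le_div_of_nonneg_right _ (by positivity)
    linarith
  have hIE := int_gE Q
  rw [hGc, hee, Real.log_exp, ← hee, hQG, hQl, hQc] at hIE
  set w : ℝ := (s * (A - 1 + 1 / (e - 1) * A) + s ^ 2 * e / k) / k with hw
  have he1 : 0 < e - 1 := by linarith
  have hIE2 : Q.IE ≤ Q.I2 * (1 + w) := by
    refine hIE.trans (le_of_eq ?_)
    rw [hI2, hw]
    have h3 : e ≠ 0 := he0.ne'
    have h4 : e - 1 ≠ 0 := he1.ne'
    field_simp
    ring
  have hIE0 : 0 ≤ Q.IE := by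
    unfold SPar.IE
    apply intervalIntegral.integral_nonneg Q.hc.le
    intro t ht
    have h1 : 0 ≤ Q.ee t := by
      have := ht.1
      have := Q.hlam
      unfold SPar.ee
      positivity
    positivity
  have hw0 : 0 ≤ w := by
    rw [hw]
    apply div_nonneg _ hk0.le
    have h5 : 0 ≤ 1 / (e - 1) * A := by positivity
    have h6 : 0 ≤ s ^ 2 * e / k := by positivity
    have h7 : 0 ≤ s * (A - 1 + 1 / (e - 1) * A) := by
      apply mul_nonneg (by linarith)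
      linarith
    linarith
  have hpow : Q.IE ^ (k - 1) ≤ Q.I2 ^ (k - 1) * Real.exp (k * w) := by
    calc Q.IE ^ (k - 1) ≤ (Q.I2 * (1 + w)) ^ (k - 1) := pow_le_pow_left₀ hIE0 hIE2 _
      _ = Q.I2 ^ (k - 1) * (1 + w) ^ (k - 1) := mul_pow _ _ _
      _ ≤ Q.I2 ^ (k - 1) * Real.exp (k * w) := by
          apply mul_le_mul_of_nonneg_left _ (by positivity)
          calc (1 + w) ^ (k - 1) ≤ (Real.exp w) ^ (k - 1) := by
                apply pow_le_pow_left₀ (by linarith)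
                have := Real.add_one_le_exp w
                linarith
            _ ≤ (Real.exp w) ^ k := pow_le_pow_right₀ (Real.one_le_exp hw0) (Nat.sub_le _ _)
            _ = Real.exp (k * w) := by rw [← Real.exp_nat_mul]
  have hkw : k * w = s * (A - 1 + 1 / (e - 1) * A) + s ^ 2 * e / k := by
    rw [hw]
    field_simp
  have hek : s ^ 2 * e / k ≤ 1 / 100 := by
    rw [div_le_iff₀ hk0]
    linarith
  have hek2 : s * (e - 1) / k ≤ 1 / 100 := by
    rw [div_le_iff₀ hk0]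
    have h20 : s * (e - 1) = s * e - s := by ring
    rw [h20]
    linarith only [hsk, hs]
  have hAe : s * (1 / (e - 1) * A) ≤ 1 := by
    have h6 : (1 + A / 2) ^ 2 ≤ e := by
      have h7 : 1 + A / 2 ≤ Real.exp (A / 2) := by
        have := Real.add_one_le_exp (A / 2)
        linarith
      calc (1 + A / 2) ^ 2 ≤ (Real.exp (A / 2)) ^ 2 := pow_le_pow_left₀ (by linarith) h7 2
        _ = e := by
            rw [← Real.exp_nat_mul, hee]
            congr 1
            push_cast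
            ring
    have h9 : (s : ℝ) * A ≤ e - 1 := by
      have : s * A ≤ e - 1 + 0 := by
        have h10 : (1 + A / 2) ^ 4 ≤ e ^ 2 := by
          have h11 : (0 : ℝ) ≤ (1 + A / 2) ^ 2 := by positivity
          have h12 := pow_le_pow_left₀ h11 h6 2
          calc (1 + A / 2) ^ 4 = ((1 + A / 2) ^ 2) ^ 2 := by ring
            _ ≤ e ^ 2 := h12
        have h13 : (1 + A / 4) ^ 4 ≤ e := by
          have h7 : 1 + A / 4 ≤ Real.exp (A / 4) := by
            have := Real.add_one_le_exp (A / 4)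
            linarith
          calc (1 + A / 4) ^ 4 ≤ (Real.exp (A / 4)) ^ 4 := pow_le_pow_left₀ (by linarith) h7 4
            _ = e := by
                rw [← Real.exp_nat_mul, hee]
                congr 1
                push_cast
                ring
        have h14 : (1 : ℝ) + A + 3 / 8 * A ^ 2 + A ^ 3 / 16 ≤ (1 + A / 4) ^ 4 := by
          have : (1 + A / 4) ^ 4 = 1 + A + 3 / 8 * A ^ 2 + A ^ 3 / 16 + (A / 4) ^ 4 := by ring
          rw [this]
          have : 0 ≤ (A / 4) ^ 4 := by positivity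
          linarith
        have h15 : s * A ≤ A / 2 * A := by
          apply mul_le_mul_of_nonneg_right _ hA0.le
          linarith
        have h16 : A / 2 * A ≤ 3 / 8 * A ^ 2 + A ^ 3 / 16 := by
          have h17 : 2 * A ^ 2 ≤ A * A ^ 2 :=
            mul_le_mul_of_nonneg_right (by linarith) (sq_nonneg A)
          have h18 : A ^ 3 / 16 = A * A ^ 2 / 16 := by ring
          have h19 : A / 2 * A = A ^ 2 / 2 := by ring
          rw [h18, h19]
          linarith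
        linarith
      linarith
    have : s * (1 / (e - 1) * A) = s * A / (e - 1) := by
      field_simp
    rw [this, div_le_one he1]
    exact h9
  have hexp : Real.exp (-(Q.lam * (1 - Q.c))) * Real.exp (k * w) ≤ Real.exp (-s + 2) := by
    rw [← Real.exp_add, hkw, hQl, hQc]
    have e5 : -(s * A * (1 - (e - 1) / (A * k))) + (s * (A - 1 + 1 / (e - 1) * A) + s ^ 2 * e / k) =
        -s + s * (1 / (e - 1) * A) + s * (e - 1) / k + s ^ 2 * e / k := by
      field_simp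
      ring
    rw [e5]
    apply Real.exp_le_exp.2
    linarith
  have hP : 0 < Q.I2 ^ (k - 1) := by positivity
  have htail : Real.exp (-(Q.lam * (1 - Q.c))) * ((1 / 3) * Q.IE ^ (k - 1)) ≤
      Real.exp (-s + 2) * ((1 / 3) * Q.I2 ^ (k - 1)) := by
    calc Real.exp (-(Q.lam * (1 - Q.c))) * ((1 / 3) * Q.IE ^ (k - 1))
        ≤ Real.exp (-(Q.lam * (1 - Q.c))) * ((1 / 3) * (Q.I2 ^ (k - 1) * Real.exp (k * w))) := by
          gcongr
      _ = (Real.exp (-(Q.lam * (1 - Q.c))) * Real.exp (k * w)) * ((1 / 3) * Q.I2 ^ (k - 1)) := by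
          ring
      _ ≤ Real.exp (-s + 2) * ((1 / 3) * Q.I2 ^ (k - 1)) := by
          apply mul_le_mul_of_nonneg_right hexp (by positivity)
  have hB : Br Q k 0 = (1 / 3) * Q.I2 ^ (k - 1) -
      Real.exp (-(Q.lam * (1 - Q.c))) * ((1 / 3) * Q.IE ^ (k - 1)) := by
    unfold Br
    simp
  refine ⟨hI1, hI2pos, hI2le, ?_, ?_⟩
  · rw [hB]
    linarith
  · rw [hB]
    have : 0 ≤ Real.exp (-(Q.lam * (1 - Q.c))) * ((1 / 3) * Q.IE ^ (k - 1)) := by positivity
    linarith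

/-- the strict inequality at `ε = 0` -/
theorem base_col (T M : ℕ) (h : 4 * M < T) : ∃ (K : ℕ) (Q : SPar) (ρ : ℝ), 2 ≤ K ∧ 0 < ρ ∧
    ρ ≤ 1 / 16 ∧ 0 < Q.I1 ∧ 0 < Q.I2 ∧ 0 < Br Q (T * K) 0 ∧
    (M * (1 + 0) + 0) * Ac Q (T * K) 0 *
        (K * (ρ * βc Q (T * K) 0) + (K : ℝ) ^ 2 * γc Q (T * K) ρ 0) <
      T * (K * (ρ * βc Q (T * K) 0)) ^ 2 := by
  have hT1 : 1 ≤ T := by omega
  have hT : (1 : ℝ) ≤ T := by exact_mod_cast hT1
  have hMT : 4 * (M : ℝ) + 1 ≤ T := by exact_mod_cast h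
  have hM0 : (0 : ℝ) ≤ M := Nat.cast_nonneg M
  set s : ℝ := 1000 * T + 2 with hs
  set A : ℝ := 1000000 * (T : ℝ) ^ 3 with hA
  have hT3 : (1 : ℝ) ≤ (T : ℝ) ^ 2 := one_le_pow₀ hT
  have hT3' : (T : ℝ) ≤ (T : ℝ) ^ 3 := by
    have : (T : ℝ) ^ 3 = T * (T : ℝ) ^ 2 := by ring
    nlinarith
  have hs1 : 1 ≤ s := by rw [hs]; linarith
  have hAs : 2 * s + 4 ≤ A := by rw [hs, hA]; linarith
  have hA4 : 4 ≤ A := by linarith
  obtain ⟨K', hK'⟩ := exists_nat_ge (100 * s ^ 2 * Real.exp A)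
  set K : ℕ := K' + 2 with hK
  have hKR : 100 * s ^ 2 * Real.exp A ≤ (K : ℝ) := by
    rw [hK]; push_cast; linarith
  have hK2 : 2 ≤ K := by omega
  have hK2R : (2 : ℝ) ≤ K := by exact_mod_cast hK2
  have hkK : (K : ℝ) ≤ ((T * K : ℕ) : ℝ) := by
    push_cast
    nlinarith
  obtain ⟨Q, hQG, hQc, hQl⟩ := exists_parS A s hA4 hs1 (T * K) (hKR.trans hkK)
  obtain ⟨hI1, hI2, hI2le, hBl, hBu⟩ := Br_zero_bounds A s hs1 hAs (T * K) (hKR.trans hkK) Q hQG hQc hQl
  set ρ : ℝ := 1 / (1000 * T) with hρ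
  have hρ0 : 0 < ρ := by rw [hρ]; positivity
  have hρT : ρ * T = 1 / 1000 := by
    rw [hρ]; field_simp
  have hρ16 : ρ ≤ 1 / 1000 := by
    rw [← hρT]
    exact le_mul_of_one_le_right hρ0.le hT
  set η : ℝ := Real.exp (-s + 2) with hη
  have hη0 : 0 < η := Real.exp_pos _
  have hηle : η * T ≤ 1 / 1000 := by
    have h1 : η * Real.exp (1000 * T) = 1 := by
      rw [hη, ← Real.exp_add, hs]
      rw [show -(1000 * (T : ℝ) + 2) + 2 + 1000 * T = 0 by ring, Real.exp_zero]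
    have h2 : 1000 * (T : ℝ) ≤ Real.exp (1000 * T) := by
      have := Real.add_one_le_exp (1000 * (T : ℝ))
      linarith
    have h3 : η * (1000 * T) ≤ 1 := by
      calc η * (1000 * T) ≤ η * Real.exp (1000 * T) := by gcongr
        _ = 1 := h1
    linarith
  have hη1 : η ≤ 1 / 1000 := (le_mul_of_one_le_right hη0.le hT).trans hηle
  set k : ℕ := T * K with hk
  have hkcast : (k : ℝ) = T * K := by rw [hk]; push_cast; ring
  have hk2 : 2 ≤ k := by
    rw [hk]
    calc 2 ≤ K := hK2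
      _ ≤ T * K := Nat.le_mul_of_pos_left K hT1
  have hk0 : (0 : ℝ) < k := by rw [hkcast]; positivity
  set P : ℝ := (1 / 3) * Q.I2 ^ (k - 2) with hP
  have hP0 : 0 < P := by positivity
  have hpow1 : (1 / 3) * Q.I2 ^ (k - 1) = P * Q.I2 := by
    have : k - 1 = (k - 2) + 1 := by omega
    rw [this, pow_succ, hP]; ring
  have hpow2 : (1 / 3) * Q.I2 ^ k = P * Q.I2 ^ 2 := by
    have : k = (k - 2) + 2 := by omega
    rw [hP, mul_assoc, ← pow_add, ← this]
  set b : ℝ := Br Q k 0 / (P * Q.I2) with hb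
  have hPI : 0 < P * Q.I2 := by positivity
  have hBb : Br Q k 0 = b * (P * Q.I2) := by
    rw [hb]; field_simp
  rw [hpow1] at hBl hBu
  have hb1 : 1 - η ≤ b := by
    rw [hb, le_div_iff₀ hPI]; exact hBl
  have hb2 : b ≤ 1 := by
    rw [hb, div_le_one hPI]; exact hBu
  have hb0 : 0 < b := by linarith
  have hBpos : 0 < Br Q k 0 := by rw [hBb]; positivity
  refine ⟨K, Q, ρ, hK2, hρ0, by linarith, by rw [hI1]; positivity, hI2, hBpos, ?_⟩
  -- values
  have hAc : Ac Q k 0 = P * Q.I2 ^ 2 := by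
    unfold Ac
    rw [← hpow2]; simp
  have hβ : βc Q k 0 = Q.I1 ^ 2 * (b * (P * Q.I2)) := by
    unfold βc
    rw [hBb]; simp
  have hγ : γc Q k ρ 0 = ρ ^ 2 / (1 / 4 - 2 * ρ) * (Q.I1 ^ 4 * P) := by
    unfold γc
    rw [hP]; simp
  rw [hAc, hβ, hγ]
  have hq0 : 0 < 1 / 4 - 2 * ρ := by linarith
  -- bracket
  set y : ℝ := ρ / (1 / 4 - 2 * ρ) with hy
  have hy0 : 0 < y := by rw [hy]; positivity
  have hbr : M * Q.I2 * b + M * K * y * Q.I1 ^ 2 < T * K * ρ * Q.I1 ^ 2 * b ^ 2 := by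
    rw [hI1]
    have hkI2 : k * Q.I2 ≤ 1 / A := by
      calc k * Q.I2 ≤ k * (1 / (A * k)) := by gcongr
        _ = 1 / A := by field_simp
    have hmain : M * (k * Q.I2) * b + (M : ℝ) / T * y < ρ * b ^ 2 := by
      have h1 : M * (k * Q.I2) * b ≤ M * (1 / A) := by
        calc M * (k * Q.I2) * b ≤ M * (1 / A) * 1 := by gcongr
          _ = M * (1 / A) := by ring
      have h2 : M * (1 / A) ≤ ρ * (1 / (1000 * T)) := by
        rw [hρ, hA]
        rw [mul_one_div, div_mul_div_comm, div_le_div_iff₀ (by positivity) (by positivity)]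
        have : (M : ℝ) ≤ T := by linarith
        calc (M : ℝ) * (1000 * T * (1000 * T)) ≤ T * (1000 * T * (1000 * T)) := by gcongr
          _ = 1 * 1 * (1000000 * (T : ℝ) ^ 3) := by ring
      have h3 : (M : ℝ) / T * y ≤ ρ * (1 - 99 / 100 * (1 / T)) := by
        have h4 : (M : ℝ) / T * y = ρ * (M / (T * (1 / 4 - 2 * ρ))) := by
          rw [hy]; field_simp
        rw [h4]
        apply mul_le_mul_of_nonneg_left _ hρ0.le
        rw [div_le_iff₀ (by positivity)]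
        have h5 : (1 - 99 / 100 * (1 / T)) * (T * (1 / 4 - 2 * ρ)) =
            (T - 99 / 100) * (1 / 4 - 2 * ρ) := by
          field_simp
        rw [h5]
        have h6 : (T - 99 / 100) * (1 / 4 - 2 * ρ) = T / 4 - 2 * (ρ * T) - 99 / 400 + 99 / 50 * ρ := by
          ring
        rw [h6, hρT]
        linarith
      have h7 : 1 - 2 / (1000 * T) ≤ b ^ 2 := by
        have h8 : η ≤ 1 / (1000 * T) := by
          rw [le_div_iff₀ (by positivity)]
          linarith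
        have h9 : (1 - η) ^ 2 ≤ b ^ 2 := by
          apply pow_le_pow_left₀ (by linarith) hb1
        have h10 : 2 / (1000 * (T : ℝ)) = 2 * (1 / (1000 * T)) := by ring
        have h16 : 1 - 2 * η ≤ (1 - η) ^ 2 := by
          have : (1 - η) ^ 2 = 1 - 2 * η + η ^ 2 := by ring
          rw [this]
          have := sq_nonneg η
          linarith only [this]
        rw [h10]
        linarith only [h8, h9, h16]
      have h11 : ρ * (1 - 2 / (1000 * T)) ≤ ρ * b ^ 2 := by gcongr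
      have h12 : 0 < ρ * (1 / T) := by positivity
      have h13 : ρ * (1 / (1000 * T)) = ρ * (1 / T) / 1000 := by field_simp
      have h14 : ρ * (1 - 2 / (1000 * T)) = ρ - ρ * (1 / T) / 500 := by
        field_simp; ring
      have h15 : ρ * (1 - 99 / 100 * (1 / T)) = ρ - ρ * (1 / T) * (99 / 100) := by ring
      rw [h13] at h2
      rw [h14] at h11
      rw [h15] at h3
      linarith
    have hkey : (M * (k * Q.I2) * b + (M : ℝ) / T * y) / k < (ρ * b ^ 2) / k :=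
      div_lt_div_of_pos_right hmain hk0
    have hK0 : (0 : ℝ) < K := by linarith
    have e1 : (M * (k * Q.I2) * b + (M : ℝ) / T * y) / k =
        M * Q.I2 * b + M * K * y * (1 / (k : ℝ)) ^ 2 := by
      rw [hkcast]; field_simp
    have e2 : (ρ * b ^ 2) / k = T * K * ρ * (1 / (k : ℝ)) ^ 2 * b ^ 2 := by
      rw [hkcast]; field_simp
    rw [e1, e2] at hkey
    exact hkey
  have hI1pos : 0 < Q.I1 := by rw [hI1]; positivity
  have hfac : 0 < P ^ 2 * Q.I2 ^ 2 * (K * ρ * Q.I1 ^ 2) := by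
    have hK0 : (0 : ℝ) < K := by linarith
    positivity
  have hfin := mul_lt_mul_of_pos_left hbr hfac
  have e3 : (M * (1 + 0) + 0) * (P * Q.I2 ^ 2) *
      (K * (ρ * (Q.I1 ^ 2 * (b * (P * Q.I2)))) +
        (K : ℝ) ^ 2 * (ρ ^ 2 / (1 / 4 - 2 * ρ) * (Q.I1 ^ 4 * P))) =
      P ^ 2 * Q.I2 ^ 2 * (K * ρ * Q.I1 ^ 2) * (M * Q.I2 * b + M * K * y * Q.I1 ^ 2) := by
    have : ρ ^ 2 / (1 / 4 - 2 * ρ) = ρ * y := by rw [hy]; ring
    rw [this]; ring
  have e4 : (T : ℝ) * (K * (ρ * (Q.I1 ^ 2 * (b * (P * Q.I2))))) ^ 2 =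
      P ^ 2 * Q.I2 ^ 2 * (K * ρ * Q.I1 ^ 2) * (T * K * ρ * Q.I1 ^ 2 * b ^ 2) := by ring
  rw [e3, e4]
  exact hfin

theorem num_all (T M : ℕ) (h : 4 * M < T) : ∃ (K : ℕ) (Q : SPar) (ρ ε : ℝ), 2 ≤ K ∧ 0 < ρ ∧
    ρ ≤ 1 / 16 ∧ 0 < ε ∧ ε < 1 / 3 ∧ ε < Q.I1 ∧ ε < Q.I2 ∧ 0 < Br Q (T * K) ε ∧
    (M * (1 + ε) + ε) * Ac Q (T * K) ε *
        (K * (ρ * βc Q (T * K) ε) + (K : ℝ) ^ 2 * γc Q (T * K) ρ ε) <
      T * (K * (ρ * βc Q (T * K) ε)) ^ 2 := by
  obtain ⟨K, Q, ρ, hK, hρ, hρ1, hI1, hI2, hB, hb⟩ := base_col T M h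
  have hcB : Continuous fun ε : ℝ => Br Q (T * K) ε := by
    unfold Br
    fun_prop
  have hcβ : Continuous fun ε : ℝ => βc Q (T * K) ε := by
    unfold βc
    fun_prop
  have hcA : Continuous fun ε : ℝ => Ac Q (T * K) ε := by
    unfold Ac
    fun_prop
  have hcγ : ContinuousAt (fun ε : ℝ => γc Q (T * K) ρ ε) 0 := by
    unfold γc
    have h1 : ContinuousAt (fun ε : ℝ => (1 + ε) ^ 8 / (1 - ε) ^ 4) 0 := by
      apply ContinuousAt.div (by fun_prop) (by fun_prop)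
      norm_num
    have h2 : ContinuousAt (fun ε : ℝ =>
        (Q.I1 + ε) ^ 4 * ((1 / 3 + ε) * (Q.I2 + ε) ^ (T * K - 2))) 0 := by fun_prop
    exact (continuousAt_const.mul h1).mul h2
  have hc1 : ContinuousAt (fun ε : ℝ => (M * (1 + ε) + ε) * Ac Q (T * K) ε *
        (K * (ρ * βc Q (T * K) ε) + (K : ℝ) ^ 2 * γc Q (T * K) ρ ε)) 0 := by
    apply ContinuousAt.mul
    · exact ContinuousAt.mul (by fun_prop) hcA.continuousAt
    · apply ContinuousAt.add
      · exact continuousAt_const.mul (continuousAt_const.mul hcβ.continuousAt)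
      · exact continuousAt_const.mul hcγ
  have hc2 : ContinuousAt (fun ε : ℝ => (T : ℝ) * (K * (ρ * βc Q (T * K) ε)) ^ 2) 0 :=
    continuousAt_const.mul
      ((continuousAt_const.mul (continuousAt_const.mul hcβ.continuousAt)).pow 2)
  have hev : ∀ᶠ ε : ℝ in 𝓝 0, (M * (1 + ε) + ε) * Ac Q (T * K) ε *
        (K * (ρ * βc Q (T * K) ε) + (K : ℝ) ^ 2 * γc Q (T * K) ρ ε) <
      (T : ℝ) * (K * (ρ * βc Q (T * K) ε)) ^ 2 :=
    hc1.tendsto.eventually_lt hc2.tendsto hb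
  have hev1 : ∀ᶠ ε : ℝ in 𝓝 0, ε < 1 / 3 := gt_mem_nhds (by norm_num)
  have hev2 : ∀ᶠ ε : ℝ in 𝓝 0, ε < Q.I1 := gt_mem_nhds hI1
  have hev3 : ∀ᶠ ε : ℝ in 𝓝 0, ε < Q.I2 := gt_mem_nhds hI2
  have hev4 : ∀ᶠ ε : ℝ in 𝓝 0, 0 < Br Q (T * K) ε := by
    have := hcB.tendsto (0 : ℝ)
    exact this.eventually (lt_mem_nhds hB)
  have hall := ((hev.and (hev1.and (hev2.and (hev3.and hev4)))).filter_mono
    (nhdsWithin_le_nhds (s := Set.Ioi (0 : ℝ)))).and (self_mem_nhdsWithin (s := Set.Ioi (0 : ℝ)))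
  obtain ⟨ε, ⟨h1, h2, h3, h4, h5⟩, h6⟩ := hall.exists
  exact ⟨K, Q, ρ, ε, hK, hρ, hρ1, h6, h2, h3, h4, h5, h1⟩

end Pool.Agent.H362R2.CM
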