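import Mathlib
import Pool.Agent.H362R2.CM.Defs
import Pool.Agent.H361R2.GS2
import Pool.Agent.H361R2.GFinD

/-! Coloured Maynard-Tao: the error terms (port of `MFin2.prodIx_le`, `MFin2.E0_le`,
`MT_S2Fb.prefactor_le`, `MT_S2Fb.ErrT_le`, `GFinD.Q0_large`). -/

namespace Pool.Agent.H362R2.CM

open Finset Filter Topology
open Pool.Agent.H410R2 hiding GP GP_prof GP_cut_some GP_cut_none GP_lip gg_pos gg_le_one gg_anti ee_bound ee_nonneg gg_lip LB_gg LB_ee Sums exists_sums yx wx wxi Br sum_GP_none sum_GP_some sum_GP_some_ee sum_GP_some_one sum_GPr_none sum_GPr_some S1_final QI_final S2_final w_abs_le wmax gg ee I1 I2 IE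
open Pool.Agent.H361R2.GM

theorem Pr_prime (D : ℕ) (x : ℝ) : ∀ p ∈ Pr D x, p.Prime ∧ D < p := by
  intro p hp
  unfold Pr PW at hp
  rw [Finset.mem_filter, Finset.mem_Icc] at hp
  exact ⟨hp.2, by omega⟩

theorem prodPr_le (hPB : ProdBound) (c : ℝ) (hc : 0 ≤ c) (D : ℕ) :
    ∃ C : ℝ, 0 < C ∧ ∃ m : ℕ, ∀ᶠ x : ℝ in atTop,
      ∏ t : IP (Pr D x), (1 + c / (prP (Pr D x) t : ℝ)) ≤ C * (Real.log x) ^ m := by
  obtain ⟨C, hC, m, h⟩ := hPB c hc
  refine ⟨C, hC, m, ?_⟩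
  filter_upwards [eventually_ge_atTop (Real.exp 10)] with x hx
  have hx0 : 0 < x := lt_of_lt_of_le (Real.exp_pos _) hx
  have hlx : 10 ≤ Real.log x := (Real.le_log_iff_exp_le hx0).2 hx
  have hy : 3 ≤ Real.exp (Real.log x / 4) := by
    have h2 := Real.add_one_le_exp (Real.log x / 4)
    linarith
  have h3 : ∏ t : IP (Pr D x), (1 + c / (prP (Pr D x) t : ℝ)) = ∏ p ∈ Pr D x, (1 + c / (p : ℝ)) :=
    Finset.prod_coe_sort (Pr D x) (fun p => 1 + c / (p : ℝ))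
  rw [h3]
  calc ∏ p ∈ Pr D x, (1 + c / (p : ℝ)) ≤
        ∏ p ∈ (Icc 1 ⌊Real.exp (Real.log x / 4)⌋₊).filter Nat.Prime, (1 + c / (p : ℝ)) := by
        apply prod_le_prod_subset
        · intro p hp
          unfold Pr PW at hp
          rw [Finset.mem_filter, Finset.mem_Icc] at hp ⊢
          exact ⟨⟨by omega, hp.1.2⟩, hp.2⟩
        · intro p _
          have : 0 ≤ c / (p : ℝ) := by positivity
          linarith
    _ ≤ C * (Real.log (Real.exp (Real.log x / 4))) ^ m := h _ hy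
    _ ≤ C * (Real.log x) ^ m := by
        rw [Real.log_exp]
        have : Real.log x / 4 ≤ Real.log x := by linarith
        have : 0 ≤ Real.log x / 4 := by linarith
        gcongr

theorem prefactorP_le (hPB : ProdBound) (K : ℝ) (hK : 0 ≤ K) (D : ℕ) :
    ∃ C : ℝ, 0 < C ∧ ∃ m : ℕ, ∀ᶠ x : ℝ in atTop,
      (∏ t : IP (Pr D x), (1 + K / ((prP (Pr D x) t : ℝ) - 1)) *
        ((prP (Pr D x) t : ℝ) / ((prP (Pr D x) t : ℝ) - 1))) ^ 2 ≤ C * (Real.log x) ^ m := by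
  obtain ⟨C1, hC1, m1, h1⟩ := prodPr_le hPB (2 * K) (by positivity) D
  obtain ⟨C2, hC2, m2, h2⟩ := prodPr_le hPB 2 (by norm_num) D
  refine ⟨(C1 * C2) ^ 2, by positivity, (m1 + m2) * 2, ?_⟩
  filter_upwards [h1, h2, eventually_gt_atTop (1 : ℝ)] with x h1 h2 hx
  have hl : 0 ≤ Real.log x := Real.log_nonneg hx.le
  have hp2 : ∀ t : IP (Pr D x), (2 : ℝ) ≤ (prP (Pr D x) t : ℝ) := fun t =>
    aux_p _ (Pr_prime D x t.1 t.2).1
  have hle : ∏ t : IP (Pr D x), (1 + K / ((prP (Pr D x) t : ℝ) - 1)) *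
        ((prP (Pr D x) t : ℝ) / ((prP (Pr D x) t : ℝ) - 1)) ≤
      (∏ t : IP (Pr D x), (1 + 2 * K / (prP (Pr D x) t : ℝ))) *
        ∏ t : IP (Pr D x), (1 + 2 / (prP (Pr D x) t : ℝ)) := by
    rw [← Finset.prod_mul_distrib]
    apply Finset.prod_le_prod
    · intro t _
      have := hp2 t
      have h3 : 0 < (prP (Pr D x) t : ℝ) - 1 := by linarith
      positivity
    · intro t _
      have := hp2 t
      have h3 : 0 < (prP (Pr D x) t : ℝ) - 1 := by linarith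
      have h4 : 1 / ((prP (Pr D x) t : ℝ) - 1) ≤ 2 / (prP (Pr D x) t : ℝ) := by
        rw [div_le_div_iff₀ h3 (by linarith)]
        linarith
      have h5 : 1 + K / ((prP (Pr D x) t : ℝ) - 1) ≤ 1 + 2 * K / (prP (Pr D x) t : ℝ) := by
        have := mul_le_mul_of_nonneg_left h4 hK
        have e1 : K * (1 / ((prP (Pr D x) t : ℝ) - 1)) = K / ((prP (Pr D x) t : ℝ) - 1) := by ring
        have e2 : K * (2 / (prP (Pr D x) t : ℝ)) = 2 * K / (prP (Pr D x) t : ℝ) := by ring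
        linarith
      have h6 : (prP (Pr D x) t : ℝ) / ((prP (Pr D x) t : ℝ) - 1) ≤ 1 + 2 / (prP (Pr D x) t : ℝ) := by
        have e3 : (prP (Pr D x) t : ℝ) / ((prP (Pr D x) t : ℝ) - 1) = 1 + 1 / ((prP (Pr D x) t : ℝ) - 1) := by
          field_simp
          ring
        linarith
      have h7 : 0 ≤ (prP (Pr D x) t : ℝ) / ((prP (Pr D x) t : ℝ) - 1) := by positivity
      have h8 : 0 ≤ 1 + 2 * K / (prP (Pr D x) t : ℝ) := by positivity
      exact mul_le_mul h5 h6 h7 h8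
  have hnn : 0 ≤ ∏ t : IP (Pr D x), (1 + K / ((prP (Pr D x) t : ℝ) - 1)) *
        ((prP (Pr D x) t : ℝ) / ((prP (Pr D x) t : ℝ) - 1)) := by
    apply Finset.prod_nonneg
    intro t _
    have := hp2 t
    have h3 : 0 < (prP (Pr D x) t : ℝ) - 1 := by linarith
    positivity
  have hn1 : 0 ≤ ∏ t : IP (Pr D x), (1 + 2 * K / (prP (Pr D x) t : ℝ)) := by
    apply Finset.prod_nonneg
    intro t _
    positivity
  have hn2 : 0 ≤ ∏ t : IP (Pr D x), (1 + 2 / (prP (Pr D x) t : ℝ)) := by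
    apply Finset.prod_nonneg
    intro t _
    positivity
  calc _ ≤ ((∏ t : IP (Pr D x), (1 + 2 * K / (prP (Pr D x) t : ℝ))) *
        ∏ t : IP (Pr D x), (1 + 2 / (prP (Pr D x) t : ℝ))) ^ 2 := by gcongr
    _ ≤ ((C1 * (Real.log x) ^ m1) * (C2 * (Real.log x) ^ m2)) ^ 2 := by gcongr
    _ = _ := by rw [pow_mul, pow_add]; ring


/-- error of the first sum -/
theorem E1_le (hPB : ProdBound) (ρ : ℝ) (hρ : 0 < ρ) (hρ1 : ρ ≤ 1 / 16) (k D : ℕ) :
    ∀ᶠ x : ℝ in atTop, (Real.log x + 1) * (Real.exp (Lr ρ x / 48 + Lr ρ x) *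
      ∏ t : IP (Pr D x), (1 + 3 * ((k + 1 : ℕ) : ℝ) / (prP (Pr D x) t : ℝ))) ^ 2 ≤
        x ^ (1 / 2 : ℝ) := by
  obtain ⟨C, hC, m, h⟩ := prodPr_le hPB (3 * ((k + 1 : ℕ) : ℝ)) (by positivity) D
  filter_upwards [h, ev_polylog (2 * C ^ 2) (2 * m + 1) (49 / 24 * ρ) (1 / 2) (by linarith),
    eventually_ge_atTop (Real.exp 1)] with x h1 h2 hx
  have hx0 : 0 < x := lt_of_lt_of_le (Real.exp_pos _) hx
  have hlx : 1 ≤ Real.log x := (Real.le_log_iff_exp_le hx0).2 hx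
  have h3 : 0 ≤ ∏ t : IP (Pr D x), (1 + 3 * ((k + 1 : ℕ) : ℝ) / (prP (Pr D x) t : ℝ)) :=
    Finset.prod_nonneg fun t _ => by positivity
  have he : Real.exp (Lr ρ x / 48 + Lr ρ x) = x ^ (49 / 48 * ρ : ℝ) := by
    rw [Real.rpow_def_of_pos hx0]
    congr 1
    unfold Lr
    ring
  rw [he]
  calc (Real.log x + 1) * (x ^ (49 / 48 * ρ : ℝ) *
        ∏ t : IP (Pr D x), (1 + 3 * ((k + 1 : ℕ) : ℝ) / (prP (Pr D x) t : ℝ))) ^ 2
      ≤ (Real.log x + Real.log x) * (x ^ (49 / 48 * ρ : ℝ) * (C * (Real.log x) ^ m)) ^ 2 := by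
        gcongr
    _ = 2 * C ^ 2 * (Real.log x) ^ (2 * m + 1) * (x ^ (49 / 48 * ρ : ℝ)) ^ 2 := by ring
    _ = 2 * C ^ 2 * (Real.log x) ^ (2 * m + 1) * x ^ (49 / 24 * ρ : ℝ) := by
        congr 1
        rw [← Real.rpow_natCast, ← Real.rpow_mul hx0.le]
        congr 1
        push_cast
        ring
    _ ≤ _ := h2

theorem tendsto_Lr (ρ : ℝ) (hρ : 0 < ρ) : Tendsto (Lr ρ) atTop atTop :=
  Real.tendsto_log_atTop.const_mul_atTop hρ

/-- the main size beats any constant times `x` -/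
theorem Q1_large (ρ : ℝ) (hρ : 0 < ρ) (k : ℕ) (D : ℕ) (hW : 1 ≤ WW D) (hB : 0 < BD D) (K : ℝ) :
    ∀ᶠ x : ℝ in atTop, K * x ≤ Q1 k D x (Lr ρ x) := by
  have hW' : (0 : ℝ) < WW D := by exact_mod_cast hW
  filter_upwards [(tendsto_Lr ρ hρ).eventually_ge_atTop (1 / BD D),
    (tendsto_Lr ρ hρ).eventually_ge_atTop (48 * WW D * K / BD D), eventually_gt_atTop (1 : ℝ)]
    with x h1 h2 hx
  have hx0 : 0 < x := by linarith
  have h3 : 1 ≤ BD D * Lr ρ x := by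
    rw [div_le_iff₀ hB] at h1
    linarith
  have h4 : 1 ≤ (BD D * Lr ρ x) ^ k := one_le_pow₀ h3
  rw [div_le_iff₀ hB] at h2
  have h5 : WW D * K ≤ BD D * (Lr ρ x / 48) := by linarith
  have hL : 0 < Lr ρ x := mul_pos hρ (Real.log_pos hx)
  have h6 : 0 ≤ BD D * (Lr ρ x / 48) := by positivity
  unfold Q1
  calc K * x = x / WW D * (WW D * K) := by field_simp
    _ ≤ x / WW D * (BD D * (Lr ρ x / 48)) := by gcongr
    _ ≤ x / WW D * (BD D * (Lr ρ x / 48) * (BD D * Lr ρ x) ^ k) := by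
        apply mul_le_mul_of_nonneg_left _ (by positivity)
        exact le_mul_of_one_le_right h6 h4

theorem RP_sq (ρ x : ℝ) (hx : 0 < x) :
    (Real.exp ((1 / 4 - ρ / 2) * Real.log x)) ^ 2 = x ^ (1 / 2 - ρ : ℝ) := by
  rw [Real.rpow_def_of_pos hx, ← Real.exp_nat_mul]
  congr 1
  push_cast
  ring

/-- the total error of `S2Approx` times any power of `log x` is `≤ x`. -/
theorem errP_le (hBV : BVAP) (hPB : ProdBound) (hOB : OmegaBound) (ρ : ℝ) (hρ : 0 < ρ)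
    (hρ1 : ρ ≤ 1 / 16) (K : ℝ) (hK : 1 ≤ K) (D : ℕ) (a b m : ℕ) (ha : 1 ≤ a) (hm : 1 ≤ m) (M : ℕ)
    (C : ℝ) :
    ∀ᶠ x : ℝ in atTop, ∀ r : ℕ → ℕ, C * (Real.log x) ^ M *
      ((∏ t : IP (Pr D x), (1 + K / ((prP (Pr D x) t : ℝ) - 1)) *
        ((prP (Pr D x) t : ℝ) / ((prP (Pr D x) t : ℝ) - 1))) ^ 2 *
      ∑ q ∈ (Icc 1 ⌊(Real.exp ((1 / 4 - ρ / 2) * Real.log x)) ^ 2⌋₊).filter
        (fun q => Squarefree q ∧ (r q).Coprime (a * m * q)),
        (3 * K) ^ q.primeFactors.card *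
          (|psiLogAP (a * x) (a * m * q) (r q) - psiLog1 (a * x) / (Nat.totient (a * m * q) : ℝ)| +
            ((a : ℝ) + b) ^ 2 * (Real.log (a * x) + 1))) ≤ x := by
  obtain ⟨C1, hC1, m1, hpre⟩ := prefactorP_le hPB K (by linarith) D
  obtain ⟨X₀, hX⟩ := hBV (a * m) (Nat.mul_pos ha hm) (3 * K) (by linarith) ρ hρ
    (M + m1 + 1)
  obtain ⟨C', hC', hΩ⟩ := hOB (3 * K) (by linarith) (1 / 100) (by norm_num)
  have ha1 : (1 : ℝ) ≤ a := by exact_mod_cast ha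
  have ev1 : ∀ᶠ x : ℝ in atTop, 2 * (|C| * C1) * a ≤ Real.log x :=
    Real.tendsto_log_atTop.eventually_ge_atTop _
  have ev2 := ev_polylog (|C| * C1 * (C' * ((a : ℝ) + b) ^ 2 * (2 * (1 + |Real.log a|)) * 2))
    (M + m1 + 1) ((1 / 2 - ρ) + (1 / 2 - ρ) * (1 / 100)) 1 (by linarith)
  filter_upwards [hpre, ev1, ev2, eventually_ge_atTop (Real.exp 1), eventually_ge_atTop X₀] with
    x hpre ev1 ev2 hxe hxX r
  have hx0 : 0 < x := lt_of_lt_of_le (Real.exp_pos _) hxe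
  have hl1 : 1 ≤ Real.log x := (Real.le_log_iff_exp_le hx0).2 hxe
  have hx1 : 1 ≤ x := by
    have := Real.add_one_le_exp (1 : ℝ)
    linarith
  have hax : x ≤ a * x := by nlinarith
  have hax0 : 0 < a * x := by linarith
  have hlax : Real.log x ≤ Real.log (a * x) := Real.log_le_log hx0 hax
  have hBVx := hX (a * x) (hxX.trans hax) r
  rw [RP_sq ρ x hx0]
  -- split the sum
  set S := (Icc 1 ⌊x ^ (1 / 2 - ρ : ℝ)⌋₊).filter
    (fun q => Squarefree q ∧ (r q).Coprime (a * m * q)) with hSd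
  have hsplit : ∑ q ∈ S, (3 * K) ^ q.primeFactors.card *
      (|psiLogAP (a * x) (a * m * q) (r q) - psiLog1 (a * x) / (Nat.totient (a * m * q) : ℝ)| +
        ((a : ℝ) + b) ^ 2 * (Real.log (a * x) + 1)) =
      ∑ q ∈ S, (3 * K) ^ q.primeFactors.card *
      |psiLogAP (a * x) (a * m * q) (r q) - psiLog1 (a * x) / (Nat.totient (a * m * q) : ℝ)| +
      ((a : ℝ) + b) ^ 2 * (Real.log (a * x) + 1) * ∑ q ∈ S, (3 * K) ^ q.primeFactors.card := by
    rw [Finset.mul_sum, ← Finset.sum_add_distrib]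
    refine Finset.sum_congr rfl fun q _ => ?_
    ring
  rw [hsplit]
  have hA : ∑ q ∈ S, (3 * K) ^ q.primeFactors.card *
      |psiLogAP (a * x) (a * m * q) (r q) - psiLog1 (a * x) / (Nat.totient (a * m * q) : ℝ)| ≤
      a * x / (Real.log x) ^ (M + m1 + 1) := by
    refine le_trans ?_ (hBVx.trans ?_)
    · apply Finset.sum_le_sum_of_subset_of_nonneg
      · intro q hq
        rw [hSd, Finset.mem_filter, Finset.mem_Icc] at hq
        rw [Finset.mem_filter, Finset.mem_Icc]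
        refine ⟨⟨hq.1.1, hq.1.2.trans ?_⟩, hq.2⟩
        apply Nat.floor_le_floor
        have : (0 : ℝ) ≤ 1 / 2 - ρ := by linarith
        gcongr
      · intro q _ _
        positivity
    · gcongr
  have hB : ∑ q ∈ S, (3 * K) ^ q.primeFactors.card ≤
      C' * x ^ ((1 / 2 - ρ) + (1 / 2 - ρ) * (1 / 100) : ℝ) := by
    calc ∑ q ∈ S, (3 * K) ^ q.primeFactors.card
        ≤ ∑ q ∈ S, C' * x ^ ((1 / 2 - ρ) * (1 / 100) : ℝ) := by
          apply Finset.sum_le_sum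
          intro q hq
          rw [hSd, Finset.mem_filter, Finset.mem_Icc] at hq
          refine (hΩ q hq.1.1).trans ?_
          have h1 : (q : ℝ) ≤ x ^ (1 / 2 - ρ : ℝ) :=
            (Nat.cast_le.2 hq.1.2).trans (Nat.floor_le (by positivity))
          rw [Real.rpow_mul hx0.le]
          gcongr
      _ ≤ ∑ q ∈ Icc 1 ⌊x ^ (1 / 2 - ρ : ℝ)⌋₊, C' * x ^ ((1 / 2 - ρ) * (1 / 100) : ℝ) :=
          Finset.sum_le_sum_of_subset_of_nonneg (Finset.filter_subset _ _)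
            (fun _ _ _ => by positivity)
      _ = (⌊x ^ (1 / 2 - ρ : ℝ)⌋₊ : ℝ) * (C' * x ^ ((1 / 2 - ρ) * (1 / 100) : ℝ)) := by
          rw [Finset.sum_const, Nat.card_Icc, nsmul_eq_mul]
          simp
      _ ≤ x ^ (1 / 2 - ρ : ℝ) * (C' * x ^ ((1 / 2 - ρ) * (1 / 100) : ℝ)) := by
          gcongr
          exact Nat.floor_le (by positivity)
      _ = _ := by rw [Real.rpow_add hx0]; ring
  have hlog2 : Real.log (a * x) + 1 ≤ (2 * (1 + |Real.log a|)) * Real.log x := by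
    rw [Real.log_mul (by positivity) hx0.ne']
    have h1 : Real.log a ≤ |Real.log a| := le_abs_self _
    have h2 : |Real.log a| ≤ |Real.log a| * Real.log x :=
      le_mul_of_one_le_right (abs_nonneg _) hl1
    have h3 := abs_nonneg (Real.log a)
    nlinarith
  have hlax0 : 0 ≤ Real.log (a * x) + 1 := by linarith
  have hfirst : |C| * (Real.log x) ^ M * (C1 * (Real.log x) ^ m1 *
      (a * x / (Real.log x) ^ (M + m1 + 1))) ≤ x / 2 := by
    have e : |C| * (Real.log x) ^ M * (C1 * (Real.log x) ^ m1 *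
        (a * x / (Real.log x) ^ (M + m1 + 1))) =
        |C| * C1 * a * x / Real.log x := by
      have : Real.log x ≠ 0 := by positivity
      rw [show M + m1 + 1 = M + m1 + 1 from rfl, pow_succ, pow_add]
      field_simp
    rw [e, div_le_div_iff₀ (by positivity) (by norm_num)]
    nlinarith
  have hsecond : |C| * (Real.log x) ^ M * (C1 * (Real.log x) ^ m1 *
      (((a : ℝ) + b) ^ 2 * (Real.log (a * x) + 1) *
      (C' * x ^ ((1 / 2 - ρ) + (1 / 2 - ρ) * (1 / 100) : ℝ)))) ≤ x / 2 := by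
    have h1 : |C| * (Real.log x) ^ M * (C1 * (Real.log x) ^ m1 *
      (((a : ℝ) + b) ^ 2 * (Real.log (a * x) + 1) *
      (C' * x ^ ((1 / 2 - ρ) + (1 / 2 - ρ) * (1 / 100) : ℝ)))) ≤
      |C| * (Real.log x) ^ M * (C1 * (Real.log x) ^ m1 *
      (((a : ℝ) + b) ^ 2 * ((2 * (1 + |Real.log a|)) * Real.log x) *
      (C' * x ^ ((1 / 2 - ρ) + (1 / 2 - ρ) * (1 / 100) : ℝ)))) := by gcongr
    have h2 : |C| * (Real.log x) ^ M * (C1 * (Real.log x) ^ m1 *
      (((a : ℝ) + b) ^ 2 * ((2 * (1 + |Real.log a|)) * Real.log x) *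
      (C' * x ^ ((1 / 2 - ρ) + (1 / 2 - ρ) * (1 / 100) : ℝ)))) * 2 =
      |C| * C1 * (C' * ((a : ℝ) + b) ^ 2 * (2 * (1 + |Real.log a|)) * 2) *
        (Real.log x) ^ (M + m1 + 1) *
        x ^ ((1 / 2 - ρ) + (1 / 2 - ρ) * (1 / 100) : ℝ) := by ring
    rw [Real.rpow_one] at ev2
    linarith
  have hsumnn : 0 ≤ ∑ q ∈ S, (3 * K) ^ q.primeFactors.card *
      |psiLogAP (a * x) (a * m * q) (r q) - psiLog1 (a * x) / (Nat.totient (a * m * q) : ℝ)| +
      ((a : ℝ) + b) ^ 2 * (Real.log (a * x) + 1) * ∑ q ∈ S, (3 * K) ^ q.primeFactors.card := by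
    positivity
  calc _ ≤ |C| * (Real.log x) ^ M * (C1 * (Real.log x) ^ m1 *
        (a * x / (Real.log x) ^ (M + m1 + 1) +
        ((a : ℝ) + b) ^ 2 * (Real.log (a * x) + 1) *
      (C' * x ^ ((1 / 2 - ρ) + (1 / 2 - ρ) * (1 / 100) : ℝ)))) := by
        apply mul_le_mul
        · gcongr
          exact le_abs_self C
        · apply mul_le_mul hpre _ hsumnn (by positivity)
          gcongr
        · exact mul_nonneg (sq_nonneg _) hsumnn
        · positivity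
    _ = |C| * (Real.log x) ^ M * (C1 * (Real.log x) ^ m1 *
        (a * x / (Real.log x) ^ (M + m1 + 1))) +
        |C| * (Real.log x) ^ M * (C1 * (Real.log x) ^ m1 *
        (((a : ℝ) + b) ^ 2 * (Real.log (a * x) + 1) *
      (C' * x ^ ((1 / 2 - ρ) + (1 / 2 - ρ) * (1 / 100) : ℝ)))) := by ring
    _ ≤ x := by linarith

end Pool.Agent.H362R2.CM
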