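import Mathlib
import Pool.Agent.H362R2.CM.PairAlg

/-! Coloured Maynard-Tao: upper bound for the model form. -/

namespace Pool.Agent.H362R2.CM

open Finset
open Pool.Agent.H410R2

section qu
variable {ι J : Type} [Fintype ι] [DecidableEq ι] [Fintype J] [DecidableEq J]

/-- sums over colourings avoiding `i` of products over the other colours -/
theorem sum_avoid_tuple_le (i : J) (F : J → Finset ι → ℝ) (hF : ∀ l a, 0 ≤ F l a) :
    ∑ σ ∈ univ.filter (fun σ : ι → Option J => ∀ t, σ t ≠ some i),
      ∏ l ∈ univ.erase i, F l (fib σ l) ≤ ∏ l ∈ univ.erase i, ∑ a : Finset ι, F l a := by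
  classical
  set F' : J → Finset ι → ℝ := fun l a => if l = i then (if a = ∅ then 1 else 0) else F l a
    with hF'
  have hF'0 : ∀ l a, 0 ≤ F' l a := by
    intro l a
    simp only [hF']
    split_ifs
    · norm_num
    · norm_num
    · exact hF l a
  have h1 := sum_tuple_le F' hF'0
  have h2 : ∏ l, ∑ a : Finset ι, F' l a = ∏ l ∈ univ.erase i, ∑ a : Finset ι, F l a := by
    rw [← Finset.mul_prod_erase univ _ (Finset.mem_univ i)]
    have e1 : ∑ a : Finset ι, F' i a = 1 := by
      simp only [hF', if_true]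
      rw [Finset.sum_ite_eq' univ (∅ : Finset ι) (fun _ => (1 : ℝ))]
      simp
    rw [e1, one_mul]
    refine Finset.prod_congr rfl fun l hl => Finset.sum_congr rfl fun a _ => ?_
    simp only [hF', if_neg (Finset.ne_of_mem_erase hl)]
  rw [h2] at h1
  refine le_trans ?_ h1
  rw [Finset.sum_filter]
  apply Finset.sum_le_sum
  intro σ _
  split_ifs with h
  · apply le_of_eq
    rw [← Finset.mul_prod_erase univ _ (Finset.mem_univ i)]
    have e1 : F' i (fib σ i) = 1 := by
      simp [hF', (fib_eq_empty σ i).2 h]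
    rw [e1, one_mul]
    refine Finset.prod_congr rfl fun l hl => ?_
    simp only [hF', if_neg (Finset.ne_of_mem_erase hl)]
  · exact Finset.prod_nonneg fun l _ => hF'0 _ _

theorem chi_supp (i : J) (pr : ι → ℕ) (ρ σ : ι → Option J)
    (h : ∏ t, chiL i (pr t) (ρ t) (σ t) ≠ 0) (l : J) : fib σ l ⊆ fib ρ l := by
  intro t ht
  rw [mem_fib] at ht ⊢
  have h0 : chiL i (pr t) (ρ t) (σ t) ≠ 0 := fun h0 =>
    h (Finset.prod_eq_zero (Finset.mem_univ t) h0)
  rw [ht] at h0
  by_contra hm
  apply h0
  simp [chiL, hm]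

theorem QI_up (i : J) (pr : ι → ℕ) (hp : ∀ t, 2 ≤ pr t)
    (z : (ι → Option J) → ℝ)
    (hdiag : QI i pr (cw pr z) ≤ ∑ σ ∈ univ.filter (fun σ : ι → Option J => ∀ t, σ t ≠ some i),
      (eI i pr (cw pr z) σ) ^ 2 * mulc pr (fun p => (p : ℝ) - 1) σ)
    (C : ℝ) (hC : 0 ≤ C) (GG : J → ℝ → ℝ) (hG : Prof J GG)
    (hz : ∀ σ, |z σ| ≤ C * (mulc pr (fun p => (p : ℝ) / ((p : ℝ) - 1)) σ *
      ∏ l, GG l (lg pr (fib σ l)))) :
    QI i pr (cw pr z) ≤ C ^ 2 *
      (∏ t, (1 + (Fintype.card J : ℝ) * ((pr t : ℝ) / ((pr t : ℝ) - 1) ^ 3))) ^ 2 *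
      (∑ a : Finset ι, GG i (lg pr a) * ∏ t ∈ a, ((pr t : ℝ) / ((pr t : ℝ) - 1) ^ 2)) ^ 2 *
      ∏ l ∈ univ.erase i, ∑ a : Finset ι,
        (∏ t ∈ a, ((pr t : ℝ) ^ 4 / ((pr t : ℝ) - 1) ^ 5)) * GG l (lg pr a) ^ 2 := by
  classical
  have hp1 : ∀ t, (0 : ℝ) < (pr t : ℝ) - 1 := by
    intro t
    have : (2 : ℝ) ≤ pr t := by exact_mod_cast hp t
    linarith
  have hp0 : ∀ t, (0 : ℝ) < (pr t : ℝ) := fun t => by have := hp1 t; linarith
  have hpp : ∀ t, 1 ≤ (pr t : ℝ) / ((pr t : ℝ) - 1) := fun t => by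
    rw [one_le_div (hp1 t)]; linarith
  set κ := ∏ t, (1 + (Fintype.card J : ℝ) * ((pr t : ℝ) / ((pr t : ℝ) - 1) ^ 3)) with hκ
  set H := ∑ a : Finset ι, GG i (lg pr a) * ∏ t ∈ a, ((pr t : ℝ) / ((pr t : ℝ) - 1) ^ 2) with hH
  have hκ0 : 0 ≤ κ := Finset.prod_nonneg fun t _ => by
    have := hp1 t
    have := hp0 t
    positivity
  have hH0 : 0 ≤ H := Finset.sum_nonneg fun a _ => mul_nonneg (hG.nonneg i _ (lg_nonneg _ _))
    (Finset.prod_nonneg fun t _ => by
      have := hp1 t
      have := hp0 t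
      positivity)
  -- the inner sum
  have hin : ∀ σ : ι → Option J, (∀ t, σ t ≠ some i) →
      |∑ ρ : ι → Option J, z ρ * ∏ t, phiL i (pr t) (ρ t) (σ t)| ≤
      C * (mulc pr (fun p => (p : ℝ) / ((p : ℝ) - 1)) σ * κ * H *
        ∏ l ∈ univ.erase i, GG l (lg pr (fib σ l))) := by
    intro σ hσ
    set E := ∏ l ∈ univ.erase i, GG l (lg pr (fib σ l)) with hE
    have hE0 : 0 ≤ E := Finset.prod_nonneg fun l _ => hG.nonneg l _ (lg_nonneg _ _)
    set w : ι → Option J → ℝ := fun t v =>
      (if v = none then 1 else (pr t : ℝ) / ((pr t : ℝ) - 1)) * chiL i (pr t) v (σ t) with hw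
    have hw0 : ∀ t v, 0 ≤ w t v := by
      intro t v
      simp only [hw]
      apply mul_nonneg _ (chiL_nonneg i (pr t) (hp t) _ _)
      split_ifs
      · norm_num
      · exact zero_le_one.trans (hpp t)
    have hfl := fib_le w hw0 i (fun a => GG i (lg pr a)) (fun a => hG.nonneg i _ (lg_nonneg _ _))
      (fun t => (pr t : ℝ) / ((pr t : ℝ) - 1) ^ 2)
      (fun t => (if σ t = none then 1 else (pr t : ℝ) / ((pr t : ℝ) - 1)) *
        (1 + (Fintype.card J : ℝ) * ((pr t : ℝ) / ((pr t : ℝ) - 1) ^ 3)))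
      (by
        intro t
        have h1 := hp1 t
        have h0 := hp0 t
        simp only [hw]
        rcases hs : σ t with _ | l
        · simp only [chiL, reduceCtorEq, if_false, if_true]
          apply le_of_eq
          field_simp
        · have hl : ¬ i = l := by
            intro h
            apply hσ t
            rw [hs, h]
          simp only [chiL, Option.some.injEq, hl, if_false, mul_zero]
          positivity)
      (by
        intro t
        have h1 := hp1 t
        have h0 := hp0 t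
        simp only [hw]
        rw [Finset.sum_filter, Fintype.sum_option]
        rcases hs : σ t with _ | l
        · have h2 : ∑ x : J, (if some x ≠ some i then
              (if (some x : Option J) = none then 1 else (pr t : ℝ) / ((pr t : ℝ) - 1)) *
                chiL i (pr t) (some x) none else 0) ≤
              ∑ _x : J, ((pr t : ℝ) / ((pr t : ℝ) - 1) ^ 3) := by
            apply Finset.sum_le_sum
            intro x _
            by_cases hx : x = i
            · simp only [hx, ne_eq, not_true_eq_false, if_false]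
              positivity
            · have hx' : (some x : Option J) ≠ some i := fun h => hx (Option.some_inj.1 h)
              rw [if_pos hx']
              simp only [reduceCtorEq, if_false, chiL, hx]
              apply le_of_eq
              field_simp
          rw [Finset.sum_const, Finset.card_univ, nsmul_eq_mul] at h2
          have h3 : (if (none : Option J) ≠ some i then
              (if (none : Option J) = none then 1 else (pr t : ℝ) / ((pr t : ℝ) - 1)) *
                chiL i (pr t) none none else 0) = 1 := by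
            simp [chiL]
          rw [h3, if_pos rfl, one_mul]
          linarith
        · have hl : ¬ l = i := by
            intro h
            apply hσ t
            rw [hs, h]
          have h2 : ∑ x : J, (if some x ≠ some i then
              (if (some x : Option J) = none then 1 else (pr t : ℝ) / ((pr t : ℝ) - 1)) *
                chiL i (pr t) (some x) (some l) else 0) = (pr t : ℝ) / ((pr t : ℝ) - 1) := by
            rw [Finset.sum_eq_single l]
            · simp [chiL, hl]
            · intro x _ hx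
              simp [chiL, hx]
            · intro h; exact absurd (Finset.mem_univ l) h
          have h3 : (if (none : Option J) ≠ some i then
              (if (none : Option J) = none then 1 else (pr t : ℝ) / ((pr t : ℝ) - 1)) *
                chiL i (pr t) none (some l) else 0) = 0 := by
            simp [chiL]
          rw [h2, h3, zero_add, if_neg (by simp)]
          apply le_mul_of_one_le_right (by positivity)
          have : 0 ≤ (Fintype.card J : ℝ) * ((pr t : ℝ) / ((pr t : ℝ) - 1) ^ 3) := by positivity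
          linarith)
      (by
        intro t
        have h1 := hp1 t
        have h0 := hp0 t
        have h2 : 1 ≤ 1 + (Fintype.card J : ℝ) * ((pr t : ℝ) / ((pr t : ℝ) - 1) ^ 3) := by
          have : 0 ≤ (Fintype.card J : ℝ) * ((pr t : ℝ) / ((pr t : ℝ) - 1) ^ 3) := by positivity
          linarith
        split_ifs
        · rw [one_mul]; exact h2
        · have := hpp t
          nlinarith)
    rw [Finset.prod_mul_distrib, ← hκ, ← hH] at hfl
    have hm : (∏ t, if σ t = none then 1 else (pr t : ℝ) / ((pr t : ℝ) - 1)) =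
        mulc pr (fun p => (p : ℝ) / ((p : ℝ) - 1)) σ := rfl
    rw [hm] at hfl
    calc |∑ ρ : ι → Option J, z ρ * ∏ t, phiL i (pr t) (ρ t) (σ t)|
        ≤ ∑ ρ : ι → Option J, |z ρ * ∏ t, phiL i (pr t) (ρ t) (σ t)| :=
          Finset.abs_sum_le_sum_abs _ _
      _ ≤ ∑ ρ : ι → Option J, (C * E) * ((∏ t, w t (ρ t)) * GG i (lg pr (fib ρ i))) := by
          apply Finset.sum_le_sum
          intro ρ _
          rw [abs_mul, Finset.abs_prod]
          have e1 : ∏ t, |phiL i (pr t) (ρ t) (σ t)| = ∏ t, chiL i (pr t) (ρ t) (σ t) :=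
            Finset.prod_congr rfl fun t _ => abs_phiL i (pr t) (hp t) _ _
          rw [e1]
          have e2 : ∏ t, w t (ρ t) = mulc pr (fun p => (p : ℝ) / ((p : ℝ) - 1)) ρ *
              ∏ t, chiL i (pr t) (ρ t) (σ t) := by
            simp only [hw]
            rw [Finset.prod_mul_distrib]
            rfl
          have hchi0 : 0 ≤ ∏ t, chiL i (pr t) (ρ t) (σ t) :=
            Finset.prod_nonneg fun t _ => chiL_nonneg i (pr t) (hp t) _ _
          have hm0 : 0 ≤ mulc pr (fun p => (p : ℝ) / ((p : ℝ) - 1)) ρ := by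
            unfold mulc
            apply Finset.prod_nonneg
            intro t _
            split_ifs
            · norm_num
            · exact zero_le_one.trans (hpp t)
          by_cases hc : ∏ t, chiL i (pr t) (ρ t) (σ t) = 0
          · rw [hc, e2, hc]; simp
          · have hsub := chi_supp i pr ρ σ hc
            have h3 : ∏ l ∈ univ.erase i, GG l (lg pr (fib ρ l)) ≤ E := by
              apply Finset.prod_le_prod
              · intro l _; exact hG.nonneg l _ (lg_nonneg _ _)
              · intro l _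
                exact hG.anti l _ _ (lg_nonneg _ _) (lg_mono pr (hsub l))
            have h4 : 0 ≤ GG i (lg pr (fib ρ i)) := hG.nonneg i _ (lg_nonneg _ _)
            have h5 : |z ρ| ≤ C * (mulc pr (fun p => (p : ℝ) / ((p : ℝ) - 1)) ρ *
                (GG i (lg pr (fib ρ i)) * E)) := by
              refine (hz ρ).trans ?_
              rw [← Finset.mul_prod_erase univ _ (Finset.mem_univ i)]
              gcongr
            calc |z ρ| * ∏ t, chiL i (pr t) (ρ t) (σ t)
                ≤ (C * (mulc pr (fun p => (p : ℝ) / ((p : ℝ) - 1)) ρ *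
                (GG i (lg pr (fib ρ i)) * E))) * ∏ t, chiL i (pr t) (ρ t) (σ t) :=
                  mul_le_mul_of_nonneg_right h5 hchi0
              _ = _ := by rw [e2]; ring
      _ = (C * E) * ∑ ρ : ι → Option J, (∏ t, w t (ρ t)) * GG i (lg pr (fib ρ i)) := by
          rw [Finset.mul_sum]
      _ ≤ (C * E) * (mulc pr (fun p => (p : ℝ) / ((p : ℝ) - 1)) σ * κ * H) :=
          mul_le_mul_of_nonneg_left hfl (mul_nonneg hC hE0)
      _ = _ := by ring
  refine hdiag.trans ?_
  -- bound termwise
  have hterm : ∀ σ ∈ univ.filter (fun σ : ι → Option J => ∀ t, σ t ≠ some i),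
      (eI i pr (cw pr z) σ) ^ 2 * mulc pr (fun p => (p : ℝ) - 1) σ ≤
      (C ^ 2 * κ ^ 2 * H ^ 2) * ∏ l ∈ univ.erase i,
        ((∏ t ∈ fib σ l, ((pr t : ℝ) ^ 4 / ((pr t : ℝ) - 1) ^ 5)) *
          GG l (lg pr (fib σ l)) ^ 2) := by
    intro σ hσ
    have hσ' := (Finset.mem_filter.1 hσ).2
    rw [eI_eq i pr hp z σ hσ']
    have h1 := hin σ hσ'
    set X := ∑ ρ : ι → Option J, z ρ * ∏ t, phiL i (pr t) (ρ t) (σ t) with hX
    set m1 := mulc pr (fun p => (p : ℝ) / ((p : ℝ) - 1)) σ with hm1
    set E := ∏ l ∈ univ.erase i, GG l (lg pr (fib σ l)) with hE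
    have hX2 : X ^ 2 ≤ (C * (m1 * κ * H * E)) ^ 2 := by
      rw [← sq_abs X]
      exact pow_le_pow_left₀ (abs_nonneg _) h1 2
    have hmul0 : 0 ≤ mulc pr (fun p => (p : ℝ) - 1) σ := by
      unfold mulc
      apply Finset.prod_nonneg
      intro t _
      split_ifs
      · norm_num
      · exact (hp1 t).le
    have e3 : ((∏ t, if σ t = none then 1 else -((pr t : ℝ) / ((pr t : ℝ) - 1) ^ 2))) ^ 2 *
        m1 ^ 2 * mulc pr (fun p => (p : ℝ) - 1) σ =
        ∏ l ∈ univ.erase i, ∏ t ∈ fib σ l, ((pr t : ℝ) ^ 4 / ((pr t : ℝ) - 1) ^ 5) := by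
      have e4 : ∏ l ∈ univ.erase i, ∏ t ∈ fib σ l, ((pr t : ℝ) ^ 4 / ((pr t : ℝ) - 1) ^ 5) =
          ∏ l, ∏ t ∈ fib σ l, ((pr t : ℝ) ^ 4 / ((pr t : ℝ) - 1) ^ 5) := by
        rw [← Finset.mul_prod_erase univ (fun l => ∏ t ∈ fib σ l,
          ((pr t : ℝ) ^ 4 / ((pr t : ℝ) - 1) ^ 5)) (Finset.mem_univ i),
          (fib_eq_empty σ i).2 hσ', Finset.prod_empty, one_mul]
      rw [e4, prod_color (fun t => ((pr t : ℝ) ^ 4 / ((pr t : ℝ) - 1) ^ 5)), hm1]
      unfold mulc
      rw [← Finset.prod_pow, ← Finset.prod_pow, ← Finset.prod_mul_distrib,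
        ← Finset.prod_mul_distrib]
      refine Finset.prod_congr rfl fun t _ => ?_
      by_cases h : σ t = none
      · simp [h]
      · simp only [h, if_false]
        have := (hp1 t).ne'
        field_simp
    calc ((∏ t, if σ t = none then 1 else -((pr t : ℝ) / ((pr t : ℝ) - 1) ^ 2)) * X) ^ 2 *
          mulc pr (fun p => (p : ℝ) - 1) σ
        = X ^ 2 * (((∏ t, if σ t = none then 1 else -((pr t : ℝ) / ((pr t : ℝ) - 1) ^ 2))) ^ 2 *
          mulc pr (fun p => (p : ℝ) - 1) σ) := by ring
      _ ≤ (C * (m1 * κ * H * E)) ^ 2 *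
          (((∏ t, if σ t = none then 1 else -((pr t : ℝ) / ((pr t : ℝ) - 1) ^ 2))) ^ 2 *
          mulc pr (fun p => (p : ℝ) - 1) σ) :=
          mul_le_mul_of_nonneg_right hX2 (mul_nonneg (sq_nonneg _) hmul0)
      _ = (C ^ 2 * κ ^ 2 * H ^ 2) *
          ((((∏ t, if σ t = none then 1 else -((pr t : ℝ) / ((pr t : ℝ) - 1) ^ 2))) ^ 2 *
        m1 ^ 2 * mulc pr (fun p => (p : ℝ) - 1) σ) * E ^ 2) := by ring
      _ = _ := by
          rw [e3, Finset.prod_mul_distrib, hE, Finset.prod_pow]
  refine (Finset.sum_le_sum hterm).trans ?_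
  rw [← Finset.mul_sum]
  apply mul_le_mul_of_nonneg_left _ (by positivity)
  apply sum_avoid_tuple_le i (fun l a => (∏ t ∈ a, ((pr t : ℝ) ^ 4 / ((pr t : ℝ) - 1) ^ 5)) *
    GG l (lg pr a) ^ 2)
  intro l a
  apply mul_nonneg _ (sq_nonneg _)
  exact Finset.prod_nonneg fun t _ => by
    have := hp1 t
    have := hp0 t
    positivity

end qu

end Pool.Agent.H362R2.CM
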