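import Mathlib
import Pool.Agent.H361R2.T3

/-! Coloured Maynard-Tao: the model form is at most the diagonal form with weight `p - 1`. -/

namespace Pool.Agent.H362R2.CM

open Finset Pool.Agent.H410R2 Pool.Agent.H361R2

section
variable {J : Type} [Fintype J] [DecidableEq J]

/-- the diagonal upper bound -/
noncomputable def Dup (i : J) (p : ℕ) : Option J → Option J → ℝ
  | none, none => 1
  | none, some _ => 0
  | some _, none => 0
  | some j, some l => if j = i then 0 else if j = l then (p : ℝ) - 1 else 0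

theorem isGram_Gam (i : J) (p : ℕ) (hp : Fintype.card J + 1 ≤ p) : IsGram (Gam i p) := by
  refine ((isGram_Del i p hp).add (isGram_sub i p)).congr ?_
  intro a b
  ring

theorem isGram_up (i : J) (p : ℕ) : IsGram (fun a b => Dup i p a b - Gam i p a b) := by
  refine (IsGram.rankOne (fun a : Option J => match a with
    | none => (0 : ℝ)
    | some j => if j = i then 0 else 1)).congr ?_
  rintro (_ | j) (_ | l)
  · simp [Dup, Gam]
  · simp [Dup, Gam]
  · simp [Dup, Gam]
  · by_cases h : j = i
    · simp [Dup, Gam, h]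
    · by_cases h' : l = i
      · have h2 : ¬ j = l := fun e => h (e.trans h')
        simp [Dup, Gam, h, h']
      · by_cases h2 : j = l
        · subst h2
          simp [Dup, Gam, h]
          ring
        · simp [Dup, Gam, h, h', h2]

end

section
variable {ι J : Type} [Fintype ι] [DecidableEq ι] [Fintype J] [DecidableEq J]

/-- the model form in the recentred basis -/
theorem QI_Gam (pr : ι → ℕ) (i : J) (hpr2 : ∀ t, 2 ≤ pr t) (c : (ι → Option J) → ℝ) :
    QI i pr c = ∑ σ : ι → Option J, ∑ τ : ι → Option J,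
      eI i pr c σ * eI i pr c τ * ∏ t, Gam i (pr t) (σ t) (τ t) := by
  have h1 : ∀ ρ ρ' : ι → Option J, ∏ t, GI i (pr t) (ρ t) (ρ' t) =
      ∑ σ : ι → Option J, ∑ τ : ι → Option J, (∏ t, eps i (pr t) (ρ t) (σ t)) *
        (∏ t, eps i (pr t) (ρ' t) (τ t)) * ∏ t, Gam i (pr t) (σ t) (τ t) := by
    intro ρ ρ'
    have h2 : ∀ t, GI i (pr t) (ρ t) (ρ' t) = ∑ ab : Option J × Option J,
        eps i (pr t) (ρ t) ab.1 * eps i (pr t) (ρ' t) ab.2 * Gam i (pr t) ab.1 ab.2 := by
      intro t
      rw [GI_eq i (pr t) (hpr2 t), Fintype.sum_prod_type]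
    simp only [h2]
    rw [Finset.prod_univ_sum, Fintype.piFinset_univ]
    rw [← Fintype.sum_prod_type']
    refine Fintype.sum_equiv (Equiv.arrowProdEquivProdArrow ι (fun _ => Option J) (fun _ => Option J)) _ _ ?_
    intro st
    simp only [Equiv.arrowProdEquivProdArrow, Equiv.coe_fn_mk]
    rw [← Finset.prod_mul_distrib, ← Finset.prod_mul_distrib]
  have h3 := quad_change c (fun ρ σ : ι → Option J => ∏ t, eps i (pr t) (ρ t) (σ t))
    (fun σ τ : ι → Option J => ∏ t, Gam i (pr t) (σ t) (τ t))
  unfold QI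
  rw [Finset.sum_congr rfl (fun ρ _ => Finset.sum_congr rfl (fun ρ' _ => by rw [h1 ρ ρ']))]
  rw [h3]
  unfold eI
  rfl

/-- upper bound of the model form by the diagonal `p - 1` -/
theorem QI_upper_diag (pr : ι → ℕ) (i : J) (hp : ∀ t, Fintype.card J + 1 ≤ pr t)
    (c : (ι → Option J) → ℝ) :
    QI i pr c ≤ ∑ σ ∈ univ.filter (fun σ : ι → Option J => ∀ t, σ t ≠ some i),
      (eI i pr c σ) ^ 2 * mulc pr (fun p => (p : ℝ) - 1) σ := by
  classical
  have hpr2 : ∀ t, 2 ≤ pr t := by
    intro t
    have h1 := hp t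
    have h2 : 1 ≤ Fintype.card J := Fintype.card_pos_iff.2 ⟨i⟩
    omega
  have hQ := QI_Gam pr i hpr2 c
  have hgram : IsGram (fun σ τ : ι → Option J =>
      ∏ t, Dup i (pr t) (σ t) (τ t) - ∏ t, Gam i (pr t) (σ t) (τ t)) :=
    IsGram.prod_sub univ (G := fun (t : ι) (σ τ : ι → Option J) => Gam i (pr t) (σ t) (τ t))
      (D := fun (t : ι) (σ τ : ι → Option J) => Dup i (pr t) (σ t) (τ t))
      (fun t _ => (isGram_Gam i (pr t) (hp t)).pull (fun σ : ι → Option J => σ t))
      (fun t _ => (isGram_up i (pr t)).pull (fun σ : ι → Option J => σ t))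
  have hnn := hgram.nonneg (eI i pr c)
  have hsplit : ∑ σ : ι → Option J, ∑ τ : ι → Option J, eI i pr c σ * eI i pr c τ *
      (∏ t, Dup i (pr t) (σ t) (τ t) - ∏ t, Gam i (pr t) (σ t) (τ t)) =
      ∑ σ : ι → Option J, ∑ τ : ι → Option J, eI i pr c σ * eI i pr c τ *
        ∏ t, Dup i (pr t) (σ t) (τ t) - QI i pr c := by
    rw [hQ, ← Finset.sum_sub_distrib]
    apply Finset.sum_congr rfl; intro σ _
    rw [← Finset.sum_sub_distrib]
    apply Finset.sum_congr rfl; intro τ _
    ring
  rw [hsplit] at hnn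
  have hdiag : ∑ σ : ι → Option J, ∑ τ : ι → Option J, eI i pr c σ * eI i pr c τ *
        ∏ t, Dup i (pr t) (σ t) (τ t) =
      ∑ σ ∈ univ.filter (fun σ : ι → Option J => ∀ t, σ t ≠ some i),
      (eI i pr c σ) ^ 2 * mulc pr (fun p => (p : ℝ) - 1) σ := by
    rw [Finset.sum_filter]
    apply Finset.sum_congr rfl
    intro σ _
    rw [Finset.sum_eq_single σ]
    · by_cases h : ∀ t, σ t ≠ some i
      · rw [if_pos h]
        have : ∏ t, Dup i (pr t) (σ t) (σ t) = mulc pr (fun p => (p : ℝ) - 1) σ := by
          unfold mulc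
          apply Finset.prod_congr rfl
          intro t _
          have ht := h t
          rcases hσ : σ t with _ | j
          · simp [Dup]
          · have hj : j ≠ i := by
              rw [hσ] at ht
              exact fun e => ht (by rw [e])
            simp [Dup, hj]
        rw [this]; ring
      · rw [if_neg h]
        push Not at h
        obtain ⟨t, ht⟩ := h
        have : ∏ t, Dup i (pr t) (σ t) (σ t) = 0 := by
          apply Finset.prod_eq_zero (mem_univ t)
          rw [ht]
          simp [Dup]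
        rw [this, mul_zero]
    · intro τ _ hτ
      have : ∃ t, σ t ≠ τ t := by
        by_contra hc
        push Not at hc
        exact hτ (funext fun t => (hc t).symm)
      obtain ⟨t, ht⟩ := this
      have : ∏ t, Dup i (pr t) (σ t) (τ t) = 0 := by
        apply Finset.prod_eq_zero (mem_univ t)
        rcases hσ : σ t with _ | j <;> rcases hτ' : τ t with _ | l
        · rw [hσ, hτ'] at ht; exact absurd rfl ht
        · simp [Dup]
        · simp [Dup]
        · rw [hσ, hτ'] at ht
          have hjl : j ≠ l := fun e => ht (by rw [e])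
          simp [Dup, hjl]
      rw [this, mul_zero]
    · intro h; exact absurd (mem_univ σ) h
  rw [hdiag] at hnn
  linarith

end

end Pool.Agent.H362R2.CM
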