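import Mathlib
import Pool.Agent.H362R2.CM.Defs
import Pool.Agent.H362R2.CM.QuadUp
import Pool.Agent.H362R2.CM.Qup

/-! Coloured Maynard-Tao: the model form of the modified weights, fixed `x`. -/

namespace Pool.Agent.H362R2.CM

open Finset Filter Topology
open Pool.Agent.H410R2 hiding GP GP_prof GP_cut_some GP_cut_none GP_lip gg_pos gg_le_one gg_anti ee_bound ee_nonneg gg_lip LB_gg LB_ee Sums exists_sums yx wx wxi Br sum_GP_none sum_GP_some sum_GP_some_ee sum_GP_some_one sum_GPr_none sum_GPr_some S1_final QI_final S2_final w_abs_le wmax gg ee I1 I2 IE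
open Pool.Agent.H361R2.GM

variable {k : ℕ}

/-- the modified weights for the pair bound -/
noncomputable def zP (Q : SPar) (k : ℕ) (P : Finset ℕ) (L Λ : ℝ) (j : Fin k) :
    (IP P → Option (Option (Fin k))) → ℝ :=
  ymod (some j) (prP P) (uj (some j) (prP P) Λ) (yP Q k P L)

/-- the profile with the special coordinate -/
noncomputable def GQ (Q : SPar) (k : ℕ) (L Λ : ℝ) (j : Fin k) (l : Option (Fin k)) (s : ℝ) : ℝ :=
  if l = some j then (if s ≤ Λ then 1 else 0) else GP Q k L (L / 48) l s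

theorem GQ_prof (Q : SPar) (k : ℕ) (L Λ : ℝ) (hL : 0 < L) (j : Fin k) :
    Prof (Option (Fin k)) (GQ Q k L Λ j) := by
  have hG := GP_prof Q k L (L / 48) hL (by positivity)
  refine ⟨?_, ?_, ?_⟩
  · intro l s hs
    unfold GQ
    split_ifs
    · norm_num
    · norm_num
    · exact hG.nonneg l s hs
  · intro l s hs
    unfold GQ
    split_ifs
    · norm_num
    · norm_num
    · exact hG.le_one l s hs
  · intro l s t hs hst
    unfold GQ
    by_cases hl : l = some j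
    · rw [if_pos hl, if_pos hl]
      by_cases ht : t ≤ Λ
      · rw [if_pos ht, if_pos (hst.trans ht)]
      · rw [if_neg ht]
        split_ifs <;> norm_num
    · rw [if_neg hl, if_neg hl]
      exact hG.anti l s t hs hst

theorem zP_nonneg (Q : SPar) (P : Finset ℕ) (hP : ∀ p ∈ P, 2 ≤ p) (L Λ : ℝ) (hL : 0 < L)
    (j : Fin k) (σ : IP P → Option (Option (Fin k))) : 0 ≤ zP Q k P L Λ j σ := by
  apply ymod_nonneg (some j) (prP P) (fun t => hP t.1 t.2) _ _ (uj_nonneg _ _ _)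
  intro τ
  exact yw_nonneg _ _ _ (GP_prof Q k L (L / 48) hL (by positivity)) _ _

/-- the quotient of the one-dimensional sums -/
noncomputable def CZ (Q : SPar) (P : Finset ℕ) (L Λ : ℝ) : ℝ :=
  SS P h0 Q.c L Q.gg / SS P h0 1 Λ (fun _ => 1)

theorem sumS_eq (Q : SPar) (P : Finset ℕ) (hP : ∀ p ∈ P, 2 ≤ p) (L : ℝ) (h : ℕ → ℝ)
    (i : Fin k) :
    ∑ a : Finset (IP P), GP Q k L (L / 48) (some i) (lg (prP P) a) * ∏ t ∈ a, h (prP P t) =
      SS P h Q.c L Q.gg := by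
  rw [SS_eq _ _ _ _ _ (fun p hp => by have := hP p hp; omega)]
  refine Finset.sum_congr rfl fun a _ => ?_
  simp only [GP]
  rw [mul_comm]

theorem sumZ_eq (P : Finset ℕ) (hP : ∀ p ∈ P, 2 ≤ p) (Λ : ℝ) (h : ℕ → ℝ) :
    ∑ a : Finset (IP P), (if lg (prP P) a ≤ Λ then (1 : ℝ) else 0) * ∏ t ∈ a, h (prP P t) =
      SS P h 1 Λ (fun _ => 1) := by
  rw [SS_eq _ _ _ _ _ (fun p hp => by have := hP p hp; omega)]
  refine Finset.sum_congr rfl fun a _ => ?_
  rw [one_mul, mul_comm]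

theorem zP_le (Q : SPar) (P : Finset ℕ) (hP : ∀ p ∈ P, 2 ≤ p) (L Λ : ℝ) (hL : 0 < L)
    (hΛ : 0 ≤ Λ) (j : Fin k) (σ : IP P → Option (Option (Fin k))) :
    zP Q k P L Λ j σ ≤ CZ Q P L Λ * (mulc (prP P) (fun p => (p : ℝ) / ((p : ℝ) - 1)) σ *
      ∏ l, GQ Q k L Λ j l (lg (prP P) (fib σ l))) := by
  have hG := GP_prof Q k L (L / 48) hL (by positivity)
  have h := ymod_le (some j) (prP P) (fun t => hP t.1 t.2) Λ hΛ (yP Q k P L)
    (fun l a => GP Q k L (L / 48) l (lg (prP P) a)) (fun l a => hG.nonneg l _ (lg_nonneg _ _))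
    (fun τ => yw_le_prod _ _ _ hG _ _) σ
  have e1 := sumS_eq (k := k) Q P hP L h0 j
  have e2 := sumZ_eq P hP Λ h0
  have e3 : (∏ l ∈ univ.erase (some j), GP Q k L (L / 48) l (lg (prP P) (fib σ l))) *
      uj (some j) (prP P) Λ σ = ∏ l, GQ Q k L Λ j l (lg (prP P) (fib σ l)) := by
    rw [← Finset.mul_prod_erase univ _ (Finset.mem_univ (some j)), mul_comm]
    congr 1
    · unfold uj GQ
      rw [if_pos rfl]
    · refine Finset.prod_congr rfl fun l hl => ?_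
      unfold GQ
      rw [if_neg (Finset.ne_of_mem_erase hl)]
  unfold CZ
  rw [← e1, ← e2, ← e3]
  exact h

theorem CZ_nonneg (Q : SPar) (P : Finset ℕ) (hP : ∀ p ∈ P, 2 ≤ p) (L Λ : ℝ) (hL : 0 < L)
    (hΛ : 0 < Λ) : 0 ≤ CZ Q P L Λ := by
  have hh : ∀ p ∈ P, 0 ≤ h0 p := by
    intro p hp
    have : (2 : ℝ) ≤ p := by exact_mod_cast hP p hp
    unfold h0
    have : (0 : ℝ) < (p : ℝ) - 1 := by linarith
    positivity
  apply div_nonneg
  · exact SS_nonneg _ _ _ _ _ hh (fun p hp => by have := hP p hp; omega) hL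
      fun t ht => (gg_pos Q ht).le
  · exact SS_nonneg _ _ _ _ _ hh (fun p hp => by have := hP p hp; omega) hΛ
      fun t ht => zero_le_one

theorem SSZ_pos (P : Finset ℕ) (hP : ∀ p ∈ P, 2 ≤ p) (Λ : ℝ) (hΛ : 0 ≤ Λ) :
    0 < SS P h0 1 Λ (fun _ => 1) := by
  rw [← sumZ_eq P hP Λ h0]
  have hw : ∀ a : Finset (IP P), 0 ≤ ∏ t ∈ a, h0 (prP P t) := fun a =>
    Finset.prod_nonneg fun t _ => by
      have : (2 : ℝ) ≤ (t.1 : ℝ) := by exact_mod_cast hP t.1 t.2
      unfold h0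
      have : (0 : ℝ) < (t.1 : ℝ) - 1 := by linarith
      positivity
  have h1 := Finset.single_le_sum (f := fun a : Finset (IP P) =>
    (if lg (prP P) a ≤ Λ then (1 : ℝ) else 0) * ∏ t ∈ a, h0 (prP P t))
    (fun a _ => mul_nonneg (by split_ifs <;> norm_num) (hw a)) (Finset.mem_univ ∅)
  have h2 : lg (prP P) (∅ : Finset (IP P)) ≤ Λ := by simpa [lg] using hΛ
  simp only [if_pos h2, Finset.prod_empty, mul_one] at h1
  linarith

theorem CZ_le_one (Q : SPar) (P : Finset ℕ) (hP : ∀ p ∈ P, 2 ≤ p) (L Λ : ℝ) (hL : 0 < L)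
    (hΛ : 0 ≤ Λ) (h : Q.c * L ≤ Λ) : CZ Q P L Λ ≤ 1 := by
  unfold CZ
  rw [div_le_one (SSZ_pos P hP Λ hΛ)]
  rw [SS_eq _ _ _ _ _ (fun p hp => by have := hP p hp; omega),
    SS_eq _ _ _ _ _ (fun p hp => by have := hP p hp; omega)]
  apply Finset.sum_le_sum
  intro a _
  apply mul_le_mul_of_nonneg_left
  · have h1 := lg_nonneg (fun t : {p // p ∈ P} => t.1) a
    by_cases h2 : lg (fun t : {p // p ∈ P} => t.1) a ≤ Q.c * L
    · rw [if_pos h2, if_pos (by linarith)]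
      exact gg_le_one Q (by positivity)
    · rw [if_neg h2]
      split_ifs <;> norm_num
  · exact Finset.prod_nonneg fun t _ => by
      have : (2 : ℝ) ≤ (t.1 : ℝ) := by exact_mod_cast hP t.1 t.2
      unfold h0
      have : (0 : ℝ) < (t.1 : ℝ) - 1 := by linarith
      positivity

/-- size of the modified weights -/
theorem zP_le_prod (Q : SPar) (P : Finset ℕ) (hP : ∀ p ∈ P, 2 ≤ p) (L Λ : ℝ) (hL : 0 < L)
    (hΛ : 0 < Λ) (h : Q.c * L ≤ Λ) (j : Fin k) (σ : IP P → Option (Option (Fin k))) :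
    zP Q k P L Λ j σ ≤ ∏ t : IP P, ((prP P t : ℝ) / ((prP P t : ℝ) - 1)) := by
  have hG := GQ_prof Q k L Λ hL j
  have hp1 : ∀ t : IP P, (0 : ℝ) < (prP P t : ℝ) - 1 := by
    intro t
    have : (2 : ℝ) ≤ (t.1 : ℝ) := by exact_mod_cast hP t.1 t.2
    have e : (prP P t : ℝ) = (t.1 : ℝ) := rfl
    rw [e]; linarith
  have hpp : ∀ t : IP P, 1 ≤ (prP P t : ℝ) / ((prP P t : ℝ) - 1) := fun t => by
    rw [one_le_div (hp1 t)]; linarith
  refine (zP_le Q P hP L Λ hL hΛ.le j σ).trans ?_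
  have h1 := CZ_le_one Q P hP L Λ hL hΛ.le h
  have h2 := CZ_nonneg Q P hP L Λ hL hΛ
  have h3 : ∏ l, GQ Q k L Λ j l (lg (prP P) (fib σ l)) ≤ 1 :=
    Finset.prod_le_one (fun l _ => hG.nonneg l _ (lg_nonneg _ _))
      (fun l _ => hG.le_one l _ (lg_nonneg _ _))
  have h4 : 0 ≤ ∏ l, GQ Q k L Λ j l (lg (prP P) (fib σ l)) :=
    Finset.prod_nonneg fun l _ => hG.nonneg l _ (lg_nonneg _ _)
  have h5 : mulc (prP P) (fun p => (p : ℝ) / ((p : ℝ) - 1)) σ ≤
      ∏ t : IP P, ((prP P t : ℝ) / ((prP P t : ℝ) - 1)) := by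
    unfold mulc
    apply Finset.prod_le_prod
    · intro t _
      split_ifs
      · norm_num
      · exact zero_le_one.trans (hpp t)
    · intro t _
      split_ifs
      · exact hpp t
      · exact le_rfl
  have h6 : 0 ≤ mulc (prP P) (fun p => (p : ℝ) / ((p : ℝ) - 1)) σ := by
    unfold mulc
    apply Finset.prod_nonneg
    intro t _
    split_ifs
    · norm_num
    · exact zero_le_one.trans (hpp t)
  have h7 := h6.trans h5
  calc CZ Q P L Λ * (mulc (prP P) (fun p => (p : ℝ) / ((p : ℝ) - 1)) σ *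
      ∏ l, GQ Q k L Λ j l (lg (prP P) (fib σ l)))
      ≤ 1 * ((∏ t : IP P, ((prP P t : ℝ) / ((prP P t : ℝ) - 1))) * 1) := by
        gcongr
    _ = _ := by ring

/-- support of the modified weights -/
theorem zP_supp (Q : SPar) (P : Finset ℕ) (hP : ∀ p ∈ P, 2 ≤ p) (L Λ : ℝ) (hL : 0 < L)
    (j : Fin k) (σ : IP P → Option (Option (Fin k))) (h : zP Q k P L Λ j σ ≠ 0) :
    lgt (prP P) σ ≤ L / 48 + L + Λ := by
  have hG := GP_prof Q k L (L / 48) hL (by positivity)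
  unfold zP ymod at h
  have h1 : uj (some j) (prP P) Λ σ ≠ 0 := right_ne_zero_of_mul h
  have h2 : YY (some j) (prP P) (yP Q k P L) (era (some j) σ) ≠ 0 := by
    intro h0
    rw [h0, zero_div, zero_mul] at h
    exact h rfl
  have h3 : lg (prP P) (fib σ (some j)) ≤ Λ := by
    by_contra hcon
    apply h1
    unfold uj
    rw [if_neg hcon]
  -- some `τ` with the same other colours
  obtain ⟨τ, -, hτ⟩ := Finset.exists_ne_zero_of_sum_ne_zero h2
  have h4 : yP Q k P L τ ≠ 0 := left_ne_zero_of_mul hτ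
  have h5 : era (some j) τ = era (some j) σ :=
    psi_supp (some j) (prP P) τ _ (era_ne (some j) σ) (right_ne_zero_of_mul hτ)
  have h6 : lgt (prP P) τ ≤ L / 48 + L :=
    yw_supp (prP P) none (GP Q k L (L / 48)) L (L / 48)
      (fun s hs hs' => GP_cut_none Q k _ _ s hs hs') τ h4
  rw [lgt_eq, ← Finset.add_sum_erase _ _ (Finset.mem_univ (some j))] at h6 ⊢
  have h7 : ∑ l ∈ univ.erase (some j), lg (prP P) (fib σ l) =
      ∑ l ∈ univ.erase (some j), lg (prP P) (fib τ l) := by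
    refine Finset.sum_congr rfl fun l hl => ?_
    have hl' := Finset.ne_of_mem_erase hl
    rw [← era_fib (some j) σ l hl', ← era_fib (some j) τ l hl', h5]
  have h8 := lg_nonneg (prP P) (fib τ (some j))
  rw [h7]
  linarith

theorem sumG_none (Q : SPar) (P : Finset ℕ) (hP : ∀ p ∈ P, 2 ≤ p) (L Λ : ℝ) (h : ℕ → ℝ)
    (j : Fin k) :
    ∑ a : Finset (IP P), (∏ t ∈ a, h (prP P t)) * GQ Q k L Λ j none (lg (prP P) a) ^ 2 =
      SS P h 1 (L / 48) (fun t => (1 - t) ^ 2) := by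
  rw [SS_eq _ _ _ _ _ (fun p hp => by have := hP p hp; omega)]
  refine Finset.sum_congr rfl fun a _ => ?_
  simp only [GQ, GP, reduceCtorEq, if_false, one_mul]
  congr 1
  split_ifs <;> simp

theorem sumG_j (Q : SPar) (P : Finset ℕ) (hP : ∀ p ∈ P, 2 ≤ p) (L Λ : ℝ) (h : ℕ → ℝ)
    (j : Fin k) :
    ∑ a : Finset (IP P), (∏ t ∈ a, h (prP P t)) * GQ Q k L Λ j (some j) (lg (prP P) a) ^ 2 =
      SS P h 1 Λ (fun _ => 1) := by
  rw [SS_eq _ _ _ _ _ (fun p hp => by have := hP p hp; omega)]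
  refine Finset.sum_congr rfl fun a _ => ?_
  simp only [GQ, if_true, one_mul]
  congr 1
  split_ifs <;> simp

theorem sumG_some (Q : SPar) (P : Finset ℕ) (hP : ∀ p ∈ P, 2 ≤ p) (L Λ : ℝ) (h : ℕ → ℝ)
    (j m : Fin k) (hm : m ≠ j) :
    ∑ a : Finset (IP P), (∏ t ∈ a, h (prP P t)) * GQ Q k L Λ j (some m) (lg (prP P) a) ^ 2 =
      SS P h Q.c L (fun t => Q.gg t ^ 2) := by
  rw [SS_eq _ _ _ _ _ (fun p hp => by have := hP p hp; omega)]
  refine Finset.sum_congr rfl fun a _ => ?_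
  have : (some m : Option (Fin k)) ≠ some j := fun h => hm (Option.some_inj.1 h)
  simp only [GQ, GP, if_neg this]
  congr 1
  split_ifs <;> simp

/-- upper bound of the model form for the modified weights -/
theorem QIz_le (Q : SPar) {D : ℕ} (hkD : k + 2 ≤ D) (hB : 0 < BD D) (ε : ℝ) (hε : 0 < ε)
    (hε1 : ε < 1 / 3) (hI1 : 0 < Q.I1) (hI2 : 0 < Q.I2) (L Λ : ℝ) (hL : 0 < L) (hΛ : 0 < Λ)
    (P : Finset ℕ) (hP : ∀ p ∈ P, p.Prime ∧ D < p)
    (hκ : ∏ t : IP P, (1 + ((k + 1 : ℕ) : ℝ) * ((prP P t : ℝ) / ((prP P t : ℝ) - 1) ^ 3)) ≤ 1 + ε)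
    (hS : Sums2 Q D ε L Λ P) (i j : Fin k) (hij : i ≠ j) :
    QI (some i) (prP P) (cw (prP P) (zP Q k P L Λ j)) ≤
      (BD D * L * (Q.I1 + ε)) ^ 2 / (BD D * Λ * (1 - ε)) ^ 2 * (1 + ε) ^ 2 *
        (BD D * L * (Q.I1 + ε)) ^ 2 *
        ((BD D * (L / 48) * (1 / 3 + ε)) * ((BD D * Λ * (1 + ε)) *
          (BD D * L * (Q.I2 + ε)) ^ (k - 2))) := by
  classical
  have hP2 : ∀ p ∈ P, 2 ≤ p := fun p hp => (hP p hp).1.two_le
  have hp2 : ∀ t : IP P, 2 ≤ prP P t := fun t => hP2 t.1 t.2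
  have hp1 : ∀ t : IP P, (0 : ℝ) < (prP P t : ℝ) - 1 := by
    intro t
    have : (2 : ℝ) ≤ (prP P t : ℝ) := by exact_mod_cast hp2 t
    linarith
  have hp0 : ∀ t : IP P, (0 : ℝ) < (prP P t : ℝ) := fun t => by have := hp1 t; linarith
  have hpJ : ∀ t : IP P, Fintype.card (Option (Fin k)) + 1 ≤ prP P t := by
    intro t
    rw [cardJ]
    have h1 := (hP t.1 t.2).2
    have : prP P t = t.1 := rfl
    omega
  have hG := GQ_prof Q k L Λ hL j
  have hC0 := CZ_nonneg Q P hP2 L Λ hL hΛ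
  have h := QI_up (some i) (prP P) hp2 (zP Q k P L Λ j)
    (QI_upper_diag (prP P) (some i) hpJ _) (CZ Q P L Λ) hC0 (GQ Q k L Λ j) hG
    (fun σ => by
      rw [abs_of_nonneg (zP_nonneg Q P hP2 L Λ hL j σ)]
      exact zP_le Q P hP2 L Λ hL hΛ.le j σ)
  rw [cardJ] at h
  -- identify the sums
  have hi' : (some i : Option (Fin k)) ≠ some j := fun h => hij (Option.some_inj.1 h)
  have eH : ∑ a : Finset (IP P), GQ Q k L Λ j (some i) (lg (prP P) a) *
      ∏ t ∈ a, ((prP P t : ℝ) / ((prP P t : ℝ) - 1) ^ 2) = SS P h1 Q.c L Q.gg := by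
    rw [← sumS_eq (k := k) Q P hP2 L h1 i]
    refine Finset.sum_congr rfl fun a _ => ?_
    unfold GQ
    rw [if_neg hi']
    rfl
  rw [eH] at h
  have eP : ∏ l ∈ univ.erase (some i), ∑ a : Finset (IP P),
        (∏ t ∈ a, ((prP P t : ℝ) ^ 4 / ((prP P t : ℝ) - 1) ^ 5)) *
          GQ Q k L Λ j l (lg (prP P) a) ^ 2 =
      SS P h5 1 (L / 48) (fun t => (1 - t) ^ 2) * (SS P h5 1 Λ (fun _ => 1) *
        SS P h5 Q.c L (fun t => Q.gg t ^ 2) ^ (k - 2)) := by
    have hn : (none : Option (Fin k)) ∈ (univ : Finset (Option (Fin k))).erase (some i) := by simp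
    rw [← Finset.mul_prod_erase _ _ hn]
    have hj : (some j : Option (Fin k)) ∈
        ((univ : Finset (Option (Fin k))).erase (some i)).erase none := by
      simp [Ne.symm hij]
    rw [← Finset.mul_prod_erase _ _ hj]
    have e1 : ∀ l ∈ (((univ : Finset (Option (Fin k))).erase (some i)).erase none).erase (some j),
        ∑ a : Finset (IP P), (∏ t ∈ a, ((prP P t : ℝ) ^ 4 / ((prP P t : ℝ) - 1) ^ 5)) *
          GQ Q k L Λ j l (lg (prP P) a) ^ 2 = SS P h5 Q.c L (fun t => Q.gg t ^ 2) := by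
      intro l hl
      rcases l with _ | m
      · simp at hl
      · have hm : m ≠ j := by
          intro h
          rw [h] at hl
          simp at hl
        exact sumG_some Q P hP2 L Λ h5 j m hm
    rw [Finset.prod_congr rfl e1, Finset.prod_const]
    have hcard : ((((univ : Finset (Option (Fin k))).erase (some i)).erase none).erase
        (some j)).card = k - 2 := by
      rw [Finset.card_erase_of_mem hj, Finset.card_erase_of_mem hn,
        Finset.card_erase_of_mem (Finset.mem_univ _), Finset.card_univ, cardJ]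
      omega
    rw [hcard]
    congr 1
    · exact sumG_none Q P hP2 L Λ h5 j
    · congr 1
      exact sumG_j Q P hP2 L Λ h5 j
  rw [eP] at h
  refine h.trans ?_
  -- nonnegativity
  have hP0 : ∀ p ∈ P, 0 < p := fun p hp => by have := hP2 p hp; omega
  have hpr : ∀ p ∈ P, (0 : ℝ) < (p : ℝ) - 1 := by
    intro p hp
    have : (2 : ℝ) ≤ p := by exact_mod_cast hP2 p hp
    linarith
  have nh0 : ∀ p ∈ P, 0 ≤ h0 p := fun p hp => by have := hpr p hp; unfold h0; positivity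
  have nh1 : ∀ p ∈ P, 0 ≤ h1 p := fun p hp => by have := hpr p hp; unfold h1; positivity
  have nh5 : ∀ p ∈ P, 0 ≤ h5 p := fun p hp => by have := hpr p hp; unfold h5; positivity
  have n1 : 0 ≤ SS P h1 Q.c L Q.gg :=
    SS_nonneg _ _ _ _ _ nh1 hP0 hL fun t ht => (gg_pos Q ht).le
  have n0 : 0 ≤ SS P h0 Q.c L Q.gg :=
    SS_nonneg _ _ _ _ _ nh0 hP0 hL fun t ht => (gg_pos Q ht).le
  have n2 : 0 ≤ SS P h5 1 (L / 48) (fun t => (1 - t) ^ 2) :=
    SS_nonneg _ _ _ _ _ nh5 hP0 (by positivity) fun t _ => sq_nonneg _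
  have n3 : 0 ≤ SS P h5 1 Λ (fun _ => 1) :=
    SS_nonneg _ _ _ _ _ nh5 hP0 hΛ fun t _ => zero_le_one
  have n4 : 0 ≤ SS P h5 Q.c L (fun t => Q.gg t ^ 2) :=
    SS_nonneg _ _ _ _ _ nh5 hP0 hL fun t _ => sq_nonneg _
  have nκ : 0 ≤ ∏ t : IP P, (1 + ((k + 1 : ℕ) : ℝ) * ((prP P t : ℝ) / ((prP P t : ℝ) - 1) ^ 3)) :=
    Finset.prod_nonneg fun t _ => by
      have := hp1 t
      have := hp0 t
      positivity
  have hZ : 0 < BD D * Λ * (1 - ε) := by
    have : 0 < 1 - ε := by linarith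
    positivity
  have hCZ : CZ Q P L Λ ≤ (BD D * L * (Q.I1 + ε)) / (BD D * Λ * (1 - ε)) := by
    unfold CZ
    exact div_le_div₀ (n0.trans hS.b) hS.b hZ hS.f
  have hCZ2 : CZ Q P L Λ ^ 2 ≤ (BD D * L * (Q.I1 + ε)) ^ 2 / (BD D * Λ * (1 - ε)) ^ 2 := by
    rw [← div_pow]
    exact pow_le_pow_left₀ hC0 hCZ 2
  have b1 := hS.a
  have b2 := hS.c
  have b3 := hS.e
  have b4 := hS.d
  gcongr

end Pool.Agent.H362R2.CM
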