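import Mathlib
import Pool.Agent.H362R2.CM.PairQ

/-! Coloured Maynard-Tao: from pairs of primes to the modified weights, fixed `x`. -/

namespace Pool.Agent.H362R2.CM

open Finset Filter Topology
open Pool.Agent.H410R2 hiding GP GP_prof GP_cut_some GP_cut_none GP_lip gg_pos gg_le_one gg_anti ee_bound ee_nonneg gg_lip LB_gg LB_ee Sums exists_sums yx wx wxi Br sum_GP_none sum_GP_some sum_GP_some_ee sum_GP_some_one sum_GPr_none sum_GPr_some S1_final QI_final S2_final w_abs_le wmax gg ee I1 I2 IE
open Pool.Agent.H361R2.GM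

variable {k : ℕ}

theorem wI_eq_aux (Q : SPar) (a b : Fin k → ℕ) (P : Finset ℕ) (L : ℝ) (i : Fin k) (n : ℕ)
    (h : ∀ t : IP P, ¬ prP P t ∣ a i * n + b i) :
    wI a b P i (yP Q k P L) n = wP Q a b P L n := by
  unfold wI wP
  refine Finset.sum_congr rfl fun σ _ => ?_
  congr 1
  unfold hNI hN
  refine Finset.prod_congr rfl fun t _ => ?_
  rcases σ t with _ | j
  · rfl
  · by_cases hj : j = some i
    · subst hj
      have : ¬ prP P t ∣ LF a b (some i) n := h t
      simp [hlI, hl, this]
    · simp [hlI, hl, hj]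

theorem wI_z_eq (Q : SPar) (a b : Fin k → ℕ) (P : Finset ℕ) (hP : ∀ p ∈ P, 2 ≤ p) (L Λ : ℝ)
    (hΛ : 0 ≤ Λ) (i j : Fin k) (hij : i ≠ j) (n : ℕ)
    (h : ∀ t : IP P, ¬ prP P t ∣ a j * n + b j) :
    wI a b P i (zP Q k P L Λ j) n = wI a b P i (yP Q k P L) n := by
  unfold wI zP
  apply sum_ymod (some i) (some j) (fun h => hij (Option.some_inj.1 h).symm) (prP P)
    (fun t => hP t.1 t.2) (LF a b) n
  · intro t
    exact h t
  · intro ρ hρ
    exact (YY_uj_pos (some j) (prP P) (fun t => hP t.1 t.2) Λ hΛ ρ hρ).ne'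

theorem Pr_prime (D : ℕ) (x : ℝ) : ∀ p ∈ Pr D x, p.Prime ∧ D < p := by
  intro p hp
  unfold Pr PW at hp
  rw [Finset.mem_filter, Finset.mem_Icc] at hp
  exact ⟨hp.2, by omega⟩

theorem Pr_le (D : ℕ) (x : ℝ) : ∀ p ∈ Pr D x, (p : ℝ) ≤ Real.exp (Real.log x / 4) := by
  intro p hp
  unfold Pr PW at hp
  rw [Finset.mem_filter, Finset.mem_Icc] at hp
  exact (Nat.cast_le.2 hp.1.2).trans (Nat.floor_le (Real.exp_pos _).le)

theorem not_dvd_of_big (D : ℕ) (x : ℝ) (m : ℕ) (hm : m.Prime)
    (hbig : Real.exp (Real.log x / 4) < (m : ℝ)) (t : IP (Pr D x)) : ¬ prP (Pr D x) t ∣ m := by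
  intro ht
  have h1 := (Pr_prime D x t.1 t.2).1
  have h2 := Pr_le D x t.1 t.2
  have h3 : prP (Pr D x) t = m := (Nat.prime_dvd_prime_iff_eq h1 hm).1 ht
  have h4 : ((prP (Pr D x) t : ℕ) : ℝ) = (m : ℝ) := by rw [h3]
  have h5 : ((prP (Pr D x) t : ℕ) : ℝ) ≤ Real.exp (Real.log x / 4) := h2
  linarith

theorem pair_conv (Q : SPar) {a b : Fin k → ℕ} {D v : ℕ} (hc : Ctx a b D v) (i j : Fin k)
    (hij : i ≠ j) (x ε e : ℝ) (hx : 1 < x) (hε : 0 < ε) (hε1 : ε < 1 / 3)
    (L Λ : ℝ) (hΛ : 0 ≤ Λ)
    (hw : ∀ n : ℕ, 1 ≤ n → (n : ℝ) ≤ x → (wP Q a b (Pr D x) L n) ^ 2 ≤ x ^ e) :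
    (1 - ε) * Real.log x * ∑ n ∈ (Icc 1 ⌊x⌋₊).filter
        (fun n => n ≡ v [MOD (WW D)] ∧ (a i * n + b i).Prime ∧ (a j * n + b j).Prime),
          Real.log (x / n) * (wP Q a b (Pr D x) L n) ^ 2 ≤
      ∑ n ∈ (Icc 1 ⌊x⌋₊).filter
          (fun n => n ≡ v [MOD (WW D)] ∧ ((a i * n + b i : ℕ) : ℝ) ≤ a i * x),
        ArithmeticFunction.vonMangoldt (a i * n + b i) *
          Real.log (a i * x / ((a i * n + b i : ℕ) : ℝ)) *
            (wI a b (Pr D x) i (zP Q k (Pr D x) L Λ j) n) ^ 2 +
      ((Real.log x) ^ 2 * x ^ e * x ^ (1 - ε) + Real.log x * b i * x ^ e * x ^ ε) := by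
  classical
  have hx0 : 0 < x := by linarith
  have hlx : 0 < Real.log x := Real.log_pos hx
  have hP2 : ∀ p ∈ Pr D x, 2 ≤ p := fun p hp => (Pr_prime D x p hp).1.two_le
  have hai : (1 : ℝ) ≤ a i := by exact_mod_cast hc.ha i
  have hai0 : (0 : ℝ) < a i := by linarith
  have hbi : (0 : ℝ) ≤ b i := Nat.cast_nonneg _
  set X := x ^ (1 - ε) with hX
  have hX0 : 0 < X := by positivity
  have hxe : 0 < x ^ e := by positivity
  set S := (Icc 1 ⌊x⌋₊).filter
        (fun n => n ≡ v [MOD (WW D)] ∧ (a i * n + b i).Prime ∧ (a j * n + b j).Prime) with hS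
  set U := (Icc 1 ⌊x⌋₊).filter
          (fun n => n ≡ v [MOD (WW D)] ∧ ((a i * n + b i : ℕ) : ℝ) ≤ a i * x) with hU
  set T1 : ℕ → ℝ := fun n => ArithmeticFunction.vonMangoldt (a i * n + b i) *
          Real.log (a i * x / ((a i * n + b i : ℕ) : ℝ)) *
            (wI a b (Pr D x) i (zP Q k (Pr D x) L Λ j) n) ^ 2 with hT1
  have hmem : ∀ n ∈ Icc 1 ⌊x⌋₊, 1 ≤ n ∧ (n : ℝ) ≤ x := by
    intro n hn
    rw [Finset.mem_Icc] at hn
    exact ⟨hn.1, (Nat.cast_le.2 hn.2).trans (Nat.floor_le hx0.le)⟩
  have hU0 : ∀ n ∈ U, 0 ≤ T1 n := by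
    intro n hn
    rw [hU, Finset.mem_filter] at hn
    have hm0 : (0 : ℝ) < ((a i * n + b i : ℕ) : ℝ) := by
      have : 1 ≤ a i * n + b i := by have := hc.hb i; omega
      exact_mod_cast this
    have hlog1 : 0 ≤ Real.log (a i * x / ((a i * n + b i : ℕ) : ℝ)) := by
      apply Real.log_nonneg
      rw [le_div_iff₀ hm0]
      linarith [hn.2.2]
    have hV0 : 0 ≤ ArithmeticFunction.vonMangoldt (a i * n + b i) :=
      ArithmeticFunction.vonMangoldt_nonneg
    simp only [hT1]
    positivity
  -- pointwise bound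
  have key : ∀ n ∈ S, (1 - ε) * Real.log x * (Real.log (x / n) * (wP Q a b (Pr D x) L n) ^ 2) ≤
      (if n ∈ U then T1 n else 0) + ((if (n : ℝ) ≤ X then (Real.log x) ^ 2 * x ^ e else 0) +
        Real.log x * b i * x ^ e / X) := by
    intro n hn
    rw [hS, Finset.mem_filter] at hn
    obtain ⟨hnI, hnv, hpi, hpj⟩ := hn
    obtain ⟨hn1, hnx⟩ := hmem n hnI
    have hn1' : (1 : ℝ) ≤ n := by exact_mod_cast hn1
    have hn0 : (0 : ℝ) < n := by linarith
    have hlogn : 0 ≤ Real.log (x / n) := by
      apply Real.log_nonneg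
      rw [le_div_iff₀ hn0]
      linarith
    have hlogn' : Real.log (x / n) ≤ Real.log x := by
      apply Real.log_le_log (by positivity)
      exact div_le_self hx0.le hn1'
    have hwn := hw n hn1 hnx
    have hw0 : 0 ≤ (wP Q a b (Pr D x) L n) ^ 2 := sq_nonneg _
    have hT10 : 0 ≤ (if n ∈ U then T1 n else 0) := by
      split_ifs with h
      · exact hU0 n h
      · exact le_rfl
    have hE0 : 0 ≤ Real.log x * b i * x ^ e / X := by positivity
    by_cases hsm : (n : ℝ) ≤ X
    · rw [if_pos hsm]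
      have h1 : (1 - ε) * Real.log x * (Real.log (x / n) * (wP Q a b (Pr D x) L n) ^ 2) ≤
          1 * Real.log x * (Real.log x * x ^ e) := by
        gcongr
        linarith
      have e1 : 1 * Real.log x * (Real.log x * x ^ e) = (Real.log x) ^ 2 * x ^ e := by ring
      linarith
    · rw [if_neg hsm, zero_add]
      have hXn : X < n := not_le.1 hsm
      have hm0 : (0 : ℝ) < ((a i * n + b i : ℕ) : ℝ) := by exact_mod_cast hpi.pos
      have h14 : Real.exp (Real.log x / 4) ≤ X := by
        rw [hX, Real.rpow_def_of_pos hx0]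
        apply Real.exp_le_exp.2
        nlinarith
      have hge : ∀ l : Fin k, (n : ℝ) < ((a l * n + b l : ℕ) : ℝ) := by
        intro l
        have h1 : n < a l * n + b l := by
          have h2 := hc.ha l
          have h3 := hc.hb l
          nlinarith
        exact_mod_cast h1
      have hbi' := not_dvd_of_big D x (a i * n + b i) hpi (by have := hge i; linarith)
      have hbj' := not_dvd_of_big D x (a j * n + b j) hpj (by have := hge j; linarith)
      have hww : wI a b (Pr D x) i (zP Q k (Pr D x) L Λ j) n = wP Q a b (Pr D x) L n := by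
        rw [wI_z_eq Q a b (Pr D x) hP2 L Λ hΛ i j hij n hbj', wI_eq_aux Q a b _ L i n hbi']
      -- the logarithms
      have hcast : ((a i * n + b i : ℕ) : ℝ) = a i * n + b i := by push_cast; ring
      have hlg : Real.log (((a i * n + b i : ℕ) : ℝ) / (a i * n)) ≤ b i / X := by
        have h1 : ((a i * n + b i : ℕ) : ℝ) / (a i * n) = 1 + b i / (a i * n) := by
          rw [hcast]
          field_simp
        have h2 : 0 < 1 + (b i : ℝ) / (a i * n) := by positivity
        have h3 := Real.log_le_sub_one_of_pos h2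
        rw [h1]
        have h4 : (b i : ℝ) / (a i * n) ≤ b i / X := by
          apply div_le_div_of_nonneg_left hbi hX0
          nlinarith
        linarith
      have hsplit : Real.log (x / n) = Real.log (a i * x / ((a i * n + b i : ℕ) : ℝ)) +
          Real.log (((a i * n + b i : ℕ) : ℝ) / (a i * n)) := by
        rw [← Real.log_mul (by positivity) (by positivity)]
        congr 1
        field_simp
      have hEb : Real.log x * (b i / X) * (wP Q a b (Pr D x) L n) ^ 2 ≤
          Real.log x * b i * x ^ e / X := by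
        calc Real.log x * (b i / X) * (wP Q a b (Pr D x) L n) ^ 2 ≤
              Real.log x * (b i / X) * x ^ e := by gcongr
          _ = _ := by ring
      by_cases hcase : ((a i * n + b i : ℕ) : ℝ) ≤ a i * x
      · have hnU : n ∈ U := by
          rw [hU, Finset.mem_filter]
          exact ⟨hnI, hnv, hcase⟩
        rw [if_pos hnU]
        simp only [hT1]
        rw [hww, ArithmeticFunction.vonMangoldt_apply_prime hpi]
        have h5 : (1 - ε) * Real.log x ≤ Real.log ((a i * n + b i : ℕ) : ℝ) := by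
          have h6 : Real.log X = (1 - ε) * Real.log x := by
            rw [hX, Real.log_rpow hx0]
          rw [← h6]
          apply Real.log_le_log hX0
          have := hge i
          linarith
        have hlog1 : 0 ≤ Real.log (a i * x / ((a i * n + b i : ℕ) : ℝ)) := by
          apply Real.log_nonneg
          rw [le_div_iff₀ hm0]
          linarith
        have h7 : (1 - ε) * Real.log x * Real.log (((a i * n + b i : ℕ) : ℝ) / (a i * n)) ≤
            Real.log x * (b i / X) := by
          have h8 : 0 ≤ Real.log (((a i * n + b i : ℕ) : ℝ) / (a i * n)) := by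
            apply Real.log_nonneg
            rw [le_div_iff₀ (by positivity), hcast]
            linarith
          calc (1 - ε) * Real.log x * Real.log (((a i * n + b i : ℕ) : ℝ) / (a i * n)) ≤
                1 * Real.log x * (b i / X) := by
                gcongr
                linarith
            _ = _ := by ring
        have h9 : (1 - ε) * Real.log x * Real.log (a i * x / ((a i * n + b i : ℕ) : ℝ)) ≤
            Real.log ((a i * n + b i : ℕ) : ℝ) *
              Real.log (a i * x / ((a i * n + b i : ℕ) : ℝ)) :=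
          mul_le_mul_of_nonneg_right h5 hlog1
        calc (1 - ε) * Real.log x * (Real.log (x / n) * (wP Q a b (Pr D x) L n) ^ 2)
            = ((1 - ε) * Real.log x * Real.log (a i * x / ((a i * n + b i : ℕ) : ℝ)) +
              (1 - ε) * Real.log x * Real.log (((a i * n + b i : ℕ) : ℝ) / (a i * n))) *
                (wP Q a b (Pr D x) L n) ^ 2 := by rw [hsplit]; ring
          _ ≤ (Real.log ((a i * n + b i : ℕ) : ℝ) *
              Real.log (a i * x / ((a i * n + b i : ℕ) : ℝ)) + Real.log x * (b i / X)) *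
                (wP Q a b (Pr D x) L n) ^ 2 := by
              apply mul_le_mul_of_nonneg_right _ hw0
              linarith
          _ = Real.log ((a i * n + b i : ℕ) : ℝ) *
              Real.log (a i * x / ((a i * n + b i : ℕ) : ℝ)) * (wP Q a b (Pr D x) L n) ^ 2 +
              Real.log x * (b i / X) * (wP Q a b (Pr D x) L n) ^ 2 := by ring
          _ ≤ _ := by linarith
      · have hnU : n ∉ U := by
          rw [hU, Finset.mem_filter]
          exact fun h => hcase h.2.2
        rw [if_neg hnU, zero_add]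
        have hgt : a i * x < ((a i * n + b i : ℕ) : ℝ) := not_le.1 hcase
        have h10 : Real.log (a i * x / ((a i * n + b i : ℕ) : ℝ)) ≤ 0 := by
          apply Real.log_nonpos (by positivity)
          rw [div_le_one hm0]
          exact hgt.le
        have h11 : Real.log (x / n) ≤ b i / X := by
          rw [hsplit]; linarith
        calc (1 - ε) * Real.log x * (Real.log (x / n) * (wP Q a b (Pr D x) L n) ^ 2)
            ≤ 1 * Real.log x * ((b i / X) * (wP Q a b (Pr D x) L n) ^ 2) := by
              gcongr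
              linarith
          _ = Real.log x * (b i / X) * (wP Q a b (Pr D x) L n) ^ 2 := by ring
          _ ≤ _ := hEb
  rw [Finset.mul_sum]
  refine (Finset.sum_le_sum key).trans ?_
  rw [Finset.sum_add_distrib, Finset.sum_add_distrib]
  have hSI : S ⊆ Icc 1 ⌊x⌋₊ := Finset.filter_subset _ _
  have s1 : ∑ n ∈ S, (if n ∈ U then T1 n else 0) ≤ ∑ n ∈ U, T1 n := by
    rw [← Finset.sum_filter]
    apply Finset.sum_le_sum_of_subset_of_nonneg
    · intro n hn
      exact (Finset.mem_filter.1 hn).2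
    · intro n hn _
      exact hU0 n hn
  have s2 : ∑ n ∈ S, (if (n : ℝ) ≤ X then (Real.log x) ^ 2 * x ^ e else 0) ≤
      (Real.log x) ^ 2 * x ^ e * x ^ (1 - ε) := by
    rw [← Finset.sum_filter, Finset.sum_const, nsmul_eq_mul]
    have hcard : ((S.filter (fun n : ℕ => (n : ℝ) ≤ X)).card : ℝ) ≤ X := by
      have h1 : S.filter (fun n : ℕ => (n : ℝ) ≤ X) ⊆ Icc 1 ⌊X⌋₊ := by
        intro n hn
        rw [Finset.mem_filter] at hn
        rw [Finset.mem_Icc]
        exact ⟨(hmem n (hSI hn.1)).1, Nat.le_floor hn.2⟩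
      have h2 := Finset.card_le_card h1
      rw [Nat.card_Icc, Nat.add_sub_cancel] at h2
      exact (Nat.cast_le.2 h2).trans (Nat.floor_le hX0.le)
    calc ((S.filter (fun n : ℕ => (n : ℝ) ≤ X)).card : ℝ) * ((Real.log x) ^ 2 * x ^ e)
        ≤ X * ((Real.log x) ^ 2 * x ^ e) := by gcongr
      _ = _ := by ring
  have s3 : ∑ _n ∈ S, Real.log x * b i * x ^ e / X ≤ Real.log x * b i * x ^ e * x ^ ε := by
    rw [Finset.sum_const, nsmul_eq_mul]
    have hcard : (S.card : ℝ) ≤ x := by
      have h2 := Finset.card_le_card hSI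
      rw [Nat.card_Icc, Nat.add_sub_cancel] at h2
      exact (Nat.cast_le.2 h2).trans (Nat.floor_le hx0.le)
    have e1 : x = X * x ^ ε := by
      rw [hX, ← Real.rpow_add hx0]
      simp
    have hE0 : 0 ≤ Real.log x * b i * x ^ e / X := by positivity
    calc (S.card : ℝ) * (Real.log x * b i * x ^ e / X)
        ≤ x * (Real.log x * b i * x ^ e / X) := by gcongr
      _ = (X * x ^ ε) * (Real.log x * b i * x ^ e / X) := by rw [← e1]
      _ = _ := by field_simp
  linarith

end Pool.Agent.H362R2.CM
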