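import Mathlib
import Pool.Agent.H362R2.CM.PairConv

/-! Coloured Maynard-Tao: the pair bound. -/

namespace Pool.Agent.H362R2.CM

open Finset Filter Topology
open Pool.Agent.H410R2 hiding GP GP_prof GP_cut_some GP_cut_none GP_lip gg_pos gg_le_one gg_anti ee_bound ee_nonneg gg_lip LB_gg LB_ee Sums exists_sums yx wx wxi Br sum_GP_none sum_GP_some sum_GP_some_ee sum_GP_some_one sum_GPr_none sum_GPr_some S1_final QI_final S2_final w_abs_le wmax gg ee I1 I2 IE
open Pool.Agent.H361R2.GM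

variable {k : ℕ}

theorem QI_smul {ι J : Type} [Fintype ι] [DecidableEq ι] [Fintype J] [DecidableEq J]
    (i : J) (pr : ι → ℕ) (c : (ι → Option J) → ℝ) (s : ℝ) :
    QI i pr (fun σ => c σ / s) = QI i pr c / s ^ 2 := by
  unfold QI
  rw [Finset.sum_div]
  refine Finset.sum_congr rfl fun σ _ => ?_
  rw [Finset.sum_div]
  refine Finset.sum_congr rfl fun τ _ => ?_
  rw [sq, mul_comm (c σ / s), div_mul_div_comm]
  ring

/-- application of `S2Approx` to normalised weights -/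
theorem S2_use (hT2 : S2Approx) {a b : Fin k → ℕ} {D v : ℕ} (hc : Ctx a b D v) (i : Fin k)
    (P : Finset ℕ) (hP : ∀ p ∈ P, p.Prime ∧ D < p)
    (z : (IP P → Option (Option (Fin k))) → ℝ) (B : ℝ) (hB : 0 < B) (hz : ∀ σ, |z σ| ≤ B)
    (R : ℝ) (hR : 0 ≤ R) (hsupp : ∀ σ, z σ ≠ 0 → lgt (prP P) σ ≤ R) (x : ℝ) (hx : 1 ≤ x) :
    ∃ r : ℕ → ℕ,
    |∑ n ∈ (Icc 1 ⌊x⌋₊).filter
          (fun n => n ≡ v [MOD (WW D)] ∧ ((a i * n + b i : ℕ) : ℝ) ≤ a i * x),
        ArithmeticFunction.vonMangoldt (a i * n + b i) *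
          Real.log (a i * x / ((a i * n + b i : ℕ) : ℝ)) * (wI a b P i z n) ^ 2
      - psiLog1 (a i * x) / (a i * Nat.totient (WW D)) * QI (some i) (prP P) (cw (prP P) z)| ≤
      B ^ 2 * ((∏ t : IP P, (1 + ((k + 1 : ℕ) : ℝ) / ((prP P t : ℝ) - 1)) *
        ((prP P t : ℝ) / ((prP P t : ℝ) - 1))) ^ 2 *
      ∑ q ∈ (Icc 1 ⌊(Real.exp R) ^ 2⌋₊).filter
        (fun q => Squarefree q ∧ (r q).Coprime (a i * WW D * q)),
        (3 * ((k + 1 : ℕ) : ℝ)) ^ q.primeFactors.card *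
          (|psiLogAP (a i * x) (a i * WW D * q) (r q) -
            psiLog1 (a i * x) / (Nat.totient (a i * WW D * q) : ℝ)| +
            ((a i : ℝ) + b i) ^ 2 * (Real.log (a i * x) + 1))) := by
  have hsd := hc.sd P hP
  have hp2 : ∀ t : IP P, 2 ≤ prP P t := fun t => (hP t.1 t.2).1.two_le
  have hp0 : ∀ t : IP P, 0 < prP P t := fun t => by have := hp2 t; omega
  have hmn : ∀ σ : IP P → Option (Option (Fin k)),
      0 ≤ mulc (prP P) (fun p => 1 / ((p : ℝ) - 1)) σ := by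
    intro σ
    unfold mulc
    apply Finset.prod_nonneg
    intro t _
    split_ifs
    · norm_num
    · have : (2 : ℝ) ≤ (prP P t : ℝ) := by exact_mod_cast hp2 t
      have h3 : 0 < (prP P t : ℝ) - 1 := by linarith
      positivity
  obtain ⟨r, hr⟩ := hT2.use (prP P) (LF a b) (WW D) v (some i) (a i) (b i) hc.hW hsd (hc.ha i)
    (fun n => rfl) (hc.hadvd i) (hc.vcop' i) (fun σ => cw (prP P) z σ / B)
    (Real.exp R) (Real.one_le_exp hR)
    (fun σ => by
      rw [abs_div, abs_cw _ hp2, abs_of_pos hB, mul_div_assoc]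
      apply mul_le_of_le_one_right (hmn σ)
      rw [div_le_one hB]
      exact hz σ)
    (fun σ hσ => by
      rw [mulc_exp _ hp0]
      apply Real.exp_le_exp.2
      apply hsupp
      intro h0
      apply hσ
      unfold cw
      rw [h0, mul_zero, zero_div]) x hx
  refine ⟨r, ?_⟩
  rw [QI_smul, cardJ] at hr
  have hB2 : 0 < B ^ 2 := by positivity
  have e1 : ∀ n : ℕ, (∑ σ, cw (prP P) z σ / B * hNI (some i) (LF a b) (prP P) σ n) ^ 2 =
      (wI a b P i z n) ^ 2 / B ^ 2 := by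
    intro n
    rw [← div_pow]
    congr 1
    unfold wI
    rw [Finset.sum_div]
    refine Finset.sum_congr rfl fun σ _ => ?_
    ring
  simp_rw [e1] at hr
  have e2 : ∑ n ∈ (Icc 1 ⌊x⌋₊).filter
          (fun n => n ≡ v [MOD (WW D)] ∧ ((a i * n + b i : ℕ) : ℝ) ≤ a i * x),
        ArithmeticFunction.vonMangoldt (a i * n + b i) *
          Real.log (a i * x / ((a i * n + b i : ℕ) : ℝ)) * ((wI a b P i z n) ^ 2 / B ^ 2)
      - psiLog1 (a i * x) / (a i * Nat.totient (WW D)) *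
        (QI (some i) (prP P) (cw (prP P) z) / B ^ 2) =
      (∑ n ∈ (Icc 1 ⌊x⌋₊).filter
          (fun n => n ≡ v [MOD (WW D)] ∧ ((a i * n + b i : ℕ) : ℝ) ≤ a i * x),
        ArithmeticFunction.vonMangoldt (a i * n + b i) *
          Real.log (a i * x / ((a i * n + b i : ℕ) : ℝ)) * (wI a b P i z n) ^ 2
      - psiLog1 (a i * x) / (a i * Nat.totient (WW D)) *
        QI (some i) (prP P) (cw (prP P) z)) / B ^ 2 := by
    rw [sub_div, Finset.sum_div]
    congr 1
    · refine Finset.sum_congr rfl fun n _ => ?_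
      ring
    · ring
  rw [e2, abs_div, abs_of_pos hB2, div_le_iff₀ hB2] at hr
  rw [mul_comm (B ^ 2)]
  exact hr

end Pool.Agent.H362R2.CM
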