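import Mathlib
import Pool.Agent.H362R2.CM.Defs
import Pool.Agent.H361R2.GFinC

/-! Coloured Maynard-Tao, task PT: pointwise bound of the sieve weights, from `Λ` to primes. -/

namespace Pool.Agent.H362R2.CM

open Finset Filter Topology
open Pool.Agent.H410R2 hiding GP GP_prof GP_cut_some GP_cut_none GP_lip gg_pos gg_le_one gg_anti ee_bound ee_nonneg gg_lip LB_gg LB_ee Sums exists_sums yx wx wxi Br sum_GP_none sum_GP_some sum_GP_some_ee sum_GP_some_one sum_GPr_none sum_GPr_some S1_final QI_final S2_final w_abs_le wmax gg ee I1 I2 IE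
open Pool.Agent.H361R2.GM

variable {k : ℕ}

namespace Pt

theorem Pr_prime (D : ℕ) (x : ℝ) : ∀ p ∈ Pr D x, p.Prime ∧ D < p := by
  intro p hp
  unfold Pr PW at hp
  rw [Finset.mem_filter, Finset.mem_Icc] at hp
  exact ⟨hp.2, by omega⟩

theorem Pr_le (D : ℕ) (x : ℝ) : ∀ p ∈ Pr D x, (p : ℝ) ≤ Real.exp (Real.log x / 4) := by
  intro p hp
  unfold Pr PW at hp
  rw [Finset.mem_filter, Finset.mem_Icc] at hp
  exact (Nat.cast_le.2 hp.1.2).trans (Nat.floor_le (Real.exp_pos _).le)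

/-- product over the sieving primes -/
theorem prod_le (hPB : ProdBound) (c : ℝ) (hc : 0 ≤ c) (D : ℕ) :
    ∃ C : ℝ, 0 < C ∧ ∃ m : ℕ, ∀ᶠ x : ℝ in atTop,
      ∏ t : IP (Pr D x), (1 + c / (prP (Pr D x) t : ℝ)) ≤ C * (Real.log x) ^ m := by
  obtain ⟨C, hC, m, h⟩ := hPB c hc
  refine ⟨C, hC, m, ?_⟩
  filter_upwards [eventually_ge_atTop (Real.exp 10)] with x hx
  have hx0 : 0 < x := lt_of_lt_of_le (Real.exp_pos _) hx
  have hlx : 10 ≤ Real.log x := (Real.le_log_iff_exp_le hx0).2 hx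
  have hy : 3 ≤ Real.exp (Real.log x / 4) := by
    have h2 := Real.add_one_le_exp (Real.log x / 4)
    linarith
  have h3 : ∏ t : IP (Pr D x), (1 + c / (prP (Pr D x) t : ℝ)) =
      ∏ p ∈ Pr D x, (1 + c / (p : ℝ)) :=
    Finset.prod_coe_sort (Pr D x) (fun p => 1 + c / (p : ℝ))
  rw [h3]
  calc ∏ p ∈ Pr D x, (1 + c / (p : ℝ)) ≤
        ∏ p ∈ (Icc 1 ⌊Real.exp (Real.log x / 4)⌋₊).filter Nat.Prime, (1 + c / (p : ℝ)) := by
        apply prod_le_prod_subset
        · intro p hp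
          unfold Pr PW at hp
          rw [Finset.mem_filter, Finset.mem_Icc] at hp ⊢
          exact ⟨⟨by omega, hp.1.2⟩, hp.2⟩
        · intro p _
          have : 0 ≤ c / (p : ℝ) := by positivity
          linarith
    _ ≤ C * (Real.log (Real.exp (Real.log x / 4))) ^ m := h _ hy
    _ ≤ C * (Real.log x) ^ m := by
        rw [Real.log_exp]
        have : Real.log x / 4 ≤ Real.log x := by linarith
        gcongr

theorem card_le_omega (a b : Fin k → ℕ) (hb : ∀ i, 1 ≤ b i) (P : Finset ℕ)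
    (hP : ∀ p ∈ P, p.Prime) (n : ℕ) (hn : 1 ≤ n) :
    (univ.filter (fun t : IP P => ∃ j, prP P t ∣ LF a b j n)).card ≤
      (NN a b n).primeFactors.card := by
  apply Finset.card_le_card_of_injOn (fun t => t.1)
  · intro t ht
    simp only [Finset.coe_filter, Finset.mem_univ, true_and, Set.mem_ofPred_eq] at ht
    obtain ⟨j, hj⟩ := ht
    simp only [Finset.mem_coe, Nat.mem_primeFactors]
    refine ⟨hP t.1 t.2, hj.trans (Finset.dvd_prod_of_mem _ (Finset.mem_univ j)), ?_⟩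
    have := NN_pos a b hb n hn
    omega
  · intro s _ t _ h
    exact Subtype.ext h

theorem w_abs_le (Q : SPar) {a b : Fin k → ℕ} {D v : ℕ} (hc : Ctx a b D v) (P : Finset ℕ)
    (hP : ∀ p ∈ P, p.Prime ∧ D < p) (L : ℝ) (hL : 0 < L) (n : ℕ)
    (hn : 1 ≤ n) :
    (|wP Q a b P L n| ≤ (∏ t : IP P, (1 + 2 * ((k + 1 : ℕ) : ℝ) / (prP P t : ℝ))) *
        2 ^ (NN a b n).primeFactors.card) ∧
    ∀ i, (|wI a b P i (yP Q k P L) n| ≤ (∏ t : IP P, (1 + 2 * ((k + 1 : ℕ) : ℝ) / (prP P t : ℝ))) *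
        2 ^ (NN a b n).primeFactors.card) := by
  have hL0 : 0 < L / 48 := by positivity
  have hprof := GP_prof Q k (L) (L / 48) hL hL0
  have hsd := hc.sd P hP
  have hp : ∀ t, 2 ≤ prP P t := fun t => (hsd.prime t).two_le
  have hy : ∀ σ, |yP Q k P L σ| ≤ 1 := by
    intro σ
    rw [yP, abs_of_nonneg (yw_nonneg _ _ _ hprof _ _)]
    exact yw_le_one _ _ _ hprof _ _
  have hprod : (∏ t : IP P, (1 + (Fintype.card (Option (Fin k)) : ℝ) /
      ((prP P t : ℝ) - 1))) ≤ ∏ t : IP P, (1 + 2 * ((k + 1 : ℕ) : ℝ) / (prP P t : ℝ)) := by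
    rw [cardJ]
    apply Finset.prod_le_prod
    · intro t _
      have : (2 : ℝ) ≤ prP P t := by exact_mod_cast hp t
      have : (0 : ℝ) < (prP P t : ℝ) - 1 := by linarith
      positivity
    · intro t _
      have h2 : (2 : ℝ) ≤ prP P t := by exact_mod_cast hp t
      have h1 : (0 : ℝ) < (prP P t : ℝ) - 1 := by linarith
      have h0 : (0 : ℝ) < (prP P t : ℝ) := by linarith
      have hk : (0 : ℝ) ≤ ((k + 1 : ℕ) : ℝ) := Nat.cast_nonneg _
      have : ((k + 1 : ℕ) : ℝ) / ((prP P t : ℝ) - 1) ≤ 2 * ((k + 1 : ℕ) : ℝ) / (prP P t : ℝ) := by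
        rw [div_le_div_iff₀ h1 h0]
        nlinarith
      linarith
  have hprod0 : 0 ≤ ∏ t : IP P, (1 + 2 * ((k + 1 : ℕ) : ℝ) / (prP P t : ℝ)) :=
    Finset.prod_nonneg fun t _ => by positivity
  have hcard : (2 : ℝ) ^ (univ.filter (fun t : IP P => ∃ j, prP P t ∣ LF a b j n)).card ≤
      2 ^ (NN a b n).primeFactors.card :=
    pow_le_pow_right₀ (by norm_num) (card_le_omega a b hc.hb P (fun p hp => (hP p hp).1) n hn)
  have hfin : (∏ t : IP P, (1 + (Fintype.card (Option (Fin k)) : ℝ) / ((prP P t : ℝ) - 1))) *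
        2 ^ (univ.filter (fun t : IP P => ∃ j, prP P t ∣ LF a b j n)).card ≤
      (∏ t : IP P, (1 + 2 * ((k + 1 : ℕ) : ℝ) / (prP P t : ℝ))) *
        2 ^ (NN a b n).primeFactors.card :=
    mul_le_mul hprod hcard (by positivity) hprod0
  constructor
  · refine le_trans ?_ hfin
    have := pointwise (prP P) hp (LF a b) n (fun t i j => hsd.excl t i j n) (yP Q k P L) hy
      (fun t v => hl (LF a b) (prP P t) n v) (fun t => by simp [hl]) (fun t j => by
        have h2 : (2 : ℝ) ≤ prP P t := by exact_mod_cast hp t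
        simp only [hl]
        split_ifs with h
        · rw [abs_of_nonneg (by linarith)]; linarith
        · simp)
    unfold wP hN
    exact this
  · intro i
    refine le_trans ?_ hfin
    have := pointwise (prP P) hp (LF a b) n (fun t i j => hsd.excl t i j n) (yP Q k P L) hy
      (fun t v => hlI (some i) (LF a b) (prP P t) n v) (fun t => by simp [hlI]) (fun t j => by
        have h2 : (2 : ℝ) ≤ prP P t := by exact_mod_cast hp t
        simp only [hlI]
        split_ifs with h1 h2 h2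
        · rw [abs_neg, abs_one]; linarith
        · rw [abs_neg, abs_one]
        · rw [abs_of_nonneg (by linarith)]; linarith
        · simp)
    unfold wI hNI
    exact this

end Pt

open Pt

theorem ptw (Q : SPar) (hPB : ProdBound) (hOB : OmegaBound) {a b : Fin k → ℕ} {D v : ℕ}
    (hc : Ctx a b D v) (ρ : ℝ) (hρ : 0 < ρ) (hρ1 : ρ ≤ 1 / 16) (e : ℝ) (he : 0 < e) :
    ∀ᶠ x : ℝ in atTop, ∀ n : ℕ, 1 ≤ n → (n : ℝ) ≤ x →
      (wP Q a b (Pr D x) (Lr ρ x) n) ^ 2 ≤ x ^ e ∧
      ∀ i, (wI a b (Pr D x) i (yP Q k (Pr D x) (Lr ρ x)) n) ^ 2 ≤ x ^ e := by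
  obtain ⟨C, hC, m, h1⟩ := Pt.prod_le hPB (2 * ((k + 1 : ℕ) : ℝ)) (by positivity) D
  set e2 : ℝ := e / (4 * ((k + 1 : ℕ) : ℝ)) with he2
  have he2p : 0 < e2 := by positivity
  obtain ⟨C', hC', h2⟩ := hOB 2 (by norm_num) e2 he2p
  set A : ℝ := ∏ i, ((a i : ℝ) + b i) with hA
  have hA0 : 0 ≤ A := Finset.prod_nonneg fun i _ => by positivity
  filter_upwards [h1, ev_polylog (C ^ 2 * C' ^ 2 * (A ^ e2) ^ 2) (2 * m) (e / 2) e (by linarith),
    eventually_gt_atTop (1 : ℝ)] with x hx1 hx2 hx3 n hn hnx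
  have hx0 : 0 < x := by linarith
  have hlx0 := Real.log_pos hx3
  have hlx := hlx0.le
  have hom : (2 : ℝ) ^ (NN a b n).primeFactors.card ≤ C' * (A ^ e2 * x ^ (e / 4)) := by
    refine le_trans (h2 (NN a b n) (NN_pos a b hc.hb n hn)) ?_
    apply mul_le_mul_of_nonneg_left _ hC'.le
    calc (NN a b n : ℝ) ^ e2 ≤ (A * x ^ (k + 1)) ^ e2 :=
          Real.rpow_le_rpow (Nat.cast_nonneg _) (NN_le a b n hn x hnx) he2p.le
      _ = A ^ e2 * x ^ (e / 4) := by
          rw [Real.mul_rpow hA0 (by positivity), ← Real.rpow_natCast, ← Real.rpow_mul hx0.le]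
          congr 2
          rw [he2]
          have : ((k + 1 : ℕ) : ℝ) ≠ 0 := by positivity
          field_simp
  have hfin : ∀ w : ℝ, |w| ≤ (∏ t : IP (Pr D x), (1 + 2 * ((k + 1 : ℕ) : ℝ) /
      (prP (Pr D x) t : ℝ))) * 2 ^ (NN a b n).primeFactors.card → w ^ 2 ≤ x ^ e := by
    intro w hw
    have hP0 : 0 ≤ ∏ t : IP (Pr D x), (1 + 2 * ((k + 1 : ℕ) : ℝ) / (prP (Pr D x) t : ℝ)) :=
      Finset.prod_nonneg fun t _ => by positivity
    have h3 : |w| ≤ (C * (Real.log x) ^ m) * (C' * (A ^ e2 * x ^ (e / 4))) :=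
      hw.trans (mul_le_mul hx1 hom (by positivity) (by positivity))
    calc w ^ 2 = |w| ^ 2 := (sq_abs w).symm
      _ ≤ ((C * (Real.log x) ^ m) * (C' * (A ^ e2 * x ^ (e / 4)))) ^ 2 :=
          pow_le_pow_left₀ (abs_nonneg _) h3 2
      _ = C ^ 2 * C' ^ 2 * (A ^ e2) ^ 2 * (Real.log x) ^ (2 * m) * (x ^ (e / 4)) ^ 2 := by ring
      _ = C ^ 2 * C' ^ 2 * (A ^ e2) ^ 2 * (Real.log x) ^ (2 * m) * x ^ (e / 2) := by
          congr 1
          rw [← Real.rpow_natCast, ← Real.rpow_mul hx0.le]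
          congr 1
          push_cast
          ring
      _ ≤ _ := hx2
  have hL : 0 < Lr ρ x := by unfold Lr; positivity
  have h4 := w_abs_le Q hc (Pr D x) (Pr_prime D x) (Lr ρ x) hL n hn
  exact ⟨hfin _ h4.1, fun i => hfin _ (h4.2 i)⟩

theorem wI_eq_wP (Q : SPar) (a b : Fin k → ℕ) (P : Finset ℕ) (L : ℝ) (i : Fin k) (n : ℕ)
    (h : ∀ t : IP P, ¬ prP P t ∣ a i * n + b i) :
    wI a b P i (yP Q k P L) n = wP Q a b P L n := by
  unfold wI wP
  refine Finset.sum_congr rfl fun σ _ => ?_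
  congr 1
  unfold hNI hN
  refine Finset.prod_congr rfl fun t _ => ?_
  rcases σ t with _ | j
  · rfl
  · by_cases hj : j = some i
    · subst hj
      have : ¬ prP P t ∣ LF a b (some i) n := h t
      simp [hlI, hl, this]
    · simp [hlI, hl, hj]

theorem Pt.err_small (A : ℕ) (hA : 1 ≤ A) : ∀ᶠ x : ℝ in atTop,
    Real.log (A * x) * x ^ (1 / 10 : ℝ) *
      (2 * √(A * x) * Real.log (A * x) + (Real.log 4 + 4) * Real.exp (Real.log x / 4)) ≤ x ^ (3 / 4 : ℝ) := by
  have hA1 : (1 : ℝ) ≤ A := by exact_mod_cast hA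
  set l := Real.log A with hl
  have hl0 : 0 ≤ l := Real.log_nonneg hA1
  have h4 : 0 ≤ Real.log 4 := Real.log_nonneg (by norm_num)
  filter_upwards [ev_polylog ((l + 1) * (2 * √A * (l + 1) + (Real.log 4 + 4))) 2 (6 / 10) (3 / 4)
    (by norm_num), eventually_ge_atTop (Real.exp 1)] with x h2 hx
  have hx0 : 0 < x := lt_of_lt_of_le (Real.exp_pos _) hx
  have hx1 : 1 ≤ x := le_trans (Real.one_le_exp (by norm_num)) hx
  have hlx : 1 ≤ Real.log x := (Real.le_log_iff_exp_le hx0).2 hx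
  have e1 : Real.log (A * x) = l + Real.log x := by
    rw [Real.log_mul (by positivity) hx0.ne']
  have e2 : Real.log (A * x) ≤ (l + 1) * Real.log x := by
    rw [e1]; nlinarith
  have e0 : 0 ≤ Real.log (A * x) := by rw [e1]; linarith
  have e3 : √(A * x) = √A * x ^ (1 / 2 : ℝ) := by
    rw [Real.sqrt_mul (by positivity), Real.sqrt_eq_rpow x]
  have e4 : Real.exp (Real.log x / 4) ≤ x ^ (1 / 2 : ℝ) := by
    rw [Real.rpow_def_of_pos hx0]
    apply Real.exp_le_exp.2
    linarith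
  rw [e3]
  calc Real.log (A * x) * x ^ (1 / 10 : ℝ) *
      (2 * (√A * x ^ (1 / 2 : ℝ)) * Real.log (A * x) + (Real.log 4 + 4) * Real.exp (Real.log x / 4))
      ≤ ((l + 1) * Real.log x) * x ^ (1 / 10 : ℝ) *
      (2 * (√A * x ^ (1 / 2 : ℝ)) * ((l + 1) * Real.log x) +
        (Real.log 4 + 4) * (x ^ (1 / 2 : ℝ) * Real.log x)) := by
        have : Real.exp (Real.log x / 4) ≤ x ^ (1 / 2 : ℝ) * Real.log x := by
          refine e4.trans ?_
          have : 0 ≤ x ^ (1 / 2 : ℝ) := by positivity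
          nlinarith
        gcongr
    _ = (l + 1) * (2 * √A * (l + 1) + (Real.log 4 + 4)) * (Real.log x) ^ 2 *
        (x ^ (1 / 10 : ℝ) * x ^ (1 / 2 : ℝ)) := by ring
    _ = (l + 1) * (2 * √A * (l + 1) + (Real.log 4 + 4)) * (Real.log x) ^ 2 * x ^ (6 / 10 : ℝ) := by
        rw [← Real.rpow_add hx0]
        norm_num
    _ ≤ _ := h2

theorem toPrimes (Q : SPar) (hPB : ProdBound) (hOB : OmegaBound) {a b : Fin k → ℕ} {D v : ℕ}
    (hc : Ctx a b D v) (ρ : ℝ) (hρ : 0 < ρ) (hρ1 : ρ ≤ 1 / 16) :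
    ∃ C : ℝ, 0 ≤ C ∧ ∀ᶠ x : ℝ in atTop, ∀ i : Fin k,
      ∑ n ∈ (Icc 1 ⌊x⌋₊).filter
          (fun n => n ≡ v [MOD (WW D)] ∧ ((a i * n + b i : ℕ) : ℝ) ≤ a i * x),
        ArithmeticFunction.vonMangoldt (a i * n + b i) *
          Real.log (a i * x / ((a i * n + b i : ℕ) : ℝ)) *
            (wI a b (Pr D x) i (yP Q k (Pr D x) (Lr ρ x)) n) ^ 2 ≤
      (Real.log x + C) * ∑ n ∈ (Icc 1 ⌊x⌋₊).filter
          (fun n => n ≡ v [MOD (WW D)] ∧ (a i * n + b i).Prime),
            Real.log (x / n) * (wP Q a b (Pr D x) (Lr ρ x) n) ^ 2 + x ^ (3 / 4 : ℝ) := by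
  refine ⟨∑ i, Real.log (a i), Finset.sum_nonneg fun i _ => Real.log_natCast_nonneg _, ?_⟩
  have herr : ∀ᶠ x : ℝ in atTop, ∀ i : Fin k, Real.log (a i * x) * x ^ (1 / 10 : ℝ) *
      (2 * √(a i * x) * Real.log (a i * x) + (Real.log 4 + 4) * Real.exp (Real.log x / 4)) ≤
        x ^ (3 / 4 : ℝ) := by
    rw [Filter.eventually_all]
    intro i
    exact Pt.err_small (a i) (hc.ha i)
  filter_upwards [herr, ptw Q hPB hOB hc ρ hρ hρ1 (1 / 10) (by norm_num), eventually_gt_atTop (1 : ℝ)]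
    with x herr hFA hx i
  have hx0 : 0 < x := by linarith
  have hai : (1 : ℝ) ≤ a i := by exact_mod_cast hc.ha i
  have hai0 : (0 : ℝ) < a i := by linarith
  have hlx : 0 < Real.log x := Real.log_pos hx
  have hax : 1 ≤ (a i : ℝ) * x := by nlinarith
  have hlax : 0 ≤ Real.log (a i * x) := Real.log_nonneg hax
  have hC : Real.log (a i) ≤ ∑ i, Real.log (a i) :=
    Finset.single_le_sum (f := fun i => Real.log (a i))
      (fun i _ => Real.log_natCast_nonneg (a i)) (Finset.mem_univ i)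
  set C := ∑ i, Real.log (a i) with hCdef
  have hC0 : 0 ≤ C := le_trans (Real.log_natCast_nonneg _) hC
  set S := (Icc 1 ⌊x⌋₊).filter
          (fun n => n ≡ v [MOD (WW D)] ∧ ((a i * n + b i : ℕ) : ℝ) ≤ a i * x) with hS
  have hSm : ∀ n ∈ S, 1 ≤ n ∧ (n : ℝ) ≤ x ∧ n ≡ v [MOD (WW D)] ∧
      ((a i * n + b i : ℕ) : ℝ) ≤ a i * x := by
    intro n hn
    rw [hS, Finset.mem_filter, Finset.mem_Icc] at hn
    exact ⟨hn.1.1, (Nat.cast_le.2 hn.1.2).trans (Nat.floor_le hx0.le), hn.2.1, hn.2.2⟩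
  set g : ℕ → ℝ := fun n => if ¬ (a i * n + b i).Prime ∨ ((a i * n + b i : ℕ) : ℝ) ≤
      Real.exp (Real.log x / 4) then ArithmeticFunction.vonMangoldt (a i * n + b i) else 0 with hg
  have hg0 : ∀ n, 0 ≤ g n := by
    intro m
    simp only [hg]
    split_ifs
    · exact ArithmeticFunction.vonMangoldt_nonneg
    · exact le_rfl
  have key : ∀ n ∈ S, ArithmeticFunction.vonMangoldt (a i * n + b i) *
          Real.log (a i * x / ((a i * n + b i : ℕ) : ℝ)) * (wI a b (Pr D x) i (yP Q k (Pr D x) (Lr ρ x)) n) ^ 2 ≤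
      (if (a i * n + b i).Prime then (Real.log x + C) * (Real.log (x / n) * (wP Q a b (Pr D x) (Lr ρ x) n) ^ 2)
        else 0) + Real.log (a i * x) * x ^ (1 / 10 : ℝ) * g n := by
    intro n hn
    obtain ⟨hn1, hnx, -, hnax⟩ := hSm n hn
    have hn0 : (0 : ℝ) < n := by exact_mod_cast hn1
    have hm1 : (1 : ℝ) ≤ ((a i * n + b i : ℕ) : ℝ) := by
      have : 1 ≤ a i * n + b i := by have := hc.hb i; omega
      exact_mod_cast this
    have hm0 : (0 : ℝ) < ((a i * n + b i : ℕ) : ℝ) := by linarith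
    have hlog1 : 0 ≤ Real.log (a i * x / ((a i * n + b i : ℕ) : ℝ)) := by
      apply Real.log_nonneg
      rw [le_div_iff₀ hm0]
      linarith
    have hlog2 : Real.log (a i * x / ((a i * n + b i : ℕ) : ℝ)) ≤ Real.log (a i * x) := by
      apply Real.log_le_log (by positivity)
      exact div_le_self (by linarith) hm1
    have hlogn : 0 ≤ Real.log (x / n) := by
      apply Real.log_nonneg
      rw [le_div_iff₀ hn0]
      linarith
    have hV0 : 0 ≤ ArithmeticFunction.vonMangoldt (a i * n + b i) :=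
      ArithmeticFunction.vonMangoldt_nonneg
    have hw := (hFA n hn1 hnx).2 i
    by_cases hcase : ¬ (a i * n + b i).Prime ∨ ((a i * n + b i : ℕ) : ℝ) ≤ Real.exp (Real.log x / 4)
    · have h1 : 0 ≤ (if (a i * n + b i).Prime then
          (Real.log x + C) * (Real.log (x / n) * (wP Q a b (Pr D x) (Lr ρ x) n) ^ 2) else 0) := by
        split_ifs
        · positivity
        · exact le_rfl
      have h2 : ArithmeticFunction.vonMangoldt (a i * n + b i) *
          Real.log (a i * x / ((a i * n + b i : ℕ) : ℝ)) * (wI a b (Pr D x) i (yP Q k (Pr D x) (Lr ρ x)) n) ^ 2 ≤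
          Real.log (a i * x) * x ^ (1 / 10 : ℝ) * g n := by
        simp only [hg]
        rw [if_pos hcase]
        calc _ ≤ ArithmeticFunction.vonMangoldt (a i * n + b i) *
            Real.log (a i * x) * x ^ (1 / 10 : ℝ) := by gcongr
          _ = _ := by ring
      linarith
    · push Not at hcase
      obtain ⟨hpr, hbig⟩ := hcase
      have hgn : g n = 0 := by
        simp only [hg]
        rw [if_neg]
        push Not
        exact ⟨hpr, hbig⟩
      rw [hgn, mul_zero, add_zero, if_pos hpr]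
      have hww : wI a b (Pr D x) i (yP Q k (Pr D x) (Lr ρ x)) n = wP Q a b (Pr D x) (Lr ρ x) n := by
        apply wI_eq_wP
        intro t ht
        have h1 := (Pr_prime D x t.1 t.2).1
        have h2 := Pr_le D x t.1 t.2
        have h3 : prP (Pr D x) t = a i * n + b i := (Nat.prime_dvd_prime_iff_eq h1 hpr).1 ht
        have h4 : ((prP (Pr D x) t : ℕ) : ℝ) = ((a i * n + b i : ℕ) : ℝ) := by rw [h3]
        have h5 : ((prP (Pr D x) t : ℕ) : ℝ) ≤ Real.exp (Real.log x / 4) := h2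
        linarith
      rw [hww, ArithmeticFunction.vonMangoldt_apply_prime hpr]
      have h1 : Real.log ((a i * n + b i : ℕ) : ℝ) ≤ Real.log x + C := by
        calc Real.log ((a i * n + b i : ℕ) : ℝ) ≤ Real.log (a i * x) :=
              Real.log_le_log hm0 hnax
          _ = Real.log (a i) + Real.log x := Real.log_mul hai0.ne' hx0.ne'
          _ ≤ _ := by linarith
      have h2 : Real.log (a i * x / ((a i * n + b i : ℕ) : ℝ)) ≤ Real.log (x / n) := by
        apply Real.log_le_log (by positivity)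
        rw [div_le_div_iff₀ hm0 hn0]
        push_cast
        have : 0 ≤ (b i : ℝ) := Nat.cast_nonneg _
        nlinarith
      have h3 : 0 ≤ Real.log ((a i * n + b i : ℕ) : ℝ) := Real.log_nonneg hm1
      calc _ ≤ (Real.log x + C) * Real.log (x / n) * (wP Q a b (Pr D x) (Lr ρ x) n) ^ 2 := by
            gcongr
        _ = _ := by ring
  calc ∑ n ∈ S, ArithmeticFunction.vonMangoldt (a i * n + b i) *
          Real.log (a i * x / ((a i * n + b i : ℕ) : ℝ)) * (wI a b (Pr D x) i (yP Q k (Pr D x) (Lr ρ x)) n) ^ 2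
      ≤ ∑ n ∈ S, ((if (a i * n + b i).Prime then
          (Real.log x + C) * (Real.log (x / n) * (wP Q a b (Pr D x) (Lr ρ x) n) ^ 2) else 0) +
          Real.log (a i * x) * x ^ (1 / 10 : ℝ) * g n) := Finset.sum_le_sum key
    _ = ∑ n ∈ S, (if (a i * n + b i).Prime then
          (Real.log x + C) * (Real.log (x / n) * (wP Q a b (Pr D x) (Lr ρ x) n) ^ 2) else 0) +
          Real.log (a i * x) * x ^ (1 / 10 : ℝ) * ∑ n ∈ S, g n := by
        rw [Finset.sum_add_distrib, Finset.mul_sum]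
    _ ≤ (Real.log x + C) * ∑ n ∈ (Icc 1 ⌊x⌋₊).filter
          (fun n => n ≡ v [MOD (WW D)] ∧ (a i * n + b i).Prime),
            Real.log (x / n) * (wP Q a b (Pr D x) (Lr ρ x) n) ^ 2 + x ^ (3 / 4 : ℝ) := by
        apply add_le_add
        · rw [← Finset.sum_filter, ← Finset.mul_sum]
          apply mul_le_mul_of_nonneg_left _ (by positivity)
          apply Finset.sum_le_sum_of_subset_of_nonneg
          · intro n hn
            rw [Finset.mem_filter, hS, Finset.mem_filter] at hn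
            rw [Finset.mem_filter]
            exact ⟨hn.1.1, hn.1.2.1, hn.2⟩
          · intro n hn _
            rw [Finset.mem_filter, Finset.mem_Icc] at hn
            have h1 : (n : ℝ) ≤ x := (Nat.cast_le.2 hn.1.2).trans (Nat.floor_le hx0.le)
            have hn0 : (0 : ℝ) < n := by exact_mod_cast hn.1.1
            have : 0 ≤ Real.log (x / n) := by
              apply Real.log_nonneg
              rw [le_div_iff₀ hn0]
              linarith
            positivity
        · refine le_trans ?_ (herr i)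
          apply mul_le_mul_of_nonneg_left _ (by positivity)
          exact bad_lambda (a i) (b i) (hc.ha i) (hc.hb i) S x (Real.exp (Real.log x / 4)) hx.le
            (Real.exp_pos _).le (fun n hn => (hSm n hn).2.2.2)

end Pool.Agent.H362R2.CM
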