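import Mathlib
import Pool.Agent.H362R2.CM.PairS2
import Pool.Agent.H362R2.CM.Err
import Pool.Agent.H362R2.CM.Pt

/-! Coloured Maynard-Tao: the pair bound. -/

namespace Pool.Agent.H362R2.CM

open Finset Filter Topology
open Pool.Agent.H410R2 hiding GP GP_prof GP_cut_some GP_cut_none GP_lip gg_pos gg_le_one gg_anti ee_bound ee_nonneg gg_lip LB_gg LB_ee Sums exists_sums yx wx wxi Br sum_GP_none sum_GP_some sum_GP_some_ee sum_GP_some_one sum_GPr_none sum_GPr_some S1_final QI_final S2_final w_abs_le wmax gg ee I1 I2 IE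
open Pool.Agent.H361R2.GM

variable {k : ℕ}

theorem psi_both (hPNT : PNTLog) (a : Fin k → ℕ) (ha : ∀ i, 1 ≤ a i) (ε : ℝ) (hε : 0 < ε) :
    ∀ᶠ x : ℝ in atTop, ∀ i : Fin k, (1 - ε) * (a i * x) ≤ psiLog1 (a i * x) ∧
      psiLog1 (a i * x) ≤ (1 + ε) * (a i * x) := by
  rw [Filter.eventually_all]
  intro i
  have hai : (0 : ℝ) < a i := by exact_mod_cast ha i
  have h1 : ∀ᶠ X : ℝ in atTop, 1 - ε < psiLog1 X / X :=
    hPNT.eventually (lt_mem_nhds (by linarith))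
  have h1' : ∀ᶠ X : ℝ in atTop, psiLog1 X / X < 1 + ε :=
    hPNT.eventually (gt_mem_nhds (by linarith))
  have h2 : Tendsto (fun x : ℝ => (a i : ℝ) * x) atTop atTop :=
    tendsto_id.const_mul_atTop hai
  filter_upwards [h2.eventually h1, h2.eventually h1', eventually_gt_atTop (0 : ℝ)]
    with x hx hx' hx0
  rw [lt_div_iff₀ (by positivity)] at hx
  rw [div_lt_iff₀ (by positivity)] at hx'
  exact ⟨hx.le, hx'.le⟩

/-- the algebraic identity behind the pair bound -/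
theorem pair_alg (x W B L Λ l ρ ε I1 I2 : ℝ) (k : ℕ) (hk : 2 ≤ k) (hW : 0 < W) (hB : 0 < B)
    (hl : 0 < l) (hρ : 0 < ρ) (hρ1 : ρ ≤ 1 / 16) (hε1 : ε < 1 / 3) (hL : L = ρ * l)
    (hΛ : Λ = (1 / 4 - 2 * ρ) * l) :
    (1 + ε) * x / (W * B) * ((B * L * (I1 + ε)) ^ 2 / (B * Λ * (1 - ε)) ^ 2 * (1 + ε) ^ 2 *
        (B * L * (I1 + ε)) ^ 2 *
        ((B * (L / 48) * (1 / 3 + ε)) * ((B * Λ * (1 + ε)) *
          (B * L * (I2 + ε)) ^ (k - 2)))) =
      (x / W * (B * (L / 48) * (B * L) ^ k)) * (ρ ^ 2 / (1 / 4 - 2 * ρ) *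
        ((1 + ε) ^ 4 / (1 - ε) ^ 3) * ((I1 + ε) ^ 4 * ((1 / 3 + ε) * (I2 + ε) ^ (k - 2)))) *
        ((1 - ε) * l) := by
  have h1 : 1 - ε ≠ 0 := by
    have : 0 < 1 - ε := by linarith
    exact this.ne'
  have h2 : 1 / 4 - 2 * ρ ≠ 0 := by
    have : 0 < 1 / 4 - 2 * ρ := by linarith
    exact this.ne'
  have h3 : (B * L) ^ k = (B * L) ^ (k - 2) * (B * L) ^ 2 := by
    rw [← pow_add]
    congr 1
    omega
  rw [mul_pow (B * L) (I2 + ε) (k - 2), h3]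
  set X := (B * L) ^ (k - 2) with hX
  clear_value X
  subst hL hΛ
  have h4 := hW.ne'
  have h5 := hB.ne'
  have h6 := hl.ne'
  have h7 := hρ.ne'
  have h8 : 1 - 4 * (2 * ρ) ≠ 0 := by
    have : 0 < 1 - 4 * (2 * ρ) := by linarith
    exact this.ne'
  field_simp

theorem pair_bound (Q : SPar) (hT2 : S2Approx) (hBV : BVAP) (hPNT : PNTLog) (hPB : ProdBound)
    (hOB : OmegaBound) {a b : Fin k → ℕ} {D v : ℕ} (hc : Ctx a b D v) (ρ : ℝ) (hρ : 0 < ρ)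
    (hρ1 : ρ ≤ 1 / 16) (ε : ℝ) (hε : 0 < ε) (hε1 : ε < 1 / 3) (hI1 : 0 < Q.I1) (hI2 : 0 < Q.I2)
    (hκ : ∀ x, ∏ t : IP (Pr D x), (1 + ((k + 1 : ℕ) : ℝ) * ((prP (Pr D x) t : ℝ) /
      ((prP (Pr D x) t : ℝ) - 1) ^ 3)) ≤ 1 + ε)
    (hS : ∀ᶠ x : ℝ in atTop, Sums2 Q D ε (Lr ρ x) (Lj ρ x) (Pr D x)) :
    ∀ᶠ x : ℝ in atTop, ∀ i j : Fin k, i ≠ j →
      ∑ n ∈ (Icc 1 ⌊x⌋₊).filter
        (fun n => n ≡ v [MOD (WW D)] ∧ (a i * n + b i).Prime ∧ (a j * n + b j).Prime),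
          Real.log (x / n) * (wP Q a b (Pr D x) (Lr ρ x) n) ^ 2 ≤
      Q1 k D x (Lr ρ x) * γc Q k ρ ε := by
  classical
  by_cases hk : 2 ≤ k
  swap
  · filter_upwards with x i j hij
    exfalso
    apply hij
    apply Fin.ext
    have h1 := i.2
    have h2 := j.2
    omega
  have h1ε : 0 < 1 - ε := by linarith
  have h14 : 0 < 1 / 4 - 2 * ρ := by linarith
  obtain ⟨C1, hC1, m1, hprod⟩ := prodPr_le hPB 2 (by norm_num) D
  have hErr : ∀ᶠ x : ℝ in atTop, ∀ i : Fin k, ∀ r : ℕ → ℕ, C1 ^ 2 * (Real.log x) ^ (2 * m1) *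
      ((∏ t : IP (Pr D x), (1 + ((k + 1 : ℕ) : ℝ) / ((prP (Pr D x) t : ℝ) - 1)) *
        ((prP (Pr D x) t : ℝ) / ((prP (Pr D x) t : ℝ) - 1))) ^ 2 *
      ∑ q ∈ (Icc 1 ⌊(Real.exp ((1 / 4 - ρ / 2) * Real.log x)) ^ 2⌋₊).filter
        (fun q => Squarefree q ∧ (r q).Coprime (a i * WW D * q)),
        (3 * ((k + 1 : ℕ) : ℝ)) ^ q.primeFactors.card *
          (|psiLogAP (a i * x) (a i * WW D * q) (r q) -
            psiLog1 (a i * x) / (Nat.totient (a i * WW D * q) : ℝ)| +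
            ((a i : ℝ) + b i) ^ 2 * (Real.log (a i * x) + 1))) ≤ x := by
    rw [Filter.eventually_all]
    intro i
    exact errP_le hBV hPB hOB ρ hρ hρ1 _ (by push_cast; linarith [(Nat.cast_nonneg k : (0 : ℝ) ≤ k)])
      D (a i) (b i) (WW D) (hc.ha i) hc.hW (2 * m1) (C1 ^ 2)
  have hpsi := psi_both hPNT a hc.ha ε hε
  -- constants
  set g0 : ℝ := ρ ^ 2 / (1 / 4 - 2 * ρ) * ((Q.I1 + ε) ^ 4 * ((1 / 3 + ε) *
    (Q.I2 + ε) ^ (k - 2))) with hg0
  have hg0p : 0 < g0 := by positivity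
  set δ : ℝ := (1 + ε) ^ 8 / (1 - ε) ^ 4 - (1 + ε) ^ 4 / (1 - ε) ^ 3 with hδ
  have hδ0 : 0 < δ := by
    rw [hδ, sub_pos, div_lt_div_iff₀ (by positivity) (by positivity)]
    have e1 : (1 - ε) ^ 4 < (1 - ε) ^ 3 := by
      have : (1 - ε) ^ 4 = (1 - ε) ^ 3 * (1 - ε) := by ring
      rw [this]
      have h3 : 0 < (1 - ε) ^ 3 := by positivity
      nlinarith
    have e2 : (1 + ε) ^ 4 ≤ (1 + ε) ^ 8 := pow_le_pow_right₀ (by linarith) (by norm_num)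
    have h3 : 0 < (1 - ε) ^ 3 := by positivity
    have h4 : 0 < (1 + ε) ^ 4 := by positivity
    calc (1 + ε) ^ 4 * (1 - ε) ^ 4 < (1 + ε) ^ 4 * (1 - ε) ^ 3 := by gcongr
      _ ≤ (1 + ε) ^ 8 * (1 - ε) ^ 3 := by gcongr
  have hbmax : ∃ b0 : ℝ, 0 ≤ b0 ∧ ∀ i, (b i : ℝ) ≤ b0 :=
    ⟨∑ i, (b i : ℝ), Finset.sum_nonneg fun i _ => Nat.cast_nonneg _, fun i =>
      Finset.single_le_sum (f := fun i => (b i : ℝ)) (fun i _ => Nat.cast_nonneg _)
        (Finset.mem_univ i)⟩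
  obtain ⟨b0, hb0, hbb⟩ := hbmax
  filter_upwards [hprod, hErr, hpsi, hS, ptw Q hPB hOB hc ρ hρ hρ1 (ε / 2) (by positivity),
    Q1_large ρ hρ k D hc.hW hc.BDpos (3 / (g0 * δ)),
    ev_polylog 2 2 (1 - ε / 2) 1 (by linarith),
    ev_polylog (2 * b0) 1 (3 / 2 * ε) 1 (by linarith),
    Real.tendsto_log_atTop.eventually_ge_atTop 1, eventually_gt_atTop (1 : ℝ)]
    with x hprod hErr hpsi hS hptw hQ1 hp1 hp2 hlx1 hx i j hij
  have hx0 : 0 < x := by linarith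
  have hlx : 0 < Real.log x := by linarith
  have hL : 0 < Lr ρ x := by unfold Lr; positivity
  have hΛ : 0 < Lj ρ x := by unfold Lj; positivity
  set P := Pr D x with hPd
  have hP : ∀ p ∈ P, p.Prime ∧ D < p := Pr_prime D x
  have hP2 : ∀ p ∈ P, 2 ≤ p := fun p hp => (hP p hp).1.two_le
  have hWpos : (0 : ℝ) < WW D := by exact_mod_cast hc.hW
  have hBpos := hc.BDpos
  have hai : (0 : ℝ) < a i := by exact_mod_cast hc.ha i
  set L := Lr ρ x with hLd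
  set Λ := Lj ρ x with hΛd
  have hcL : Q.c * L ≤ Λ := by
    have h1 := Q.hc1
    have h2 : Q.c * L ≤ 1 * L := by gcongr
    have h3 : L ≤ Λ := by
      rw [hLd, hΛd]
      unfold Lr Lj
      apply mul_le_mul_of_nonneg_right _ hlx.le
      linarith
    linarith
  -- the bound `B`
  set B : ℝ := ∏ t : IP P, ((prP P t : ℝ) / ((prP P t : ℝ) - 1)) with hBd
  have hp1' : ∀ t : IP P, (0 : ℝ) < (prP P t : ℝ) - 1 := by
    intro t
    have h2 := hP2 t.1 t.2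
    have : (2 : ℝ) ≤ (prP P t : ℝ) := by exact_mod_cast h2
    linarith
  have hB0 : 0 < B := Finset.prod_pos fun t _ => by
    have := hp1' t
    have : (0 : ℝ) < (prP P t : ℝ) := by linarith
    positivity
  have hB1 : B ≤ C1 * (Real.log x) ^ m1 := by
    refine le_trans ?_ hprod
    apply Finset.prod_le_prod
    · intro t _
      have := hp1' t
      have : (0 : ℝ) < (prP P t : ℝ) := by linarith
      positivity
    · intro t _
      have h3 := hp1' t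
      have h0 : (0 : ℝ) < (prP P t : ℝ) := by linarith
      have h2' := hP2 t.1 t.2
      have h2 : (2 : ℝ) ≤ (prP P t : ℝ) := by exact_mod_cast h2'
      have e : 1 + 2 / (prP P t : ℝ) = ((prP P t : ℝ) + 2) / (prP P t : ℝ) := by
        field_simp
      rw [e, div_le_div_iff₀ h3 h0]
      nlinarith
  have hB2 : B ^ 2 ≤ C1 ^ 2 * (Real.log x) ^ (2 * m1) := by
    calc B ^ 2 ≤ (C1 * (Real.log x) ^ m1) ^ 2 := pow_le_pow_left₀ hB0.le hB1 2
      _ = _ := by rw [mul_pow, ← pow_mul]; ring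
  -- the `S2` bound
  obtain ⟨r, hr⟩ := S2_use hT2 hc i P hP (zP Q k P L Λ j) B hB0 (fun σ => by
      rw [abs_of_nonneg (zP_nonneg Q P hP2 L Λ hL j σ)]
      exact zP_le_prod Q P hP2 L Λ hL hΛ hcL j σ)
    ((1 / 4 - ρ / 2) * Real.log x) (mul_nonneg (by linarith) hlx.le) (fun σ hσ => by
      refine (zP_supp Q P hP2 L Λ hL j σ hσ).trans ?_
      rw [hLd, hΛd]
      unfold Lr Lj
      nlinarith) x hx.le
  have hU := QIz_le Q hc.hD hBpos ε hε hε1 hI1 hI2 L Λ hL hΛ P hP (hκ x) hS i j hij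
  set U : ℝ := (BD D * L * (Q.I1 + ε)) ^ 2 / (BD D * Λ * (1 - ε)) ^ 2 * (1 + ε) ^ 2 *
        (BD D * L * (Q.I1 + ε)) ^ 2 *
        ((BD D * (L / 48) * (1 / 3 + ε)) * ((BD D * Λ * (1 + ε)) *
          (BD D * L * (Q.I2 + ε)) ^ (k - 2))) with hUd
  have hU0 : 0 ≤ U := by positivity
  have hmain := (abs_le.1 hr).2
  have hErr' : B ^ 2 * ((∏ t : IP P, (1 + ((k + 1 : ℕ) : ℝ) / ((prP P t : ℝ) - 1)) *
        ((prP P t : ℝ) / ((prP P t : ℝ) - 1))) ^ 2 *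
      ∑ q ∈ (Icc 1 ⌊(Real.exp ((1 / 4 - ρ / 2) * Real.log x)) ^ 2⌋₊).filter
        (fun q => Squarefree q ∧ (r q).Coprime (a i * WW D * q)),
        (3 * ((k + 1 : ℕ) : ℝ)) ^ q.primeFactors.card *
          (|psiLogAP (a i * x) (a i * WW D * q) (r q) -
            psiLog1 (a i * x) / (Nat.totient (a i * WW D * q) : ℝ)| +
            ((a i : ℝ) + b i) ^ 2 * (Real.log (a i * x) + 1))) ≤ x := by
    refine le_trans ?_ (hErr i r)
    apply mul_le_mul_of_nonneg_right hB2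
    apply mul_nonneg (sq_nonneg _)
    apply Finset.sum_nonneg
    intro q _
    have hlax : 0 ≤ Real.log (a i * x) := by
      apply Real.log_nonneg
      have : (1 : ℝ) ≤ a i := by exact_mod_cast hc.ha i
      nlinarith
    positivity
  have hψ := hpsi i
  have hψ0 : 0 ≤ psiLog1 (a i * x) / (a i * Nat.totient (WW D)) := by
    have : 0 ≤ psiLog1 (a i * x) := le_trans (by positivity) hψ.1
    positivity
  have hψ1 : psiLog1 (a i * x) / (a i * Nat.totient (WW D)) ≤ (1 + ε) * x / (WW D * BD D) := by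
    rw [hc.tot, div_le_div_iff₀ (by positivity) (by positivity)]
    have h3 : 0 ≤ (WW D : ℝ) * BD D := by positivity
    calc psiLog1 (a i * x) * (WW D * BD D) ≤ ((1 + ε) * (a i * x)) * (WW D * BD D) := by
          gcongr
          exact hψ.2
      _ = _ := by ring
  have hψU : psiLog1 (a i * x) / (a i * Nat.totient (WW D)) *
      QI (some i) (prP P) (cw (prP P) (zP Q k P L Λ j)) ≤ (1 + ε) * x / (WW D * BD D) * U :=
    calc _ ≤ psiLog1 (a i * x) / (a i * Nat.totient (WW D)) * U :=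
          mul_le_mul_of_nonneg_left hU hψ0
      _ ≤ _ := mul_le_mul_of_nonneg_right hψ1 hU0
  have hconv := pair_conv Q hc i j hij x ε (ε / 2) hx hε hε1 L Λ hΛ.le
    (fun n hn hnx => (hptw n hn hnx).1)
  set S := ∑ n ∈ (Icc 1 ⌊x⌋₊).filter
        (fun n => n ≡ v [MOD (WW D)] ∧ (a i * n + b i).Prime ∧ (a j * n + b j).Prime),
          Real.log (x / n) * (wP Q a b P L n) ^ 2 with hSd
  -- small errors
  have he1 : (Real.log x) ^ 2 * x ^ (ε / 2) * x ^ (1 - ε) ≤ x / 2 := by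
    have e : (Real.log x) ^ 2 * x ^ (ε / 2) * x ^ (1 - ε) =
        (Real.log x) ^ 2 * x ^ (1 - ε / 2) := by
      rw [mul_assoc, ← Real.rpow_add hx0]
      congr 2
      ring
    rw [e]
    rw [Real.rpow_one] at hp1
    linarith
  have he2 : Real.log x * b i * x ^ (ε / 2) * x ^ ε ≤ x / 2 := by
    have e : Real.log x * b i * x ^ (ε / 2) * x ^ ε = b i * (Real.log x * x ^ (3 / 2 * ε)) := by
      rw [mul_assoc, ← Real.rpow_add hx0]
      have : ε / 2 + ε = 3 / 2 * ε := by ring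
      rw [this]
      ring
    rw [e]
    rw [Real.rpow_one, pow_one] at hp2
    have h3 : b i * (Real.log x * x ^ (3 / 2 * ε)) ≤ b0 * (Real.log x * x ^ (3 / 2 * ε)) := by
      apply mul_le_mul_of_nonneg_right (hbb i)
      positivity
    linarith
  have htot : (1 - ε) * Real.log x * S ≤ (1 + ε) * x / (WW D * BD D) * U + 2 * x := by
    linarith
  have halg := pair_alg x (WW D) (BD D) L Λ (Real.log x) ρ ε Q.I1 Q.I2 k hk hWpos hBpos hlx hρ hρ1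
    hε1 rfl rfl
  rw [← hUd] at halg
  rw [halg] at htot
  have hl0 : 0 < (1 - ε) * Real.log x := by positivity
  have hQ1' : 3 * x ≤ Q1 k D x L * (g0 * δ) := by
    have h4 : 0 < g0 * δ := by positivity
    have := mul_le_mul_of_nonneg_right hQ1 h4.le
    calc 3 * x = 3 / (g0 * δ) * x * (g0 * δ) := by field_simp
      _ ≤ _ := this
  have h2x : 2 * x ≤ 3 * x * ((1 - ε) * Real.log x) := by
    have h5 : 2 / 3 ≤ (1 - ε) * Real.log x := by
      calc (2 / 3 : ℝ) ≤ (1 - ε) * 1 := by linarith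
        _ ≤ _ := by gcongr
    nlinarith
  have hfin : (1 - ε) * Real.log x * S ≤ (1 - ε) * Real.log x *
      (Q1 k D x L * (g0 * ((1 + ε) ^ 4 / (1 - ε) ^ 3)) + 3 * x) := by
    refine htot.trans ?_
    have e : (x / WW D * (BD D * (L / 48) * (BD D * L) ^ k)) = Q1 k D x L := rfl
    rw [e, hg0]
    have e2 : Q1 k D x L * (ρ ^ 2 / (1 / 4 - 2 * ρ) *
        ((1 + ε) ^ 4 / (1 - ε) ^ 3) * ((Q.I1 + ε) ^ 4 * ((1 / 3 + ε) * (Q.I2 + ε) ^ (k - 2)))) *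
        ((1 - ε) * Real.log x) = (1 - ε) * Real.log x * (Q1 k D x L * (ρ ^ 2 / (1 / 4 - 2 * ρ) *
        ((Q.I1 + ε) ^ 4 * ((1 / 3 + ε) * (Q.I2 + ε) ^ (k - 2))) *
          ((1 + ε) ^ 4 / (1 - ε) ^ 3))) := by ring
    rw [e2, mul_add]
    linarith
  have hS2 : S ≤ Q1 k D x L * (g0 * ((1 + ε) ^ 4 / (1 - ε) ^ 3)) + 3 * x :=
    le_of_mul_le_mul_left hfin hl0
  calc S ≤ Q1 k D x L * (g0 * ((1 + ε) ^ 4 / (1 - ε) ^ 3)) + 3 * x := hS2
    _ ≤ Q1 k D x L * (g0 * ((1 + ε) ^ 4 / (1 - ε) ^ 3)) + Q1 k D x L * (g0 * δ) := by linarith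
    _ = Q1 k D x L * (g0 * ((1 + ε) ^ 8 / (1 - ε) ^ 4)) := by rw [hδ]; ring
    _ = _ := by
        rw [hg0]
        unfold γc
        ring

end Pool.Agent.H362R2.CM
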