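import Mathlib
import Pool.Agent.H362R2.CM.Defs
import Pool.Agent.H361R2.GS2
import Pool.Agent.H361R2.GFinD

/-! Coloured Maynard-Tao: upper bound of the first sum and lower bound of the model form
(port of `GFin2.S1_final` and `GS2.QI_final` to an arbitrary level and set of primes). -/

namespace Pool.Agent.H362R2.CM

open Finset Filter Topology
open Pool.Agent.H410R2 hiding GP GP_prof GP_cut_some GP_cut_none GP_lip gg_pos gg_le_one gg_anti ee_bound ee_nonneg gg_lip LB_gg LB_ee Sums exists_sums yx wx wxi Br sum_GP_none sum_GP_some sum_GP_some_ee sum_GP_some_one sum_GPr_none sum_GPr_some S1_final QI_final S2_final w_abs_le wmax gg ee I1 I2 IE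
open Pool.Agent.H361R2.GM

variable {k : ℕ}

/-- sum identities for the profiles -/
theorem sum_GP_none_P (Q : SPar) (P : Finset ℕ) (hP0 : ∀ p ∈ P, 0 < p) (L : ℝ) (h : ℕ → ℝ) :
    ∑ a : Finset (IP P), (∏ t ∈ a, h (prP P t)) *
      GP Q k L (L / 48) none (lg (prP P) a) ^ 2 =
      SS P h 1 (L / 48) (fun t => (1 - t) ^ 2) := by
  rw [SS_eq _ _ _ _ _ hP0]
  refine Finset.sum_congr rfl fun a _ => ?_
  simp only [GP, one_mul]
  congr 1
  split_ifs <;> simp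

theorem sum_GP_some_P (Q : SPar) (P : Finset ℕ) (hP0 : ∀ p ∈ P, 0 < p) (L : ℝ)
    (i : Fin k) (h : ℕ → ℝ) :
    ∑ a : Finset (IP P), (∏ t ∈ a, h (prP P t)) *
      GP Q k L (L / 48) (some i) (lg (prP P) a) ^ 2 =
      SS P h Q.c L (fun t => Q.gg t ^ 2) := by
  rw [SS_eq _ _ _ _ _ hP0]
  refine Finset.sum_congr rfl fun a _ => ?_
  simp only [GP]
  congr 1
  split_ifs <;> simp

theorem sum_GP_some_ee_P (Q : SPar) (P : Finset ℕ) (hP0 : ∀ p ∈ P, 0 < p) (L : ℝ)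
    (i : Fin k) (h : ℕ → ℝ) :
    ∑ a : Finset (IP P), (∏ t ∈ a, h (prP P t)) *
      (GP Q k L (L / 48) (some i) (lg (prP P) a) ^ 2 * Q.ee (lg (prP P) a / L)) =
      SS P h Q.c L (fun t => Q.gg t ^ 2 * Q.ee t) := by
  rw [SS_eq _ _ _ _ _ hP0]
  refine Finset.sum_congr rfl fun a _ => ?_
  simp only [GP]
  congr 1
  split_ifs <;> simp

theorem sum_GP_some_one_P (Q : SPar) (P : Finset ℕ) (hP0 : ∀ p ∈ P, 0 < p) (L : ℝ)
    (i : Fin k) (h : ℕ → ℝ) :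
    ∑ a : Finset (IP P), GP Q k L (L / 48) (some i) (lg (prP P) a) *
      (∏ t ∈ a, h (prP P t)) =
      SS P h Q.c L Q.gg := by
  rw [SS_eq _ _ _ _ _ hP0]
  refine Finset.sum_congr rfl fun a _ => ?_
  simp only [GP]
  rw [mul_comm]

/-- first upper bound -/
theorem S1_P (Q : SPar) (hT1 : S1Upper) {a b : Fin k → ℕ} {D v : ℕ} (hc : Ctx a b D v) (ε : ℝ)
    (hε : 0 < ε) (hI2 : 0 < Q.I2) (x : ℝ) (hx : 1 < x) (L : ℝ) (hL : 0 < L) (P : Finset ℕ)
    (hP : ∀ p ∈ P, p.Prime ∧ D < p) (hS : Sums Q D ε (k + 1) L (L / 48) P) :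
    ∑ n ∈ (Icc 1 ⌊x⌋₊).filter (fun n => n ≡ v [MOD (WW D)]),
        Real.log (x / n) * (wP Q a b P L n) ^ 2 ≤
      Q1 k D x L * ((1 / 3 + ε) * (Q.I2 + ε) ^ k) +
        (Real.log x + 1) * (Real.exp (L / 48 + L) *
          ∏ t : IP P, (1 + 3 * ((k + 1 : ℕ) : ℝ) / (prP P t : ℝ))) ^ 2 := by
  have hp0 : ∀ p ∈ P, 0 < p := fun p hp => (hP p hp).1.pos
  have hL0 : 0 < L / 48 := by positivity
  have hprof := GP_prof Q k L (L / 48) hL hL0
  have hsd := hc.sd P hP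
  have h := S1_le hT1 (prP P) (LF a b) (WW D) v hc.hW hsd (yP Q k P L)
    (fun j s => GP Q k L (L / 48) j (lg (prP P) s)) 1 (L / 48 + L) zero_le_one
    (fun j s => hprof.nonneg j _ (lg_nonneg _ _)) (fun j s => hprof.le_one j _ (lg_nonneg _ _))
    (fun σ => by
      rw [one_mul, yP, abs_of_nonneg (yw_nonneg _ _ _ hprof _ _)]
      exact yw_le_prod _ _ _ hprof _ _)
    (fun σ hσ => yw_supp _ _ _ _ _ (fun s hs hs' => GP_cut_none Q k _ _ s hs hs') σ hσ) x hx.le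
  refine le_trans h ?_
  rw [one_pow, one_mul]
  rw [prod_none_some _ _ _ (sum_GP_none_P Q P hp0 L h1) (fun i => sum_GP_some_P Q P hp0 L i h1), cardJ]
  apply add_le_add _ (le_of_eq rfl)
  have hB := hc.BDpos
  have hWpos : (0 : ℝ) < WW D := by exact_mod_cast hc.hW
  have hh1 : ∀ p ∈ P, 0 ≤ h1 p := by
    intro p hp
    unfold h1
    positivity
  have n2 : 0 ≤ SS P h1 Q.c L (fun t => Q.gg t ^ 2) :=
    SS_nonneg _ _ _ _ _ hh1 hp0 hL fun t _ => sq_nonneg _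
  have n1 : 0 ≤ SS P h1 1 (L / 48) (fun t => (1 - t) ^ 2) :=
    SS_nonneg _ _ _ _ _ hh1 hp0 hL0 fun t _ => sq_nonneg _
  calc x / WW D * (SS P h1 1 (L / 48) (fun t => (1 - t) ^ 2) *
        SS P h1 Q.c L (fun t => Q.gg t ^ 2) ^ k)
      ≤ x / WW D * ((BD D * (L / 48) * (1 / 3 + ε)) * (BD D * L * (Q.I2 + ε)) ^ k) := by
        have := hS.a
        have := hS.b
        gcongr
    _ = _ := by
        unfold Q1
        rw [mul_pow (BD D * L) (Q.I2 + ε) k]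
        ring

/-- lower bound for the model form -/
theorem QI_P_lower (Q : SPar) (hT3 : S2Model) {a b : Fin k → ℕ} {D v : ℕ} (hc : Ctx a b D v)
    (ε : ℝ) (hε : 0 < ε) (hε1 : ε < 1 / 3) (hI1 : ε < Q.I1) (hI2 : ε < Q.I2)
    (hBr : 0 < Br Q k ε) (L : ℝ) (hL : 0 < L) (P : Finset ℕ) (hP : ∀ p ∈ P, p.Prime ∧ D < p)
    (hκ : ∏ t : IP P, (1 + ((k + 1 : ℕ) : ℝ) / ((prP P t : ℝ) - 1) ^ 2) ≤ 1 + ε)
    (hovl : ((k + 1 : ℕ) : ℝ) ^ 2 * ∑ t : IP P, (hb (k + 1) (prP P t)) ^ 2 ≤ ε)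
    (hS : Sums Q D ε (k + 1) L (L / 48) P) (i : Fin k) :
    (1 - ε) ^ 2 * (BD D * L * (Q.I1 - ε)) ^ 2 *
      (BD D * (L / 48) * (BD D * L) ^ (k - 1) * Br Q k ε) ≤
      QI (some i) (prP P) (cw (prP P) (yP Q k P L)) := by
  have hp0 : ∀ p ∈ P, 0 < p := fun p hp => (hP p hp).1.pos
  have hL0 : 0 < L / 48 := by positivity
  have hB := hc.BDpos
  have hprof := GP_prof Q k L (L / 48) hL hL0
  have hp : ∀ t : IP P, Fintype.card (Option (Fin k)) + 1 ≤ prP P t := by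
    intro t
    rw [cardJ]
    have h1 := (hP t.1 t.2).2
    have h2 := hc.hD
    have : prP P t = t.1 := rfl
    omega
  have hpr : ∀ t : IP P, 0 ≤ hb (k + 1) (prP P t) := by
    intro t
    have h1 := hp t
    rw [cardJ] at h1
    have h2 : (((k + 1 : ℕ) + 1 : ℕ) : ℝ) ≤ (prP P t : ℝ) := by exact_mod_cast h1
    push_cast at h2
    unfold hb
    push_cast
    apply div_nonneg
    · linarith
    · positivity
  have hκ2 : ∏ t : IP P, (1 + (Fintype.card (Option (Fin k)) : ℝ) /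
      ((prP P t : ℝ) - 1) ^ 2) ≤ 2 := by
    rw [cardJ]
    linarith
  have h := QI_lower hT3 (prP P) hp none (some i) (by simp) (GP Q k L (L / 48)) hprof
    L (Q.c * L) (Q.lam / L) (by have := Q.hlam; positivity) (fun s => Q.ee (s / L))
    (fun s hs => ee_nonneg Q L hL s hs) (fun s hs h => ee_bound Q L hL s hs h)
    (fun j hj s hs h => GP_cut_some Q k L (L / 48) j hj s hs h) hκ2 (hb (k + 1)) (by
      funext p
      unfold hb
      rw [cardJ])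
  refine le_trans ?_ h
  have e1 : ∑ a : Finset (IP P), GP Q k L (L / 48) (some i) (lg (prP P) a) *
      ∏ t ∈ a, (1 / ((prP P t : ℝ) - 1)) = SS P h0 Q.c L Q.gg :=
    sum_GP_some_one_P Q P hp0 L i h0
  have e2 := sum_GP_none_P (k := k) Q P hp0 L (hb (k + 1))
  have e3 : ∏ j ∈ (univ.erase (some i)).erase none, ∑ a : Finset (IP P),
      (∏ t ∈ a, hb (k + 1) (prP P t)) * GP Q k L (L / 48) j (lg (prP P) a) ^ 2 =
      (SS P (hb (k + 1)) Q.c L (fun t => Q.gg t ^ 2)) ^ (k - 1) :=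
    prod_erase_erase _ i _ (fun j => sum_GP_some_P Q P hp0 L j (hb (k + 1)))
  have e4 : ∏ j ∈ (univ.erase (some i)).erase none, ∑ a : Finset (IP P),
      (∏ t ∈ a, hb (k + 1) (prP P t)) * (GP Q k L (L / 48) j (lg (prP P) a) ^ 2 *
        Q.ee (lg (prP P) a / L)) =
      (SS P (hb (k + 1)) Q.c L (fun t => Q.gg t ^ 2 * Q.ee t)) ^ (k - 1) :=
    prod_erase_erase _ i _ (fun j => sum_GP_some_ee_P Q P hp0 L j (hb (k + 1)))
  have e5 : Real.exp (-(Q.lam / L * (L - Q.c * L))) = Real.exp (-(Q.lam * (1 - Q.c))) := by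
    congr 1
    field_simp
  simp only [e1, e2, e3, e4, e5, cardJ]
  have hhb : ∀ p ∈ P, 0 ≤ hb (k + 1) p := fun p hp => hpr ⟨p, hp⟩
  have nS0 : 0 ≤ SS P (hb (k + 1)) 1 (L / 48) (fun t => (1 - t) ^ 2) :=
    SS_nonneg _ _ _ _ _ hhb hp0 hL0 fun t _ => sq_nonneg _
  have nSE : 0 ≤ SS P (hb (k + 1)) Q.c L (fun t => Q.gg t ^ 2 * Q.ee t) :=
    SS_nonneg _ _ _ _ _ hhb hp0 hL fun t ht => by
      have := Q.hlam
      unfold SPar.ee
      positivity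
  set S0 := SS P (hb (k + 1)) 1 (L / 48) (fun t => (1 - t) ^ 2) with hS0
  set S1 := SS P (hb (k + 1)) Q.c L (fun t => Q.gg t ^ 2) with hS1
  set SE := SS P (hb (k + 1)) Q.c L (fun t => Q.gg t ^ 2 * Q.ee t) with hSE
  set SI := SS P h0 Q.c L Q.gg with hSI
  set κ := ∏ t : IP P, (1 + ((k + 1 : ℕ) : ℝ) / ((prP P t : ℝ) - 1) ^ 2) with hκd
  set ov := ((k + 1 : ℕ) : ℝ) ^ 2 * ∑ t : IP P, (hb (k + 1) (prP P t)) ^ 2 with hov
  have b1 : (1 - ε) ^ 2 ≤ (2 - κ) ^ 2 := by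
    have : 1 - ε ≤ 2 - κ := by linarith
    have : 0 ≤ 1 - ε := by linarith
    gcongr
  have b2 : (BD D * L * (Q.I1 - ε)) ^ 2 ≤ SI ^ 2 := by
    have h1 : 0 ≤ Q.I1 - ε := by linarith
    have := hS.d
    gcongr
  have b3 : (1 - ε) * ((BD D * (L / 48) * (1 / 3 - ε)) * (BD D * L * (Q.I2 - ε)) ^ (k - 1)) ≤
      (1 - ov) * (S0 * S1 ^ (k - 1)) := by
    have h1 : 0 ≤ 1 / 3 - ε := by linarith
    have h2 : 0 ≤ Q.I2 - ε := by linarith
    have h3 := hS.e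
    have h4 := hS.f
    have h5 : 0 ≤ 1 - ε := by linarith
    have h6 : 1 - ε ≤ 1 - ov := by linarith
    have h7 : 0 ≤ 1 - ov := by linarith
    gcongr
  have b4 : Real.exp (-(Q.lam * (1 - Q.c))) * (S0 * SE ^ (k - 1)) ≤
      Real.exp (-(Q.lam * (1 - Q.c))) * ((BD D * (L / 48) * (1 / 3 + ε)) *
        (BD D * L * (Q.IE + ε)) ^ (k - 1)) := by
    have h3 := hS.e'
    have h4 := hS.g
    gcongr
  have b5 : BD D * (L / 48) * (BD D * L) ^ (k - 1) * Br Q k ε ≤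
      (1 - ov) * (S0 * S1 ^ (k - 1)) - Real.exp (-(Q.lam * (1 - Q.c))) * (S0 * SE ^ (k - 1)) := by
    have e : BD D * (L / 48) * (BD D * L) ^ (k - 1) * Br Q k ε =
        (1 - ε) * ((BD D * (L / 48) * (1 / 3 - ε)) * (BD D * L * (Q.I2 - ε)) ^ (k - 1)) -
        Real.exp (-(Q.lam * (1 - Q.c))) * ((BD D * (L / 48) * (1 / 3 + ε)) *
        (BD D * L * (Q.IE + ε)) ^ (k - 1)) := by
      unfold Br
      rw [mul_pow (BD D * L) (Q.I2 - ε), mul_pow (BD D * L) (Q.IE + ε)]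
      ring
    rw [e]
    linarith
  have n5 : 0 ≤ BD D * (L / 48) * (BD D * L) ^ (k - 1) * Br Q k ε := by positivity
  gcongr


end Pool.Agent.H362R2.CM
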