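import Mathlib
import Pool.Agent.H362R2.CM.Defs

/-! Coloured Maynard-Tao: the one-dimensional sums. -/

namespace Pool.Agent.H362R2.CM

open Finset Filter Topology
open Pool.Agent.H410R2 hiding GP GP_prof GP_cut_some GP_cut_none GP_lip gg_pos gg_le_one gg_anti ee_bound ee_nonneg gg_lip LB_gg LB_ee Sums exists_sums yx wx wxi Br sum_GP_none sum_GP_some sum_GP_some_ee sum_GP_some_one sum_GPr_none sum_GPr_some S1_final QI_final S2_final w_abs_le wmax gg ee I1 I2 IE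
open Pool.Agent.H361R2.GM

theorem Sum_h5_bound (p : ℕ) (hp : p.Prime) : |h5 p - 1 / p| ≤ 200 / (p : ℝ) ^ 2 := by
  unfold h5
  have h2 : (2 : ℝ) ≤ p := by exact_mod_cast hp.two_le
  generalize (p : ℝ) = r at h2
  have hr1 : (0 : ℝ) < r - 1 := by linarith
  have hr0 : (0 : ℝ) < r := by linarith
  have e : r ^ 4 / (r - 1) ^ 5 - 1 / r = (r ^ 5 - (r - 1) ^ 5) / (r * (r - 1) ^ 5) := by
    field_simp
  have hle : (r - 1) ^ 5 ≤ r ^ 5 := by gcongr; linarith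
  rw [e, abs_of_nonneg (div_nonneg (by linarith) (by positivity)),
    div_le_div_iff₀ (by positivity) (by positivity)]
  have h3 : (r / 2) ^ 5 ≤ (r - 1) ^ 5 := by
    apply pow_le_pow_left₀ (by positivity)
    linarith
  have h4 : r ^ 5 - (r - 1) ^ 5 ≤ 5 * r ^ 4 := by
    have : r ^ 5 - (r - 1) ^ 5 = 5 * r ^ 4 - 10 * r ^ 3 + 10 * r ^ 2 - 5 * r + 1 := by ring
    rw [this]
    nlinarith [mul_pos hr0 hr0, mul_nonneg (mul_pos hr0 hr0).le (by linarith : 0 ≤ r - 2)]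
  calc (r ^ 5 - (r - 1) ^ 5) * r ^ 2 ≤ 5 * r ^ 4 * r ^ 2 := by gcongr
    _ = 160 * (r * (r / 2) ^ 5) := by ring
    _ ≤ 200 * (r * (r - 1) ^ 5) := by
        have : r * (r / 2) ^ 5 ≤ r * (r - 1) ^ 5 := by gcongr
        have h5 : 0 ≤ r * (r - 1) ^ 5 := by positivity
        linarith

theorem Sum_isWin_Pr (D : ℕ) (x y : ℝ) (hy : y ≤ Real.exp (Real.log x / 4)) :
    IsWin D y (Pr D x) := by
  refine ⟨?_, fun p hp hD hle => ?_⟩
  · intro p hp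
    unfold Pr PW at hp
    rw [Finset.mem_filter, Finset.mem_Icc] at hp
    exact ⟨hp.2, by omega⟩
  · unfold Pr PW
    rw [Finset.mem_filter, Finset.mem_Icc]
    exact ⟨⟨hD, Nat.le_floor (hle.trans hy)⟩, hp⟩

theorem Sum_tendsto_Lr (ρ : ℝ) (hρ : 0 < ρ) : Tendsto (Lr ρ) atTop atTop :=
  Real.tendsto_log_atTop.const_mul_atTop hρ

theorem Sum_tendsto_Lj (ρ : ℝ) (hρ : ρ ≤ 1 / 16) : Tendsto (Lj ρ) atTop atTop :=
  Real.tendsto_log_atTop.const_mul_atTop (by linarith)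

/-! ### task SUM -/
theorem sums_all (Q : SPar) (hOD : OneDim) (K : ℕ) (ε : ℝ) (hε : 0 < ε) (ρ : ℝ) (hρ : 0 < ρ)
    (hρ1 : ρ ≤ 1 / 16) :
    ∃ D₀ : ℕ, ∀ D, D₀ ≤ D → ∀ᶠ x : ℝ in atTop,
      Sums Q D ε K (Lr ρ x) (Lr ρ x / 48) (Pr D x) ∧ Sums2 Q D ε (Lr ρ x) (Lj ρ x) (Pr D x) := by
  obtain ⟨D₁, hS⟩ := exists_sums Q hOD K ε hε
  have hG0 : 0 ≤ Q.G := Q.G0.le
  obtain ⟨Da, ha⟩ := hOD.use (4 * ((0 : ℕ) + 2)) Q.c _ _ Q.hc (LB_gg Q) ε hε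
  obtain ⟨Db, hb'⟩ := hOD.use 2 Q.c _ _ Q.hc (LB_gg Q) ε hε
  obtain ⟨Dc, hc⟩ := hOD.use 200 1 2 _ one_pos LB_f0 ε hε
  obtain ⟨Dd, hd⟩ := hOD.use 200 Q.c _ _ Q.hc ((LB_gg Q).mul (LB_gg Q) hG0 hG0) ε hε
  obtain ⟨De, he⟩ := hOD.use 200 1 1 _ one_pos LB_one ε hε
  obtain ⟨Df, hf⟩ := hOD.use 2 1 1 _ one_pos LB_one ε hε
  refine ⟨D₁ + Da + Db + Dc + Dd + De + Df, fun D hD => ?_⟩
  have ha1 := ha D (by omega) h1 (fun p hp _ => by rw [h1_eq]; exact hb_bound 0 p hp)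
  have hb1 := hb' D (by omega) h0 (fun p hp _ => h0_bound p hp)
  have hc1 := hc D (by omega) h5 (fun p hp _ => Sum_h5_bound p hp)
  have hd1 := hd D (by omega) h5 (fun p hp _ => Sum_h5_bound p hp)
  have he1 := he D (by omega) h5 (fun p hp _ => Sum_h5_bound p hp)
  have hf1 := hf D (by omega) h0 (fun p hp _ => h0_bound p hp)
  have hr := Sum_tendsto_Lr ρ hρ
  have hj := Sum_tendsto_Lj ρ hρ1
  have hr48 : Tendsto (fun x : ℝ => Lr ρ x / 48) atTop atTop :=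
    hr.atTop_div_const (by norm_num)
  filter_upwards [hr.eventually (hS D (by omega)), hr.eventually ha1, hr.eventually hb1,
    hr48.eventually hc1, hr.eventually hd1, hj.eventually he1, hj.eventually hf1,
    eventually_ge_atTop (1 : ℝ)] with x s1 a1 b1 c1 d1 e1 f1 hx
  have hl : 0 ≤ Real.log x := Real.log_nonneg hx
  have hlr : 0 ≤ Lr ρ x := mul_nonneg hρ.le hl
  have hrle : Lr ρ x ≤ Real.log x / 4 := by
    unfold Lr
    nlinarith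
  have hjle : Lj ρ x ≤ Real.log x / 4 := by
    unfold Lj
    nlinarith
  have w0 : IsWin D (Real.exp (Lr ρ x)) (Pr D x) :=
    Sum_isWin_Pr D x _ (Real.exp_le_exp.2 hrle)
  have w1 : IsWin D (Real.exp (Q.c * Lr ρ x)) (Pr D x) := by
    apply Sum_isWin_Pr D x _ (Real.exp_le_exp.2 _)
    have := Q.hc1
    nlinarith
  have w2 : IsWin D (Real.exp (1 * (Lr ρ x / 48))) (Pr D x) := by
    apply Sum_isWin_Pr D x _ (Real.exp_le_exp.2 _)
    linarith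
  have w3 : IsWin D (Real.exp (1 * Lj ρ x)) (Pr D x) := by
    apply Sum_isWin_Pr D x _ (Real.exp_le_exp.2 _)
    linarith
  refine ⟨s1 _ w0, ?_⟩
  have a2 := abs_le.1 (a1 _ w1)
  have b2 := abs_le.1 (b1 _ w1)
  have c2 := abs_le.1 (c1 _ w2)
  have d2 := abs_le.1 (d1 _ w1)
  have e2 := abs_le.1 (e1 _ w3)
  have f2 := abs_le.1 (f1 _ w3)
  rw [int_f0] at c2
  have hI2 : (∫ t in (0 : ℝ)..Q.c, Q.gg t * Q.gg t) = Q.I2 := by
    unfold SPar.I2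
    congr 1
    funext t
    ring
  have hsq : (fun t => Q.gg t ^ 2) = fun t => Q.gg t * Q.gg t := by funext t; ring
  rw [hI2] at d2
  have hint1 : (∫ t in (0 : ℝ)..1, (1 : ℝ)) = 1 := by simp
  rw [hint1] at e2 f2
  have hI1 : (∫ t in (0 : ℝ)..Q.c, Q.gg t) = Q.I1 := rfl
  rw [hI1] at a2 b2
  constructor
  · linarith [a2.2]
  · linarith [b2.2]
  · linarith [c2.2]
  · rw [hsq]; linarith [d2.2]
  · linarith [e2.2]
  · linarith [f2.1]

end Pool.Agent.H362R2.CM
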