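import Mathlib
import Pool.Agent.H362R2.CM.PairB
import Pool.Agent.H362R2.CM.Num
import Pool.Agent.H362R2.CM.S1L
import Pool.Agent.H362R2.CM.Sum
import Pool.Agent.H410R2.MFinal

/-! Coloured Maynard-Tao: assembly. -/

namespace Pool.Agent.H362R2.CM

open Finset Filter Topology
open Pool.Agent.H410R2 hiding GP GP_prof GP_cut_some GP_cut_none GP_lip gg_pos gg_le_one gg_anti ee_bound ee_nonneg gg_lip LB_gg LB_ee Sums exists_sums yx wx wxi Br sum_GP_none sum_GP_some sum_GP_some_ee sum_GP_some_one sum_GPr_none sum_GPr_some S1_final QI_final S2_final w_abs_le wmax gg ee I1 I2 IE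
open Pool.Agent.H361R2.GM

/-- second moment argument for one class -/
theorem cs_class {κ : Type*} [DecidableEq κ] (N : Finset ℕ) (u : ℕ → ℝ) (hu : ∀ n ∈ N, 0 ≤ u n)
    (C : Finset κ) (pr : κ → ℕ → Prop) [∀ i n, Decidable (pr i n)]
    [∀ n, Decidable (∃ i ∈ C, pr i n)] (α γ : ℝ) (hα : 0 < α)
    (hγ : 0 ≤ γ) (hS : ∀ i ∈ C, α ≤ ∑ n ∈ N, if pr i n then u n else 0)
    (hP : ∀ i ∈ C, ∀ j ∈ C, i ≠ j → (∑ n ∈ N, if pr i n ∧ pr j n then u n else 0) ≤ γ)
    (hC : 0 < C.card) :
    (C.card * α) ^ 2 ≤ (∑ n ∈ N, if ∃ i ∈ C, pr i n then u n else 0) *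
      (C.card * α + (C.card : ℝ) ^ 2 * γ) := by
  classical
  set X : ℕ → ℝ := fun n => ∑ i ∈ C, if pr i n then (1 : ℝ) else 0 with hX
  set q : ℝ := ∑ n ∈ N, if ∃ i ∈ C, pr i n then u n else 0 with hq
  set s : ℝ := ∑ n ∈ N, u n * X n with hs
  have hC' : (0 : ℝ) < C.card := by exact_mod_cast hC
  have hX0 : ∀ n, 0 ≤ X n := fun n => Finset.sum_nonneg fun i _ => by split_ifs <;> norm_num
  have hq0 : 0 ≤ q := Finset.sum_nonneg fun n hn => by
    split_ifs
    · exact hu n hn
    · exact le_rfl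
  have hCS : s ^ 2 ≤ q * ∑ n ∈ N, u n * X n ^ 2 := by
    rw [hs, hq]
    apply Finset.sum_sq_le_sum_mul_sum_of_sq_le_mul
    · intro n hn
      split_ifs
      · exact hu n hn
      · exact le_rfl
    · intro n hn
      exact mul_nonneg (hu n hn) (sq_nonneg _)
    · intro n hn
      apply le_of_eq
      split_ifs with h
      · ring
      · have : X n = 0 := by
          simp only [hX]
          apply Finset.sum_eq_zero
          intro i hi
          rw [if_neg]
          exact fun h' => h ⟨i, hi, h'⟩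
        rw [this]
        ring
  have hs1 : s = ∑ i ∈ C, ∑ n ∈ N, if pr i n then u n else 0 := by
    rw [hs, Finset.sum_comm]
    refine Finset.sum_congr rfl fun n _ => ?_
    simp only [hX]
    rw [Finset.mul_sum]
    refine Finset.sum_congr rfl fun i _ => ?_
    split_ifs <;> simp
  have hs2 : C.card * α ≤ s := by
    rw [hs1, ← nsmul_eq_mul]
    exact Finset.card_nsmul_le_sum _ _ _ hS
  have hsq : ∑ n ∈ N, u n * X n ^ 2 ≤ s + (C.card : ℝ) ^ 2 * γ := by
    have e1 : ∑ n ∈ N, u n * X n ^ 2 =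
        ∑ i ∈ C, ∑ j ∈ C, ∑ n ∈ N, if pr i n ∧ pr j n then u n else 0 := by
      have h1 : ∀ n, u n * X n ^ 2 = ∑ i ∈ C, ∑ j ∈ C, if pr i n ∧ pr j n then u n else 0 := by
        intro n
        simp only [hX]
        rw [sq, Finset.sum_mul_sum, Finset.mul_sum]
        refine Finset.sum_congr rfl fun i _ => ?_
        rw [Finset.mul_sum]
        refine Finset.sum_congr rfl fun j _ => ?_
        by_cases h1 : pr i n <;> by_cases h2 : pr j n <;> simp [h1, h2]
      rw [Finset.sum_congr rfl fun n _ => h1 n, Finset.sum_comm]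
      refine Finset.sum_congr rfl fun i _ => ?_
      rw [Finset.sum_comm]
    rw [e1]
    have e2 : ∀ i ∈ C, ∑ j ∈ C, (∑ n ∈ N, if pr i n ∧ pr j n then u n else 0) ≤
        (∑ n ∈ N, if pr i n then u n else 0) + C.card * γ := by
      intro i hi
      rw [← Finset.add_sum_erase _ _ hi]
      apply add_le_add
      · apply le_of_eq
        refine Finset.sum_congr rfl fun n _ => ?_
        simp
      · have h3 : ∑ j ∈ C.erase i, (∑ n ∈ N, if pr i n ∧ pr j n then u n else 0) ≤
            ∑ _j ∈ C.erase i, γ := by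
          apply Finset.sum_le_sum
          intro j hj
          exact hP i hi j (Finset.mem_of_mem_erase hj) (Finset.ne_of_mem_erase hj).symm
        refine h3.trans ?_
        rw [Finset.sum_const, nsmul_eq_mul]
        apply mul_le_mul_of_nonneg_right _ hγ
        exact_mod_cast Finset.card_le_card (Finset.erase_subset _ _)
    refine (Finset.sum_le_sum e2).trans ?_
    rw [Finset.sum_add_distrib, ← hs1, Finset.sum_const, nsmul_eq_mul]
    apply le_of_eq
    ring
  set s0 : ℝ := C.card * α with hs0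
  set κ' : ℝ := (C.card : ℝ) ^ 2 * γ with hκ'
  have hs00 : 0 < s0 := by positivity
  have hκ0 : 0 ≤ κ' := by positivity
  have h1 : s ^ 2 ≤ q * (s + κ') := hCS.trans (mul_le_mul_of_nonneg_left hsq hq0)
  have hspos : 0 < s := lt_of_lt_of_le hs00 hs2
  -- monotonicity of `s^2 / (s + κ)`
  have h2 : s0 ^ 2 * (s + κ') ≤ s ^ 2 * (s0 + κ') := by
    have h3 : s0 ^ 2 * s ≤ s ^ 2 * s0 := by
      have := mul_le_mul_of_nonneg_left hs2 (by positivity : 0 ≤ s0 * s)
      nlinarith
    have h4 : s0 ^ 2 * κ' ≤ s ^ 2 * κ' := by gcongr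
    nlinarith
  have h5 : s0 ^ 2 * (s + κ') ≤ (q * (s0 + κ')) * (s + κ') := by
    calc s0 ^ 2 * (s + κ') ≤ s ^ 2 * (s0 + κ') := h2
      _ ≤ (q * (s + κ')) * (s0 + κ') := by gcongr
      _ = _ := by ring
  exact le_of_mul_le_mul_right h5 (by linarith)

/-- the final counting argument -/
theorem count_all {T k : ℕ} (cl : Fin k → Fin T) (N : Finset ℕ) (u : ℕ → ℝ)
    (hu : ∀ n ∈ N, 0 ≤ u n) (pr : Fin k → ℕ → Prop) [∀ i n, Decidable (pr i n)] (M N0 : ℕ)
    (hM : ∀ n, N0 < n → (univ.filter (fun g : Fin T => ∃ i, cl i = g ∧ pr i n)).card ≤ M) :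
    ∑ g : Fin T, (∑ n ∈ N, if ∃ i ∈ univ.filter (fun i => cl i = g), pr i n then u n else 0) ≤
      M * ∑ n ∈ N, u n + T * ∑ n ∈ N.filter (fun n => n ≤ N0), u n := by
  classical
  rw [Finset.sum_comm, Finset.mul_sum, Finset.mul_sum, Finset.sum_filter,
    ← Finset.sum_add_distrib]
  apply Finset.sum_le_sum
  intro n hn
  have hun := hu n hn
  have e1 : (∑ g : Fin T, if ∃ i ∈ univ.filter (fun i => cl i = g), pr i n then u n else 0) =
      ((univ.filter (fun g : Fin T => ∃ i, cl i = g ∧ pr i n)).card : ℝ) * u n := by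
    rw [← Finset.sum_filter, Finset.sum_const, nsmul_eq_mul]
    congr 3
    ext g
    simp
  rw [e1]
  by_cases h : n ≤ N0
  · rw [if_pos h]
    have h1 : ((univ.filter (fun g : Fin T => ∃ i, cl i = g ∧ pr i n)).card : ℝ) ≤ T := by
      have h2 := Finset.card_filter_le (univ : Finset (Fin T))
        (fun g : Fin T => ∃ i, cl i = g ∧ pr i n)
      rw [Finset.card_univ, Fintype.card_fin] at h2
      exact_mod_cast h2
    have h3 : 0 ≤ (M : ℝ) * u n := by positivity
    have h4 := mul_le_mul_of_nonneg_right h1 hun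
    linarith
  · rw [if_neg h, add_zero]
    apply mul_le_mul_of_nonneg_right _ hun
    exact_mod_cast hM n (not_le.1 h)

end Pool.Agent.H362R2.CM
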