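import Mathlib
import Pool.Agent.H362R2.CM.Asm

/-! Coloured Maynard-Tao: the core theorem. -/

namespace Pool.Agent.H362R2.CM

open Finset Filter Topology
open Pool.Agent.H410R2 hiding GP GP_prof GP_cut_some GP_cut_none GP_lip gg_pos gg_le_one gg_anti ee_bound ee_nonneg gg_lip LB_gg LB_ee Sums exists_sums yx wx wxi Br sum_GP_none sum_GP_some sum_GP_some_ee sum_GP_some_one sum_GPr_none sum_GPr_some S1_final QI_final S2_final w_abs_le wmax gg ee I1 I2 IE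
open Pool.Agent.H361R2.GM

variable {k : ℕ}

theorem κ1_of (hTail : TailBound) (k : ℕ) (ε : ℝ) (hε : 0 < ε) : ∃ D₀ : ℕ, ∀ D, D₀ ≤ D → ∀ x,
    ∏ t : IP (Pr D x), (1 + ((k + 1 : ℕ) : ℝ) / ((prP (Pr D x) t : ℝ) - 1) ^ 2) ≤ 1 + ε := by
  obtain ⟨D₀, h⟩ := hTail ((k + 1 : ℕ) : ℝ) (Nat.cast_nonneg _) ε hε
  refine ⟨D₀, fun D hD x => ?_⟩
  have h1 := (h D hD (Pr D x) (Pr_prime D x)).1
  have e : ∏ t : IP (Pr D x), (1 + ((k + 1 : ℕ) : ℝ) / ((prP (Pr D x) t : ℝ) - 1) ^ 2) =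
      ∏ p ∈ Pr D x, (1 + ((k + 1 : ℕ) : ℝ) / ((p : ℝ) - 1) ^ 2) :=
    Finset.prod_coe_sort (Pr D x) (fun p => 1 + ((k + 1 : ℕ) : ℝ) / ((p : ℝ) - 1) ^ 2)
  rw [e]
  exact h1

theorem κ3_of (hTail : TailBound) (k : ℕ) (ε : ℝ) (hε : 0 < ε) : ∃ D₀ : ℕ, ∀ D, D₀ ≤ D → ∀ x,
    ∏ t : IP (Pr D x), (1 + ((k + 1 : ℕ) : ℝ) * ((prP (Pr D x) t : ℝ) /
      ((prP (Pr D x) t : ℝ) - 1) ^ 3)) ≤ 1 + ε := by
  obtain ⟨D₀, h⟩ := hTail (2 * ((k + 1 : ℕ) : ℝ)) (by positivity) ε hε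
  refine ⟨D₀, fun D hD x => ?_⟩
  have h1 := (h D hD (Pr D x) (Pr_prime D x)).1
  have e : ∏ t : IP (Pr D x), (1 + ((k + 1 : ℕ) : ℝ) * ((prP (Pr D x) t : ℝ) /
      ((prP (Pr D x) t : ℝ) - 1) ^ 3)) =
      ∏ p ∈ Pr D x, (1 + ((k + 1 : ℕ) : ℝ) * ((p : ℝ) / ((p : ℝ) - 1) ^ 3)) :=
    Finset.prod_coe_sort (Pr D x) (fun p => 1 + ((k + 1 : ℕ) : ℝ) * ((p : ℝ) / ((p : ℝ) - 1) ^ 3))
  rw [e]
  refine le_trans ?_ h1
  apply Finset.prod_le_prod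
  · intro p hp
    have hp2 : (2 : ℝ) ≤ p := by exact_mod_cast (Pr_prime D x p hp).1.two_le
    have : (0 : ℝ) < (p : ℝ) - 1 := by linarith
    positivity
  · intro p hp
    have hp2 : (2 : ℝ) ≤ p := by exact_mod_cast (Pr_prime D x p hp).1.two_le
    have hp1 : (0 : ℝ) < (p : ℝ) - 1 := by linarith
    have h2 : (p : ℝ) / ((p : ℝ) - 1) ^ 3 ≤ 2 / ((p : ℝ) - 1) ^ 2 := by
      rw [div_le_div_iff₀ (by positivity) (by positivity)]
      have h3 : 0 < ((p : ℝ) - 1) ^ 2 := by positivity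
      have h4 : (p : ℝ) ≤ 2 * ((p : ℝ) - 1) := by linarith
      calc (p : ℝ) * ((p : ℝ) - 1) ^ 2 ≤ (2 * ((p : ℝ) - 1)) * ((p : ℝ) - 1) ^ 2 := by gcongr
        _ = _ := by ring
    have h5 := mul_le_mul_of_nonneg_left h2 (Nat.cast_nonneg (k + 1) : (0 : ℝ) ≤ ((k + 1 : ℕ) : ℝ))
    have h6 : ((k + 1 : ℕ) : ℝ) * (2 / ((p : ℝ) - 1) ^ 2) =
        2 * ((k + 1 : ℕ) : ℝ) / ((p : ℝ) - 1) ^ 2 := by ring
    linarith

theorem ovl_of (hTail : TailBound) (k : ℕ) (ε : ℝ) (hε : 0 < ε) : ∃ D₀ : ℕ, ∀ D, D₀ ≤ D → ∀ x,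
    ((k + 1 : ℕ) : ℝ) ^ 2 * ∑ t : IP (Pr D x), (hb (k + 1) (prP (Pr D x) t)) ^ 2 ≤ ε := by
  obtain ⟨D₀, h⟩ := hTail (((k + 1 : ℕ) : ℝ) ^ 2) (by positivity) ε hε
  refine ⟨D₀ + (k + 2), fun D hD x => ?_⟩
  have h1 := (h D (by omega) (Pr D x) (Pr_prime D x)).2
  have e : ∑ t : IP (Pr D x), (hb (k + 1) (prP (Pr D x) t)) ^ 2 =
      ∑ p ∈ Pr D x, (hb (k + 1) p) ^ 2 :=
    Finset.sum_coe_sort (Pr D x) (fun p => (hb (k + 1) p) ^ 2)
  rw [e, Finset.mul_sum]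
  refine le_trans (Finset.sum_le_sum fun p hp => ?_) h1
  have hp' := Pr_prime D x p hp
  have hpk : k + 1 ≤ p := by omega
  have hpk' : (k : ℝ) + 1 ≤ p := by exact_mod_cast hpk
  have hp2 : (2 : ℝ) ≤ p := by exact_mod_cast hp'.1.two_le
  have hk0 : (0 : ℝ) ≤ k := Nat.cast_nonneg k
  have hp1 : (0 : ℝ) < (p : ℝ) - 1 := by linarith
  have h2 : (hb (k + 1) p) ^ 2 ≤ 1 / ((p : ℝ) - 1) ^ 2 := by
    unfold hb
    push_cast
    rw [div_pow, div_le_div_iff₀ (by positivity) (by positivity)]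
    have h3 : ((p : ℝ) - (k + 1)) ^ 2 ≤ ((p : ℝ) - 1) ^ 2 := by
      apply pow_le_pow_left₀ <;> linarith
    have h4 : 0 ≤ ((p : ℝ) - 1) ^ 2 := by positivity
    nlinarith
  calc ((k + 1 : ℕ) : ℝ) ^ 2 * (hb (k + 1) p) ^ 2 ≤
      ((k + 1 : ℕ) : ℝ) ^ 2 * (1 / ((p : ℝ) - 1) ^ 2) := by gcongr
    _ = _ := by ring

/-- lower bound for each single form -/
theorem single_bound (Q : SPar) (hT2 : S2Approx) (hT3 : S2Model) (hBV : BVAP) (hPNT : PNTLog)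
    (hPB : ProdBound) (hOB : OmegaBound) {a b : Fin k → ℕ} {D v : ℕ} (hc : Ctx a b D v) (ρ : ℝ)
    (hρ : 0 < ρ) (hρ1 : ρ ≤ 1 / 16) (ε : ℝ) (hε : 0 < ε) (hε1 : ε < 1 / 3) (hI1 : ε < Q.I1)
    (hI2 : ε < Q.I2) (hBr : 0 < Br Q k ε)
    (hκ : ∀ x, ∏ t : IP (Pr D x), (1 + ((k + 1 : ℕ) : ℝ) / ((prP (Pr D x) t : ℝ) - 1) ^ 2) ≤ 1 + ε)
    (hovl : ∀ x, ((k + 1 : ℕ) : ℝ) ^ 2 * ∑ t : IP (Pr D x), (hb (k + 1) (prP (Pr D x) t)) ^ 2 ≤ ε)
    (hS : ∀ᶠ x : ℝ in atTop, Sums Q D ε (k + 1) (Lr ρ x) (Lr ρ x / 48) (Pr D x)) :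
    ∀ᶠ x : ℝ in atTop, ∀ i : Fin k, Q1 k D x (Lr ρ x) * (ρ * βc Q k ε) ≤
      ∑ n ∈ (Icc 1 ⌊x⌋₊).filter
        (fun n => n ≡ v [MOD (WW D)] ∧ (a i * n + b i).Prime),
          Real.log (x / n) * (wP Q a b (Pr D x) (Lr ρ x) n) ^ 2 := by
  have h1ε : 0 < 1 - ε := by linarith
  have hI1ε : 0 < Q.I1 - ε := by linarith
  have hErr : ∀ᶠ x : ℝ in atTop, ∀ i : Fin k, ∀ r : ℕ → ℕ, (1 : ℝ) * (Real.log x) ^ 0 *
      ((∏ t : IP (Pr D x), (1 + ((k + 1 : ℕ) : ℝ) / ((prP (Pr D x) t : ℝ) - 1)) *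
        ((prP (Pr D x) t : ℝ) / ((prP (Pr D x) t : ℝ) - 1))) ^ 2 *
      ∑ q ∈ (Icc 1 ⌊(Real.exp ((1 / 4 - ρ / 2) * Real.log x)) ^ 2⌋₊).filter
        (fun q => Squarefree q ∧ (r q).Coprime (a i * WW D * q)),
        (3 * ((k + 1 : ℕ) : ℝ)) ^ q.primeFactors.card *
          (|psiLogAP (a i * x) (a i * WW D * q) (r q) -
            psiLog1 (a i * x) / (Nat.totient (a i * WW D * q) : ℝ)| +
            ((a i : ℝ) + b i) ^ 2 * (Real.log (a i * x) + 1))) ≤ x := by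
    rw [Filter.eventually_all]
    intro i
    exact errP_le hBV hPB hOB ρ hρ hρ1 _ (by push_cast; linarith [(Nat.cast_nonneg k : (0 : ℝ) ≤ k)])
      D (a i) (b i) (WW D) (hc.ha i) hc.hW 0 1
  have hpsi := psi_both hPNT a hc.ha ε hε
  obtain ⟨C, hC0, htp⟩ := toPrimes Q hPB hOB hc ρ hρ hρ1
  set β0 : ℝ := (1 - ε) ^ 3 * (Q.I1 - ε) ^ 2 * Br Q k ε with hβ0
  have hβ0p : 0 < β0 := by positivity
  filter_upwards [hErr, hpsi, hS, htp, Q1_large ρ hρ k D hc.hW hc.BDpos (2 / (ρ * β0)),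
    Real.tendsto_log_atTop.eventually_ge_atTop ((C + 1) / ε), eventually_gt_atTop (1 : ℝ)]
    with x hErr hpsi hS htp hQ1 hlC hx i
  have hx0 : 0 < x := by linarith
  have hlx : 0 < Real.log x := Real.log_pos hx
  have hL : 0 < Lr ρ x := by unfold Lr; positivity
  set P := Pr D x with hPd
  have hP : ∀ p ∈ P, p.Prime ∧ D < p := Pr_prime D x
  have hWpos : (0 : ℝ) < WW D := by exact_mod_cast hc.hW
  have hB := hc.BDpos
  have hai : (0 : ℝ) < a i := by exact_mod_cast hc.ha i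
  set L := Lr ρ x with hLd
  have hprof := GP_prof Q k L (L / 48) hL (by positivity)
  obtain ⟨r, hr⟩ := S2_use hT2 hc i P hP (yP Q k P L) 1 one_pos (fun σ => by
      unfold yP
      rw [abs_of_nonneg (yw_nonneg _ _ _ hprof _ _)]
      exact yw_le_one _ _ _ hprof _ _)
    ((1 / 4 - ρ / 2) * Real.log x) (mul_nonneg (by linarith) hlx.le) (fun σ hσ => by
      refine (yw_supp (prP P) none (GP Q k L (L / 48)) L (L / 48)
        (fun s hs hs' => GP_cut_none Q k _ _ s hs hs') σ hσ).trans ?_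
      rw [hLd]
      unfold Lr
      nlinarith) x hx.le
  have hE := hErr i r
  rw [one_pow, one_mul] at hr
  rw [pow_zero, one_mul, one_mul] at hE
  have hmain := (abs_le.1 (hr.trans hE)).1
  have hQI := QI_P_lower Q hT3 hc ε hε hε1 hI1 hI2 hBr L hL P hP (hκ x) (hovl x) hS i
  have hQIn : 0 ≤ (1 - ε) ^ 2 * (BD D * L * (Q.I1 - ε)) ^ 2 *
      (BD D * (L / 48) * (BD D * L) ^ (k - 1) * Br Q k ε) := by positivity
  have hψ := (hpsi i).1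
  have e1 : (1 - ε) * x / (WW D * BD D) ≤ psiLog1 (a i * x) / (a i * Nat.totient (WW D)) := by
    rw [hc.tot, div_le_div_iff₀ (by positivity) (by positivity)]
    have h3 : 0 ≤ (WW D : ℝ) * BD D := by positivity
    calc (1 - ε) * x * (a i * (WW D * BD D)) = ((1 - ε) * (a i * x)) * (WW D * BD D) := by ring
      _ ≤ psiLog1 (a i * x) * (WW D * BD D) := by gcongr
  have hk : (BD D * L) ^ k = (BD D * L) ^ (k - 1) * (BD D * L) := by
    rw [← pow_succ]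
    congr 1
    have := i.2
    omega
  have hlow : L * Q1 k D x L * β0 ≤ psiLog1 (a i * x) / (a i * Nat.totient (WW D)) *
      QI (some i) (prP P) (cw (prP P) (yP Q k P L)) := by
    calc L * Q1 k D x L * β0
        = ((1 - ε) * x / (WW D * BD D)) * ((1 - ε) ^ 2 * (BD D * L * (Q.I1 - ε)) ^ 2 *
          (BD D * (L / 48) * (BD D * L) ^ (k - 1) * Br Q k ε)) := by
          unfold Q1
          rw [hk, hβ0]
          field_simp
      _ ≤ _ := by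
          have h5 : 0 ≤ (1 - ε) * x / (WW D * BD D) := by positivity
          gcongr
          exact h5.trans e1
  have htp' := htp i
  set S := ∑ n ∈ (Icc 1 ⌊x⌋₊).filter
        (fun n => n ≡ v [MOD (WW D)] ∧ (a i * n + b i).Prime),
          Real.log (x / n) * (wP Q a b P L n) ^ 2 with hSd
  have hy : x ^ (3 / 4 : ℝ) ≤ x := by
    calc x ^ (3 / 4 : ℝ) ≤ x ^ (1 : ℝ) := Real.rpow_le_rpow_of_exponent_le hx.le (by norm_num)
      _ = x := Real.rpow_one x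
  have hkey : L * Q1 k D x L * β0 - 2 * x ≤ (Real.log x + C) * S := by linarith
  -- absorb the errors
  have hQ1' : 2 * x ≤ Q1 k D x L * (ρ * β0) := by
    have h4 : 0 < ρ * β0 := by positivity
    have := mul_le_mul_of_nonneg_right hQ1 h4.le
    calc 2 * x = 2 / (ρ * β0) * x * (ρ * β0) := by field_simp
      _ ≤ _ := this
  have hlC' : C + 1 ≤ ε * Real.log x := by
    rw [div_le_iff₀ hε] at hlC
    linarith
  have hW0 : 0 ≤ Q1 k D x L * (ρ * β0) := by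
    have : 0 ≤ 2 * x := by positivity
    linarith
  have hfin : (Real.log x + C) * (Q1 k D x L * (ρ * βc Q k ε)) ≤ (Real.log x + C) * S := by
    refine le_trans ?_ hkey
    have e2 : Q1 k D x L * (ρ * βc Q k ε) = (1 - ε) * (Q1 k D x L * (ρ * β0)) := by
      unfold βc
      rw [hβ0]
      ring
    have e3 : L * Q1 k D x L * β0 = Real.log x * (Q1 k D x L * (ρ * β0)) := by
      rw [hLd]
      unfold Lr
      ring
    rw [e2, e3]
    set W := Q1 k D x L * (ρ * β0) with hWd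
    have h6 : (Real.log x + C) * (1 - ε) ≤ Real.log x - 1 := by nlinarith
    have h7 := mul_le_mul_of_nonneg_right h6 hW0
    calc (Real.log x + C) * ((1 - ε) * W) = (Real.log x + C) * (1 - ε) * W := by ring
      _ ≤ (Real.log x - 1) * W := h7
      _ = Real.log x * W - W := by ring
      _ ≤ _ := by linarith
  exact le_of_mul_le_mul_left hfin (by linarith)

end Pool.Agent.H362R2.CM
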