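import Mathlib
import Pool.Agent.H361R2.GBridge
import Pool.Agent.H362R2.CM.Main

/-! Coloured Maynard-Tao theorem, integer forms. -/

namespace Pool.Agent.H362R2.CM

open Finset Pool.Agent.H361R2

/-- the shift lemma: positive integer forms, admissible, can be translated so that they become
non proportional forms with positive coefficients, admissible together with `n`. -/
theorem shift_forms {k : ℕ} (A : Fin k → ℕ) (B : Fin k → ℤ) (hA : ∀ i, 0 < A i)
    (hinj : Function.Injective (fun i => (A i, B i)))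
    (hadm : ∀ p : ℕ, p.Prime → ∃ n : ℤ, ∀ i, ¬ (p : ℤ) ∣ A i * n + B i) :
    ∃ (N : ℕ) (b : Fin k → ℕ), (∀ i, (b i : ℤ) = (A i : ℤ) * N + B i) ∧ (∀ i, 1 ≤ b i) ∧
      (∀ i j, i ≠ j → A i * b j ≠ A j * b i) ∧
      (∀ p : ℕ, p.Prime → ∃ n : ℕ, ¬ p ∣ n ∧ ∀ i, ¬ p ∣ A i * n + b i) := by
  classical
  -- primitive forms
  have hprim : ∀ i, ∀ p : ℕ, p.Prime → ¬ ((p : ℤ) ∣ A i ∧ (p : ℤ) ∣ B i) := by
    intro i p hp ⟨h1, h2⟩
    obtain ⟨n, hn⟩ := hadm p hp
    exact hn i (dvd_add (Dvd.dvd.mul_right h1 _) h2)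
  have hcop : ∀ i, IsCoprime (A i : ℤ) (B i) := fun i => isCoprime_of_forall_prime (hprim i)
  -- the shift
  choose! ν hν using hadm
  set T : Finset ℕ := (range (k + 2)).filter Nat.Prime with hT
  have hpair : Set.Pairwise (T : Set ℕ) (Function.onFun Nat.Coprime (fun p : ℕ => p)) := by
    intro p hp q hq hpq
    have hp' : p.Prime := (mem_filter.1 hp).2
    have hq' : q.Prime := (mem_filter.1 hq).2
    exact (Nat.coprime_primes hp' hq').2 hpq
  obtain ⟨N0, hN0⟩ := Nat.chineseRemainderOfFinset (fun p : ℕ => ((ν p - 1) % p).toNat)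
    (fun p : ℕ => p) T (fun p hp => (mem_filter.1 hp).2.ne_zero) hpair
  set M : ℕ := ∑ i, (B i).natAbs + 1 with hM
  set N : ℕ := N0 + M * (k + 1).factorial with hN
  have hNM : M ≤ N := by
    have : 1 ≤ (k + 1).factorial := Nat.factorial_pos _
    nlinarith [Nat.zero_le N0]
  have hNp : ∀ p ∈ T, (p : ℤ) ∣ (N : ℤ) - (ν p - 1) := by
    intro p hp
    have hpp : p.Prime := (mem_filter.1 hp).2
    have hple : p ≤ k + 1 := by
      have := mem_range.1 (mem_filter.1 hp).1
      omega
    have h1 := hN0 p hp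
    have h2 : (p : ℤ) ∣ (((ν p - 1) % p).toNat : ℤ) - (N0 : ℤ) := Nat.modEq_iff_dvd.1 h1
    rw [Int.toNat_of_nonneg (Int.emod_nonneg _ (by exact_mod_cast hpp.ne_zero))] at h2
    have h3 : (p : ℤ) ∣ (ν p - 1) - (ν p - 1) % p := Int.dvd_self_sub_emod
    have h4 : (p : ℤ) ∣ (M : ℤ) * ((k + 1).factorial : ℤ) :=
      Dvd.dvd.mul_left (Int.natCast_dvd_natCast.2 ((hpp.dvd_factorial).2 hple)) _
    have h5 := dvd_sub h4 (dvd_add h2 h3)
    have h6 : (M : ℤ) * ((k + 1).factorial : ℤ) -
        (((ν p - 1) % p - (N0 : ℤ)) + ((ν p - 1) - (ν p - 1) % p)) = (N : ℤ) - (ν p - 1) := by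
      rw [hN]; push_cast; ring
    rwa [h6] at h5
  have hbpos : ∀ i, 1 ≤ (A i : ℤ) * N + B i := by
    intro i
    have h1 : (B i).natAbs ≤ ∑ i, (B i).natAbs :=
      Finset.single_le_sum (f := fun i => (B i).natAbs) (fun _ _ => Nat.zero_le _) (mem_univ i)
    have h2 : (1 : ℤ) ≤ A i := by exact_mod_cast hA i
    have h3 : ((B i).natAbs : ℤ) + 1 ≤ N := by
      have : (B i).natAbs + 1 ≤ N := by omega
      exact_mod_cast this
    have h4 : -((B i).natAbs : ℤ) ≤ B i := by
      have := neg_abs_le (B i)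
      rwa [Int.abs_eq_natAbs] at this
    nlinarith
  set b : Fin k → ℕ := fun i => ((A i : ℤ) * N + B i).toNat with hb
  have hbz : ∀ i, (b i : ℤ) = (A i : ℤ) * N + B i := by
    intro i
    rw [hb]
    exact Int.toNat_of_nonneg (by have := hbpos i; omega)
  have hb1 : ∀ i, 1 ≤ b i := by
    intro i
    have := hbpos i
    rw [← hbz] at this
    exact_mod_cast this
  have hnp : ∀ i j, i ≠ j → A i * b j ≠ A j * b i := by
    intro i j hij heq
    have h1 : (A i : ℤ) * b j = (A j : ℤ) * b i := by exact_mod_cast heq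
    rw [hbz, hbz] at h1
    have h2 : (A i : ℤ) * B j = A j * B i := by linarith
    have h3 : (A i : ℤ) ∣ A j := (hcop i).dvd_of_dvd_mul_right (Dvd.intro _ h2)
    have h4 : (A j : ℤ) ∣ A i := (hcop j).dvd_of_dvd_mul_right (Dvd.intro _ h2.symm)
    have h5 : A i = A j := Nat.dvd_antisymm (Int.natCast_dvd_natCast.1 h3) (Int.natCast_dvd_natCast.1 h4)
    have h6 : B i = B j := by
      rw [h5] at h2
      have h7 : (A j : ℤ) ≠ 0 := by exact_mod_cast (hA j).ne'
      exact (mul_left_cancel₀ h7 h2).symm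
    exact hij (hinj (by simp [h5, h6]))
  have hadm' : ∀ p : ℕ, p.Prime → ∃ n : ℕ, ¬ p ∣ n ∧ ∀ i, ¬ p ∣ A i * n + b i := by
    intro p hp
    by_cases hpk : p < k + 2
    · refine ⟨1, fun h => hp.one_lt.ne' (Nat.dvd_one.1 h), ?_⟩
      intro i hdvd
      have hpT : p ∈ T := mem_filter.2 ⟨mem_range.2 hpk, hp⟩
      apply hν p hp i
      have h1 : (p : ℤ) ∣ (A i : ℤ) * 1 + b i := by exact_mod_cast hdvd
      rw [hbz] at h1
      have h2 : (p : ℤ) ∣ (A i : ℤ) * ((N : ℤ) - (ν p - 1)) := Dvd.dvd.mul_left (hNp p hpT) _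
      have h3 := dvd_sub h1 h2
      have h4 : (A i : ℤ) * 1 + ((A i : ℤ) * N + B i) - (A i : ℤ) * ((N : ℤ) - (ν p - 1)) =
          (A i : ℤ) * ν p + B i := by ring
      rwa [h4] at h3
    · push Not at hpk
      obtain ⟨n, hn⟩ := exists_avoid' (m := k + 1) hp (by omega)
        (Fin.cons 1 (fun i => (A i : ℤ))) (Fin.cons 0 (fun i => (b i : ℤ))) (by
          intro i
          refine Fin.cases ?_ (fun i => ?_) i
          · simp only [Fin.cons_zero]
            rintro ⟨h1, _⟩
            exact (Nat.prime_iff_prime_int.1 hp).not_isUnit (isUnit_of_dvd_one h1)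
          · simp only [Fin.cons_succ]
            rintro ⟨h1, h2⟩
            apply hprim i p hp
            refine ⟨h1, ?_⟩
            rw [hbz] at h2
            exact (dvd_add_right (Dvd.dvd.mul_right h1 _)).1 h2)
      refine ⟨n, ?_, ?_⟩
      · intro h
        have := hn 0
        simp only [Fin.cons_zero, one_mul, add_zero] at this
        exact this (Int.natCast_dvd_natCast.2 h)
      · intro i h
        have := hn i.succ
        simp only [Fin.cons_succ] at this
        exact this (by exact_mod_cast h)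
  exact ⟨N, b, hbz, hb1, hnp, hadm'⟩

/-- **Coloured Maynard-Tao theorem** (a quarter of the classes), integer forms. -/
theorem quarter (T : ℕ) : ∃ K : ℕ, 1 ≤ K ∧ ∀ (a b : Fin T → Fin K → ℤ), (∀ g i, 0 < a g i) →
    Function.Injective (fun x : Fin T × Fin K => (a x.1 x.2, b x.1 x.2)) →
    (∀ p : ℕ, p.Prime → ∃ n : ℤ, ∀ g i, ¬ ((p : ℤ) ∣ a g i * n + b g i)) →
    ∃ (S : Finset (Fin T)) (c : Fin T → Fin K), T ≤ 4 * S.card ∧
      {n : ℕ | ∀ g ∈ S, 0 < a g (c g) * (n : ℤ) + b g (c g) ∧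
        Prime (a g (c g) * (n : ℤ) + b g (c g))}.Infinite := by
  classical
  rcases Nat.eq_zero_or_pos T with hT | hT
  · subst hT
    refine ⟨1, le_rfl, ?_⟩
    intro a b _ _ _
    refine ⟨∅, fun _ => 0, by simp, ?_⟩
    simpa using Set.infinite_univ
  set M : ℕ := (T + 3) / 4 - 1 with hM
  obtain ⟨K, hK2, hcore⟩ := core T M (by omega)
  refine ⟨K, by omega, ?_⟩
  intro a b ha hinj hadm
  set e : Fin T × Fin K ≃ Fin (T * K) := finProdFinEquiv with he
  set A : Fin (T * K) → ℕ := fun i => (a (e.symm i).1 (e.symm i).2).toNat with hA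
  set B : Fin (T * K) → ℤ := fun i => b (e.symm i).1 (e.symm i).2 with hB
  have hAz : ∀ i, (A i : ℤ) = a (e.symm i).1 (e.symm i).2 := fun i =>
    Int.toNat_of_nonneg (ha _ _).le
  obtain ⟨N, b', hbz, hb1, hnp, hadm'⟩ := shift_forms A B
    (fun i => by have := ha (e.symm i).1 (e.symm i).2; rw [← hAz] at this; exact_mod_cast this)
    (by
      intro i j hij
      simp only [Prod.mk.injEq] at hij
      have h1 : a (e.symm i).1 (e.symm i).2 = a (e.symm j).1 (e.symm j).2 := by
        rw [← hAz, ← hAz, hij.1]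
      have h2 : (e.symm i) = (e.symm j) := hinj (by
        simp only [Prod.mk.injEq]
        exact ⟨h1, hij.2⟩)
      exact e.symm.injective h2)
    (by
      intro p hp
      obtain ⟨n, hn⟩ := hadm p hp
      refine ⟨n, fun i => ?_⟩
      rw [hAz]
      exact hn _ _)
  set cl : Fin (T * K) → Fin T := fun i => (e.symm i).1 with hcl
  have hcard : ∀ g, (univ.filter (fun i => cl i = g)).card = K := by
    intro g
    have h1 : (univ.filter (fun i => cl i = g)) = univ.image (fun j : Fin K => e (g, j)) := by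
      ext i
      simp only [mem_filter, mem_univ, true_and, mem_image]
      constructor
      · intro h
        refine ⟨(e.symm i).2, ?_⟩
        rw [Equiv.apply_eq_iff_eq_symm_apply]
        exact Prod.ext h.symm rfl
      · rintro ⟨j, rfl⟩
        simp [hcl]
    rw [h1, Finset.card_image_of_injective _ (by
      intro j j' h
      have := e.injective h
      simpa using this)]
    simp
  have hmain := hcore A b' cl hcard
    (fun i => by
      have := ha (e.symm i).1 (e.symm i).2; rw [← hAz] at this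
      exact_mod_cast this) hb1 hnp hadm'
  -- the set of classes and representatives
  set P : ℕ → Finset (Fin T) := fun n => univ.filter (fun g : Fin T => ∃ i, cl i = g ∧
    (A i * n + b' i).Prime) with hP
  have hinf : {n : ℕ | M + 1 ≤ (P n).card}.Infinite := by
    rw [Set.infinite_iff_exists_gt]
    intro N0
    obtain ⟨n, hn1, hn2⟩ := hmain N0
    exact ⟨n, hn2, hn1⟩
  have hK0 : 0 < K := by omega
  have hch : ∀ n, ∃ c : Fin T → Fin K, ∀ g ∈ P n, (A (e (g, c g)) * n + b' (e (g, c g))).Prime := by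
    intro n
    have h1 : ∀ g : Fin T, ∃ j : Fin K, g ∈ P n → (A (e (g, j)) * n + b' (e (g, j))).Prime := by
      intro g
      by_cases hg : g ∈ P n
      · obtain ⟨i, hi1, hi2⟩ := (mem_filter.1 hg).2
        refine ⟨(e.symm i).2, fun _ => ?_⟩
        have h2 : e (g, (e.symm i).2) = i := by
          rw [Equiv.apply_eq_iff_eq_symm_apply]
          exact Prod.ext hi1.symm rfl
        rw [h2]; exact hi2
      · exact ⟨⟨0, hK0⟩, fun h => absurd h hg⟩
    choose c hc using h1
    exact ⟨c, fun g hg => hc g hg⟩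
  choose cf hcf using hch
  have hcover : {n : ℕ | M + 1 ≤ (P n).card} ⊆
      ⋃ x : Finset (Fin T) × (Fin T → Fin K), {n : ℕ | M + 1 ≤ x.1.card ∧ P n = x.1 ∧ cf n = x.2} := by
    intro n hn
    exact Set.mem_iUnion.2 ⟨(P n, cf n), hn, rfl, rfl⟩
  have : ∃ x : Finset (Fin T) × (Fin T → Fin K),
      {n : ℕ | M + 1 ≤ x.1.card ∧ P n = x.1 ∧ cf n = x.2}.Infinite := by
    by_contra hcon
    push Not at hcon
    apply hinf
    apply Set.Finite.subset _ hcover
    exact Set.finite_iUnion (fun S => hcon S)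
  obtain ⟨⟨S, c⟩, hS⟩ := this
  have hSc : M + 1 ≤ S.card := by
    obtain ⟨n, hn⟩ := hS.nonempty
    exact hn.1
  refine ⟨S, c, by omega, ?_⟩
  have hinj' : Set.InjOn (fun n : ℕ => n + N)
      {n : ℕ | M + 1 ≤ S.card ∧ P n = S ∧ cf n = c} := fun a _ b _ h => by simpa using h
  apply (hS.image hinj').mono
  rintro _ ⟨n, ⟨_, h2, h3⟩, rfl⟩
  intro g hg
  have h4 := hcf n g (by rw [h2]; exact hg)
  rw [h3] at h4
  have e1 : (a g (c g) * ((n + N : ℕ) : ℤ) + b g (c g)) =
      ((A (e (g, c g)) * n + b' (e (g, c g)) : ℕ) : ℤ) := by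
    push_cast
    rw [hbz, hAz]
    simp only [hB, Equiv.symm_apply_apply]
    ring
  rw [e1]
  exact ⟨by exact_mod_cast h4.pos, Nat.prime_iff_prime_int.1 h4⟩

end Pool.Agent.H362R2.CM
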