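import Mathlib
import Pool.Agent.H362R2.CM.Final
import Pool.Agent.H362R2.CM.Box

/-! Almost all admissible tuples of linear forms have a quarter of their members simultaneously
prime infinitely often. -/

namespace Pool.Agent.H362R2.CM

open Finset Pool.Agent.H361R2

/-- the tuple of forms `a_i n + b_i` has no fixed prime divisor -/
def Adm {T : ℕ} (f : Fin T → ℤ × ℤ) : Prop :=
  ∀ p : ℕ, p.Prime → ∃ n : ℤ, ∀ i, ¬ ((p : ℤ) ∣ (f i).1 * n + (f i).2)

/-- the forms with index in `S` are simultaneously prime infinitely often -/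
def SimPrime {T : ℕ} (f : Fin T → ℤ × ℤ) (S : Finset (Fin T)) : Prop :=
  {n : ℕ | ∀ i ∈ S, 0 < (f i).1 * (n : ℤ) + (f i).2 ∧ Prime ((f i).1 * (n : ℤ) + (f i).2)}.Infinite

/-- injectivity, as an opaque predicate -/
def Inj {α : Type} {T : ℕ} (f : Fin T → α) : Prop := Function.Injective f

open Classical in
/-- non injective tuples in a product of large sets are rare -/
theorem card_not_injective_pi_le {α : Type} (T N : ℕ) (V : Fin T → Finset α)
    (hN : ∀ i, N ≤ (V i).card) :
    ((Fintype.piFinset V).filter (fun φ => ¬ Inj φ)).card * N ≤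
      T ^ 2 * ∏ i, (V i).card := by
  have hsub : (Fintype.piFinset V).filter (fun φ => ¬ Inj φ) ⊆
      (univ : Finset (Fin T × Fin T)).biUnion (fun x =>
        if x.1 ≠ x.2 then (Fintype.piFinset V).filter (fun φ => φ x.1 = φ x.2)
        else ∅) := by
    intro φ hφ
    rw [mem_filter] at hφ
    obtain ⟨h1, h2⟩ := hφ
    rw [Inj, Function.Injective] at h2
    push Not at h2
    obtain ⟨i, j, hij, hne⟩ := h2
    rw [mem_biUnion]
    refine ⟨(i, j), mem_univ _, ?_⟩
    simp only [ne_eq, hne, not_false_eq_true, if_true, mem_filter]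
    exact ⟨h1, hij⟩
  have hone : ∀ x : Fin T × Fin T, x.1 ≠ x.2 →
      ((Fintype.piFinset V).filter (fun φ => φ x.1 = φ x.2)).card * N ≤ ∏ i, (V i).card := by
    intro x hx
    -- inject (φ, w) ↦ update φ x.1 w
    have h1 : (((Fintype.piFinset V).filter (fun φ => φ x.1 = φ x.2)) ×ˢ V x.1).card ≤
        (Fintype.piFinset V).card := by
      apply Finset.card_le_card_of_injOn (fun y => Function.update y.1 x.1 y.2)
      · intro y hy
        simp only [coe_product, Set.mem_prod, mem_coe, mem_filter, Fintype.mem_piFinset] at hy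
        simp only [mem_coe, Fintype.mem_piFinset]
        intro i
        by_cases hi : i = x.1
        · subst hi; simp only [Function.update_self]; exact hy.2
        · rw [Function.update_of_ne hi]; exact hy.1.1 i
      · intro y hy z hz hyz
        simp only [coe_product, Set.mem_prod, mem_coe, mem_filter] at hy hz
        have e1 : y.2 = z.2 := by
          have := congrFun hyz x.1
          simpa using this
        have e2 : y.1 = z.1 := by
          funext i
          by_cases hi : i = x.1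
          · subst hi
            rw [hy.1.2, hz.1.2]
            have := congrFun hyz x.2
            simp only [Function.update_of_ne hx.symm] at this
            exact this
          · have := congrFun hyz i
            simpa only [Function.update_of_ne hi] using this
        exact Prod.ext e2 e1
    rw [card_product, Fintype.card_piFinset] at h1
    exact (Nat.mul_le_mul_left _ (hN x.1)).trans h1
  calc ((Fintype.piFinset V).filter (fun φ => ¬ Inj φ)).card * N
      ≤ (∑ x : Fin T × Fin T, (if x.1 ≠ x.2 then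
          (Fintype.piFinset V).filter (fun φ => φ x.1 = φ x.2) else ∅).card) * N := by
        apply Nat.mul_le_mul_right
        exact (card_le_card hsub).trans card_biUnion_le
    _ = ∑ x : Fin T × Fin T, (if x.1 ≠ x.2 then
          (Fintype.piFinset V).filter (fun φ => φ x.1 = φ x.2) else ∅).card * N := by
        rw [Finset.sum_mul]
    _ ≤ ∑ x : Fin T × Fin T, ∏ i, (V i).card := by
        apply Finset.sum_le_sum
        intro x _
        split_ifs with h
        · exact hone x h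
        · simp
    _ = T ^ 2 * ∏ i, (V i).card := by
        rw [Finset.sum_const, card_univ, Fintype.card_prod, Fintype.card_fin, smul_eq_mul]
        ring

/-- no box of `T` classes of `K` forms, all congruent mod `(TK)!` in each class, can consist only
of bad tuples -/
theorem no_bad_box (T K : ℕ) (hK : 1 ≤ K)
    (hq : ∀ (a b : Fin T → Fin K → ℤ), (∀ g i, 0 < a g i) →
      Function.Injective (fun x : Fin T × Fin K => (a x.1 x.2, b x.1 x.2)) →
      (∀ p : ℕ, p.Prime → ∃ n : ℤ, ∀ g i, ¬ ((p : ℤ) ∣ a g i * n + b g i)) →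
      ∃ (S : Finset (Fin T)) (c : Fin T → Fin K), T ≤ 4 * S.card ∧
        {n : ℕ | ∀ g ∈ S, 0 < a g (c g) * (n : ℤ) + b g (c g) ∧
          Prime (a g (c g) * (n : ℤ) + b g (c g))}.Infinite)
    (A : Fin T → Fin K → ℤ × ℤ) (hApos : ∀ g i, 0 < (A g i).1)
    (hAinj : ∀ g, Function.Injective (A g))
    (hres : ∀ g i j, ((T * K).factorial : ℤ) ∣ (A g i).1 - (A g j).1 ∧
      ((T * K).factorial : ℤ) ∣ (A g i).2 - (A g j).2)
    (hadm : ∀ c : Fin T → Fin K, Adm (fun g => A g (c g)))
    (hfinj : ∀ c : Fin T → Fin K, Function.Injective (fun g => A g (c g))) :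
    ∃ c : Fin T → Fin K, ∃ S : Finset (Fin T), T ≤ 4 * S.card ∧ SimPrime (fun g => A g (c g)) S := by
  classical
  have h0 : 0 < K := hK
  obtain ⟨S, c, hS1, hS2⟩ := hq (fun g i => (A g i).1) (fun g i => (A g i).2) hApos (by
    rintro ⟨g, i⟩ ⟨g', i'⟩ h
    simp only [Prod.mk.injEq] at h
    have hA : A g i = A g' i' := Prod.ext h.1 h.2
    by_cases hg : g = g'
    · subst hg
      rw [hAinj g hA]
    · exfalso
      have h1 := hfinj (Function.update (fun _ => i) g' i')
      apply hg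
      apply h1
      simp only [Function.update_self, Function.update_of_ne hg]
      exact hA) (by
    intro p hp
    by_cases hpk : p ≤ T * K
    · obtain ⟨n, hn⟩ := hadm (fun _ => ⟨0, h0⟩) p hp
      refine ⟨n, fun g i hdvd => hn g ?_⟩
      have hpQ : (p : ℤ) ∣ ((T * K).factorial : ℤ) :=
        Int.natCast_dvd_natCast.2 ((hp.dvd_factorial).2 hpk)
      have h1 := hpQ.trans (hres g i ⟨0, h0⟩).1
      have h2 := hpQ.trans (hres g i ⟨0, h0⟩).2
      have h3 := dvd_sub hdvd (dvd_add (Dvd.dvd.mul_right h1 n) h2)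
      have h4 : (A g i).1 * n + (A g i).2 - (((A g i).1 - (A g ⟨0, h0⟩).1) * n +
        ((A g i).2 - (A g ⟨0, h0⟩).2)) = (A g ⟨0, h0⟩).1 * n + (A g ⟨0, h0⟩).2 := by ring
      rwa [h4] at h3
    · push Not at hpk
      obtain ⟨n, hn⟩ := exists_avoid' (m := T * K) hp hpk
        (fun x => (A (finProdFinEquiv.symm x).1 (finProdFinEquiv.symm x).2).1)
        (fun x => (A (finProdFinEquiv.symm x).1 (finProdFinEquiv.symm x).2).2) (by
          rintro x ⟨h1, h2⟩
          obtain ⟨n, hn⟩ := hadm (fun _ => (finProdFinEquiv.symm x).2) p hp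
          exact hn (finProdFinEquiv.symm x).1 (dvd_add (Dvd.dvd.mul_right h1 n) h2))
      refine ⟨n, fun g i => ?_⟩
      have h1 := hn (finProdFinEquiv (g, i))
      simpa only [Equiv.symm_apply_apply] using h1)
  exact ⟨c, S, hS1, hS2⟩

theorem arith1 (n T2 P ε N1 : ℝ) (hε : 0 < ε) (hP : 0 < P) (hN0 : 0 ≤ N1)
    (hN : 2 * T2 / ε ≤ N1) (h1 : n * (N1 + 1) ≤ T2 * P) : n ≤ ε / 2 * P := by
  rw [div_le_iff₀ hε] at hN
  have h4 : n * (N1 + 1) ≤ (ε / 2 * P) * (N1 + 1) := by
    refine h1.trans ?_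
    have : T2 ≤ ε / 2 * (N1 + 1) := by nlinarith
    calc T2 * P ≤ (ε / 2 * (N1 + 1)) * P := by gcongr
      _ = _ := by ring
  exact le_of_mul_le_mul_right h4 (by positivity)

open Classical in
/-- **almost all admissible tuples**: finset form -/
theorem almost_all_finset (T : ℕ) (ε : ℝ) (hε : 0 < ε) : ∃ N : ℕ,
    ∀ V : Fin T → Finset (ℤ × ℤ), (∀ i, ∀ f ∈ V i, 0 < f.1) → (∀ i, N ≤ (V i).card) →
    (((Fintype.piFinset V).filter (fun f => Adm f ∧
      ¬ ∃ S : Finset (Fin T), T ≤ 4 * S.card ∧ SimPrime f S)).card : ℝ) ≤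
      ε * ∏ i, ((V i).card : ℝ) := by
  obtain ⟨K, hK, hq⟩ := quarter T
  set Q : ℕ := (T * K).factorial with hQ
  have hQpos : 0 < Q := Nat.factorial_pos _
  set t : Finset (Fin T → ℤ × ℤ) :=
    Fintype.piFinset (fun _ : Fin T => (Finset.Ico (0 : ℤ) Q ×ˢ Finset.Ico (0 : ℤ) Q)) with ht
  have htne : t.Nonempty := by
    refine ⟨fun _ => (0, 0), ?_⟩
    rw [ht, Fintype.mem_piFinset]
    intro i
    rw [mem_product]
    have : (0 : ℤ) < Q := by exact_mod_cast hQpos
    exact ⟨mem_Ico.2 ⟨le_rfl, this⟩, mem_Ico.2 ⟨le_rfl, this⟩⟩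
  set R : ℝ := (t.card : ℝ) with hR
  have hRpos : 0 < R := by rw [hR]; exact_mod_cast htne.card_pos
  set δ : ℝ := ε / (2 * R) with hδ
  have hδpos : 0 < δ := by positivity
  obtain ⟨N0, hN0⟩ := box_lemma T K δ hδpos
  obtain ⟨N1, hN1⟩ := exists_nat_ge (2 * (T : ℝ) ^ 2 / ε)
  obtain ⟨N2, hN2⟩ := exists_nat_ge ((N0 : ℝ) / δ)
  refine ⟨max (N1 + 1) (N2 + 1), ?_⟩
  intro V hVpos hVN
  set P : ℝ := ∏ i, ((V i).card : ℝ) with hP
  have hVpos' : ∀ i, 0 < (V i).card := fun i => by
    have := hVN i; omega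
  have hPpos : 0 < P := Finset.prod_pos (fun i _ => by exact_mod_cast hVpos' i)
  by_contra hcon'
  have hcon := not_le.1 hcon'
  set Bad := (Fintype.piFinset V).filter (fun f => Adm f ∧
      ¬ ∃ S : Finset (Fin T), T ≤ 4 * S.card ∧ SimPrime f S) with hBad
  set Bad' := Bad.filter (fun f => Inj f) with hBad'
  -- remove the non injective tuples
  have hni := card_not_injective_pi_le T (N1 + 1) V (fun i => (le_max_left _ _).trans (hVN i))
  have hni' : (((Fintype.piFinset V).filter (fun φ => ¬ Inj φ)).card : ℝ) ≤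
      ε / 2 * P := by
    apply arith1 _ _ _ _ _ hε hPpos (Nat.cast_nonneg _) hN1
    rw [hP]
    exact_mod_cast hni
  have hBad'card : ε / 2 * P ≤ (Bad'.card : ℝ) := by
    have h1 : Bad.card = Bad'.card + (Bad.filter (fun f => ¬ Inj f)).card := by
      rw [hBad']
      exact (Finset.card_filter_add_card_filter_not _).symm
    have h2 : (Bad.filter (fun f => ¬ Inj f)).card ≤
        ((Fintype.piFinset V).filter (fun φ => ¬ Inj φ)).card := by
      apply card_le_card
      apply Finset.filter_subset_filter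
      exact Finset.filter_subset _ _
    have h1' : (Bad.card : ℝ) = Bad'.card + (Bad.filter (fun f => ¬ Inj f)).card := by
      exact_mod_cast h1
    have h2' : ((Bad.filter (fun f => ¬ Inj f)).card : ℝ) ≤
        (((Fintype.piFinset V).filter (fun φ => ¬ Inj φ)).card : ℝ) := by
      exact_mod_cast h2
    linarith
  -- pigeonhole on residues
  set res : (Fin T → ℤ × ℤ) → (Fin T → ℤ × ℤ) := fun f i => ((f i).1 % Q, (f i).2 % Q) with hres
  have hmaps : ∀ f ∈ Bad', res f ∈ t := by
    intro f _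
    rw [ht, Fintype.mem_piFinset]
    intro i
    have hQ' : (0 : ℤ) < Q := by exact_mod_cast hQpos
    rw [mem_product, mem_Ico, mem_Ico]
    exact ⟨⟨Int.emod_nonneg _ hQ'.ne', Int.emod_lt_of_pos _ hQ'⟩,
      ⟨Int.emod_nonneg _ hQ'.ne', Int.emod_lt_of_pos _ hQ'⟩⟩
  obtain ⟨ρ, _, hρ⟩ := Finset.exists_le_card_fiber_of_nsmul_le_card_of_maps_to hmaps htne
    (b := δ * P) (by
      rw [nsmul_eq_mul, ← hR]
      calc R * (δ * P) = ε / 2 * P := by rw [hδ]; field_simp
        _ ≤ _ := hBad'card)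
  set B := Bad'.filter (fun f => res f = ρ) with hB
  set W : Fin T → Finset (ℤ × ℤ) := fun i => (V i).filter (fun x => (x.1 % Q, x.2 % Q) = ρ i) with hW
  have hBmem : ∀ f ∈ B, (∀ i, f i ∈ V i) ∧ Adm f ∧
      (¬ ∃ S : Finset (Fin T), T ≤ 4 * S.card ∧ SimPrime f S) ∧ Inj f ∧
      res f = ρ := by
    intro f hf
    rw [hB, mem_filter, hBad', mem_filter, hBad, mem_filter, Fintype.mem_piFinset] at hf
    exact ⟨hf.1.1.1, hf.1.1.2.1, hf.1.1.2.2, hf.1.2, hf.2⟩
  have hBW : B ⊆ Fintype.piFinset W := by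
    intro f hf
    obtain ⟨h1, _, _, _, h5⟩ := hBmem f hf
    rw [Fintype.mem_piFinset]
    intro i
    rw [hW]
    simp only [mem_filter]
    exact ⟨h1 i, congrFun h5 i⟩
  have hWle : ∀ i, (W i).card ≤ (V i).card := fun i => Finset.card_filter_le _ _
  have hprodW : δ * P ≤ ∏ i, ((W i).card : ℝ) := by
    have h1 := card_le_card hBW
    rw [Fintype.card_piFinset] at h1
    have h2 : (B.card : ℝ) ≤ ∏ i, ((W i).card : ℝ) := by exact_mod_cast h1
    exact hρ.trans h2
  have hWN : ∀ i, N0 ≤ (W i).card := by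
    intro i
    have h1 : ∏ j, ((W j).card : ℝ) ≤ (W i).card * ∏ j ∈ univ.erase i, ((V j).card : ℝ) := by
      rw [← Finset.mul_prod_erase univ (fun j => ((W j).card : ℝ)) (mem_univ i)]
      apply mul_le_mul_of_nonneg_left _ (Nat.cast_nonneg _)
      exact Finset.prod_le_prod (fun _ _ => Nat.cast_nonneg _)
        (fun j _ => by exact_mod_cast hWle j)
    have h2 : P = (V i).card * ∏ j ∈ univ.erase i, ((V j).card : ℝ) :=
      (Finset.mul_prod_erase univ (fun j => ((V j).card : ℝ)) (mem_univ i)).symm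
    have h3 : 0 < ∏ j ∈ univ.erase i, ((V j).card : ℝ) :=
      Finset.prod_pos (fun j _ => by exact_mod_cast hVpos' j)
    have h4 : δ * ((V i).card : ℝ) ≤ (W i).card := by
      have h5 := hprodW.trans h1
      rw [h2, ← mul_assoc] at h5
      exact le_of_mul_le_mul_right h5 h3
    have h6 : (N2 : ℝ) + 1 ≤ (V i).card := by
      have := (le_max_right (N1 + 1) (N2 + 1)).trans (hVN i)
      exact_mod_cast this
    rw [div_le_iff₀ hδpos] at hN2
    have h7 : (N0 : ℝ) ≤ (W i).card := by nlinarith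
    exact_mod_cast h7
  have hdens : δ * ∏ i, ((W i).card : ℝ) ≤ (B.card : ℝ) := by
    have h1 : ∏ i, ((W i).card : ℝ) ≤ P := by
      rw [hP]
      exact Finset.prod_le_prod (fun _ _ => Nat.cast_nonneg _)
        (fun j _ => by exact_mod_cast hWle j)
    calc δ * ∏ i, ((W i).card : ℝ) ≤ δ * P := by gcongr
      _ ≤ _ := hρ
  obtain ⟨A, hA1, hA2⟩ := hN0 (ℤ × ℤ) W hWN B hBW hdens
  obtain ⟨c, S, hS1, hS2⟩ := no_bad_box T K hK hq A
    (fun g i => by
      have h1 := (hBmem _ (hA2 (fun _ => i))).1 g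
      exact hVpos g _ h1)
    hA1
    (fun g i j => by
      have h1 := congrFun (hBmem _ (hA2 (fun _ => i))).2.2.2.2 g
      have h2 := congrFun (hBmem _ (hA2 (fun _ => j))).2.2.2.2 g
      rw [← h2] at h1
      simp only [hres, Prod.mk.injEq] at h1
      exact ⟨Int.ModEq.dvd (Int.ModEq.symm h1.1), Int.ModEq.dvd (Int.ModEq.symm h1.2)⟩)
    (fun c => (hBmem _ (hA2 c)).2.1)
    (fun c => (hBmem _ (hA2 c)).2.2.2.1)
  exact (hBmem _ (hA2 c)).2.2.1 ⟨S, hS1, hS2⟩

/-- **almost all admissible tuples** -/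
theorem almost_all (T : ℕ) (ε : ℝ) (hε : 0 < ε) : ∃ N : ℕ,
    ∀ V : Fin T → Finset (ℤ × ℤ), (∀ i, ∀ f ∈ V i, 0 < f.1) → (∀ i, N ≤ (V i).card) →
    ({f : Fin T → ℤ × ℤ | (∀ i, f i ∈ V i) ∧
      (∀ p : ℕ, p.Prime → ∃ n : ℤ, ∀ i, ¬ ((p : ℤ) ∣ (f i).1 * n + (f i).2)) ∧
      ¬ ∃ S : Finset (Fin T), T ≤ 4 * S.card ∧
        {n : ℕ | ∀ i ∈ S, 0 < (f i).1 * (n : ℤ) + (f i).2 ∧
          Prime ((f i).1 * (n : ℤ) + (f i).2)}.Infinite}.ncard : ℝ) ≤
      ε * ∏ i, ((V i).card : ℝ) := by
  classical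
  obtain ⟨N, hN⟩ := almost_all_finset T ε hε
  refine ⟨N, fun V h1 h2 => ?_⟩
  refine le_trans (le_of_eq ?_) (hN V h1 h2)
  rw [← Set.ncard_coe_finset]
  congr 2
  ext f
  simp only [Set.mem_ofPred_eq, coe_filter, Fintype.mem_piFinset]
  rfl

end Pool.Agent.H362R2.CM
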