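import Mathlib

/-! The anchor argument: if no `r+1` large classes are pairwise free of differences in `P`, then the
lower density of `P` is at least `1/r` times the density of the vertex set. -/

namespace Pool.Agent.H362R2.CM

open Finset

/-- a system of `j` classes of size `L` inside `S`, each class congruent mod `Q`, without cross
differences in `P` -/
def Sys (P S : Set ℕ) (Q j L : ℕ) : Prop :=
  ∃ A : Fin j → Finset ℕ, (∀ i, (A i).card = L) ∧ (∀ i, ∀ x ∈ A i, x ∈ S) ∧
    (∀ i, ∀ x ∈ A i, ∀ y ∈ A i, x % Q = y % Q) ∧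
    (∀ i i', i ≠ i' → ∀ x ∈ A i, ∀ y ∈ A i', x ≠ y ∧ (x < y → y - x ∉ P))

theorem sys_zero (P S : Set ℕ) (Q L : ℕ) : Sys P S Q 0 L :=
  ⟨fun i => i.elim0, fun i => i.elim0, fun i => i.elim0, fun i => i.elim0, fun i => i.elim0⟩

theorem exists_max_sys (P S : Set ℕ) (Q r K : ℕ) (h : ¬ Sys P S Q (r + 1) K) :
    ∃ j ≤ r, (∀ L, Sys P S Q j L) ∧ ∃ L0, ¬ Sys P S Q (j + 1) L0 := by
  by_contra hcon
  push Not at hcon
  have hall : ∀ j, j ≤ r + 1 → ∀ L, Sys P S Q j L := by
    intro j
    induction j with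
    | zero => intro _ L; exact sys_zero P S Q L
    | succ j ih =>
      intro hj L
      exact hcon j (by omega) (ih (by omega)) L
  exact h (hall (r + 1) le_rfl K)

open Classical in
/-- vertices above all anchors with at least `L0` non neighbours in every class are boundedly many -/
theorem bad_bounded (P S : Set ℕ) (Q j L L0 : ℕ) (hQ : 0 < Q) (A : Fin j → Finset ℕ)
    (_hL : ∀ i, (A i).card = L) (hS : ∀ i, ∀ x ∈ A i, x ∈ S)
    (hmod : ∀ i, ∀ x ∈ A i, ∀ y ∈ A i, x % Q = y % Q)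
    (hcross : ∀ i i', i ≠ i' → ∀ x ∈ A i, ∀ y ∈ A i', x ≠ y ∧ (x < y → y - x ∉ P))
    (hmax : ¬ Sys P S Q (j + 1) L0) (Y : Finset ℕ) (hYS : ∀ y ∈ Y, y ∈ S)
    (hYA : ∀ y ∈ Y, ∀ i, ∀ x ∈ A i, x < y)
    (hbad : ∀ y ∈ Y, ∀ i, L0 ≤ ((A i).filter (fun x => y - x ∉ P)).card) :
    Y.card ≤ (Q * ∏ i, (2 ^ (A i).card)) * L0 := by
  by_contra hcon
  push Not at hcon
  set t : Finset (ℕ × (Fin j → Finset ℕ)) :=
    (range Q) ×ˢ (Fintype.piFinset (fun i => (A i).powerset)) with ht
  have htcard : t.card = Q * ∏ i, (2 ^ (A i).card) := by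
    rw [ht, card_product, card_range, Fintype.card_piFinset]
    congr 1
    exact Finset.prod_congr rfl (fun i _ => card_powerset _)
  have hmaps : ∀ y ∈ Y, (y % Q, fun i => (A i).filter (fun x => y - x ∉ P)) ∈ t := by
    intro y _
    rw [ht, mem_product, mem_range, Fintype.mem_piFinset]
    exact ⟨Nat.mod_lt _ hQ, fun i => mem_powerset.2 (Finset.filter_subset _ _)⟩
  obtain ⟨z, hz, hcard⟩ := Finset.exists_lt_card_fiber_of_mul_lt_card_of_maps_to
    (f := fun y => (y % Q, fun i => (A i).filter (fun x => y - x ∉ P))) hmaps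
    (n := L0) (by rw [htcard]; exact hcon)
  obtain ⟨Y', hY'sub, hY'card⟩ := Finset.exists_subset_card_eq hcard.le
  have hY' : ∀ y ∈ Y', y ∈ Y ∧ y % Q = z.1 ∧ ∀ i, (A i).filter (fun x => y - x ∉ P) = z.2 i := by
    intro y hy
    have h1 := mem_filter.1 (hY'sub hy)
    refine ⟨h1.1, ?_, fun i => ?_⟩
    · exact congrArg Prod.fst h1.2
    · have := congrArg Prod.snd h1.2
      exact congrFun this i
  by_cases hL0 : L0 = 0
  · apply hmax
    refine ⟨fun _ => ∅, ?_, ?_, ?_, ?_⟩
    · intro i; simp [hL0]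
    · intro i x hx; simp at hx
    · intro i x hx; simp at hx
    · intro i i' _ x hx; simp at hx
  have hne : Y'.Nonempty := by
    rw [← Finset.card_pos, hY'card]; omega
  obtain ⟨y0, hy0⟩ := hne
  have hzcard : ∀ i, L0 ≤ (z.2 i).card := by
    intro i
    rw [← (hY' y0 hy0).2.2 i]
    exact hbad y0 (hY' y0 hy0).1 i
  have hsub : ∀ i, ∃ B ⊆ z.2 i, B.card = L0 := fun i => Finset.exists_subset_card_eq (hzcard i)
  choose B hB1 hB2 using hsub
  have hzA : ∀ i, z.2 i ⊆ A i := by
    intro i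
    rw [← (hY' y0 hy0).2.2 i]
    exact Finset.filter_subset _ _
  have hBA : ∀ i, B i ⊆ A i := fun i => (hB1 i).trans (hzA i)
  have hnP : ∀ y ∈ Y', ∀ i, ∀ x ∈ B i, x < y ∧ y - x ∉ P := by
    intro y hy i x hx
    have h1 := hY' y hy
    have h2 : x ∈ (A i).filter (fun x => y - x ∉ P) := by
      rw [h1.2.2 i]; exact hB1 i hx
    exact ⟨hYA y h1.1 i x (hBA i hx), (mem_filter.1 h2).2⟩
  apply hmax
  refine ⟨Fin.cons Y' B, ?_, ?_, ?_, ?_⟩
  · intro i
    refine Fin.cases ?_ (fun i => ?_) i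
    · exact hY'card
    · exact hB2 i
  · intro i
    refine Fin.cases ?_ (fun i => ?_) i
    · intro x hx
      exact hYS x (hY' x hx).1
    · intro x hx
      exact hS i x (hBA i hx)
  · intro i
    refine Fin.cases ?_ (fun i => ?_) i
    · intro x hx y hy
      rw [(hY' x hx).2.1, (hY' y hy).2.1]
    · intro x hx y hy
      exact hmod i x (hBA i hx) y (hBA i hy)
  · intro i i'
    refine Fin.cases ?_ (fun i => ?_) i
    · refine Fin.cases ?_ (fun i' => ?_) i'
      · intro h; exact absurd rfl h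
      · intro _ x hx y hy
        simp only [Fin.cons_zero, Fin.cons_succ] at hx hy
        have := (hnP x hx i' y hy).1
        exact ⟨by omega, fun h => by omega⟩
    · refine Fin.cases ?_ (fun i' => ?_) i'
      · intro _ x hx y hy
        simp only [Fin.cons_zero, Fin.cons_succ] at hx hy
        have h1 := hnP y hy i x hx
        exact ⟨by omega, fun _ => h1.2⟩
      · intro h x hx y hy
        simp only [Fin.cons_succ] at hx hy
        exact hcross i i' (fun hh => h (by rw [hh])) x (hBA i hx) y (hBA i' hy)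

theorem anchor_arith {r L L0 L1 ε m0 Cb SN PN Y2 N N0 : ℝ} (hr : 0 < r) (hr1 : 1 ≤ r)
    (hε : 0 < ε) (hL0 : 0 ≤ L0) (hmC : 0 ≤ m0 + Cb) (hL1 : 4 * L0 / ε ≤ L1) (hL : L1 + 1 ≤ L)
    (e1 : SN ≤ m0 + (Cb + Y2)) (e2 : Y2 * (L - L0) ≤ r * L * PN) (e3 : Y2 ≤ N + 1)
    (hN0 : 2 * (m0 + Cb) / ε + 1 ≤ N0) (hN : N0 ≤ N) : SN / r - ε * N ≤ PN := by
  rw [div_le_iff₀ hε] at hL1
  have hLpos : 0 < L := by
    have : 0 ≤ L1 * ε := le_trans (by positivity) hL1
    have : 0 ≤ L1 := nonneg_of_mul_nonneg_left this hε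
    linarith
  have h1 : 2 * (m0 + Cb) / ε ≤ N - 1 := by linarith
  rw [div_le_iff₀ hε] at h1
  have hN1 : 1 ≤ N := by
    have : 0 ≤ (N - 1) * ε := le_trans (by positivity) h1
    have : 0 ≤ N - 1 := nonneg_of_mul_nonneg_left this hε
    linarith
  have h2 : Y2 * L0 ≤ (N + 1) * L0 := mul_le_mul_of_nonneg_right e3 hL0
  have h3 : 4 * L0 ≤ L * ε := by nlinarith
  have h4 : Y2 * L ≤ (r * PN + (N + 1) * ε / 4) * L := by nlinarith
  have h5 : Y2 ≤ r * PN + (N + 1) * ε / 4 := le_of_mul_le_mul_right h4 hLpos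
  have h6 : SN ≤ r * (PN + ε * N) := by nlinarith
  have h7 : SN / r ≤ PN + ε * N := by
    rw [div_le_iff₀ hr]; linarith
  linarith

open Classical in
/-- **anchor lemma** -/
theorem anchors (P S : Set ℕ) (Q r K : ℕ) (hQ : 0 < Q) (hr : 0 < r)
    (h : ¬ Sys P S Q (r + 1) K) (ε : ℝ) (hε : 0 < ε) :
    ∃ N0 : ℕ, ∀ N ≥ N0, (((range (N + 1)).filter (fun n => n ∈ S)).card : ℝ) / r - ε * N ≤
      (((range (N + 1)).filter (fun d => 0 < d ∧ d ∈ P)).card : ℝ) := by
  obtain ⟨j, hj, hsys, L0, hL0⟩ := exists_max_sys P S Q r K h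
  have hr' : (0 : ℝ) < r := by exact_mod_cast hr
  obtain ⟨L1, hL1⟩ := exists_nat_ge (4 * (L0 : ℝ) / ε)
  set L := L1 + L0 + 1 with hL
  obtain ⟨A, hA1, hA2, hA3, hA4⟩ := hsys L
  -- a bound for the anchors
  obtain ⟨m0, hm0⟩ : ∃ m0 : ℕ, ∀ i, ∀ x ∈ A i, x < m0 := by
    refine ⟨(univ.biUnion A).sup id + 1, fun i x hx => ?_⟩
    have : x ≤ (univ.biUnion A).sup id :=
      Finset.le_sup (f := id) (mem_biUnion.2 ⟨i, mem_univ _, hx⟩)
    omega
  set Cb : ℕ := (Q * ∏ i, (2 ^ (A i).card)) * L0 with hCb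
  obtain ⟨N0, hN0⟩ := exists_nat_ge (2 * ((m0 : ℝ) + Cb) / ε + 1)
  refine ⟨N0, fun N hN => ?_⟩
  set SN := (range (N + 1)).filter (fun n => n ∈ S) with hSN
  set PN := (range (N + 1)).filter (fun d => 0 < d ∧ d ∈ P) with hPN
  set Y1 := SN.filter (fun y => m0 ≤ y ∧ ∀ i, L0 ≤ ((A i).filter (fun x => y - x ∉ P)).card) with hY1
  set Y2 := SN.filter (fun y => m0 ≤ y ∧ ∃ i, ((A i).filter (fun x => y - x ∉ P)).card < L0) with hY2
  have hcover : SN ⊆ (range m0) ∪ (Y1 ∪ Y2) := by
    intro y hy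
    rw [mem_union, mem_union]
    by_cases h1 : y < m0
    · exact Or.inl (mem_range.2 h1)
    · right
      by_cases h2 : ∀ i, L0 ≤ ((A i).filter (fun x => y - x ∉ P)).card
      · left; rw [hY1, mem_filter]; exact ⟨hy, by omega, h2⟩
      · right; rw [hY2, mem_filter]
        push Not at h2
        exact ⟨hy, by omega, h2⟩
  have hY1card : Y1.card ≤ Cb := by
    apply bad_bounded P S Q j L L0 hQ A hA1 hA2 hA3 hA4 hL0
    · intro y hy
      rw [hY1, mem_filter, hSN, mem_filter] at hy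
      exact hy.1.2
    · intro y hy i x hx
      rw [hY1, mem_filter] at hy
      have := hm0 i x hx
      omega
    · intro y hy
      rw [hY1, mem_filter] at hy
      exact hy.2.2
  have hSNcard : SN.card ≤ m0 + (Cb + Y2.card) := by
    calc SN.card ≤ ((range m0) ∪ (Y1 ∪ Y2)).card := card_le_card hcover
      _ ≤ (range m0).card + (Y1 ∪ Y2).card := card_union_le _ _
      _ ≤ m0 + (Y1.card + Y2.card) := by
          rw [card_range]; exact Nat.add_le_add_left (card_union_le _ _) _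
      _ ≤ _ := by omega
  -- good vertices
  have hgood : ∀ y ∈ Y2, L - L0 ≤ ∑ i, ((A i).filter (fun x => y - x ∈ P)).card := by
    intro y hy
    rw [hY2, mem_filter] at hy
    obtain ⟨i, hi⟩ := hy.2.2
    have h1 : ((A i).filter (fun x => y - x ∈ P)).card +
        ((A i).filter (fun x => ¬ y - x ∈ P)).card = L := by
      rw [Finset.card_filter_add_card_filter_not, hA1]
    have h2 : ((A i).filter (fun x => y - x ∈ P)).card ≤
        ∑ i, ((A i).filter (fun x => y - x ∈ P)).card :=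
      Finset.single_le_sum (f := fun i => ((A i).filter (fun x => y - x ∈ P)).card)
        (fun _ _ => Nat.zero_le _) (mem_univ i)
    omega
  have hdc : Y2.card * (L - L0) ≤ j * L * PN.card := by
    calc Y2.card * (L - L0) = ∑ _y ∈ Y2, (L - L0) := by
          rw [Finset.sum_const, smul_eq_mul]
      _ ≤ ∑ y ∈ Y2, ∑ i, ((A i).filter (fun x => y - x ∈ P)).card :=
          Finset.sum_le_sum hgood
      _ = ∑ i, ∑ y ∈ Y2, ((A i).filter (fun x => y - x ∈ P)).card := Finset.sum_comm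
      _ = ∑ i, ∑ x ∈ A i, (Y2.filter (fun y => y - x ∈ P)).card := by
          apply Finset.sum_congr rfl
          intro i _
          simp_rw [Finset.card_filter]
          exact Finset.sum_comm
      _ ≤ ∑ i, ∑ _x ∈ A i, PN.card := by
          apply Finset.sum_le_sum
          intro i _
          apply Finset.sum_le_sum
          intro x hx
          apply Finset.card_le_card_of_injOn (fun y => y - x)
          · intro y hy
            rw [mem_coe, mem_filter, hY2, mem_filter, hSN, mem_filter, mem_range] at hy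
            rw [mem_coe, hPN, mem_filter, mem_range]
            have := hm0 i x hx
            beta_reduce
            exact ⟨by omega, by omega, hy.2⟩
          · intro y hy y' hy' he
            rw [mem_coe, mem_filter, hY2, mem_filter] at hy hy'
            have := hm0 i x hx
            simp only at he
            omega
      _ = j * L * PN.card := by
          simp_rw [Finset.sum_const, smul_eq_mul, hA1]
          rw [Finset.sum_const, card_univ, Fintype.card_fin, smul_eq_mul]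
          ring
  -- real arithmetic
  have hSNle : SN.card ≤ N + 1 := by
    have := Finset.card_filter_le (range (N + 1)) (fun n => n ∈ S)
    rwa [card_range] at this
  have e1 : (SN.card : ℝ) ≤ m0 + (Cb + Y2.card) := by exact_mod_cast hSNcard
  have e2 : (Y2.card : ℝ) * ((L : ℝ) - L0) ≤ r * L * PN.card := by
    have h1 : Y2.card * (L - L0) ≤ r * L * PN.card :=
      hdc.trans (Nat.mul_le_mul_right _ (Nat.mul_le_mul_right _ hj))
    have h2 : ((Y2.card * (L - L0) : ℕ) : ℝ) ≤ ((r * L * PN.card : ℕ) : ℝ) := by exact_mod_cast h1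
    rw [Nat.cast_mul, Nat.cast_sub (by omega)] at h2
    push_cast at h2
    exact h2
  have e3 : (Y2.card : ℝ) ≤ N + 1 := by
    have : Y2.card ≤ SN.card := Finset.card_filter_le _ _
    exact_mod_cast this.trans hSNle
  exact anchor_arith hr' (by exact_mod_cast hr) hε (Nat.cast_nonneg _) (by positivity) hL1
    (by rw [hL]; push_cast; linarith [show (0 : ℝ) ≤ L0 from Nat.cast_nonneg _]) e1 e2 e3 hN0
    (by exact_mod_cast hN)

end Pool.Agent.H362R2.CM
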