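import Mathlib

/-! Supersaturated box lemma: a subset of density `c` of `V ^ M` contains at least
`c ^ (L ^ M) * |V| ^ (M L)` boxes with sides of size `L`. -/

namespace Pool.Agent.H362R2.CM

open Finset

theorem card_cons {β : Type} [DecidableEq β] {M : ℕ} (C : Finset (Fin (M + 1) → β)) (W : Finset β)
    (W' : Finset (Fin M → β)) (hC : ∀ f ∈ C, f 0 ∈ W ∧ Fin.tail f ∈ W') :
    C.card = ∑ x ∈ W, (W'.filter (fun g => (Fin.cons x g : Fin (M + 1) → β) ∈ C)).card := by
  have h1 : C.card = ∑ x ∈ W, (C.filter (fun f => f 0 = x)).card := by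
    apply Finset.card_eq_sum_card_fiberwise
    intro f hf
    exact (hC f hf).1
  rw [h1]
  apply Finset.sum_congr rfl
  intro x _
  apply Finset.card_bij (fun f _ => Fin.tail f)
  · intro f hf
    rw [mem_filter] at hf
    rw [mem_filter]
    refine ⟨(hC f hf.1).2, ?_⟩
    rw [← hf.2, Fin.cons_self_tail]; exact hf.1
  · intro f hf f' hf' h
    rw [mem_filter] at hf hf'
    rw [← Fin.cons_self_tail f, ← Fin.cons_self_tail f', hf.2, hf'.2, h]
  · intro g hg
    rw [mem_filter] at hg
    refine ⟨Fin.cons x g, ?_, by simp⟩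
    rw [mem_filter]
    exact ⟨hg.2, by simp⟩

open Classical in
/-- the boxes with sides indexed by `ι`, all of whose transversals lie in `B` -/
noncomputable def boxes {α : Type} (V : Finset α) (ι : Type) [Fintype ι] [DecidableEq ι] {M : ℕ}
    (B : Finset (Fin M → α)) : Finset (Fin M → ι → α) :=
  (Fintype.piFinset (fun _ : Fin M => Fintype.piFinset (fun _ : ι => V))).filter
    (fun A => ∀ φ : Fin M → ι, (fun i => A i (φ i)) ∈ B)

open Classical in
theorem box_count {α ι : Type} [Fintype ι] [DecidableEq ι] [Nonempty ι] (V : Finset α) (hV : 0 < V.card) :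
    ∀ (M : ℕ) (B : Finset (Fin M → α)) (c : ℝ), 0 ≤ c → (∀ f ∈ B, ∀ i, f i ∈ V) →
      c * (V.card : ℝ) ^ M ≤ B.card →
      c ^ ((Fintype.card ι) ^ M) * (V.card : ℝ) ^ (M * Fintype.card ι) ≤ (boxes V ι B).card := by
  intro M
  have hn : (0 : ℝ) < V.card := by exact_mod_cast hV
  set L := Fintype.card ι with hL
  have hL1 : 1 ≤ L := Fintype.card_pos
  induction M with
  | zero =>
    intro B c hc hB h
    simp only [pow_zero, mul_one, zero_mul, pow_one] at h ⊢
    have h1 : B.card ≤ (boxes V ι B).card := by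
      rcases B.eq_empty_or_nonempty with h0 | ⟨f, hf⟩
      · simp [h0]
      · have h2 : B.card ≤ 1 := Finset.card_le_one.2 fun a _ b _ => Subsingleton.elim a b
        have h3 : (Fin.elim0 : Fin 0 → ι → α) ∈ boxes V ι B := by
          unfold boxes
          rw [mem_filter]
          refine ⟨Fintype.mem_piFinset.2 (fun i => i.elim0), fun φ => ?_⟩
          have : (fun i : Fin 0 => (Fin.elim0 : Fin 0 → ι → α) i (φ i)) = f := Subsingleton.elim _ _
          rw [this]; exact hf
        have h4 : 0 < (boxes V ι B).card := Finset.card_pos.2 ⟨_, h3⟩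
        omega
    exact h.trans (by exact_mod_cast h1)
  | succ M ih =>
    intro B c hc hB h
    set VM := Fintype.piFinset (fun _ : Fin M => V) with hVM
    set Φ := Fintype.piFinset (fun _ : ι => V) with hΦ
    have hVMc : (VM.card : ℝ) = (V.card : ℝ) ^ M := by
      rw [hVM, Fintype.card_piFinset, Finset.prod_const, Finset.card_univ, Fintype.card_fin]
      push_cast
      rfl
    have hΦc : (Φ.card : ℝ) = (V.card : ℝ) ^ L := by
      rw [hΦ, Fintype.card_piFinset, Finset.prod_const, Finset.card_univ]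
      push_cast
      rfl
    -- slices
    set Bφ : (ι → α) → Finset (Fin M → α) := fun φ =>
      VM.filter (fun g => ∀ j, (Fin.cons (φ j) g : Fin (M + 1) → α) ∈ B) with hBφ
    -- boxes decompose
    have h1 : (boxes V ι B).card = ∑ φ ∈ Φ, (boxes V ι (Bφ φ)).card := by
      rw [card_cons (boxes V ι B) Φ (Fintype.piFinset (fun _ : Fin M => Φ))]
      · apply Finset.sum_congr rfl
        intro φ hφ
        congr 1
        ext A'
        unfold boxes
        simp only [mem_filter, Fintype.mem_piFinset]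
        constructor
        · rintro ⟨h2, h3, h4⟩
          refine ⟨fun i j => by
            have := h2 i
            rw [hΦ, Fintype.mem_piFinset] at this
            exact this j, fun ψ => ?_⟩
          simp only [hBφ, mem_filter, hVM, Fintype.mem_piFinset]
          refine ⟨fun i => ?_, fun j => ?_⟩
          · have := h2 i
            rw [hΦ, Fintype.mem_piFinset] at this
            exact this _
          · have h5 := h4 (Fin.cons j ψ)
            have h6 : (fun i => (Fin.cons φ A' : Fin (M + 1) → ι → α) i ((Fin.cons j ψ : Fin (M + 1) → ι) i)) =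
                (Fin.cons (φ j) (fun i => A' i (ψ i)) : Fin (M + 1) → α) := by
              funext i
              refine Fin.cases ?_ (fun i => ?_) i <;> simp
            rw [h6] at h5
            exact h5
        · rintro ⟨h2, h3⟩
          refine ⟨fun i => ?_, fun i => ?_, fun ψ => ?_⟩
          · rw [hΦ, Fintype.mem_piFinset]; exact h2 i
          · refine Fin.cases ?_ (fun i => ?_) i
            · rw [hΦ, Fintype.mem_piFinset] at hφ
              simpa using hφ
            · simpa using h2 i
          · have h5 := h3 (fun i => ψ i.succ)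
            simp only [hBφ, mem_filter] at h5
            have h6 := h5.2 (ψ 0)
            have h7 : (fun i => (Fin.cons φ A' : Fin (M + 1) → ι → α) i (ψ i)) =
                (Fin.cons (φ (ψ 0)) (fun i => A' i (ψ i.succ)) : Fin (M + 1) → α) := by
              funext i
              refine Fin.cases ?_ (fun i => ?_) i <;> simp
            rw [h7]
            exact h6
      · intro A hA
        unfold boxes at hA
        rw [mem_filter, Fintype.mem_piFinset] at hA
        refine ⟨hA.1 0, ?_⟩
        rw [Fintype.mem_piFinset]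
        intro i
        exact hA.1 i.succ
    -- double counting
    have h2 : ∑ φ ∈ Φ, ((Bφ φ).card : ℝ) = ∑ g ∈ VM, ((V.filter (fun x => (Fin.cons x g : Fin (M + 1) → α) ∈ B)).card : ℝ) ^ L := by
      have e1 : ∀ g ∈ VM, (V.filter (fun x => (Fin.cons x g : Fin (M + 1) → α) ∈ B)).card ^ L =
          (Φ.filter (fun φ => ∀ j, (Fin.cons (φ j) g : Fin (M + 1) → α) ∈ B)).card := by
        intro g _
        have e0 : (V.filter (fun x => (Fin.cons x g : Fin (M + 1) → α) ∈ B)).card ^ L =
            (Fintype.piFinset (fun _ : ι => V.filter (fun x => (Fin.cons x g : Fin (M + 1) → α) ∈ B))).card := by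
          rw [Fintype.card_piFinset, Finset.prod_const, Finset.card_univ]
        rw [e0]
        congr 1
        ext φ
        simp only [Fintype.mem_piFinset, mem_filter, hΦ]
        constructor
        · intro h; exact ⟨fun j => (h j).1, fun j => (h j).2⟩
        · intro h j; exact ⟨h.1 j, h.2 j⟩
      have e2 : ∑ φ ∈ Φ, (Bφ φ).card = ∑ g ∈ VM, (V.filter (fun x => (Fin.cons x g : Fin (M + 1) → α) ∈ B)).card ^ L := by
        rw [Finset.sum_congr rfl e1]
        simp only [hBφ, Finset.card_filter]
        exact Finset.sum_comm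
      exact_mod_cast e2
    have h3 : (B.card : ℝ) = ∑ g ∈ VM, ((V.filter (fun x => (Fin.cons x g : Fin (M + 1) → α) ∈ B)).card : ℝ) := by
      have e1 := card_cons B V VM (by
        intro f hf
        refine ⟨hB f hf 0, ?_⟩
        rw [hVM, Fintype.mem_piFinset]
        intro i
        exact hB f hf i.succ)
      rw [e1]
      simp only [Finset.card_filter]
      push_cast
      exact Finset.sum_comm
    -- power mean 1
    have h4 : (V.card : ℝ) ^ M * (c * V.card) ^ L ≤ ∑ φ ∈ Φ, ((Bφ φ).card : ℝ) := by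
      rw [h2]
      obtain ⟨l, hl⟩ : ∃ l, L = l + 1 := ⟨L - 1, by omega⟩
      rw [hl]
      have e2 := pow_sum_div_card_le_sum_pow (s := VM)
        (f := fun g => ((V.filter (fun x => (Fin.cons x g : Fin (M + 1) → α) ∈ B)).card : ℝ))
        (fun _ _ => Nat.cast_nonneg _) l
      rw [← h3, hVMc] at e2
      refine le_trans ?_ e2
      have hp : (0 : ℝ) < (V.card : ℝ) ^ M := by positivity
      rw [le_div_iff₀ (by positivity)]
      calc (V.card : ℝ) ^ M * (c * V.card) ^ (l + 1) * ((V.card : ℝ) ^ M) ^ l = (c * (V.card : ℝ) ^ (M + 1)) ^ (l + 1) := by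
            rw [mul_pow c, mul_pow c, pow_succ (V.card : ℝ) M, mul_pow _ _ (l + 1), pow_succ ((V.card : ℝ) ^ M) l]
            ring
        _ ≤ (B.card : ℝ) ^ (l + 1) := pow_le_pow_left₀ (by positivity) h _
    -- induction hypothesis
    have h5 : ∀ φ ∈ Φ, ((Bφ φ).card / (V.card : ℝ) ^ M) ^ (L ^ M) * (V.card : ℝ) ^ (M * L) ≤ (boxes V ι (Bφ φ)).card := by
      intro φ _
      apply ih (Bφ φ) ((Bφ φ).card / (V.card : ℝ) ^ M) (by positivity)
      · intro f hf i
        simp only [hBφ, mem_filter, hVM, Fintype.mem_piFinset] at hf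
        exact hf.1 i
      · rw [div_mul_cancel₀ _ (by positivity)]
    -- power mean 2
    have h6 : (V.card : ℝ) ^ L * (c ^ L) ^ (L ^ M) ≤ ∑ φ ∈ Φ, ((Bφ φ).card / (V.card : ℝ) ^ M) ^ (L ^ M) := by
      have hpos : 1 ≤ L ^ M := Nat.one_le_pow _ _ hL1
      obtain ⟨l, hl⟩ : ∃ l, L ^ M = l + 1 := ⟨L ^ M - 1, by omega⟩
      rw [hl]
      have e2 := pow_sum_div_card_le_sum_pow (s := Φ)
        (f := fun φ => ((Bφ φ).card / (V.card : ℝ) ^ M : ℝ))
        (fun _ _ => by positivity) l
      rw [hΦc] at e2
      refine le_trans ?_ e2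
      rw [le_div_iff₀ (by positivity)]
      have e3 : (V.card : ℝ) ^ L * c ^ L ≤ ∑ φ ∈ Φ, ((Bφ φ).card / (V.card : ℝ) ^ M : ℝ) := by
        rw [← Finset.sum_div, le_div_iff₀ (by positivity)]
        refine le_trans (le_of_eq ?_) h4
        rw [mul_pow]; ring
      calc (V.card : ℝ) ^ L * (c ^ L) ^ (l + 1) * ((V.card : ℝ) ^ L) ^ l = ((V.card : ℝ) ^ L * c ^ L) ^ (l + 1) := by
            rw [mul_pow, pow_succ ((V.card : ℝ) ^ L) l]; ring
        _ ≤ _ := pow_le_pow_left₀ (by positivity) e3 _
    rw [h1]
    push_cast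
    calc c ^ L ^ (M + 1) * (V.card : ℝ) ^ ((M + 1) * L)
        = ((V.card : ℝ) ^ L * (c ^ L) ^ (L ^ M)) * (V.card : ℝ) ^ (M * L) := by
          rw [← pow_mul, pow_succ L M, add_mul, one_mul, pow_add, mul_comm (L ^ M) L]
          ring
      _ ≤ (∑ φ ∈ Φ, ((Bφ φ).card / (V.card : ℝ) ^ M) ^ (L ^ M)) * (V.card : ℝ) ^ (M * L) :=
          mul_le_mul_of_nonneg_right h6 (by positivity)
      _ = ∑ φ ∈ Φ, ((Bφ φ).card / (V.card : ℝ) ^ M) ^ (L ^ M) * (V.card : ℝ) ^ (M * L) := by
          rw [Finset.sum_mul]
      _ ≤ _ := Finset.sum_le_sum h5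

end Pool.Agent.H362R2.CM
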