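import Mathlib

/-! The extremal argument: assignments of `T` slots to the vertices of a pattern. -/

namespace Pool.Agent.H362R2.CM

open Finset

section slots

variable {T : ℕ} (k : ℕ) (p0 : Finset (Finset (Fin T)))

/-- good or degenerate sets -/
def Psi (J : Finset (Fin T)) : Prop := J.card ≤ k ∨ J ∈ p0

open Classical in
/-- number of sets of slots with a good or degenerate image -/
noncomputable def EE (a : Fin T → Fin T) : ℕ :=
  ((powersetCard (k + 1) (univ : Finset (Fin T))).filter (fun I => Psi k p0 (I.image a))).card

open Classical in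
/-- degree of a slot -/
noncomputable def dg (a : Fin T → Fin T) (i : Fin T) : ℕ :=
  ((powersetCard (k + 1) (univ : Finset (Fin T))).filter (fun I => i ∈ I ∧ Psi k p0 (I.image a))).card

open Classical in
/-- complementary degree -/
noncomputable def rs (a : Fin T → Fin T) (i : Fin T) : ℕ :=
  ((powersetCard (k + 1) (univ : Finset (Fin T))).filter (fun I => i ∉ I ∧ Psi k p0 (I.image a))).card

theorem EE_split (a : Fin T → Fin T) (i : Fin T) : EE k p0 a = dg k p0 a i + rs k p0 a i := by
  classical
  unfold EE dg rs
  rw [← card_union_of_disjoint]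
  · congr 1
    ext I
    simp only [mem_filter, mem_union]
    tauto
  · rw [disjoint_left]
    intro I h1 h2
    rw [mem_filter] at h1 h2
    exact h2.2.1 h1.2.1

theorem sum_dg (a : Fin T → Fin T) : ∑ i, dg k p0 a i = (k + 1) * EE k p0 a := by
  classical
  unfold EE dg
  simp only [card_filter]
  rw [sum_comm, mul_sum]
  apply sum_congr rfl
  intro I hI
  rw [mem_powersetCard] at hI
  by_cases h : Psi k p0 (I.image a)
  · simp only [h, and_true, if_true, mul_one]
    rw [← card_filter]
    rw [← hI.2]
    congr 1
    ext i
    simp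
  · simp [h]

theorem rs_update (a : Fin T → Fin T) (i j : Fin T) : rs k p0 (Function.update a i (a j)) i = rs k p0 a i := by
  classical
  unfold rs
  congr 1
  apply filter_congr
  intro I _
  apply and_congr_right
  intro hi
  have : I.image (Function.update a i (a j)) = I.image a := by
    apply image_congr
    intro x hx
    rw [Function.update_of_ne]
    rintro rfl
    exact hi hx
  rw [this]

theorem dg_update (hk : 1 ≤ k) (a : Fin T → Fin T) {i j : Fin T} (hij : i ≠ j) :
    dg k p0 (Function.update a i (a j)) i ≤ dg k p0 a j + (T - 2).choose (k - 1) := by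
  classical
  set a' := Function.update a i (a j) with ha'
  have himg : ∀ I : Finset (Fin T), i ∈ I → I.image a' = insert (a j) ((I.erase i).image a) := by
    intro I hi
    conv_lhs => rw [← insert_erase hi]
    rw [image_insert]
    congr 1
    · rw [ha', Function.update_self]
    · apply image_congr
      intro x hx
      have hx' : x ∈ I.erase i := hx
      rw [ha', Function.update_of_ne (ne_of_mem_erase hx')]
  have h1 : dg k p0 a' i ≤
      ((powersetCard (k + 1) (univ : Finset (Fin T))).filter (fun I => i ∈ I ∧ j ∉ I ∧ Psi k p0 (I.image a'))).card +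
      ((powersetCard (k + 1) (univ : Finset (Fin T))).filter (fun I => i ∈ I ∧ j ∈ I)).card := by
    unfold dg
    refine le_trans (card_le_card ?_) (card_union_le _ _)
    intro I hI
    simp only [mem_filter, mem_union] at hI ⊢
    tauto
  refine h1.trans (Nat.add_le_add ?_ ?_)
  · unfold dg
    apply card_le_card_of_injOn (fun I => insert j (I.erase i))
    · intro I hI
      simp only [coe_filter, mem_powersetCard, Set.mem_ofPred_eq, subset_univ, true_and] at hI ⊢
      obtain ⟨h2, h3, h4, h5⟩ := hI
      have hj : j ∉ I.erase i := fun h => h4 (mem_of_mem_erase h)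
      refine ⟨?_, mem_insert_self _ _, ?_⟩
      · rw [card_insert_of_notMem hj, card_erase_of_mem h3, h2]; omega
      · rw [image_insert, ← himg I h3]; exact h5
    · intro I hI I' hI' h
      simp only [coe_filter, mem_powersetCard, Set.mem_ofPred_eq, subset_univ, true_and] at hI hI'
      beta_reduce at h
      have hj : j ∉ I.erase i := fun h => hI.2.2.1 (mem_of_mem_erase h)
      have hj' : j ∉ I'.erase i := fun h => hI'.2.2.1 (mem_of_mem_erase h)
      have h6 : I.erase i = I'.erase i := by
        rw [← erase_insert hj, ← erase_insert hj', h]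
      rw [← insert_erase hI.2.1, ← insert_erase hI'.2.1, h6]
  · have h2 : (((univ : Finset (Fin T)).erase i).erase j).card = T - 2 := by
      rw [card_erase_of_mem (mem_erase.2 ⟨hij.symm, mem_univ _⟩), card_erase_of_mem (mem_univ _), card_univ,
        Fintype.card_fin]
      omega
    rw [← h2, ← card_powersetCard]
    apply card_le_card_of_injOn (fun I => (I.erase i).erase j)
    · intro I hI
      simp only [coe_filter, mem_powersetCard, Set.mem_ofPred_eq, subset_univ, true_and] at hI
      rw [mem_coe, mem_powersetCard]
      refine ⟨erase_subset_erase _ (erase_subset_erase _ (subset_univ _)), ?_⟩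
      rw [card_erase_of_mem (mem_erase.2 ⟨hij.symm, hI.2.2⟩), card_erase_of_mem hI.2.1, hI.1]
      omega
    · intro I hI I' hI' h
      simp only [coe_filter, mem_powersetCard, Set.mem_ofPred_eq, subset_univ, true_and] at hI hI'
      beta_reduce at h
      have e1 : I.erase i = I'.erase i := by
        rw [← insert_erase (mem_erase.2 ⟨hij.symm, hI.2.2⟩), h, insert_erase (mem_erase.2 ⟨hij.symm, hI'.2.2⟩)]
      rw [← insert_erase hI.2.1, ← insert_erase hI'.2.1, e1]

/-- the extremal inequality -/
theorem slots (m : ℕ) (hk : 1 ≤ k) (hm : 1 ≤ m) (hp0 : ∀ J ∈ p0, J.card = k + 1)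
    (h : ∀ a : Fin T → Fin T, ∃ S : Finset (Fin T), m ≤ S.card ∧
      ∀ I ⊆ S, I.card = k + 1 → (I.image a).card ≤ k ∨ I.image a ∈ p0) :
    T * (m - 1).choose k ≤ (k + 1) * p0.card + T * (T - 2).choose (k - 1) := by
  classical
  haveI : Nonempty (Fin T → Fin T) := ⟨id⟩
  obtain ⟨a, ha⟩ := Finite.exists_min (fun a : Fin T → Fin T => EE k p0 a)
  obtain ⟨S, hS, hI⟩ := h a
  obtain ⟨i, hi⟩ : S.Nonempty := card_pos.1 (by omega)
  have d1 : (m - 1).choose k ≤ dg k p0 a i := by
    have e1 : (m - 1).choose k ≤ (powersetCard k (S.erase i)).card := by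
      rw [card_powersetCard, card_erase_of_mem hi]
      exact Nat.choose_le_choose _ (by omega)
    refine e1.trans ?_
    unfold dg
    apply card_le_card_of_injOn (fun J => insert i J)
    · intro J hJ
      rw [mem_coe, mem_powersetCard] at hJ
      have hiJ : i ∉ J := fun h => (mem_erase.1 (hJ.1 h)).1 rfl
      simp only [coe_filter, mem_powersetCard, Set.mem_ofPred_eq, subset_univ, true_and]
      refine ⟨by rw [card_insert_of_notMem hiJ, hJ.2], mem_insert_self _ _, ?_⟩
      apply hI
      · intro x hx
        rcases mem_insert.1 hx with rfl | hx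
        · exact hi
        · exact (mem_erase.1 (hJ.1 hx)).2
      · rw [card_insert_of_notMem hiJ, hJ.2]
    · intro J hJ J' hJ' hh
      rw [mem_coe, mem_powersetCard] at hJ hJ'
      beta_reduce at hh
      have hiJ : i ∉ J := fun h => (mem_erase.1 (hJ.1 h)).1 rfl
      have hiJ' : i ∉ J' := fun h => (mem_erase.1 (hJ'.1 h)).1 rfl
      rw [← erase_insert hiJ, hh, erase_insert hiJ']
  have d2 : ∀ j, dg k p0 a i ≤ dg k p0 a j + (T - 2).choose (k - 1) := by
    intro j
    rcases eq_or_ne i j with rfl | hij
    · omega
    · have e1 := ha (Function.update a i (a j))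
      rw [EE_split k p0 a i, EE_split k p0 (Function.update a i (a j)) i, rs_update] at e1
      have e2 := dg_update k p0 hk a hij
      omega
  have d3 : T * (m - 1).choose k ≤ ∑ j : Fin T, (dg k p0 a j + (T - 2).choose (k - 1)) := by
    calc T * (m - 1).choose k = ∑ _j : Fin T, (m - 1).choose k := by
          rw [sum_const, card_univ, Fintype.card_fin, smul_eq_mul]
      _ ≤ _ := sum_le_sum fun j _ => d1.trans (d2 j)
  rw [sum_add_distrib, sum_dg, sum_const, card_univ, Fintype.card_fin, smul_eq_mul] at d3
  have d4 : EE k p0 a ≤ p0.card := by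
    refine (ha id).trans ?_
    unfold EE
    apply card_le_card
    intro I hI
    rw [mem_filter, mem_powersetCard, image_id] at hI
    rcases hI.2 with h1 | h1
    · omega
    · exact h1
  calc T * (m - 1).choose k ≤ (k + 1) * EE k p0 a + T * (T - 2).choose (k - 1) := d3
    _ ≤ _ := by gcongr

end slots

end Pool.Agent.H362R2.CM
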