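import Mathlib
import Pool.Agent.H362R2.CM.BoxCount
import Pool.Agent.H362R2.CM.Slots

/-! Density of the good sets from the block property. -/

namespace Pool.Agent.H362R2.CM

open Finset

open Classical in
/-- number of functions with prescribed values on the range of an injection -/
theorem card_fiber_le {I J α : Type} [Fintype I] [DecidableEq I] [Fintype J] (V : Finset α) (e : J → I)
    (he : Function.Injective e) (b : J → α) :
    ((Fintype.piFinset (fun _ : I => V)).filter (fun f => (fun j => f (e j)) = b)).card ≤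
      V.card ^ (Fintype.card I - Fintype.card J) := by
  have h1 : Fintype.card {i : I // i ∉ Set.range e} = Fintype.card I - Fintype.card J := by
    rw [Fintype.card_subtype_compl, ← Set.card_range_of_injective he]
  have h2 : (Fintype.piFinset (fun _ : {i : I // i ∉ Set.range e} => V)).card =
      V.card ^ (Fintype.card I - Fintype.card J) := by
    rw [Fintype.card_piFinset, Finset.prod_const, Finset.card_univ, h1]
  rw [← h2]
  apply card_le_card_of_injOn (fun f i => f i.1)
  · intro f hf
    rw [mem_coe, mem_filter, Fintype.mem_piFinset] at hf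
    rw [mem_coe, Fintype.mem_piFinset]
    intro i
    exact hf.1 i.1
  · intro f hf g hg hfg
    rw [mem_coe, mem_filter] at hf hg
    funext i
    by_cases hi : i ∈ Set.range e
    · obtain ⟨j, rfl⟩ := hi
      exact (congrFun hf.2 j).trans (congrFun hg.2 j).symm
    · exact congrFun hfg ⟨i, hi⟩

open Classical in
/-- number of functions whose pull back lies in a given set -/
theorem card_pull_le {I J α : Type} [Fintype I] [DecidableEq I] [Fintype J] (V : Finset α) (e : J → I)
    (he : Function.Injective e) (D : Finset (J → α)) :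
    ((Fintype.piFinset (fun _ : I => V)).filter (fun f => (fun j => f (e j)) ∈ D)).card ≤
      D.card * V.card ^ (Fintype.card I - Fintype.card J) := by
  have h1 : (Fintype.piFinset (fun _ : I => V)).filter (fun f => (fun j => f (e j)) ∈ D) ⊆
      D.biUnion (fun b => (Fintype.piFinset (fun _ : I => V)).filter (fun f => (fun j => f (e j)) = b)) := by
    intro f hf
    rw [mem_filter] at hf
    rw [mem_biUnion]
    exact ⟨_, hf.2, mem_filter.2 ⟨hf.1, rfl⟩⟩
  refine (card_le_card h1).trans (card_biUnion_le.trans ?_)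
  calc ∑ b ∈ D, ((Fintype.piFinset (fun _ : I => V)).filter (fun f => (fun j => f (e j)) = b)).card
      ≤ ∑ _b ∈ D, V.card ^ (Fintype.card I - Fintype.card J) := sum_le_sum fun b _ => card_fiber_le V e he b
    _ = _ := by rw [sum_const, smul_eq_mul]

open Classical in
/-- number of non injective functions -/
theorem card_not_inj_le {I α : Type} [Fintype I] [DecidableEq I] (V : Finset α) :
    ((Fintype.piFinset (fun _ : I => V)).filter (fun f => ¬ Function.Injective f)).card ≤
      (Fintype.card I) ^ 2 * V.card ^ (Fintype.card I - 1) := by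
  have h1 : (Fintype.piFinset (fun _ : I => V)).filter (fun f => ¬ Function.Injective f) ⊆
      (univ : Finset (I × I)).biUnion (fun x => if x.1 ≠ x.2 then
        (Fintype.piFinset (fun _ : I => V)).filter (fun f => f x.1 = f x.2) else ∅) := by
    intro f hf
    rw [mem_filter] at hf
    obtain ⟨h1, h2⟩ := hf
    rw [Function.Injective] at h2
    push Not at h2
    obtain ⟨i, j, hij, hne⟩ := h2
    rw [mem_biUnion]
    refine ⟨(i, j), mem_univ _, ?_⟩
    simp only [ne_eq, hne, not_false_eq_true, if_true, mem_filter]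
    exact ⟨h1, hij⟩
  have h2 : ∀ x : I × I, x.1 ≠ x.2 →
      ((Fintype.piFinset (fun _ : I => V)).filter (fun f => f x.1 = f x.2)).card ≤ V.card ^ (Fintype.card I - 1) := by
    intro x hx
    have h3 : Fintype.card {i : I // i ≠ x.1} = Fintype.card I - 1 := by
      rw [Fintype.card_subtype_compl, Fintype.card_subtype_eq]
    have h4 : (Fintype.piFinset (fun _ : {i : I // i ≠ x.1} => V)).card = V.card ^ (Fintype.card I - 1) := by
      rw [Fintype.card_piFinset, Finset.prod_const, Finset.card_univ, h3]
    rw [← h4]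
    apply card_le_card_of_injOn (fun f i => f i.1)
    · intro f hf
      rw [mem_coe, mem_filter, Fintype.mem_piFinset] at hf
      rw [mem_coe, Fintype.mem_piFinset]
      intro i
      exact hf.1 i.1
    · intro f hf g hg hfg
      rw [mem_coe, mem_filter] at hf hg
      funext i
      by_cases hi : i = x.1
      · subst hi
        rw [hf.2, hg.2]
        exact congrFun hfg ⟨x.2, hx.symm⟩
      · exact congrFun hfg ⟨i, hi⟩
  refine (card_le_card h1).trans (card_biUnion_le.trans ?_)
  calc _ ≤ ∑ _x : I × I, V.card ^ (Fintype.card I - 1) := by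
        apply sum_le_sum
        intro x _
        split_ifs with h
        · exact h2 x h
        · simp
    _ = _ := by rw [sum_const, card_univ, Fintype.card_prod, smul_eq_mul]; ring

open Classical in
/-- the pattern of a tuple -/
noncomputable def pat {α : Type} {T : ℕ} (k : ℕ) (good : Finset α → Prop) (x : Fin T → α) : Finset (Finset (Fin T)) :=
  (powersetCard (k + 1) (univ : Finset (Fin T))).filter (fun J => good (J.image x))

open Classical in
/-- the pattern of an enumeration counts the good subsets -/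
theorem card_pat {α : Type} {T : ℕ} (k : ℕ) (good : Finset α → Prop) (x : Fin T → α) (hx : Function.Injective x) :
    (pat k good x).card = ((powersetCard (k + 1) (univ.image x)).filter good).card := by
  unfold pat
  apply card_bij (fun J _ => J.image x)
  · intro J hJ
    rw [mem_filter, mem_powersetCard] at hJ
    rw [mem_filter, mem_powersetCard]
    exact ⟨⟨image_subset_image (subset_univ _), by rw [card_image_of_injective _ hx, hJ.1.2]⟩, hJ.2⟩
  · intro J _ J' _ h
    exact image_injective hx h
  · intro G hG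
    rw [mem_filter, mem_powersetCard] at hG
    refine ⟨univ.filter (fun i => x i ∈ G), ?_, ?_⟩
    · have e : (univ.filter (fun i => x i ∈ G)).image x = G := by
        ext y
        simp only [mem_image, mem_filter, mem_univ, true_and]
        constructor
        · rintro ⟨i, hi, rfl⟩; exact hi
        · intro hy
          obtain ⟨i, _, hi⟩ := mem_image.1 (hG.1.1 hy)
          exact ⟨i, by rw [hi]; exact hy, hi⟩
      rw [mem_filter, mem_powersetCard]
      refine ⟨⟨subset_univ _, ?_⟩, by rw [e]; exact hG.2⟩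
      rw [← card_image_of_injective _ hx, e, hG.1.2]
    · ext y
      simp only [mem_image, mem_filter, mem_univ, true_and]
      constructor
      · rintro ⟨i, hi, rfl⟩; exact hi
      · intro hy
        obtain ⟨i, _, hi⟩ := mem_image.1 (hG.1.1 hy)
        exact ⟨i, by rw [hi]; exact hy, hi⟩

open Classical in
/-- averaging over the `T`-subsets -/
theorem sum_good {α : Type} (V : Finset α) (T r : ℕ) (good : Finset α → Prop) :
    ∑ R ∈ V.powersetCard T, ((powersetCard r R).filter good).card ≤
      ((V.powersetCard r).filter good).card * (V.card - r).choose (T - r) := by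
  have h1 : ∀ R ∈ V.powersetCard T, ((powersetCard r R).filter good).card =
      ∑ G ∈ (V.powersetCard r).filter good, (if G ⊆ R then 1 else 0) := by
    intro R hR
    rw [mem_powersetCard] at hR
    rw [← card_filter]
    congr 1
    ext G
    simp only [mem_filter, mem_powersetCard]
    constructor
    · rintro ⟨⟨h1, h2⟩, h3⟩; exact ⟨⟨⟨h1.trans hR.1, h2⟩, h3⟩, h1⟩
    · rintro ⟨⟨⟨h1, h2⟩, h3⟩, h4⟩; exact ⟨⟨h4, h2⟩, h3⟩
  rw [sum_congr rfl h1, sum_comm, card_eq_sum_ones, sum_mul]
  apply sum_le_sum
  intro G hG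
  rw [mem_filter, mem_powersetCard] at hG
  rw [← card_filter, one_mul]
  have h2 : (V \ G).card = V.card - r := by rw [card_sdiff_of_subset hG.1.1, hG.1.2]
  rw [← h2, ← card_powersetCard]
  apply card_le_card_of_injOn (fun S => S \ G)
  · intro S hS
    rw [mem_coe, mem_filter, mem_powersetCard] at hS
    rw [mem_coe, mem_powersetCard]
    refine ⟨sdiff_subset_sdiff hS.1.1 (subset_refl _), ?_⟩
    rw [card_sdiff_of_subset hS.2, hS.1.2, hG.1.2]
  · intro S hS S' hS' h
    rw [mem_coe, mem_filter, mem_powersetCard] at hS hS'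
    beta_reduce at h
    rw [← sdiff_union_of_subset hS.2, h, sdiff_union_of_subset hS'.2]

open Classical in
/-- **Density of the good sets.** -/
theorem dens (k T m L : ℕ) (hk : 1 ≤ k) (hm : 1 ≤ m) (hkT : k + 1 ≤ T) (hL : 1 ≤ L) (q ε : ℝ)
    (hq1 : q ≤ 1) (hε : 0 < ε)
    (hq : ((k : ℝ) + 1) * (q * T.choose (k + 1)) ≤ T * (((m - 1).choose k : ℝ) - (T - 2).choose (k - 1))) :
    ∃ δ : ℝ, 0 < δ ∧ ∃ n0 : ℕ, ∀ (α : Type) (V : Finset α) (good : Finset α → Prop)
      (Bad : Finset (Fin T × Fin L → α)), n0 ≤ V.card → (Bad.card : ℝ) ≤ δ * (V.card : ℝ) ^ (T * L) →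
      (∀ A : Fin T × Fin L → α, Function.Injective A → (∀ x, A x ∈ V) → A ∉ Bad →
        ∃ (S : Finset (Fin T)) (c : Fin T → Fin L), m ≤ S.card ∧
          ∀ U ⊆ S.image (fun i => A (i, c i)), U.card = k + 1 → good U) →
      (q - ε) * (V.card.choose (k + 1)) ≤ ((V.powersetCard (k + 1)).filter good).card := by
  set Q : ℝ := (Fintype.card (Finset (Finset (Fin T))) : ℝ) with hQ
  have hQ0 : 0 < Q := by rw [hQ]; exact_mod_cast Fintype.card_pos
  set c : ℝ := ε / (Q * (2 ^ T * T.factorial)) with hc
  have hc0 : 0 < c := by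
    have : (0 : ℝ) < T.factorial := by exact_mod_cast Nat.factorial_pos _
    positivity
  set TL := T * L with hTL
  set c' : ℝ := c ^ (TL ^ T) with hc'
  have hc'0 : 0 < c' := by positivity
  set N := T * TL with hN
  have hT1 : 1 ≤ T := by omega
  have hTL1 : 1 ≤ TL := Nat.one_le_iff_ne_zero.2 (Nat.mul_ne_zero (by omega) (by omega))
  have hN1 : 1 ≤ N := Nat.one_le_iff_ne_zero.2 (Nat.mul_ne_zero (by omega) (by omega))
  obtain ⟨n1, hn1⟩ := exists_nat_ge (4 * (N : ℝ) ^ 2 / c')
  refine ⟨c' / (4 * T ^ T), by positivity, max (2 * T) (n1 + 1), ?_⟩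
  intro α V good Bad hV hBad hP
  by_contra hcon
  push Not at hcon
  set n := V.card with hn
  have hn2T : 2 * T ≤ n := (le_max_left _ _).trans hV
  have hn1' : (n1 : ℝ) + 1 ≤ n := by exact_mod_cast (le_max_right _ _).trans hV
  have hnpos : (0 : ℝ) < n := by
    have : (0 : ℝ) ≤ n1 := Nat.cast_nonneg _
    linarith
  have hncard : 0 < n := by exact_mod_cast hnpos
  -- (1)
  set g : Finset α → ℕ := fun R => ((powersetCard (k + 1) R).filter good).card with hg
  set RR := (V.powersetCard T).filter (fun R => ((g R : ℕ) : ℝ) < q * T.choose (k + 1)) with hRR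
  have s1 : ε * (n.choose T : ℝ) ≤ (RR.card : ℝ) := by
    have e1 := sum_good V T (k + 1) good
    have e1' : ∑ R ∈ V.powersetCard T, ((g R : ℕ) : ℝ) ≤
        (((V.powersetCard (k + 1)).filter good).card : ℝ) * ((n - (k + 1)).choose (T - (k + 1)) : ℝ) := by
      exact_mod_cast e1
    have e2 : (n.choose T : ℝ) * (T.choose (k + 1) : ℝ) =
        (n.choose (k + 1) : ℝ) * ((n - (k + 1)).choose (T - (k + 1)) : ℝ) := by
      exact_mod_cast Nat.choose_mul (n := n) (k := T) (s := k + 1) hkT
    have e3 : ∑ R ∈ V.powersetCard T, ((g R : ℕ) : ℝ) ≤ (q - ε) * ((n.choose T : ℝ) * (T.choose (k + 1) : ℝ)) := by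
      refine e1'.trans ?_
      rw [e2, ← mul_assoc]
      exact mul_le_mul_of_nonneg_right hcon.le (Nat.cast_nonneg _)
    have e4 : ((n.choose T : ℝ) - RR.card) * (q * T.choose (k + 1)) ≤ ∑ R ∈ V.powersetCard T, ((g R : ℕ) : ℝ) := by
      have e5 : ((V.powersetCard T).filter (fun R => ¬ ((g R : ℕ) : ℝ) < q * T.choose (k + 1))).card =
          (n.choose T : ℝ) - RR.card := by
        have := card_filter_add_card_filter_not (s := V.powersetCard T) (fun R => ((g R : ℕ) : ℝ) < q * T.choose (k + 1))
        rw [card_powersetCard] at this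
        rw [← hn, ← hRR] at this
        have h' : ((RR.card + ((V.powersetCard T).filter (fun R => ¬ ((g R : ℕ) : ℝ) < q * T.choose (k + 1))).card : ℕ) : ℝ) =
            (n.choose T : ℝ) := by exact_mod_cast this
        push_cast at h'
        linarith
      rw [← e5]
      calc _ = ∑ _R ∈ (V.powersetCard T).filter (fun R => ¬ ((g R : ℕ) : ℝ) < q * T.choose (k + 1)), (q * T.choose (k + 1)) := by
            rw [sum_const, nsmul_eq_mul]
        _ ≤ ∑ R ∈ (V.powersetCard T).filter (fun R => ¬ ((g R : ℕ) : ℝ) < q * T.choose (k + 1)), ((g R : ℕ) : ℝ) := by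
            apply sum_le_sum
            intro R hR
            exact not_lt.1 (mem_filter.1 hR).2
        _ ≤ _ := sum_le_sum_of_subset_of_nonneg (filter_subset _ _) (fun _ _ _ => Nat.cast_nonneg _)
    have hTk : (0 : ℝ) < T.choose (k + 1) := by exact_mod_cast Nat.choose_pos hkT
    have e6 : ((n.choose T : ℝ) - RR.card) * q ≤ (q - ε) * (n.choose T : ℝ) := by
      have := e4.trans e3
      have e7 : (((n.choose T : ℝ) - RR.card) * q) * T.choose (k + 1) ≤ ((q - ε) * (n.choose T : ℝ)) * T.choose (k + 1) := by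
        nlinarith
      exact le_of_mul_le_mul_right e7 hTk
    have e8 : (RR.card : ℝ) * q ≤ RR.card := by
      have : (0 : ℝ) ≤ RR.card := Nat.cast_nonneg _
      nlinarith
    nlinarith
  -- (2)
  set X := (Fintype.piFinset (fun _ : Fin T => V)).filter
    (fun x => Function.Injective x ∧ (((pat k good x).card : ℕ) : ℝ) < q * T.choose (k + 1)) with hX
  have s2 : RR.card ≤ X.card := by
    have e1 : ∀ R ∈ RR, ∃ x : Fin T → α, Function.Injective x ∧ univ.image x = R := by
      intro R hR
      have hRc := (mem_powersetCard.1 (mem_filter.1 hR).1).2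
      refine ⟨fun i => ((Finset.equivFinOfCardEq hRc).symm i : α), ?_, ?_⟩
      · intro i j hij
        exact (Finset.equivFinOfCardEq hRc).symm.injective (Subtype.ext hij)
      · ext y
        simp only [mem_image, mem_univ, true_and]
        constructor
        · rintro ⟨i, rfl⟩; exact ((Finset.equivFinOfCardEq hRc).symm i).2
        · intro hy
          exact ⟨(Finset.equivFinOfCardEq hRc) ⟨y, hy⟩, by simp⟩
    have : Nonempty α := ⟨(card_pos.1 hncard).choose⟩
    choose! xs hxs using e1
    apply card_le_card_of_injOn xs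
    · intro R hR
      have hR' : R ∈ RR := hR
      obtain ⟨h1, h2⟩ := hxs R hR'
      rw [mem_coe, hX, mem_filter, Fintype.mem_piFinset]
      have hRV := (mem_powersetCard.1 (mem_filter.1 hR').1).1
      refine ⟨fun i => ?_, h1, ?_⟩
      · have h3 : xs R i ∈ univ.image (xs R) := mem_image_of_mem _ (mem_univ i)
        rw [h2] at h3
        exact hRV h3
      rw [card_pat k good (xs R) h1, h2]
      exact (mem_filter.1 hR').2
    · intro R hR R' hR' h
      rw [← (hxs R hR).2, ← (hxs R' hR').2, h]
  -- (3)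
  obtain ⟨p0, hp0⟩ : ∃ p0 : Finset (Finset (Fin T)), (X.card : ℝ) / Q ≤ ((X.filter (fun x => pat k good x = p0)).card : ℝ) := by
    by_contra hno
    push Not at hno
    have e1 : (X.card : ℝ) = ∑ p0 : Finset (Finset (Fin T)), ((X.filter (fun x => pat k good x = p0)).card : ℝ) := by
      have := Finset.card_eq_sum_card_fiberwise (s := X) (t := (univ : Finset (Finset (Finset (Fin T))))) (f := fun x => pat k good x)
        (fun x _ => mem_univ _)
      exact_mod_cast this
    have e2 : ∑ p0 : Finset (Finset (Fin T)), ((X.filter (fun x => pat k good x = p0)).card : ℝ) <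
        ∑ _p0 : Finset (Finset (Fin T)), (X.card : ℝ) / Q :=
      sum_lt_sum_of_nonempty univ_nonempty fun p _ => hno p
    rw [← e1, sum_const, nsmul_eq_mul, card_univ, ← hQ, mul_div_cancel₀ _ hQ0.ne'] at e2
    exact lt_irrefl _ e2
  set B := X.filter (fun x => pat k good x = p0) with hB
  -- (4)
  have s4 : c * (n : ℝ) ^ T ≤ B.card := by
    have hf : (0 : ℝ) < T.factorial := by exact_mod_cast Nat.factorial_pos _
    have e1 := Nat.pow_le_choose (α := ℝ) T n
    have e2 : (n : ℝ) / 2 ≤ ((n + 1 - T : ℕ) : ℝ) := by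
      rw [Nat.cast_sub (by omega)]
      push_cast
      have : (2 * T : ℝ) ≤ n := by exact_mod_cast hn2T
      linarith
    have e3 : ((n : ℝ) / 2) ^ T / T.factorial ≤ (n.choose T : ℝ) :=
      (div_le_div_of_nonneg_right (pow_le_pow_left₀ (by positivity) e2 T) hf.le).trans e1
    have e4 : ε * (((n : ℝ) / 2) ^ T / T.factorial) ≤ X.card := by
      calc _ ≤ ε * (n.choose T : ℝ) := mul_le_mul_of_nonneg_left e3 hε.le
        _ ≤ RR.card := s1
        _ ≤ X.card := by exact_mod_cast s2
    calc c * (n : ℝ) ^ T = ε * (((n : ℝ) / 2) ^ T / T.factorial) / Q := by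
          rw [hc, div_pow]; field_simp
      _ ≤ X.card / Q := div_le_div_of_nonneg_right e4 hQ0.le
      _ ≤ B.card := hp0
  -- (5)
  have : Nonempty (Fin T × Fin L) := ⟨(⟨0, hT1⟩, ⟨0, hL⟩)⟩
  have s5 := box_count (ι := Fin T × Fin L) V (by rw [← hn]; exact hncard) T B c hc0.le (by
    intro f hf i
    rw [hB, mem_filter, hX, mem_filter, Fintype.mem_piFinset] at hf
    exact hf.1.1 i) s4
  have hcardι : Fintype.card (Fin T × Fin L) = TL := by simp [hTL]
  rw [hcardι, ← hc', ← hn] at s5
  -- (6)
  set e : (Fin T → Fin T) → Fin T × Fin L → Fin T × (Fin T × Fin L) := fun a x => (a x.1, x) with he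
  have heinj : ∀ a, Function.Injective (e a) := by
    intro a x y hxy
    simp only [he, Prod.mk.injEq] at hxy
    exact hxy.2
  have hcardI : Fintype.card (Fin T × (Fin T × Fin L)) = N := by simp [hN, hTL]
  obtain ⟨A, hAb, hAi, hAB⟩ : ∃ A ∈ boxes V (Fin T × Fin L) B,
      Function.Injective (fun x : Fin T × (Fin T × Fin L) => A x.1 x.2) ∧
      ∀ a : Fin T → Fin T, (fun x : Fin T × Fin L => A (a x.1) x) ∉ Bad := by
    by_contra hno
    push Not at hno
    have e1 : (boxes V (Fin T × Fin L) B).card ≤
        ((Fintype.piFinset (fun _ : Fin T × (Fin T × Fin L) => V)).filter (fun f => ¬ Function.Injective f)).card +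
        ∑ a : Fin T → Fin T, ((Fintype.piFinset (fun _ : Fin T × (Fin T × Fin L) => V)).filter
          (fun f => (fun j => f (e a j)) ∈ Bad)).card := by
      have e2 : ((boxes V (Fin T × Fin L) B).image (fun A (x : Fin T × (Fin T × Fin L)) => A x.1 x.2)) ⊆
          ((Fintype.piFinset (fun _ : Fin T × (Fin T × Fin L) => V)).filter (fun f => ¬ Function.Injective f)) ∪
          (univ : Finset (Fin T → Fin T)).biUnion (fun a => (Fintype.piFinset (fun _ : Fin T × (Fin T × Fin L) => V)).filter
          (fun f => (fun j => f (e a j)) ∈ Bad)) := by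
        intro f hf
        obtain ⟨A, hA, rfl⟩ := mem_image.1 hf
        have hA' := hA
        unfold boxes at hA'
        rw [mem_filter, Fintype.mem_piFinset] at hA'
        have hmem : (fun x : Fin T × (Fin T × Fin L) => A x.1 x.2) ∈
            Fintype.piFinset (fun _ : Fin T × (Fin T × Fin L) => V) := by
          rw [Fintype.mem_piFinset]
          intro x
          have h9 := hA'.1 x.1
          rw [Fintype.mem_piFinset] at h9
          exact h9 x.2
        rw [mem_union]
        by_cases hi : Function.Injective (fun x : Fin T × (Fin T × Fin L) => A x.1 x.2)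
        · right
          obtain ⟨a, ha⟩ := hno A hA hi
          rw [mem_biUnion]
          exact ⟨a, mem_univ _, mem_filter.2 ⟨hmem, ha⟩⟩
        · left
          exact mem_filter.2 ⟨hmem, hi⟩
      have e3 : ((boxes V (Fin T × Fin L) B).image (fun A (x : Fin T × (Fin T × Fin L)) => A x.1 x.2)).card =
          (boxes V (Fin T × Fin L) B).card := by
        apply card_image_of_injective
        intro A A' h
        funext i x
        exact congrFun h (i, x)
      rw [← e3]
      refine (card_le_card e2).trans ((card_union_le _ _).trans (Nat.add_le_add_left card_biUnion_le _))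
    have e4 := card_not_inj_le (I := Fin T × (Fin T × Fin L)) V
    rw [hcardI, ← hn] at e4
    have e5 : ∀ a : Fin T → Fin T, ((Fintype.piFinset (fun _ : Fin T × (Fin T × Fin L) => V)).filter
          (fun f => (fun j => f (e a j)) ∈ Bad)).card ≤ Bad.card * n ^ (N - TL) := by
      intro a
      have := card_pull_le V (e a) (heinj a) Bad
      rwa [hcardI, hcardι, ← hn] at this
    have e6 : (boxes V (Fin T × Fin L) B).card ≤ N ^ 2 * n ^ (N - 1) + T ^ T * (Bad.card * n ^ (N - TL)) := by
      refine e1.trans (Nat.add_le_add e4 ?_)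
      calc _ ≤ ∑ _a : Fin T → Fin T, Bad.card * n ^ (N - TL) := sum_le_sum fun a _ => e5 a
        _ = _ := by
          rw [sum_const, card_univ, Fintype.card_fun, Fintype.card_fin, smul_eq_mul]
    have e7 : (((boxes V (Fin T × Fin L) B).card : ℕ) : ℝ) ≤
        (N : ℝ) ^ 2 * (n : ℝ) ^ (N - 1) + (T : ℝ) ^ T * ((Bad.card : ℝ) * (n : ℝ) ^ (N - TL)) := by
      exact_mod_cast e6
    have e8 : (N : ℝ) ^ 2 * (n : ℝ) ^ (N - 1) ≤ c' / 4 * (n : ℝ) ^ N := by
      have h1 : (n : ℝ) ^ N = n * (n : ℝ) ^ (N - 1) := by
        rw [← pow_succ']; congr 1; omega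
      rw [h1, ← mul_assoc]
      apply mul_le_mul_of_nonneg_right _ (by positivity)
      have h2 : 4 * (N : ℝ) ^ 2 / c' ≤ n := by linarith
      rw [div_le_iff₀ hc'0] at h2
      linarith
    have e9 : (T : ℝ) ^ T * ((Bad.card : ℝ) * (n : ℝ) ^ (N - TL)) ≤ c' / 4 * (n : ℝ) ^ N := by
      have h1 : (n : ℝ) ^ N = (n : ℝ) ^ TL * (n : ℝ) ^ (N - TL) := by
        rw [← pow_add]; congr 1
        have : TL ≤ N := by rw [hN]; exact Nat.le_mul_of_pos_left _ hT1
        omega
      have hTT : (0 : ℝ) < (T : ℝ) ^ T := by positivity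
      calc (T : ℝ) ^ T * ((Bad.card : ℝ) * (n : ℝ) ^ (N - TL)) ≤
          (T : ℝ) ^ T * ((c' / (4 * T ^ T) * (n : ℝ) ^ TL) * (n : ℝ) ^ (N - TL)) := by
            gcongr
        _ = c' / 4 * (n : ℝ) ^ N := by rw [h1]; field_simp
    have hnN : (0 : ℝ) < (n : ℝ) ^ N := by positivity
    have e10 : c' * (n : ℝ) ^ N ≤ c' / 4 * (n : ℝ) ^ N + c' / 4 * (n : ℝ) ^ N := by
      calc c' * (n : ℝ) ^ N ≤ _ := s5
        _ ≤ _ := e7
        _ ≤ _ := add_le_add e8 e9
    nlinarith [mul_pos hc'0 hnN]
  -- (7)
  unfold boxes at hAb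
  rw [mem_filter, Fintype.mem_piFinset] at hAb
  have hAV : ∀ i x, A i x ∈ V := by
    intro i x
    have h9 := hAb.1 i
    rw [Fintype.mem_piFinset] at h9
    exact h9 x
  have hp0card : ∀ J ∈ p0, J.card = k + 1 := by
    -- p0 is the pattern of some tuple
    have hBne : B.Nonempty := ⟨_, hAb.2 (fun _ => (⟨0, hT1⟩, ⟨0, hL⟩))⟩
    obtain ⟨x, hx⟩ := hBne
    intro J hJ
    rw [← (mem_filter.1 hx).2] at hJ
    exact (mem_powersetCard.1 (mem_filter.1 hJ).1).2
  have hp0lt : (p0.card : ℝ) < q * T.choose (k + 1) := by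
    have hBne : B.Nonempty := ⟨_, hAb.2 (fun _ => (⟨0, hT1⟩, ⟨0, hL⟩))⟩
    obtain ⟨x, hx⟩ := hBne
    rw [← (mem_filter.1 hx).2]
    exact (mem_filter.1 (mem_filter.1 hx).1).2.2
  have hslots := slots k p0 m hk hm hp0card (by
    intro a
    obtain ⟨S, cc, hS, hU⟩ := hP (fun x => A (a x.1) x) (by
      intro x y hxy
      have := hAi (a₁ := (a x.1, x)) (a₂ := (a y.1, y)) hxy
      exact (Prod.mk.inj this).2) (fun x => hAV _ _) (hAB a)
    refine ⟨S, hS, ?_⟩
    intro I hI hIc
    by_cases hsmall : (I.image a).card ≤ k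
    · left; exact hsmall
    right
    have hIa : (I.image a).card = k + 1 := by
      have := card_image_le (s := I) (f := a)
      omega
    have hinj : Set.InjOn a I := by
      rw [← card_image_iff, hIa, hIc]
    -- the transversal
    have hφ : ∃ φ : Fin T → Fin T × Fin L, ∀ i ∈ I, φ (a i) = (i, cc i) := by
      refine ⟨fun z => if h : ∃ i ∈ I, a i = z then (h.choose, cc h.choose) else (⟨0, hT1⟩, ⟨0, hL⟩), ?_⟩
      intro i hi
      have hex : ∃ i' ∈ I, a i' = a i := ⟨i, hi, rfl⟩
      beta_reduce
      rw [dif_pos hex]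
      have h1 := hex.choose_spec
      have h2 : hex.choose = i := hinj h1.1 hi h1.2
      rw [h2]
    obtain ⟨φ, hφ⟩ := hφ
    have hx := hAb.2 φ
    have hpat := (mem_filter.1 hx).2
    rw [← hpat]
    unfold pat
    rw [mem_filter, mem_powersetCard]
    refine ⟨⟨subset_univ _, hIa⟩, ?_⟩
    have e1 : (I.image a).image (fun i => A i (φ i)) = I.image (fun i => A (a i) (i, cc i)) := by
      rw [image_image]
      apply image_congr
      intro i hi
      simp only [Function.comp_apply]
      rw [hφ i hi]
    rw [e1]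
    apply hU
    · exact image_subset_image hI
    · rw [card_image_of_injOn, hIc]
      intro i hi j hj hij
      have := hAi (a₁ := (a i, (i, cc i))) (a₂ := (a j, (j, cc j))) hij
      exact (Prod.mk.inj (Prod.mk.inj this).2).1)
  have hslots' : (T : ℝ) * ((m - 1).choose k : ℝ) ≤ ((k : ℝ) + 1) * p0.card + T * ((T - 2).choose (k - 1) : ℝ) := by
    exact_mod_cast hslots
  have : ((k : ℝ) + 1) * p0.card < ((k : ℝ) + 1) * (q * T.choose (k + 1)) :=
    mul_lt_mul_of_pos_left hp0lt (by positivity)
  nlinarith

end Pool.Agent.H362R2.CM
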