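import Mathlib

/-! Moon-Moser type inequality for clique counts, and supersaturated Turan theorem for `K_5`. -/

namespace Pool.Agent.H362R2.CM

open Finset

section

variable {α : Type} (V : Finset α) (C : α → α → Prop)

open Classical in
/-- ordered `s`-cliques of the relation `C` inside `V` -/
noncomputable def clq (s : ℕ) : Finset (Fin s → α) :=
  (Fintype.piFinset (fun _ : Fin s => V)).filter (fun f => ∀ i j, i ≠ j → C (f i) (f j))

open Classical in
/-- common neighbours -/
noncomputable def cnb {s : ℕ} (f : Fin s → α) : Finset α := V.filter (fun z => ∀ i, C z (f i))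

variable {V C}

theorem mem_clq {s : ℕ} {f : Fin s → α} :
    f ∈ clq V C s ↔ (∀ i, f i ∈ V) ∧ ∀ i j, i ≠ j → C (f i) (f j) := by
  classical
  rw [clq, mem_filter, Fintype.mem_piFinset]

theorem mem_cnb {s : ℕ} {f : Fin s → α} {z : α} :
    z ∈ cnb V C f ↔ z ∈ V ∧ ∀ i, C z (f i) := by
  classical
  rw [cnb, mem_filter]

theorem clq_succ_iff (hC : ∀ x y, C x y → C y x) {s : ℕ} (i : Fin (s + 1)) (f : Fin (s + 1) → α) :
    f ∈ clq V C (s + 1) ↔ (fun j => f (i.succAbove j)) ∈ clq V C s ∧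
      f i ∈ cnb V C (fun j => f (i.succAbove j)) := by
  rw [mem_clq, mem_clq, mem_cnb]
  constructor
  · rintro ⟨h1, h2⟩
    refine ⟨⟨fun j => h1 _, fun j k hjk => h2 _ _ (fun h => hjk ?_)⟩, h1 i, fun j => h2 _ _ ?_⟩
    · exact i.succAbove_right_injective h
    · exact (Fin.succAbove_ne i j).symm
  · rintro ⟨⟨h1, h2⟩, h3, h4⟩
    constructor
    · intro j
      rcases Fin.eq_self_or_eq_succAbove i j with h | ⟨j', h⟩
      · rw [h]; exact h3
      · rw [h]; exact h1 j'
    · intro j k hjk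
      rcases Fin.eq_self_or_eq_succAbove i j with h | ⟨j', h⟩
      · rcases Fin.eq_self_or_eq_succAbove i k with h' | ⟨k', h'⟩
        · exact absurd (h.trans h'.symm) hjk
        · rw [h, h']; exact h4 k'
      · rcases Fin.eq_self_or_eq_succAbove i k with h' | ⟨k', h'⟩
        · rw [h, h']; exact hC _ _ (h4 j')
        · rw [h, h']
          apply h2
          intro hh
          rw [h, h', hh] at hjk
          exact hjk rfl

theorem sum_clq_succ (hC : ∀ x y, C x y → C y x) {s : ℕ} (i : Fin (s + 1))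
    (φ : (Fin s → α) → ℝ) :
    ∑ f ∈ clq V C (s + 1), φ (fun j => f (i.succAbove j)) =
      ∑ g ∈ clq V C s, φ g * ((cnb V C g).card : ℝ) := by
  classical
  have h1 : ∀ g ∈ clq V C s, φ g * ((cnb V C g).card : ℝ) = ∑ _z ∈ cnb V C g, φ g := by
    intro g _
    rw [Finset.sum_const, nsmul_eq_mul]; ring
  rw [Finset.sum_congr rfl h1, Finset.sum_sigma']
  refine Finset.sum_bij' (fun f _ => (⟨fun j => f (i.succAbove j), f i⟩ : Σ _ : (Fin s → α), α))
    (fun y _ => i.insertNth y.2 y.1) ?_ ?_ ?_ ?_ ?_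
  · intro f hf
    rw [mem_sigma]
    exact (clq_succ_iff hC i f).1 hf
  · intro y hy
    rw [mem_sigma] at hy
    rw [clq_succ_iff hC i]
    simp only [Fin.insertNth_apply_succAbove, Fin.insertNth_apply_same]
    exact hy
  · intro f _
    exact Fin.insertNth_self_removeNth i f
  · intro y _
    simp only [Fin.insertNth_apply_succAbove, Fin.insertNth_apply_same]
  · intro f _
    rfl

theorem card_clq_succ (hC : ∀ x y, C x y → C y x) (s : ℕ) :
    ((clq V C (s + 1)).card : ℝ) = ∑ g ∈ clq V C s, ((cnb V C g).card : ℝ) := by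
  have := sum_clq_succ (V := V) hC (0 : Fin (s + 1)) (fun _ => (1 : ℝ))
  simp only [Finset.sum_const, nsmul_eq_mul, mul_one, one_mul] at this
  exact this

theorem sum_removeNth_le {s : ℕ} (f : Fin (s + 1) → α) :
    ∑ i : Fin (s + 1), (cnb V C (fun j => f (i.succAbove j))).card ≤
      s * (cnb V C f).card + V.card := by
  classical
  have h1 : ∀ i : Fin (s + 1), (cnb V C (fun j => f (i.succAbove j))).card =
      ∑ z ∈ V, if (∀ j, C z (f (i.succAbove j))) then 1 else 0 := by
    intro i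
    rw [cnb, Finset.card_filter]
  have h2 : (cnb V C f).card = ∑ z ∈ V, if (∀ j, C z (f j)) then 1 else 0 := by
    rw [cnb, Finset.card_filter]
  simp_rw [h1]
  rw [Finset.sum_comm, h2, Finset.mul_sum, Finset.card_eq_sum_ones, ← Finset.sum_add_distrib]
  apply Finset.sum_le_sum
  intro z _
  by_cases hz : ∀ j, C z (f j)
  · rw [if_pos hz]
    calc ∑ i : Fin (s + 1), (if (∀ j, C z (f (i.succAbove j))) then 1 else 0)
        ≤ ∑ i : Fin (s + 1), 1 := Finset.sum_le_sum (fun i _ => by split_ifs <;> simp)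
      _ = s * 1 + 1 := by simp
  · rw [if_neg hz]
    push Not at hz
    obtain ⟨j0, hj0⟩ := hz
    calc ∑ i : Fin (s + 1), (if (∀ j, C z (f (i.succAbove j))) then 1 else 0)
        ≤ ∑ i : Fin (s + 1), (if i = j0 then 1 else 0) := by
          apply Finset.sum_le_sum
          intro i _
          split_ifs with h1 h2 h2
          · exact le_rfl
          · exfalso
            obtain ⟨j', hj'⟩ := Fin.exists_succAbove_eq (Ne.symm h2)
            apply hj0
            rw [← hj']
            exact h1 j'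
          · simp
          · exact le_rfl
      _ = s * 0 + 1 := by simp

/-- Moon-Moser inequality (ordered cliques) -/
theorem moon_moser (hC : ∀ x y, C x y → C y x) (s : ℕ) :
    ((s : ℝ) + 1) * ((clq V C (s + 1)).card : ℝ) ^ 2 ≤
      ((clq V C s).card : ℝ) * (s * ((clq V C (s + 2)).card : ℝ) +
        V.card * ((clq V C (s + 1)).card : ℝ)) := by
  have h1 : ((s : ℝ) + 1) * ∑ g ∈ clq V C s, ((cnb V C g).card : ℝ) ^ 2 ≤
      s * ((clq V C (s + 2)).card : ℝ) + V.card * ((clq V C (s + 1)).card : ℝ) := by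
    have e1 : ∀ i : Fin (s + 1), ∑ f ∈ clq V C (s + 1),
        ((cnb V C (fun j => f (i.succAbove j))).card : ℝ) =
        ∑ g ∈ clq V C s, ((cnb V C g).card : ℝ) ^ 2 := by
      intro i
      rw [sum_clq_succ hC i (fun g => ((cnb V C g).card : ℝ))]
      exact Finset.sum_congr rfl (fun g _ => by ring)
    have e2 : ((s : ℝ) + 1) * ∑ g ∈ clq V C s, ((cnb V C g).card : ℝ) ^ 2 =
        ∑ f ∈ clq V C (s + 1), ∑ i : Fin (s + 1),
          ((cnb V C (fun j => f (i.succAbove j))).card : ℝ) := by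
      rw [Finset.sum_comm, Finset.sum_congr rfl (fun i _ => e1 i), Finset.sum_const, card_univ,
        Fintype.card_fin, nsmul_eq_mul]
      push_cast; ring
    rw [e2, card_clq_succ hC (s + 1), Finset.mul_sum]
    have e3 : (V.card : ℝ) * ((clq V C (s + 1)).card : ℝ) =
        ∑ f ∈ clq V C (s + 1), (V.card : ℝ) := by
      rw [Finset.sum_const, nsmul_eq_mul]; ring
    rw [e3, ← Finset.sum_add_distrib]
    apply Finset.sum_le_sum
    intro f _
    have := sum_removeNth_le (V := V) (C := C) f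
    exact_mod_cast this
  have h2 : ((clq V C (s + 1)).card : ℝ) ^ 2 ≤
      ((clq V C s).card : ℝ) * ∑ g ∈ clq V C s, ((cnb V C g).card : ℝ) ^ 2 := by
    rw [card_clq_succ hC s]
    exact sq_sum_le_card_mul_sum_sq
  calc ((s : ℝ) + 1) * ((clq V C (s + 1)).card : ℝ) ^ 2
      ≤ ((s : ℝ) + 1) * (((clq V C s).card : ℝ) * ∑ g ∈ clq V C s, ((cnb V C g).card : ℝ) ^ 2) := by
        gcongr
    _ = ((clq V C s).card : ℝ) * (((s : ℝ) + 1) * ∑ g ∈ clq V C s, ((cnb V C g).card : ℝ) ^ 2) := by
        ring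
    _ ≤ _ := by gcongr

theorem card_clq_one : (clq V C 1).card = V.card := by
  classical
  have : clq V C 1 = Fintype.piFinset (fun _ : Fin 1 => V) := by
    ext f
    rw [mem_clq, Fintype.mem_piFinset]
    constructor
    · exact fun h => h.1
    · intro h
      exact ⟨h, fun i j hij => absurd (Subsingleton.elim i j) hij⟩
  rw [this, Fintype.card_piFinset_const, pow_one]

end

theorem ratio_step {a b c v k r : ℝ} (ha : 0 < a) (hb : 0 < b) (_hv : 0 < v) (hk : 0 < k)
    (hr : r * v * a ≤ b)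
    (h : (k + 1) * b ^ 2 ≤ a * (k * c + v * b)) : ((k + 1) * r - 1) / k * v * b ≤ c := by
  have h1 : (k + 1) * b * (r * v * a) ≤ (k + 1) * b * b := by gcongr
  have h2 : a * ((k + 1) * r * v * b) ≤ a * (k * c + v * b) := by
    calc a * ((k + 1) * r * v * b) = (k + 1) * b * (r * v * a) := by ring
      _ ≤ (k + 1) * b * b := h1
      _ = (k + 1) * b ^ 2 := by ring
      _ ≤ _ := h
  have h3 := le_of_mul_le_mul_left h2 ha
  have h4 : ((k + 1) * r - 1) / k * v * b = (((k + 1) * r - 1) * v * b) / k := by ring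
  rw [h4, div_le_iff₀ hk]
  nlinarith

/-- supersaturated Turan theorem for `K_5` -/
theorem turan5 {α : Type} (V : Finset α) (C : α → α → Prop) (hC : ∀ x y, C x y → C y x)
    (hV : 0 < V.card) (δ : ℝ) (hδ : 0 < δ)
    (h : (3 / 4 + δ) * (V.card : ℝ) ^ 2 ≤ ((clq V C 2).card : ℝ)) :
    3 / 8 * δ * (V.card : ℝ) ^ 5 ≤ ((clq V C 5).card : ℝ) := by
  set v : ℝ := (V.card : ℝ) with hv
  have hvp : 0 < v := by rw [hv]; exact_mod_cast hV
  have m1 : ((clq V C 1).card : ℝ) = v := by rw [card_clq_one]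
  have hm2 : 0 < ((clq V C 2).card : ℝ) := lt_of_lt_of_le (by positivity) h
  have s1 : (1 / 2 + 2 * δ) * v * ((clq V C 2).card : ℝ) ≤ ((clq V C 3).card : ℝ) := by
    have := ratio_step (a := ((clq V C 1).card : ℝ)) (b := ((clq V C 2).card : ℝ))
      (c := ((clq V C 3).card : ℝ)) (v := v) (k := 1) (r := 3 / 4 + δ) (by rw [m1]; exact hvp) hm2 hvp
      one_pos (by rw [m1]; nlinarith) (by
        have := moon_moser (V := V) hC 1
        push_cast at this
        exact this)
    refine le_trans (le_of_eq ?_) this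
    ring
  have hm3 : 0 < ((clq V C 3).card : ℝ) := lt_of_lt_of_le (by positivity) s1
  have s2 : (1 / 4 + 3 * δ) * v * ((clq V C 3).card : ℝ) ≤ ((clq V C 4).card : ℝ) := by
    have := ratio_step (a := ((clq V C 2).card : ℝ)) (b := ((clq V C 3).card : ℝ))
      (c := ((clq V C 4).card : ℝ)) (v := v) (k := 2) (r := 1 / 2 + 2 * δ) hm2 hm3 hvp
      two_pos s1 (by
        have := moon_moser (V := V) hC 2
        push_cast at this
        exact this)
    refine le_trans (le_of_eq ?_) this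
    ring
  have hm4 : 0 < ((clq V C 4).card : ℝ) := lt_of_lt_of_le (by positivity) s2
  have s3 : (4 * δ) * v * ((clq V C 4).card : ℝ) ≤ ((clq V C 5).card : ℝ) := by
    have := ratio_step (a := ((clq V C 3).card : ℝ)) (b := ((clq V C 4).card : ℝ))
      (c := ((clq V C 5).card : ℝ)) (v := v) (k := 3) (r := 1 / 4 + 3 * δ) hm3 hm4 hvp
      three_pos s2 (by
        have := moon_moser (V := V) hC 3
        push_cast at this
        exact this)
    refine le_trans (le_of_eq ?_) this
    ring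
  have t2 : 3 / 4 * v ^ 2 ≤ ((clq V C 2).card : ℝ) := by nlinarith [sq_nonneg v]
  have t3 : 3 / 8 * v ^ 3 ≤ ((clq V C 3).card : ℝ) := by
    calc 3 / 8 * v ^ 3 = 1 / 2 * v * (3 / 4 * v ^ 2) := by ring
      _ ≤ (1 / 2 + 2 * δ) * v * ((clq V C 2).card : ℝ) := by gcongr; linarith
      _ ≤ _ := s1
  have t4 : 3 / 32 * v ^ 4 ≤ ((clq V C 4).card : ℝ) := by
    calc 3 / 32 * v ^ 4 = 1 / 4 * v * (3 / 8 * v ^ 3) := by ring
      _ ≤ (1 / 4 + 3 * δ) * v * ((clq V C 3).card : ℝ) := by gcongr; linarith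
      _ ≤ _ := s2
  calc 3 / 8 * δ * v ^ 5 = (4 * δ) * v * (3 / 32 * v ^ 4) := by ring
    _ ≤ (4 * δ) * v * ((clq V C 4).card : ℝ) := by gcongr
    _ ≤ _ := s3

end Pool.Agent.H362R2.CM
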