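import Mathlib
import Pool.Agent.H362R2.CM.AlmostAll
import Pool.Agent.H362R2.CM.Moon

/-! In every large set of linear forms all of whose 5-tuples are admissible, at least a proportion
`1/4 - ε` of the pairs are simultaneously prime infinitely often. -/

namespace Pool.Agent.H362R2.CM

open Finset

/-- both forms are prime infinitely often -/
def PairPrime (f g : ℤ × ℤ) : Prop :=
  {n : ℕ | (0 < f.1 * (n : ℤ) + f.2 ∧ Prime (f.1 * (n : ℤ) + f.2)) ∧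
    (0 < g.1 * (n : ℤ) + g.2 ∧ Prime (g.1 * (n : ℤ) + g.2))}.Infinite

theorem PairPrime.symm {f g : ℤ × ℤ} (h : PairPrime f g) : PairPrime g f := by
  refine h.mono ?_
  rintro n ⟨h1, h2⟩
  exact ⟨h2, h1⟩

open Classical in
theorem pairs_quarter (ε : ℝ) (hε : 0 < ε) : ∃ N : ℕ, ∀ V : Finset (ℤ × ℤ),
    (∀ f ∈ V, 0 < f.1) → (∀ f : Fin 5 → ℤ × ℤ, (∀ i, f i ∈ V) → Adm f) → N ≤ V.card →
    (1 / 4 - ε) * (V.card : ℝ) ^ 2 ≤
      (((V ×ˢ V).filter (fun x => PairPrime x.1 x.2)).card : ℝ) := by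
  obtain ⟨N, hN⟩ := almost_all_finset 5 (3 / 8 * ε / 2) (by positivity)
  refine ⟨N + 1, ?_⟩
  intro V hpos hadm hV
  by_contra hcon
  have hcon := not_le.1 hcon
  set C : ℤ × ℤ → ℤ × ℤ → Prop := fun f g => ¬ PairPrime f g with hC
  have hCs : ∀ x y, C x y → C y x := fun x y h h' => h h'.symm
  have hVpos : 0 < V.card := by omega
  have hVpos' : (0 : ℝ) < V.card := by exact_mod_cast hVpos
  -- number of `C` pairs
  have h2 : ((clq V C 2).card : ℝ) = (((V ×ˢ V).filter (fun x => ¬ PairPrime x.1 x.2)).card : ℝ) := by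
    congr 1
    apply Finset.card_bij (fun f _ => (f 0, f 1))
    · intro f hf
      rw [mem_clq] at hf
      rw [mem_filter, mem_product]
      exact ⟨⟨hf.1 0, hf.1 1⟩, hf.2 0 1 (by decide)⟩
    · intro f _ f' _ h
      simp only [Prod.mk.injEq] at h
      funext i
      fin_cases i
      · exact h.1
      · exact h.2
    · intro x hx
      rw [mem_filter, mem_product] at hx
      refine ⟨![x.1, x.2], ?_, by simp⟩
      rw [mem_clq]
      constructor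
      · intro i
        fin_cases i
        · exact hx.1.1
        · exact hx.1.2
      · intro i j hij
        fin_cases i <;> fin_cases j
        · exact absurd rfl hij
        · exact hx.2
        · exact fun h => hx.2 h.symm
        · exact absurd rfl hij
  have h3 : (((V ×ˢ V).filter (fun x => PairPrime x.1 x.2)).card : ℝ) +
      (((V ×ˢ V).filter (fun x => ¬ PairPrime x.1 x.2)).card : ℝ) = (V.card : ℝ) ^ 2 := by
    have h4 := Finset.card_filter_add_card_filter_not (s := V ×ˢ V)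
      (fun x : (ℤ × ℤ) × (ℤ × ℤ) => PairPrime x.1 x.2)
    rw [card_product] at h4
    rw [pow_two]
    exact_mod_cast h4
  have h5 := turan5 V C hCs hVpos ε hε (by rw [h2]; nlinarith)
  -- bad tuples
  have h6 := hN (fun _ => V) (fun _ => hpos) (fun _ => by omega)
  have h7 : (clq V C 5).card ≤ ((Fintype.piFinset (fun _ : Fin 5 => V)).filter (fun f => Adm f ∧
      ¬ ∃ S : Finset (Fin 5), 5 ≤ 4 * S.card ∧ SimPrime f S)).card := by
    apply card_le_card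
    intro f hf
    rw [mem_clq] at hf
    rw [mem_filter, Fintype.mem_piFinset]
    refine ⟨hf.1, hadm f hf.1, ?_⟩
    rintro ⟨S, hS1, hS2⟩
    have hS3 : 1 < S.card := by omega
    obtain ⟨i, hi, j, hj, hij⟩ := Finset.one_lt_card.1 hS3
    apply hf.2 i j hij
    refine hS2.mono ?_
    intro n hn
    exact ⟨hn i hi, hn j hj⟩
  have h8 : ((clq V C 5).card : ℝ) ≤ 3 / 8 * ε / 2 * (V.card : ℝ) ^ 5 := by
    refine le_trans (by exact_mod_cast h7) (h6.trans (le_of_eq ?_))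
    simp only [Finset.prod_const, Finset.card_univ, Fintype.card_fin]
  have h9 : (0 : ℝ) < ε * (V.card : ℝ) ^ 5 := by positivity
  nlinarith

/-- the same in terms of the equation `a p - b q = a b' - b a'` -/
theorem equation_quarter (ε : ℝ) (hε : 0 < ε) : ∃ N : ℕ, ∀ V : Finset (ℤ × ℤ),
    (∀ f ∈ V, 0 < f.1) →
    (∀ f : Fin 5 → ℤ × ℤ, (∀ i, f i ∈ V) →
      ∀ p : ℕ, p.Prime → ∃ n : ℤ, ∀ i, ¬ ((p : ℤ) ∣ (f i).1 * n + (f i).2)) →
    N ≤ V.card →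
    (1 / 4 - ε) * (V.card : ℝ) ^ 2 ≤
      ({x : (ℤ × ℤ) × (ℤ × ℤ) | x.1 ∈ V ∧ x.2 ∈ V ∧
        {y : ℕ × ℕ | y.1.Prime ∧ y.2.Prime ∧
          x.1.1 * (y.1 : ℤ) - x.2.1 * (y.2 : ℤ) = x.1.1 * x.2.2 - x.2.1 * x.1.2}.Infinite}.ncard : ℝ) := by
  classical
  obtain ⟨N, hN⟩ := pairs_quarter ε hε
  refine ⟨N, fun V hpos hadm hV => ?_⟩
  refine (hN V hpos hadm hV).trans ?_
  rw [← Set.ncard_coe_finset]
  have hsub : (((V ×ˢ V).filter (fun x : (ℤ × ℤ) × (ℤ × ℤ) => PairPrime x.1 x.2) :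
      Finset ((ℤ × ℤ) × (ℤ × ℤ))) : Set ((ℤ × ℤ) × (ℤ × ℤ))) ⊆
      {x : (ℤ × ℤ) × (ℤ × ℤ) | x.1 ∈ V ∧ x.2 ∈ V ∧
        {y : ℕ × ℕ | y.1.Prime ∧ y.2.Prime ∧
          x.1.1 * (y.1 : ℤ) - x.2.1 * (y.2 : ℤ) = x.1.1 * x.2.2 - x.2.1 * x.1.2}.Infinite} := by
    rintro ⟨f, g⟩ hx
    simp only [coe_filter, mem_product, Set.mem_ofPred_eq] at hx
    obtain ⟨⟨hf, hg⟩, hpp⟩ := hx
    refine ⟨hf, hg, ?_⟩
    have hgpos := hpos g hg
    have hinj : Set.InjOn (fun n : ℕ => (((g.1 * (n : ℤ) + g.2).toNat, (f.1 * (n : ℤ) + f.2).toNat) : ℕ × ℕ))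
        {n : ℕ | (0 < f.1 * (n : ℤ) + f.2 ∧ Prime (f.1 * (n : ℤ) + f.2)) ∧
          (0 < g.1 * (n : ℤ) + g.2 ∧ Prime (g.1 * (n : ℤ) + g.2))} := by
      intro n hn m hm h
      simp only [Prod.mk.injEq] at h
      have h1 : ((g.1 * (n : ℤ) + g.2).toNat : ℤ) = ((g.1 * (m : ℤ) + g.2).toNat : ℤ) := by
        rw [h.1]
      rw [Int.toNat_of_nonneg hn.2.1.le, Int.toNat_of_nonneg hm.2.1.le] at h1
      have h2 : g.1 * (n : ℤ) = g.1 * (m : ℤ) := by linarith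
      have h3 := mul_left_cancel₀ hgpos.ne' h2
      exact_mod_cast h3
    refine (hpp.image hinj).mono ?_
    rintro _ ⟨n, hn, rfl⟩
    obtain ⟨⟨h1, h2⟩, h3, h4⟩ := hn
    simp only [Set.mem_ofPred_eq]
    refine ⟨?_, ?_, ?_⟩
    · rw [Nat.prime_iff_prime_int, Int.toNat_of_nonneg h3.le]; exact h4
    · rw [Nat.prime_iff_prime_int, Int.toNat_of_nonneg h1.le]; exact h2
    · rw [Int.toNat_of_nonneg h3.le, Int.toNat_of_nonneg h1.le]; ring
  have hfin : {x : (ℤ × ℤ) × (ℤ × ℤ) | x.1 ∈ V ∧ x.2 ∈ V ∧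
        {y : ℕ × ℕ | y.1.Prime ∧ y.2.Prime ∧
          x.1.1 * (y.1 : ℤ) - x.2.1 * (y.2 : ℤ) = x.1.1 * x.2.2 - x.2.1 * x.1.2}.Infinite}.Finite := by
    apply (V ×ˢ V).finite_toSet.subset
    rintro x ⟨h1, h2, _⟩
    rw [mem_coe, mem_product]
    exact ⟨h1, h2⟩
  exact_mod_cast Set.ncard_le_ncard hsub hfin

end Pool.Agent.H362R2.CM
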