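import Mathlib
import Pool.Agent.H362R2.CM.Pairs
import Pool.Agent.H362R2.CM.Anchors

/-! Exponents `j` for which `p - c = D^j (q - c)` has infinitely many prime solutions. -/

namespace Pool.Agent.H362R2.CM

open Finset Pool.Agent.H361R2

/-- two members of five classes are simultaneously prime infinitely often -/
theorem five_classes : ∃ K : ℕ, 1 ≤ K ∧ ∀ A : Fin 5 → Fin K → ℤ × ℤ, (∀ g i, 0 < (A g i).1) →
    Function.Injective (fun x : Fin 5 × Fin K => A x.1 x.2) →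
    (∀ p : ℕ, p.Prime → ∃ n : ℤ, ∀ g i, ¬ ((p : ℤ) ∣ (A g i).1 * n + (A g i).2)) →
    ∃ g g' i i', g ≠ g' ∧ PairPrime (A g i) (A g' i') := by
  obtain ⟨K, hK, hq⟩ := quarter 5
  refine ⟨K, hK, ?_⟩
  intro A hpos hinj hadm
  obtain ⟨S, c, hS1, hS2⟩ := hq (fun g i => (A g i).1) (fun g i => (A g i).2) hpos hinj hadm
  have hS3 : 1 < S.card := by omega
  obtain ⟨g, hg, g', hg', hne⟩ := Finset.one_lt_card.1 hS3
  refine ⟨g, g', c g, c g', hne, hS2.mono ?_⟩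
  intro n hn
  exact ⟨hn g hg, hn g' hg'⟩

/-- the exponents `j` with `p - c = D^j (q - c)` for infinitely many primes `q` -/
def ExpSet (c : ℤ) (D : ℕ) : Set ℕ :=
  {j : ℕ | {q : ℕ | q.Prime ∧ 0 < c * (1 - (D : ℤ) ^ j) + q * (D : ℤ) ^ j ∧
    Prime (c * (1 - (D : ℤ) ^ j) + q * (D : ℤ) ^ j)}.Infinite}

theorem expSet_of_pairPrime {c : ℤ} {D : ℕ} (hD : 2 ≤ D) {x y : ℕ} (hxy : x < y)
    (h : PairPrime ((D : ℤ) ^ x, c) ((D : ℤ) ^ y, c)) : y - x ∈ ExpSet c D := by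
  have hDpos : (0 : ℤ) < (D : ℤ) ^ x := by positivity
  have hinj : Set.InjOn (fun n : ℕ => ((D : ℤ) ^ x * (n : ℤ) + c).toNat)
      {n : ℕ | (0 < (D : ℤ) ^ x * (n : ℤ) + c ∧ Prime ((D : ℤ) ^ x * (n : ℤ) + c)) ∧
        (0 < (D : ℤ) ^ y * (n : ℤ) + c ∧ Prime ((D : ℤ) ^ y * (n : ℤ) + c))} := by
    intro n hn m hm h
    have h1 : (((D : ℤ) ^ x * (n : ℤ) + c).toNat : ℤ) = (((D : ℤ) ^ x * (m : ℤ) + c).toNat : ℤ) := by
      exact_mod_cast h
    rw [Int.toNat_of_nonneg hn.1.1.le, Int.toNat_of_nonneg hm.1.1.le] at h1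
    have h2 : (D : ℤ) ^ x * (n : ℤ) = (D : ℤ) ^ x * (m : ℤ) := by linarith
    have h3 := mul_left_cancel₀ hDpos.ne' h2
    exact_mod_cast h3
  refine (h.image hinj).mono ?_
  rintro _ ⟨n, hn, rfl⟩
  obtain ⟨⟨h1, h2⟩, h3, h4⟩ := hn
  simp only [Set.mem_ofPred_eq] at h1 h2 h3 h4 ⊢
  have e : c * (1 - (D : ℤ) ^ (y - x)) + (((D : ℤ) ^ x * (n : ℤ) + c).toNat : ℤ) * (D : ℤ) ^ (y - x) =
      (D : ℤ) ^ y * (n : ℤ) + c := by
    rw [Int.toNat_of_nonneg h1.le]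
    have e1 : (D : ℤ) ^ y = (D : ℤ) ^ x * (D : ℤ) ^ (y - x) := by
      rw [← pow_add]; congr 1; omega
    rw [e1]; ring
  refine ⟨?_, ?_, ?_⟩
  · rw [Nat.prime_iff_prime_int, Int.toNat_of_nonneg h1.le]; exact h2
  · rw [e]; exact h3
  · rw [e]; exact h4

theorem not_sys_exp (c : ℤ) (D : ℕ) (hD : 2 ≤ D) (hcop : IsCoprime c (D : ℤ)) :
    ∃ K, ¬ Sys (ExpSet c D) Set.univ 1 (4 + 1) K := by
  obtain ⟨K, hK, h5⟩ := five_classes
  refine ⟨K, ?_⟩
  rintro ⟨A, hA1, _, _, hA4⟩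
  set e : Fin 5 → Fin K → ℕ := fun g i => (A g).orderEmbOfFin (hA1 g) i with he
  have hemem : ∀ g i, e g i ∈ A g := fun g i => Finset.orderEmbOfFin_mem _ _ _
  have hDinj : Function.Injective (fun x : ℕ => (D : ℤ) ^ x) := by
    intro x y hxy
    simp only at hxy
    have : (D : ℕ) ^ x = D ^ y := by exact_mod_cast hxy
    exact Nat.pow_right_injective hD this
  obtain ⟨g, g', i, i', hne, hpp⟩ := h5 (fun g i => ((D : ℤ) ^ (e g i), c))
    (fun g i => by positivity)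
    (by
      rintro ⟨g, i⟩ ⟨g', i'⟩ h
      simp only [Prod.mk.injEq, and_true] at h
      have h1 : e g i = e g' i' := hDinj h
      by_cases hg : g = g'
      · subst hg
        have h2 : i = i' := by
          have := h1
          simp only [he] at this
          exact (A g).orderEmbOfFin (hA1 g) |>.injective this
        rw [h2]
      · exact absurd h1 (hA4 g g' hg _ (hemem g i) _ (hemem g' i')).1)
    (by
      intro p hp
      by_cases hpc : (p : ℤ) ∣ c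
      · refine ⟨1, fun g i h => ?_⟩
        simp only [mul_one] at h
        have h1 : (p : ℤ) ∣ (D : ℤ) ^ (e g i) := (dvd_add_left hpc).1 h
        have h2 : (p : ℤ) ∣ (D : ℤ) := (Nat.prime_iff_prime_int.1 hp).dvd_of_dvd_pow h1
        exact (Nat.prime_iff_prime_int.1 hp).not_isUnit (hcop.isUnit_of_dvd' hpc h2)
      · refine ⟨0, fun g i h => hpc ?_⟩
        simpa using h)
  have h6 := hA4 g g' hne _ (hemem g i) _ (hemem g' i')
  rcases lt_or_gt_of_ne h6.1 with h | h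
  · exact h6.2 h (expSet_of_pairPrime hD h hpp)
  · exact (hA4 g' g hne.symm _ (hemem g' i') _ (hemem g i)).2 h (expSet_of_pairPrime hD h hpp.symm)

theorem expo_density (c : ℤ) (D : ℕ) (hD : 2 ≤ D) (hcop : IsCoprime c (D : ℤ))
    (ε : ℝ) (hε : 0 < ε) : ∃ N0 : ℕ, ∀ N ≥ N0, (1 / 4 - ε) * (N : ℝ) ≤
      ({j : ℕ | 1 ≤ j ∧ j ≤ N ∧ {q : ℕ | q.Prime ∧ 0 < c * (1 - (D : ℤ) ^ j) + q * (D : ℤ) ^ j ∧
        Prime (c * (1 - (D : ℤ) ^ j) + q * (D : ℤ) ^ j)}.Infinite}.ncard : ℝ) := by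
  classical
  obtain ⟨K, hK⟩ := not_sys_exp c D hD hcop
  obtain ⟨N0, hN0⟩ := anchors (ExpSet c D) Set.univ 1 4 K one_pos (by norm_num) hK ε hε
  refine ⟨N0, fun N hN => ?_⟩
  have h1 := hN0 N hN
  simp only [Set.mem_univ, Finset.filter_true, card_range] at h1
  have h2 : ({j : ℕ | 1 ≤ j ∧ j ≤ N ∧ {q : ℕ | q.Prime ∧ 0 < c * (1 - (D : ℤ) ^ j) + q * (D : ℤ) ^ j ∧
        Prime (c * (1 - (D : ℤ) ^ j) + q * (D : ℤ) ^ j)}.Infinite} : Set ℕ) =
      (((range (N + 1)).filter (fun d => 0 < d ∧ d ∈ ExpSet c D) : Finset ℕ) : Set ℕ) := by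
    ext j
    rw [Finset.mem_coe, mem_filter, mem_range, Set.mem_ofPred_eq]
    constructor
    · rintro ⟨h1, h2, h3⟩; exact ⟨by omega, by omega, h3⟩
    · rintro ⟨h1, h2, h3⟩; exact ⟨by omega, by omega, h3⟩
  rw [h2, Set.ncard_coe_finset]
  refine le_trans ?_ h1
  push_cast
  linarith

end Pool.Agent.H362R2.CM
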