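import Mathlib
import Pool.Agent.H362R2.CM.Dens

/-! The limit `T = 4 m → ∞`. -/

namespace Pool.Agent.H362R2.CM

open Finset

theorem qlim (k : ℕ) (hk : 1 ≤ k) (ε : ℝ) (hε : 0 < ε) :
    ∃ m : ℕ, 1 ≤ m ∧ k + 1 ≤ 4 * m ∧ ∃ q : ℝ, q ≤ 1 ∧ (1 / 4 : ℝ) ^ k - ε ≤ q ∧
      ((k : ℝ) + 1) * (q * (4 * m).choose (k + 1)) ≤
        (4 * m : ℕ) * (((m - 1).choose k : ℝ) - (4 * m - 2).choose (k - 1)) := by
  obtain ⟨m0, hm0⟩ := exists_nat_ge (2 * (k : ℝ) ^ 2 / ε)
  set m := max m0 (k + 1) with hm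
  have hmk : k + 1 ≤ m := le_max_right _ _
  have hm1 : (1 : ℝ) ≤ m := by exact_mod_cast (by omega : 1 ≤ m)
  have hmm0 : 2 * (k : ℝ) ^ 2 / ε ≤ m := hm0.trans (by exact_mod_cast le_max_left _ _)
  have hC : 0 < (4 * m - 1).choose k := Nat.choose_pos (by omega)
  have hC' : (0 : ℝ) < ((4 * m - 1).choose k : ℝ) := by exact_mod_cast hC
  set q : ℝ := (((m - 1).choose k : ℝ) - (4 * m - 2).choose (k - 1)) / ((4 * m - 1).choose k : ℝ) with hq
  refine ⟨m, by omega, by omega, q, ?_, ?_, ?_⟩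
  · rw [hq, div_le_one hC']
    have h1 : ((m - 1).choose k : ℝ) ≤ ((4 * m - 1).choose k : ℝ) := by
      exact_mod_cast Nat.choose_le_choose k (by omega : m - 1 ≤ 4 * m - 1)
    have h2 : (0 : ℝ) ≤ ((4 * m - 2).choose (k - 1) : ℝ) := Nat.cast_nonneg _
    linarith
  · have hkf : (0 : ℝ) < k.factorial := by exact_mod_cast Nat.factorial_pos _
    have h1 : ((m : ℝ) - k) ^ k / k.factorial ≤ ((m - 1).choose k : ℝ) := by
      have := Nat.pow_le_choose (α := ℝ) k (m - 1)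
      have e : m - 1 + 1 - k = m - k := by omega
      rw [e, Nat.cast_sub (by omega)] at this
      exact this
    have h2 : ((4 * m - 1).choose k : ℝ) ≤ (4 * (m : ℝ)) ^ k / k.factorial := by
      have h3 := Nat.choose_le_pow_div (α := ℝ) k (4 * m - 1)
      refine h3.trans ?_
      apply div_le_div_of_nonneg_right _ hkf.le
      apply pow_le_pow_left₀ (Nat.cast_nonneg _)
      have : ((4 * m - 1 : ℕ) : ℝ) ≤ ((4 * m : ℕ) : ℝ) := by exact_mod_cast Nat.sub_le _ _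
      push_cast at this
      exact this
    have h4 : (1 / 4 : ℝ) ^ k - (k : ℝ) ^ 2 / m ≤ ((m - 1).choose k : ℝ) / ((4 * m - 1).choose k : ℝ) := by
      have hmpos : (0 : ℝ) < m := by linarith
      have hkm : (k : ℝ) / m ≤ 1 := by
        rw [div_le_one hmpos]
        exact_mod_cast (by omega : k ≤ m)
      have e1 : (1 / 4 : ℝ) ^ k * (1 - (k : ℝ) * ((k : ℝ) / m)) ≤ (1 / 4 : ℝ) ^ k * (1 - (k : ℝ) / m) ^ k := by
        apply mul_le_mul_of_nonneg_left _ (by positivity)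
        have := one_add_mul_le_pow (a := -((k : ℝ) / m)) (by linarith) k
        calc 1 - (k : ℝ) * ((k : ℝ) / m) = 1 + k * -((k : ℝ) / m) := by ring
          _ ≤ (1 + -((k : ℝ) / m)) ^ k := this
          _ = _ := by ring_nf
      have e2 : (1 / 4 : ℝ) ^ k * (1 - (k : ℝ) / m) ^ k = ((m : ℝ) - k) ^ k / (4 * (m : ℝ)) ^ k := by
        rw [← mul_pow, ← div_pow]
        congr 1
        field_simp
      have e3 : ((m : ℝ) - k) ^ k / (4 * (m : ℝ)) ^ k ≤ ((m - 1).choose k : ℝ) / ((4 * m - 1).choose k : ℝ) := by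
        rw [div_le_div_iff₀ (by positivity) hC']
        have h5 : ((m : ℝ) - k) ^ k ≤ ((m - 1).choose k : ℝ) * k.factorial := by
          rwa [div_le_iff₀ hkf] at h1
        have h6 : ((4 * m - 1).choose k : ℝ) * k.factorial ≤ (4 * (m : ℝ)) ^ k := by
          rwa [le_div_iff₀ hkf] at h2
        have h7 : (0 : ℝ) ≤ ((m : ℝ) - k) ^ k := by
          apply pow_nonneg
          have : (k : ℝ) ≤ m := by exact_mod_cast (by omega : k ≤ m)
          linarith
        have h8 : (0 : ℝ) ≤ ((m - 1).choose k : ℝ) := Nat.cast_nonneg _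
        have h9 : ((m : ℝ) - k) ^ k * (((4 * m - 1).choose k : ℝ) * k.factorial) ≤
            (((m - 1).choose k : ℝ) * k.factorial) * (4 * (m : ℝ)) ^ k :=
          mul_le_mul h5 h6 (by positivity) (by positivity)
        have h10 : (((m : ℝ) - k) ^ k * ((4 * m - 1).choose k : ℝ)) * k.factorial ≤
            (((m - 1).choose k : ℝ) * (4 * (m : ℝ)) ^ k) * k.factorial := by linarith
        exact le_of_mul_le_mul_right h10 hkf
      have e4 : (1 / 4 : ℝ) ^ k ≤ 1 := pow_le_one₀ (by norm_num) (by norm_num)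
      have e5 : (0 : ℝ) ≤ (k : ℝ) ^ 2 / m := by positivity
      have e6 : (k : ℝ) * ((k : ℝ) / m) = (k : ℝ) ^ 2 / m := by ring
      rw [e6] at e1
      have e7 : (1 / 4 : ℝ) ^ k * ((k : ℝ) ^ 2 / m) ≤ (k : ℝ) ^ 2 / m := by nlinarith
      nlinarith
    have h5 : ((4 * m - 2).choose (k - 1) : ℝ) / ((4 * m - 1).choose k : ℝ) = k / (4 * m - 1) := by
      have h6 := Nat.add_one_mul_choose_eq (4 * m - 2) (k - 1)
      have e1 : 4 * m - 2 + 1 = 4 * m - 1 := by omega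
      have e2 : k - 1 + 1 = k := by omega
      rw [e1, e2] at h6
      have h7 : ((4 * m - 1 : ℕ) : ℝ) * ((4 * m - 2).choose (k - 1) : ℝ) = ((4 * m - 1).choose k : ℝ) * k := by
        exact_mod_cast h6
      rw [Nat.cast_sub (by omega)] at h7
      push_cast at h7
      rw [div_eq_div_iff hC'.ne' (by linarith)]
      linarith
    have h6 : (k : ℝ) / (4 * m - 1) ≤ (k : ℝ) ^ 2 / m := by
      have hk1 : (1 : ℝ) ≤ k := by exact_mod_cast hk
      rw [div_le_div_iff₀ (by linarith) (by linarith)]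
      calc (k : ℝ) * m ≤ k * (4 * m - 1) := by
            apply mul_le_mul_of_nonneg_left _ (by linarith)
            linarith
        _ ≤ (k : ℝ) ^ 2 * (4 * m - 1) := by
            apply mul_le_mul_of_nonneg_right _ (by linarith)
            nlinarith
    have h7 : 2 * ((k : ℝ) ^ 2 / m) ≤ ε := by
      rw [div_le_iff₀ hε] at hmm0
      rw [← mul_div_assoc, div_le_iff₀ (by linarith)]
      linarith
    rw [hq, sub_div, h5]
    linarith
  · have h6 := Nat.add_one_mul_choose_eq (4 * m - 1) k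
    have e1 : 4 * m - 1 + 1 = 4 * m := by omega
    rw [e1] at h6
    have h7 : ((4 * m : ℕ) : ℝ) * ((4 * m - 1).choose k : ℝ) = ((4 * m).choose (k + 1) : ℝ) * ((k : ℝ) + 1) := by
      exact_mod_cast h6
    have h8 : ((k : ℝ) + 1) * (q * (4 * m).choose (k + 1)) = ((4 * m : ℕ) : ℝ) * (q * ((4 * m - 1).choose k : ℝ)) := by
      calc _ = q * (((4 * m).choose (k + 1) : ℝ) * ((k : ℝ) + 1)) := by ring
        _ = q * (((4 * m : ℕ) : ℝ) * ((4 * m - 1).choose k : ℝ)) := by rw [h7]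
        _ = _ := by ring
    rw [h8, hq, div_mul_cancel₀ _ hC'.ne']

open Classical in
/-- The density theorem with the constant `4 ^ (-k)`. -/
theorem dens4 (k : ℕ) (hk : 1 ≤ k) (ε : ℝ) (hε : 0 < ε) :
    ∃ m : ℕ, 1 ≤ m ∧ ∀ L : ℕ, 1 ≤ L → ∃ δ : ℝ, 0 < δ ∧ ∃ n0 : ℕ, ∀ (α : Type) (V : Finset α) (good : Finset α → Prop)
      (Bad : Finset (Fin (4 * m) × Fin L → α)), n0 ≤ V.card → (Bad.card : ℝ) ≤ δ * (V.card : ℝ) ^ (4 * m * L) →
      (∀ A : Fin (4 * m) × Fin L → α, Function.Injective A → (∀ x, A x ∈ V) → A ∉ Bad →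
        ∃ (S : Finset (Fin (4 * m))) (c : Fin (4 * m) → Fin L), m ≤ S.card ∧
          ∀ U ⊆ S.image (fun i => A (i, c i)), U.card = k + 1 → good U) →
      ((1 / 4 : ℝ) ^ k - ε) * (V.card.choose (k + 1)) ≤ ((V.powersetCard (k + 1)).filter good).card := by
  obtain ⟨m, hm1, hkm, q, hq1, hqe, hq⟩ := qlim k hk (ε / 2) (by positivity)
  refine ⟨m, hm1, fun L hL => ?_⟩
  obtain ⟨δ, hδ, n0, h⟩ := dens k (4 * m) m L hk hm1 hkm hL q (ε / 2) hq1 (by positivity) hq
  refine ⟨δ, hδ, n0, fun α V good Bad hV hBad hP => ?_⟩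
  refine le_trans ?_ (h α V good Bad hV hBad hP)
  apply mul_le_mul_of_nonneg_right _ (Nat.cast_nonneg _)
  linarith

end Pool.Agent.H362R2.CM
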