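import Mathlib

/-! A tree of classes of shifts: if more than `(k-1)^r` of the `k^r` classes are hit, then some node
has all its children hit. -/

namespace Pool.Agent.H362R2.CM

open Finset

/-- `H` lies in, and meets, all the intervals `[μ + Λ f, μ + Λ f + Λ]`, `f ∈ F` -/
def IntShape (H F : Finset ℕ) (Λ μ : ℕ) : Prop :=
  (∀ h ∈ H, ∃ f ∈ F, μ + Λ * f ≤ h ∧ h ≤ μ + Λ * f + Λ) ∧
  (∀ f ∈ F, ∃ h ∈ H, μ + Λ * f ≤ h ∧ h ≤ μ + Λ * f + Λ)

open Classical in
theorem tree (F : Finset ℕ) (K U : ℕ) (hU : 1 ≤ U) :
    ∀ r : ℕ, ∃ (ι : Type) (_ : Fintype ι) (C : ι → Fin K → ℕ), Fintype.card ι = F.card ^ r ∧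
      Function.Injective (fun x : ι × Fin K => C x.1 x.2) ∧ (∀ g i, U ∣ C g i) ∧
      ∀ P : Finset ℕ, (∀ t ∈ P, ∃ g i, C g i = t) →
        (F.card - 1) ^ r < (univ.filter (fun g => ∃ i, C g i ∈ P)).card →
        ∃ a ∈ P, ∃ b ∈ P, ∃ Λ μ : ℕ, 0 < Λ ∧
          IntShape (P.filter (fun t => a ≤ t ∧ t ≤ b)) F Λ μ := by
  intro r
  induction r with
  | zero =>
    refine ⟨Unit, inferInstance, fun _ i => U * i, by simp, ?_, ?_, ?_⟩
    · rintro ⟨g, i⟩ ⟨g', i'⟩ h
      simp only at h
      have h1 : (i : ℕ) = i' := Nat.eq_of_mul_eq_mul_left (by omega) h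
      have h2 : i = i' := Fin.ext h1
      rw [h2]
    · intro g i
      exact Dvd.intro _ rfl
    · intro P _ hcard
      exfalso
      have h1 : (univ.filter (fun g : Unit => ∃ i : Fin K, U * (i : ℕ) ∈ P)).card ≤ 1 := by
        have := Finset.card_filter_le (univ : Finset Unit) (fun g => ∃ i : Fin K, U * (i : ℕ) ∈ P)
        simpa using this
      simp only [pow_zero] at hcard
      omega
  | succ r ih =>
    obtain ⟨ι, hι, C, hcard, hinj, hdvd, hprop⟩ := ih
    -- a bound for the shifts
    obtain ⟨D, hD⟩ : ∃ D : ℕ, ∀ g i, C g i ≤ D := by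
      refine ⟨(univ : Finset (ι × Fin K)).sup (fun x => C x.1 x.2), fun g i => ?_⟩
      exact Finset.le_sup (f := fun x : ι × Fin K => C x.1 x.2) (mem_univ (g, i))
    set Λ : ℕ := U * (D + 1) with hΛ
    have hΛD : D < Λ := by
      rw [hΛ]; nlinarith
    have hdiv : ∀ f g i, (f * Λ + C g i) / Λ = f := by
      intro f g i
      have h1 := hD g i
      rw [Nat.add_comm, Nat.add_mul_div_right _ _ (by omega), Nat.div_eq_of_lt (by omega), zero_add]
    refine ⟨{f // f ∈ F} × ι, inferInstance, fun x i => x.1.1 * Λ + C x.2 i, ?_, ?_, ?_, ?_⟩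
    · rw [Fintype.card_prod, Fintype.card_coe, hcard, pow_succ, mul_comm]
    · rintro ⟨⟨f, g⟩, i⟩ ⟨⟨f', g'⟩, i'⟩ h
      simp only at h
      have h1 : f.1 = f'.1 := by
        rw [← hdiv f.1 g i, ← hdiv f'.1 g' i', h]
      have h2 : C g i = C g' i' := by
        rw [h1] at h; omega
      have h3 := hinj (a₁ := (g, i)) (a₂ := (g', i')) h2
      have h4 : f = f' := Subtype.ext h1
      simp only [Prod.mk.injEq] at h3
      rw [h4, h3.1, h3.2]
    · rintro ⟨f, g⟩ i
      exact dvd_add (Dvd.dvd.mul_left (Dvd.intro _ rfl) _) (hdvd g i)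
    · intro P hP hhit
      set hits : {f // f ∈ F} → Finset ι := fun f =>
        univ.filter (fun g => ∃ i, f.1 * Λ + C g i ∈ P) with hhits
      have hsum : (univ.filter (fun x : {f // f ∈ F} × ι => ∃ i, x.1.1 * Λ + C x.2 i ∈ P)).card =
          ∑ f, (hits f).card := by
        rw [Finset.card_filter, Fintype.sum_prod_type]
        apply Finset.sum_congr rfl
        intro f _
        rw [hhits, Finset.card_filter]
      by_cases hA : ∃ f : {f // f ∈ F}, (F.card - 1) ^ r < (hits f).card
      · -- go down
        obtain ⟨f, hf⟩ := hA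
        set Pf : Finset ℕ := (P.filter (fun t => t / Λ = f.1)).image (fun t => t - f.1 * Λ) with hPf
        have hmemPf : ∀ t, t ∈ Pf ↔ t + f.1 * Λ ∈ P ∧ t < Λ := by
          intro t
          rw [hPf, mem_image]
          constructor
          · rintro ⟨u, hu, rfl⟩
            rw [mem_filter] at hu
            have h1 : f.1 * Λ ≤ u := by rw [← hu.2]; exact Nat.div_mul_le_self u Λ
            have h2 : u < (f.1 + 1) * Λ := by
              rw [← hu.2]; exact Nat.lt_mul_of_div_lt (Nat.lt_succ_self _) (by omega)
            rw [Nat.sub_add_cancel h1]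
            refine ⟨hu.1, ?_⟩
            rw [Nat.add_mul, one_mul] at h2
            omega
          · rintro ⟨h1, h2⟩
            refine ⟨t + f.1 * Λ, ?_, by omega⟩
            rw [mem_filter]
            refine ⟨h1, ?_⟩
            rw [Nat.add_mul_div_right _ _ (by omega), Nat.div_eq_of_lt h2, zero_add]
        obtain ⟨a, ha, b, hb, Λ', μ, hΛ', hshape⟩ := hprop Pf (by
          intro t ht
          obtain ⟨h1, h2⟩ := (hmemPf t).1 ht
          obtain ⟨⟨f', g⟩, i, h3⟩ := hP _ h1
          simp only at h3
          refine ⟨g, i, ?_⟩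
          have h4 : f'.1 = f.1 := by
            rw [← hdiv f'.1 g i, h3, Nat.add_mul_div_right _ _ (by omega), Nat.div_eq_of_lt h2,
              zero_add]
          rw [h4] at h3; omega) (by
          refine lt_of_lt_of_le hf (card_le_card ?_)
          intro g hg
          rw [hhits, mem_filter] at hg
          rw [mem_filter]
          obtain ⟨i, hi⟩ := hg.2
          refine ⟨mem_univ _, i, (hmemPf _).2 ⟨by rw [add_comm]; exact hi, ?_⟩⟩
          exact lt_of_le_of_lt (hD g i) hΛD)
        refine ⟨a + f.1 * Λ, ((hmemPf a).1 ha).1, b + f.1 * Λ, ((hmemPf b).1 hb).1, Λ',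
          μ + f.1 * Λ, hΛ', ?_⟩
        have hbΛ := ((hmemPf b).1 hb).2
        constructor
        · intro h hh
          rw [mem_filter] at hh
          have h1 : h - f.1 * Λ ∈ Pf.filter (fun t => a ≤ t ∧ t ≤ b) := by
            rw [mem_filter, hmemPf]
            refine ⟨⟨?_, by omega⟩, by omega, by omega⟩
            rw [Nat.sub_add_cancel (by omega)]; exact hh.1
          obtain ⟨f', hf', h2, h3⟩ := hshape.1 _ h1
          exact ⟨f', hf', by omega, by omega⟩
        · intro f' hf'
          obtain ⟨h, hh, h2, h3⟩ := hshape.2 f' hf'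
          rw [mem_filter, hmemPf] at hh
          refine ⟨h + f.1 * Λ, ?_, by omega, by omega⟩
          rw [mem_filter]
          exact ⟨hh.1.1, by omega, by omega⟩
      · -- all children are hit
        push Not at hA
        have hall : ∀ f : {f // f ∈ F}, 0 < (hits f).card := by
          by_contra hcon
          push Not at hcon
          obtain ⟨f0, hf0⟩ := hcon
          have h1 : ∑ f, (hits f).card ≤ (F.card - 1) ^ (r + 1) := by
            rw [← Finset.add_sum_erase _ _ (mem_univ f0)]
            have h2 : ∑ f ∈ univ.erase f0, (hits f).card ≤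
                (univ.erase f0 : Finset {f // f ∈ F}).card * (F.card - 1) ^ r := by
              rw [← smul_eq_mul]
              exact Finset.sum_le_card_nsmul _ _ _ (fun f _ => hA f)
            rw [Finset.card_erase_of_mem (mem_univ f0), card_univ, Fintype.card_coe] at h2
            rw [pow_succ, mul_comm]
            omega
          rw [hsum] at hhit
          omega
        have hne : P.Nonempty := by
          by_contra hcon
          rw [Finset.not_nonempty_iff_eq_empty] at hcon
          rw [hcon] at hhit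
          simp at hhit
        have hfilt : P.filter (fun t => P.min' hne ≤ t ∧ t ≤ P.max' hne) = P := by
          apply Finset.filter_true_of_mem
          intro t ht
          exact ⟨Finset.min'_le _ _ ht, Finset.le_max' _ _ ht⟩
        refine ⟨P.min' hne, Finset.min'_mem _ _, P.max' hne, Finset.max'_mem _ _, Λ, 0,
          by omega, ?_⟩
        rw [hfilt]
        constructor
        · intro h hh
          obtain ⟨⟨f, g⟩, i, hfg⟩ := hP h hh
          simp only at hfg
          have h1 := hD g i
          have h2 : Λ * f.1 = f.1 * Λ := mul_comm _ _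
          exact ⟨f.1, f.2, by omega, by omega⟩
        · intro f hf
          have h1 := hall ⟨f, hf⟩
          obtain ⟨g, hg⟩ := Finset.card_pos.1 h1
          rw [hhits, mem_filter] at hg
          obtain ⟨i, hi⟩ := hg.2
          simp only at hi
          have h2 := hD g i
          have h3 : Λ * f = f * Λ := mul_comm _ _
          exact ⟨_, hi, by omega, by omega⟩

end Pool.Agent.H362R2.CM
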