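import Mathlib
import Pool.Agent.H362R2.CM.Final

/-! The coloured theorem for translates with control of all other integers of the window. -/

namespace Pool.Agent.H362R2.CM

open Finset Pool.Agent.H361R2

/-- a modulus and a residue class killing the elements of `E` and keeping those of `H` -/
theorem exists_killer (M : ℕ) (H : Finset ℕ) (hH : ∀ h ∈ H, h ≤ M) :
    ∃ W b : ℕ, 0 < W ∧ (∀ t ≤ M, t ∉ H → ∃ p : ℕ, p.Prime ∧ p ∣ W ∧ p ∣ b + t) ∧
      (∀ p : ℕ, p.Prime → p ∣ W → ∀ h ∈ H, ¬ p ∣ b + h) := by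
  classical
  set E : Finset ℕ := (range (M + 1)).filter (fun t => t ∉ H) with hE
  set q : ℕ → ℕ := fun t => Nat.nth Nat.Prime (M + 1 + t) with hq
  have hqp : ∀ t, (q t).Prime := fun t => Nat.prime_nth_prime _
  have hqM : ∀ t, M < q t := by
    intro t
    have : M + 1 + t ≤ q t := (Nat.nth_strictMono Nat.infinite_setOf_prime).id_le _
    omega
  have hqinj : Function.Injective q := by
    intro s t hst
    have := (Nat.nth_injective Nat.infinite_setOf_prime) hst
    omega
  have hpair : Set.Pairwise (E : Set ℕ) (Function.onFun Nat.Coprime q) := by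
    intro s _ t _ hst
    exact (Nat.coprime_primes (hqp s) (hqp t)).2 (fun h => hst (hqinj h))
  obtain ⟨b, hb⟩ := Nat.chineseRemainderOfFinset (fun t => q t - t) q E
    (fun t _ => (hqp t).ne_zero) hpair
  have hbt : ∀ t ∈ E, q t ∣ b + t := by
    intro t ht
    have htM : t ≤ M := by
      have := mem_range.1 (mem_filter.1 ht).1; omega
    have h1 : b ≡ q t - t [MOD q t] := hb t ht
    have h2 : b + t ≡ (q t - t) + t [MOD q t] := Nat.ModEq.add_right t h1
    have h3 : (q t - t) + t = q t := Nat.sub_add_cancel (by have := hqM t; omega)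
    rw [h3] at h2
    exact (Nat.modEq_zero_iff_dvd.1 (h2.trans (Nat.modEq_zero_iff_dvd.2 dvd_rfl)))
  refine ⟨∏ t ∈ E, q t, b, Finset.prod_pos (fun t _ => (hqp t).pos), ?_, ?_⟩
  · intro t ht htH
    have htE : t ∈ E := by
      rw [hE, mem_filter, mem_range]; exact ⟨by omega, htH⟩
    exact ⟨q t, hqp t, Finset.dvd_prod_of_mem _ htE, hbt t htE⟩
  · intro p hp hpW h hh hdvd
    obtain ⟨t, ht, hpt⟩ := (hp.prime.dvd_finset_prod_iff _).1 hpW
    have hpq : p = q t := (Nat.prime_dvd_prime_iff_eq hp (hqp t)).1 hpt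
    have htH : t ∉ H := (mem_filter.1 ht).2
    have htM : t ≤ M := by
      have := mem_range.1 (mem_filter.1 ht).1; omega
    have hhM := hH h hh
    have hne : h ≠ t := fun he => htH (he ▸ hh)
    have h1 := hbt t ht
    rw [hpq] at hdvd
    have hqt := hqM t
    rcases lt_or_gt_of_ne hne with hlt | hlt
    · have h2 : q t ∣ (b + t) - (b + h) := Nat.dvd_sub h1 hdvd
      have h3 := Nat.le_of_dvd (by omega) h2
      omega
    · have h2 : q t ∣ (b + h) - (b + t) := Nat.dvd_sub hdvd h1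
      have h3 := Nat.le_of_dvd (by omega) h2
      omega

/-- **coloured theorem in a window**: among `T` classes of `K` shifts, jointly admissible, at least
`T/4` contain an element of the exact set `P` of prime positions of a window `n + [0, M]`, for
infinitely many `n` -/
theorem quarter_window (T : ℕ) : ∃ K : ℕ, 1 ≤ K ∧ ∀ (C : Fin T → Fin K → ℕ),
    Function.Injective (fun x : Fin T × Fin K => C x.1 x.2) →
    (∀ p : ℕ, p.Prime → ∃ n : ℤ, ∀ g i, ¬ ((p : ℤ) ∣ n + C g i)) →
    ∀ M : ℕ, (∀ g i, C g i ≤ M) → ∃ P : Finset ℕ, (∀ t ∈ P, ∃ g i, C g i = t) ∧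
      (∃ S : Finset (Fin T), T ≤ 4 * S.card ∧ ∀ g ∈ S, ∃ i, C g i ∈ P) ∧
      {n : ℕ | ∀ t ≤ M, (n + t).Prime ↔ t ∈ P}.Infinite := by
  classical
  obtain ⟨K, hK, hq⟩ := quarter T
  refine ⟨K, hK, ?_⟩
  intro C hinj hadm M hM
  set H : Finset ℕ := univ.image (fun x : Fin T × Fin K => C x.1 x.2) with hH
  have hHmem : ∀ t, t ∈ H ↔ ∃ g i, C g i = t := by
    intro t
    rw [hH, mem_image]
    constructor
    · rintro ⟨⟨g, i⟩, _, h⟩; exact ⟨g, i, h⟩
    · rintro ⟨g, i, h⟩; exact ⟨(g, i), mem_univ _, h⟩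
  obtain ⟨W, b, hW, hkill, hkeep⟩ := exists_killer M H (by
    intro h hh
    obtain ⟨g, i, rfl⟩ := (hHmem h).1 hh
    exact hM g i)
  obtain ⟨S, c, hS1, hS2⟩ := hq (fun _ _ => (W : ℤ)) (fun g i => ((b + C g i : ℕ) : ℤ))
    (fun _ _ => by exact_mod_cast hW)
    (by
      rintro x y hxy
      simp only [Prod.mk.injEq, true_and] at hxy
      have h1 : b + C x.1 x.2 = b + C y.1 y.2 := by exact_mod_cast hxy
      exact hinj (by simp only; omega))
    (by
      intro p hp
      by_cases hpW : p ∣ W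
      · refine ⟨0, fun g i h => ?_⟩
        rw [mul_zero, zero_add] at h
        exact hkeep p hp hpW _ ((hHmem _).2 ⟨g, i, rfl⟩) (Int.natCast_dvd_natCast.1 h)
      · obtain ⟨n, hn⟩ := hadm p hp
        have hcop : IsCoprime (W : ℤ) (p : ℤ) := by
          rw [Nat.isCoprime_iff_coprime]
          exact ((Nat.Prime.coprime_iff_not_dvd hp).2 hpW).symm
        obtain ⟨u, v, huv⟩ := hcop
        refine ⟨u * (n - b), fun g i h => hn g i ?_⟩
        have h1 : (W : ℤ) * (u * (n - b)) + ((b + C g i : ℕ) : ℤ) = (n + C g i) -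
            (p : ℤ) * (v * (n - b)) := by
          push_cast
          have : u * (W : ℤ) = 1 - v * p := by linarith
          calc (W : ℤ) * (u * (n - b)) + (b + C g i) = (u * W) * (n - b) + (b + C g i) := by ring
            _ = (1 - v * p) * (n - b) + (b + C g i) := by rw [this]
            _ = _ := by ring
        rw [h1] at h
        have h2 := dvd_add h (Dvd.intro (v * (n - b)) rfl : (p : ℤ) ∣ (p : ℤ) * (v * (n - b)))
        rwa [sub_add_cancel] at h2)
  -- exact prime sets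
  set X : Set ℕ := {m : ℕ | ∀ g ∈ S, 0 < (W : ℤ) * (m : ℤ) + ((b + C g (c g) : ℕ) : ℤ) ∧
    Prime ((W : ℤ) * (m : ℤ) + ((b + C g (c g) : ℕ) : ℤ))} with hX
  have hXinf : X.Infinite := hS2
  set Pf : ℕ → Finset ℕ := fun m => H.filter (fun t => (W * m + b + t).Prime) with hPf
  have hX2 : (X ∩ {m | 2 ≤ m}).Infinite := by
    have hfin : ({m : ℕ | 2 ≤ m}ᶜ : Set ℕ).Finite := by
      apply (Set.finite_lt_nat 2).subset
      intro m hm
      simp only [Set.mem_compl_iff, Set.mem_ofPred_eq, not_le] at hm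
      exact hm
    have := hXinf.diff hfin
    rwa [Set.diff_compl] at this
  have hcover : X ∩ {m | 2 ≤ m} ⊆ ⋃ P ∈ (H.powerset : Set (Finset ℕ)),
      {m | (m ∈ X ∧ 2 ≤ m) ∧ Pf m = P} := by
    intro m hm
    rw [Set.mem_iUnion₂]
    exact ⟨Pf m, mem_coe.2 (mem_powerset.2 (Finset.filter_subset _ _)), hm, rfl⟩
  obtain ⟨P, hPinf⟩ : ∃ P : Finset ℕ, {m | (m ∈ X ∧ 2 ≤ m) ∧ Pf m = P}.Infinite := by
    by_contra hcon
    push Not at hcon
    apply hX2
    apply Set.Finite.subset _ hcover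
    exact Set.Finite.biUnion (Finset.finite_toSet _) (fun P _ => hcon P)
  obtain ⟨m0, hm0⟩ := hPinf.nonempty
  have hprime : ∀ m ∈ X, ∀ g ∈ S, (W * m + b + C g (c g)).Prime := by
    intro m hm g hg
    have h1 := (hm g hg).2
    rw [Nat.prime_iff_prime_int]
    have h2 : ((W * m + b + C g (c g) : ℕ) : ℤ) = (W : ℤ) * (m : ℤ) + ((b + C g (c g) : ℕ) : ℤ) := by
      push_cast; ring
    rw [h2]; exact h1
  refine ⟨P, ?_, ⟨S, hS1, ?_⟩, ?_⟩
  · intro t ht
    rw [← hm0.2] at ht
    exact (hHmem t).1 (mem_filter.1 ht).1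
  · intro g hg
    refine ⟨c g, ?_⟩
    rw [← hm0.2, hPf, mem_filter]
    exact ⟨(hHmem _).2 ⟨g, c g, rfl⟩, hprime m0 hm0.1.1 g hg⟩
  · have hinj' : Set.InjOn (fun m : ℕ => W * m + b) {m | (m ∈ X ∧ 2 ≤ m) ∧ Pf m = P} := by
      intro m _ m' _ h
      simp only at h
      have h1 : W * m = W * m' := by omega
      exact Nat.eq_of_mul_eq_mul_left hW h1
    refine (hPinf.image hinj').mono ?_
    rintro _ ⟨m, ⟨⟨hmX, hm2⟩, hmP⟩, rfl⟩
    intro t ht
    by_cases htH : t ∈ H
    · rw [← hmP, hPf, mem_filter]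
      exact ⟨fun h => ⟨htH, h⟩, fun h => h.2⟩
    · constructor
      · intro hpr
        exfalso
        obtain ⟨p, hp, hpW, hpt⟩ := hkill t ht htH
        have h1 : p ∣ W * m + b + t := by
          rw [add_assoc]
          exact dvd_add (Dvd.dvd.mul_right hpW m) hpt
        have h2 : p = W * m + b + t := (Nat.prime_dvd_prime_iff_eq hp hpr).1 h1
        have h3 : p ≤ W := Nat.le_of_dvd hW hpW
        have h4 : W * 2 ≤ W * m := Nat.mul_le_mul_left W hm2
        omega
      · intro htP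
        exfalso
        rw [← hmP] at htP
        exact htH (mem_filter.1 htP).1

end Pool.Agent.H362R2.CM
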