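import Mathlib
import Pool.Agent.H362R2.CM.Tree
import Pool.Agent.H362R2.CM.Window

/-! Every finite set of reals is, up to a homothety and an arbitrarily small relative error, the set
of all primes of an interval, infinitely often. -/

namespace Pool.Agent.H362R2.CM

open Finset Pool.Agent.H361R2

theorem exists_pow_four (k : ℕ) (hk : 1 ≤ k) : ∃ r : ℕ, 4 * (k - 1) ^ r < k ^ r := by
  have hk' : (0 : ℝ) < k := by exact_mod_cast hk
  have h1 : ((k : ℝ) - 1) / k < 1 := by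
    rw [div_lt_one hk']; linarith
  have h0 : 0 ≤ ((k : ℝ) - 1) / k := by
    have : (1 : ℝ) ≤ k := by exact_mod_cast hk
    apply div_nonneg <;> linarith
  obtain ⟨r, hr⟩ := exists_pow_lt_of_lt_one (show (0 : ℝ) < 1 / 4 by norm_num) h1
  refine ⟨r, ?_⟩
  rw [div_pow, div_lt_iff₀ (by positivity)] at hr
  have h2 : 4 * ((k : ℝ) - 1) ^ r < (k : ℝ) ^ r := by linarith
  have h3 : ((k - 1 : ℕ) : ℝ) = (k : ℝ) - 1 := by
    rw [Nat.cast_sub hk]; simp
  rw [← h3] at h2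
  exact_mod_cast h2

/-- shapes given by sets of natural numbers -/
theorem int_shapes (F : Finset ℕ) (hF : F.Nonempty) : ∃ (H : Finset ℕ) (Λ μ : ℕ), 0 < Λ ∧
    IntShape H F Λ μ ∧ {n : ℕ | ∀ t, (∃ a ∈ H, a ≤ t) → (∃ b ∈ H, t ≤ b) →
      ((n + t).Prime ↔ t ∈ H)}.Infinite := by
  classical
  have hF1 : 1 ≤ F.card := hF.card_pos
  obtain ⟨r, hr⟩ := exists_pow_four F.card hF1
  set T : ℕ := F.card ^ r with hT
  obtain ⟨K, hK, hw⟩ := quarter_window T
  obtain ⟨ι, hι, C, hcard, hinj, hdvd, hprop⟩ := tree F K (T * K).factorial (Nat.factorial_pos _) r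
  set e : ι ≃ Fin T := Fintype.equivFinOfCardEq hcard with he
  obtain ⟨M, hM⟩ : ∃ M : ℕ, ∀ g i, C (e.symm g) i ≤ M := by
    refine ⟨(univ : Finset (Fin T × Fin K)).sup (fun x => C (e.symm x.1) x.2), fun g i => ?_⟩
    exact Finset.le_sup (f := fun x : Fin T × Fin K => C (e.symm x.1) x.2) (mem_univ (g, i))
  obtain ⟨P, hP1, ⟨S, hS1, hS2⟩, hP3⟩ := hw (fun g i => C (e.symm g) i) (by
    rintro ⟨g, i⟩ ⟨g', i'⟩ h
    have h1 := hinj (a₁ := (e.symm g, i)) (a₂ := (e.symm g', i')) h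
    simp only [Prod.mk.injEq] at h1
    rw [e.symm.injective h1.1, h1.2]) (by
    intro p hp
    by_cases hpk : p ≤ T * K
    · refine ⟨1, fun g i h => ?_⟩
      have h1 : (p : ℤ) ∣ ((C (e.symm g) i : ℕ) : ℤ) :=
        Int.natCast_dvd_natCast.2 (((hp.dvd_factorial).2 hpk).trans (hdvd _ _))
      have h2 : (p : ℤ) ∣ 1 := (dvd_add_left h1).1 h
      exact (Nat.prime_iff_prime_int.1 hp).not_isUnit (isUnit_of_dvd_one h2)
    · push Not at hpk
      obtain ⟨n, hn⟩ := exists_avoid' (m := T * K) hp hpk (fun _ => 1)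
        (fun y => (C (e.symm (finProdFinEquiv.symm y).1) (finProdFinEquiv.symm y).2 : ℤ)) (by
          rintro y ⟨h1, _⟩
          exact (Nat.prime_iff_prime_int.1 hp).not_isUnit (isUnit_of_dvd_one h1))
      refine ⟨n, fun g i h => ?_⟩
      have h1 := hn (finProdFinEquiv (g, i))
      simp only [Equiv.symm_apply_apply, one_mul] at h1
      exact h1 h) M hM
  have hhits : (F.card - 1) ^ r < (univ.filter (fun g : ι => ∃ i, C g i ∈ P)).card := by
    have h1 : S.card ≤ (univ.filter (fun g : ι => ∃ i, C g i ∈ P)).card := by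
      apply Finset.card_le_card_of_injOn (fun g => e.symm g)
      · intro g hg
        simp only [coe_filter, mem_univ, true_and, Set.mem_ofPred_eq]
        exact hS2 g hg
      · intro g _ g' _ h
        exact e.symm.injective h
    omega
  obtain ⟨a, ha, b, hb, Λ, μ, hΛ, hshape⟩ := hprop P (by
    intro t ht
    obtain ⟨g, i, h⟩ := hP1 t ht
    exact ⟨e.symm g, i, h⟩) hhits
  refine ⟨P.filter (fun t => a ≤ t ∧ t ≤ b), Λ, μ, hΛ, hshape, hP3.mono ?_⟩
  intro n hn t hta htb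
  obtain ⟨a', ha', hat⟩ := hta
  obtain ⟨b', hb', htb⟩ := htb
  rw [mem_filter] at ha' hb'
  have hbM : b ≤ M := by
    obtain ⟨g, i, h⟩ := hP1 b hb
    rw [← h]; exact hM g i
  rw [hn t (by omega), mem_filter]
  constructor
  · intro h; exact ⟨h, by omega, by omega⟩
  · intro h; exact h.1

/-- **universality of the shapes of prime constellations** -/
theorem dense_shapes (k : ℕ) (hk : 1 ≤ k) (x : Fin k → ℝ) (δ : ℝ) (hδ : 0 < δ) :
    ∃ (H : Finset ℕ) (lam mu : ℝ), 0 < lam ∧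
      (∀ h ∈ H, ∃ j, |(h : ℝ) - (lam * x j + mu)| ≤ δ * lam) ∧
      (∀ j, ∃ h ∈ H, |(h : ℝ) - (lam * x j + mu)| ≤ δ * lam) ∧
      {n : ℕ | ∀ t, (∃ a ∈ H, a ≤ t) → (∃ b ∈ H, t ≤ b) →
        ((n + t).Prime ↔ t ∈ H)}.Infinite := by
  classical
  set X : ℝ := ∑ j, |x j| with hX
  have hXj : ∀ j, 0 ≤ x j + X := by
    intro j
    have h1 : |x j| ≤ X := Finset.single_le_sum (f := fun j => |x j|)
      (fun _ _ => abs_nonneg _) (mem_univ j)
    have h2 := neg_abs_le (x j)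
    linarith
  set m : Fin k → ℕ := fun j => ⌊(x j + X) / δ⌋₊ with hm
  have hm1 : ∀ j, δ * (m j) ≤ x j + X := by
    intro j
    have := Nat.floor_le (div_nonneg (hXj j) hδ.le)
    rw [le_div_iff₀ hδ] at this
    linarith
  have hm2 : ∀ j, x j + X ≤ δ * (m j) + δ := by
    intro j
    have := (Nat.lt_floor_add_one ((x j + X) / δ)).le
    rw [div_le_iff₀ hδ] at this
    linarith
  set F : Finset ℕ := univ.image m with hF
  have hFne : F.Nonempty := ⟨m ⟨0, hk⟩, mem_image_of_mem _ (mem_univ _)⟩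
  obtain ⟨H, Λ, μ, hΛ, ⟨hs1, hs2⟩, hinf⟩ := int_shapes F hFne
  have hΛ' : (0 : ℝ) < Λ := by exact_mod_cast hΛ
  have key : ∀ (h : ℕ) (j : Fin k), μ + Λ * m j ≤ h → h ≤ μ + Λ * m j + Λ →
      |(h : ℝ) - (Λ / δ * x j + (μ + Λ / δ * X))| ≤ δ * (Λ / δ) := by
    intro h j h1 h2
    have h1' : (μ : ℝ) + Λ * m j ≤ h := by exact_mod_cast h1
    have h2' : (h : ℝ) ≤ μ + Λ * m j + Λ := by exact_mod_cast h2
    have e1 : δ * (Λ / δ) = Λ := by field_simp
    have e2 : Λ / δ * x j + (μ + Λ / δ * X) = μ + Λ / δ * (x j + X) := by ring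
    have e3 : (Λ : ℝ) * m j ≤ Λ / δ * (x j + X) := by
      have : (Λ : ℝ) * m j = Λ / δ * (δ * m j) := by field_simp
      rw [this]
      exact mul_le_mul_of_nonneg_left (hm1 j) (by positivity)
    have e4 : Λ / δ * (x j + X) ≤ (Λ : ℝ) * m j + Λ := by
      have : (Λ : ℝ) * m j + Λ = Λ / δ * (δ * m j + δ) := by field_simp
      rw [this]
      exact mul_le_mul_of_nonneg_left (hm2 j) (by positivity)
    rw [e1, e2, abs_le]
    constructor <;> linarith
  refine ⟨H, Λ / δ, μ + Λ / δ * X, by positivity, ?_, ?_, hinf⟩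
  · intro h hh
    obtain ⟨f, hf, h1, h2⟩ := hs1 h hh
    rw [hF, mem_image] at hf
    obtain ⟨j, _, rfl⟩ := hf
    exact ⟨j, key h j h1 h2⟩
  · intro j
    obtain ⟨h, hh, h1, h2⟩ := hs2 (m j) (mem_image_of_mem _ (mem_univ _))
    exact ⟨h, hh, key h j h1 h2⟩

end Pool.Agent.H362R2.CM
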